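import Pool.Agent.Work.MP_04d5a3_full.Interface

/-!
# FPPHE (MP_04d5a3_pr): block ANIM, counting connected sets
-/

namespace Pool.Agent.FPPHE.ANIM_

open SimpleGraph

variable {V : Type} {G : SimpleGraph V}

/-- set of visited vertices -/
def dec {Δ : ℕ} (e : V → Fin Δ → V) : V → List (Fin Δ) → Set V
  | v, [] => {v}
  | v, i :: L => {v} ∪ dec e (e v i) L

lemma exists_list {Δ : ℕ} (e : V → Fin Δ → V) (he : ∀ v x, G.Adj v x → ∃ i, e v i = x) :
    ∀ {v u : V} (p : G.Walk v u), ∃ L : List (Fin Δ), L.length = p.length ∧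
      dec e v L = {w | w ∈ p.support}
  | v, _, Walk.nil => ⟨[], rfl, by ext w; simp [dec]⟩
  | v, u, Walk.cons (v := x) h p => by
      obtain ⟨L, hL, hd⟩ := exists_list e he p
      obtain ⟨i, hi⟩ := he v x h
      refine ⟨i :: L, by simp [hL], ?_⟩
      ext w
      simp only [dec, hi, hd, Walk.support_cons]
      simp

lemma grow (S : Set V) (hS : S.Finite) (hc : (G.induce S).Connected) (v : V) (hv : v ∈ S) :
    ∀ k : ℕ, k + 1 ≤ S.ncard → ∃ p : G.Walk v v, p.length = 2 * k ∧
      {w | w ∈ p.support} ⊆ S ∧ {w | w ∈ p.support}.ncard = k + 1 := by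
  classical
  intro k
  induction k with
  | zero =>
    intro _
    refine ⟨Walk.nil, rfl, ?_, ?_⟩
    · intro w hw
      simp at hw
      simpa [hw] using hv
    · have : {w | w ∈ (Walk.nil : G.Walk v v).support} = {v} := by ext w; simp
      rw [this]; simp
  | succ k ih =>
    intro hk
    obtain ⟨p, hp, hsub, hcard⟩ := ih (by omega)
    set T : Set V := {w | w ∈ p.support} with hT
    have hne : ∃ w ∈ S, w ∉ T := by
      by_contra hcon
      push Not at hcon
      have : S.ncard ≤ T.ncard := Set.ncard_le_ncard hcon (hS.subset hsub)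
      omega
    obtain ⟨w, hwS, hwT⟩ := hne
    obtain ⟨q⟩ := hc.preconnected ⟨v, hv⟩ ⟨w, hwS⟩
    obtain ⟨d, hd, hd1, hd2⟩ := q.exists_boundary_dart {x : S | (x : V) ∈ T}
      (by simp [hT]) (by simpa using hwT)
    set x : V := d.fst.1 with hx
    set y : V := d.snd.1 with hy
    have hxy : G.Adj x y := by
      have := d.adj
      simpa using this
    have hxT : x ∈ p.support := hd1
    have hyT : y ∉ p.support := hd2
    refine ⟨(p.takeUntil x hxT).append (Walk.cons hxy (Walk.cons hxy.symm (p.dropUntil x hxT))),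
      ?_, ?_, ?_⟩
    · have h1 := congrArg Walk.length (p.take_spec hxT)
      simp only [Walk.length_append, Walk.length_cons] at h1 ⊢
      omega
    · intro z hz
      simp only [Set.mem_ofPred_eq, Walk.mem_support_append_iff, Walk.support_cons,
        List.mem_cons] at hz
      rcases hz with hz | hz | hz | hz
      · exact hsub (Walk.support_takeUntil_subset_support p hxT hz)
      · rw [hz]; exact hsub hxT
      · rw [hz]; exact d.snd.2
      · exact hsub (Walk.support_dropUntil_subset_support p hxT hz)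
    · have : {w | w ∈ ((p.takeUntil x hxT).append
          (Walk.cons hxy (Walk.cons hxy.symm (p.dropUntil x hxT)))).support} = insert y T := by
        ext z
        simp only [Set.mem_ofPred_eq, Walk.mem_support_append_iff, Walk.support_cons,
          List.mem_cons, Set.mem_insert_iff, hT]
        constructor
        · rintro (hz | hz | hz | hz)
          · exact Or.inr (Walk.support_takeUntil_subset_support p hxT hz)
          · rw [hz]; exact Or.inr hxT
          · exact Or.inl hz
          · exact Or.inr (Walk.support_dropUntil_subset_support p hxT hz)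
        · rintro (hz | hz)
          · exact Or.inr (Or.inr (Or.inl hz))
          · have h2 := p.take_spec hxT
            rw [← h2, Walk.mem_support_append_iff] at hz
            rcases hz with hz | hz
            · exact Or.inl hz
            · exact Or.inr (Or.inr (Or.inr hz))
      have hTf : T.Finite := hS.subset hsub
      have hyT' : y ∉ T := hyT
      rw [this, Set.ncard_insert_of_notMem hyT' hTf, hcard]

end Pool.Agent.FPPHE.ANIM_

namespace Pool.Agent.FPPHE

open SimpleGraph ANIM_

theorem anim_aux (V : Type) (G : SimpleGraph V) (Δ : ℕ) (hfin : ∀ v, (G.neighborSet v).Finite)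
    (hdeg : ∀ v, (G.neighborSet v).ncard ≤ Δ) (hΔ : 1 ≤ Δ) (v : V) (n : ℕ) :
      {S : Set V | S.Finite ∧ (G.induce S).Connected ∧ v ∈ S ∧ S.ncard = n}.Finite ∧
      {S : Set V | S.Finite ∧ (G.induce S).Connected ∧ v ∈ S ∧ S.ncard = n}.ncard ≤
        Δ ^ (2 * n) := by
  classical
  have he : ∃ e : V → Fin Δ → V, ∀ v x, G.Adj v x → ∃ i, e v i = x := by
    have : ∀ v, ∃ f : Fin Δ → V, ∀ x, G.Adj v x → ∃ i, f i = x := by
      intro v
      have : Fintype (G.neighborSet v) := (hfin v).fintype
      have hc : Fintype.card (G.neighborSet v) ≤ Fintype.card (Fin Δ) := by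
        rw [Fintype.card_fin, ← Nat.card_eq_fintype_card, Nat.card_coe_set_eq]
        exact hdeg v
      obtain ⟨g⟩ := Function.Embedding.nonempty_of_card_le hc
      refine ⟨fun i => if h : ∃ x : G.neighborSet v, g x = i then (h.choose : V) else v, ?_⟩
      intro x hx
      refine ⟨g ⟨x, hx⟩, ?_⟩
      have h : ∃ x' : G.neighborSet v, g x' = g ⟨x, hx⟩ := ⟨_, rfl⟩
      simp only [h, dif_pos]
      have := g.injective h.choose_spec
      rw [this]
    choose e he using this
    exact ⟨e, he⟩
  obtain ⟨e, he⟩ := he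
  set F : Set (Set V) :=
    {S : Set V | S.Finite ∧ (G.induce S).Connected ∧ v ∈ S ∧ S.ncard = n} with hF
  set Φ : (Fin (2 * (n - 1)) → Fin Δ) → Set V := fun f => dec e v (List.ofFn f) with hΦ
  have hsub : F ⊆ Φ '' Set.univ := by
    rintro S ⟨hS, hc, hv, hn⟩
    have hpos : 0 < S.ncard := (Set.ncard_pos hS).mpr ⟨v, hv⟩
    obtain ⟨p, hp, hpS, hpc⟩ := grow S hS hc v hv (n - 1) (by omega)
    obtain ⟨L, hL, hd⟩ := exists_list e he p
    have heq : {w | w ∈ p.support} = S :=
      Set.eq_of_subset_of_ncard_le hpS (by omega) hS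
    have hlen : L.length = 2 * (n - 1) := by rw [hL, hp]
    refine ⟨fun i => L.get (i.cast hlen.symm), Set.mem_univ _, ?_⟩
    rw [hΦ]
    show dec e v (List.ofFn fun i => L.get (i.cast hlen.symm)) = S
    have : (List.ofFn fun i => L.get (i.cast hlen.symm)) = L := by
      apply List.ext_getElem
      · simp [hlen]
      · intro i h1 h2
        simp
    rw [this, hd, heq]
  have hfinU : (Φ '' Set.univ).Finite := Set.finite_univ.image _
  refine ⟨hfinU.subset hsub, ?_⟩
  calc F.ncard ≤ (Φ '' Set.univ).ncard := Set.ncard_le_ncard hsub hfinU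
    _ ≤ (Set.univ : Set (Fin (2 * (n - 1)) → Fin Δ)).ncard := Set.ncard_image_le Set.finite_univ
    _ = Δ ^ (2 * (n - 1)) := by
      rw [Set.ncard_univ, Nat.card_eq_fintype_card]
      simp
    _ ≤ Δ ^ (2 * n) := Nat.pow_le_pow_right hΔ (by omega)

theorem stmt_ANIM : Stmt_ANIM := fun V G Δ hΔ hfin hdeg v n =>
  anim_aux V G Δ hfin hdeg hΔ v n

end Pool.Agent.FPPHE
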