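import Pool.Agent.Work.MP_04d5a3_full.Interface

/-!
# FPPHE (MP_04d5a3_pr): block BADP, probability that all vertices of a finite set are bad
-/

namespace Pool.Agent.FPPHE.BADP_

open MeasureTheory ProbabilityTheory
open scoped ENNReal

variable {V : Type}

lemma seedLaw_prob {μ : ℝ} (h0 : 0 ≤ μ) (h1 : μ ≤ 1) : IsProbabilityMeasure (seedLaw μ) := by
  constructor
  simp only [seedLaw, Measure.coe_add, Measure.coe_smul, Pi.add_apply, Pi.smul_apply,
    measure_univ, smul_eq_mul, mul_one]
  rw [← ENNReal.ofReal_add h0 (by linarith)]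
  norm_num

lemma law_prob {μ lam : ℝ} (h0 : 0 ≤ μ) (h1 : μ ≤ 1) (hl : 0 < lam) :
    IsProbabilityMeasure (law V μ lam) := by
  have i1 := seedLaw_prob h0 h1
  have i2 : IsProbabilityMeasure (expMeasure 1) := isProbabilityMeasure_expMeasure one_pos
  have i3 : IsProbabilityMeasure (expMeasure lam) := isProbabilityMeasure_expMeasure hl
  unfold law
  infer_instance

/-- measure of boxes -/
lemma law_box {μ lam : ℝ} (h0 : 0 ≤ μ) (h1 : μ ≤ 1) (hl : 0 < lam) (a : Finset V)
    (b c : Finset (Sym2 V)) (As : V → Set Bool) (Bs Cs : Sym2 V → Set ℝ)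
    (hB : ∀ e, MeasurableSet (Bs e)) (hC : ∀ e, MeasurableSet (Cs e)) :
    law V μ lam {ω | (∀ v ∈ a, ω.1 v ∈ As v) ∧ (∀ e ∈ b, ω.2.1 e ∈ Bs e) ∧
        (∀ e ∈ c, ω.2.2 e ∈ Cs e)} =
      (∏ v ∈ a, seedLaw μ (As v)) *
        ((∏ e ∈ b, expMeasure 1 (Bs e)) * ∏ e ∈ c, expMeasure lam (Cs e)) := by
  have i1 := seedLaw_prob h0 h1
  have i2 : IsProbabilityMeasure (expMeasure 1) := isProbabilityMeasure_expMeasure one_pos
  have i3 : IsProbabilityMeasure (expMeasure lam) := isProbabilityMeasure_expMeasure hl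
  have heq : {ω : Env V | (∀ v ∈ a, ω.1 v ∈ As v) ∧ (∀ e ∈ b, ω.2.1 e ∈ Bs e) ∧
        (∀ e ∈ c, ω.2.2 e ∈ Cs e)} =
      (Set.pi (a : Set V) As) ×ˢ ((Set.pi (b : Set (Sym2 V)) Bs) ×ˢ
        (Set.pi (c : Set (Sym2 V)) Cs)) := by
    ext ω
    simp only [Set.mem_ofPred_eq, Set.mem_prod, Set.mem_pi, Finset.mem_coe]
  rw [heq, law, Measure.prod_prod, Measure.prod_prod]
  rw [Measure.infinitePi_pi (fun _ : V => seedLaw μ) (s := a) (t := As)
      (fun i _ => MeasurableSet.of_discrete),
    Measure.infinitePi_pi (fun _ : Sym2 V => expMeasure 1) (s := b) (t := Bs)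
      (fun i _ => hB i),
    Measure.infinitePi_pi (fun _ : Sym2 V => expMeasure lam) (s := c) (t := Cs)
      (fun i _ => hC i)]

/-- the box events used -/
def box (A B : ℝ) (a : Finset V) (b c : Finset (Sym2 V)) : Set (Env V) :=
  {ω | (∀ v ∈ a, ω.1 v = true) ∧ (∀ e ∈ b, A < ω.2.1 e) ∧ (∀ e ∈ c, ω.2.2 e < B)}

/-- all vertices of `T` are bad -/
def allBad (G : SimpleGraph V) (A B : ℝ) (T : Finset V) : Set (Env V) :=
  {ω | ∀ v ∈ T, v ∈ badSet G ω A B}

lemma law_box' {μ lam : ℝ} (h0 : 0 ≤ μ) (h1 : μ ≤ 1) (hl : 0 < lam) (A B : ℝ) (a : Finset V)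
    (b c : Finset (Sym2 V)) :
    law V μ lam (box A B a b c) = ENNReal.ofReal μ ^ a.card *
      ((expMeasure 1 (Set.Ioi A)) ^ b.card * (expMeasure lam (Set.Iio B)) ^ c.card) := by
  have h := law_box (V := V) h0 h1 hl a b c (fun _ => {true}) (fun _ => Set.Ioi A)
    (fun _ => Set.Iio B) (fun _ => measurableSet_Ioi) (fun _ => measurableSet_Iio)
  have hs : seedLaw μ {true} = ENNReal.ofReal μ := by
    simp [seedLaw]
  simp only [Finset.prod_const, hs] at h
  exact h

lemma main_ind (G : SimpleGraph V) (Δ : ℕ) (hfin : ∀ v, (G.neighborSet v).Finite)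
    (hdeg : ∀ v, (G.neighborSet v).ncard ≤ Δ) {μ lam : ℝ} (A B : ℝ) (h0 : 0 ≤ μ) (h1 : μ ≤ 1)
    (hl : 0 < lam) (T : Finset V) : (∀ v ∈ T, ∀ w ∈ T, ¬ G.Adj v w) →
    ∀ (a : Finset V) (b c : Finset (Sym2 V)), (∀ v ∈ T, v ∉ a) →
    (∀ v ∈ T, ∀ x, G.Adj v x → s(v, x) ∉ b) → (∀ v ∈ T, ∀ x, G.Adj v x → s(v, x) ∉ c) →
    law V μ lam (box A B a b c ∩ allBad G A B T) ≤
      (ENNReal.ofReal μ ^ a.card *
      ((expMeasure 1 (Set.Ioi A)) ^ b.card * (expMeasure lam (Set.Iio B)) ^ c.card)) *
      (ENNReal.ofReal μ + Δ * expMeasure 1 (Set.Ioi A) + Δ * expMeasure lam (Set.Iio B)) ^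
        T.card := by
  classical
  induction T using Finset.induction_on with
  | empty =>
    intro _ a b c _ _ _
    rw [← law_box' h0 h1 hl A B a b c]
    simp only [Finset.card_empty, pow_zero, mul_one]
    exact measure_mono Set.inter_subset_left
  | insert v T hvT ih =>
    intro hT a b c ha hb hc
    set r := expMeasure 1 (Set.Ioi A) with hr
    set s := expMeasure lam (Set.Iio B) with hs
    set m := ENNReal.ofReal μ with hm
    set q := m + Δ * r + Δ * s with hq
    have ih' := ih (fun x hx y hy => hT x (Finset.mem_insert_of_mem hx) y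
      (Finset.mem_insert_of_mem hy))
    set Nv : Finset V := (hfin v).toFinset with hNv
    have hNcard : (Nv.card : ℝ≥0∞) ≤ Δ := by
      have : Nv.card ≤ Δ := by
        rw [hNv, ← Set.ncard_eq_toFinset_card _ (hfin v)]; exact hdeg v
      exact_mod_cast this
    have hva : v ∉ a := ha v (Finset.mem_insert_self _ _)
    have hsub : box A B a b c ∩ allBad G A B (insert v T) ⊆
        (box A B (insert v a) b c ∩ allBad G A B T) ∪
        ((⋃ x ∈ Nv, box A B a (insert s(v, x) b) c ∩ allBad G A B T) ∪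
         (⋃ x ∈ Nv, box A B a b (insert s(v, x) c) ∩ allBad G A B T)) := by
      rintro ω ⟨⟨w1, w2, w3⟩, hbad⟩
      have hT' : ω ∈ allBad G A B T := fun y hy => hbad y (Finset.mem_insert_of_mem hy)
      rcases hbad v (Finset.mem_insert_self _ _) with hv | ⟨x, hx, hv | hv⟩
      · left
        refine ⟨⟨?_, w2, w3⟩, hT'⟩
        intro y hy
        rcases Finset.mem_insert.mp hy with rfl | hy
        · exact hv
        · exact w1 y hy
      · right; left
        simp only [Set.mem_iUnion]
        refine ⟨x, by simp [hNv, hx], ⟨w1, ?_, w3⟩, hT'⟩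
        intro y hy
        rcases Finset.mem_insert.mp hy with rfl | hy
        · exact hv
        · exact w2 y hy
      · right; right
        simp only [Set.mem_iUnion]
        refine ⟨x, by simp [hNv, hx], ⟨w1, w2, ?_⟩, hT'⟩
        intro y hy
        rcases Finset.mem_insert.mp hy with rfl | hy
        · exact hv
        · exact w3 y hy
    -- an edge at `v` is not an edge at a vertex of `T`
    have hedge : ∀ x ∈ Nv, ∀ w ∈ T, ∀ y, G.Adj w y → s(w, y) ≠ s(v, x) := by
      intro x hx w hw y hy heq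
      have hx' : G.Adj v x := by simpa [hNv] using hx
      rcases Sym2.eq_iff.mp heq with ⟨h, _⟩ | ⟨h, _⟩
      · exact hvT (h ▸ hw)
      · subst h
        exact hT v (Finset.mem_insert_self _ _) w (Finset.mem_insert_of_mem hw) hx'
    have e1 : law V μ lam (box A B (insert v a) b c ∩ allBad G A B T) ≤
        (m ^ a.card * (r ^ b.card * s ^ c.card)) * q ^ T.card * m := by
      have := ih' (insert v a) b c (fun w hw => by
        simp only [Finset.mem_insert, not_or]
        exact ⟨fun h => hvT (h ▸ hw), ha w (Finset.mem_insert_of_mem hw)⟩)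
        (fun w hw => hb w (Finset.mem_insert_of_mem hw))
        (fun w hw => hc w (Finset.mem_insert_of_mem hw))
      rw [Finset.card_insert_of_notMem hva] at this
      refine this.trans (le_of_eq ?_)
      ring
    have e2 : ∀ x ∈ Nv, law V μ lam (box A B a (insert s(v, x) b) c ∩ allBad G A B T) ≤
        (m ^ a.card * (r ^ b.card * s ^ c.card)) * q ^ T.card * r := by
      intro x hx
      have hx' : G.Adj v x := by simpa [hNv] using hx
      have := ih' a (insert s(v, x) b) c (fun w hw => ha w (Finset.mem_insert_of_mem hw))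
        (fun w hw y hy => by
          simp only [Finset.mem_insert, not_or]
          exact ⟨hedge x hx w hw y hy, hb w (Finset.mem_insert_of_mem hw) y hy⟩)
        (fun w hw => hc w (Finset.mem_insert_of_mem hw))
      rw [Finset.card_insert_of_notMem (hb v (Finset.mem_insert_self _ _) x hx')] at this
      refine this.trans (le_of_eq ?_)
      ring
    have e3 : ∀ x ∈ Nv, law V μ lam (box A B a b (insert s(v, x) c) ∩ allBad G A B T) ≤
        (m ^ a.card * (r ^ b.card * s ^ c.card)) * q ^ T.card * s := by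
      intro x hx
      have hx' : G.Adj v x := by simpa [hNv] using hx
      have := ih' a b (insert s(v, x) c) (fun w hw => ha w (Finset.mem_insert_of_mem hw))
        (fun w hw => hb w (Finset.mem_insert_of_mem hw))
        (fun w hw y hy => by
          simp only [Finset.mem_insert, not_or]
          exact ⟨hedge x hx w hw y hy, hc w (Finset.mem_insert_of_mem hw) y hy⟩)
      rw [Finset.card_insert_of_notMem (hc v (Finset.mem_insert_self _ _) x hx')] at this
      refine this.trans (le_of_eq ?_)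
      ring
    set K := (m ^ a.card * (r ^ b.card * s ^ c.card)) * q ^ T.card with hK
    calc law V μ lam (box A B a b c ∩ allBad G A B (insert v T))
        ≤ law V μ lam ((box A B (insert v a) b c ∩ allBad G A B T) ∪
        ((⋃ x ∈ Nv, box A B a (insert s(v, x) b) c ∩ allBad G A B T) ∪
         (⋃ x ∈ Nv, box A B a b (insert s(v, x) c) ∩ allBad G A B T))) := measure_mono hsub
      _ ≤ law V μ lam (box A B (insert v a) b c ∩ allBad G A B T) +
          (law V μ lam (⋃ x ∈ Nv, box A B a (insert s(v, x) b) c ∩ allBad G A B T) +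
           law V μ lam (⋃ x ∈ Nv, box A B a b (insert s(v, x) c) ∩ allBad G A B T)) := by
          refine (measure_union_le _ _).trans ?_
          gcongr
          exact measure_union_le _ _
      _ ≤ K * m + (∑ x ∈ Nv, K * r + ∑ x ∈ Nv, K * s) := by
          gcongr
          · exact (measure_biUnion_finset_le _ _).trans (Finset.sum_le_sum e2)
          · exact (measure_biUnion_finset_le _ _).trans (Finset.sum_le_sum e3)
      _ = K * m + (Nv.card * (K * r) + Nv.card * (K * s)) := by
          rw [Finset.sum_const, Finset.sum_const, nsmul_eq_mul, nsmul_eq_mul]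
      _ ≤ K * m + (Δ * (K * r) + Δ * (K * s)) := by gcongr
      _ = (m ^ a.card * (r ^ b.card * s ^ c.card)) * q ^ (insert v T).card := by
          rw [Finset.card_insert_of_notMem hvT, pow_succ, hK, hq]
          ring

lemma exp_tail (A : ℝ) (hA : 0 ≤ A) :
    expMeasure 1 (Set.Ioi A) = ENNReal.ofReal (Real.exp (-A)) := by
  have i2 : IsProbabilityMeasure (expMeasure 1) := isProbabilityMeasure_expMeasure one_pos
  have h := cdf_expMeasure_eq (r := 1) one_pos A
  rw [if_pos hA] at h
  have h2 : ENNReal.ofReal (cdf (expMeasure 1) A) = expMeasure 1 (Set.Iic A) := ofReal_cdf _ _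
  rw [← Set.compl_Iic, prob_compl_eq_one_sub measurableSet_Iic, ← h2, h]
  rw [← ENNReal.ofReal_one, ← ENNReal.ofReal_sub _ (by
    have : Real.exp (-(1 * A)) ≤ 1 := Real.exp_le_one_iff.mpr (by linarith)
    linarith)]
  congr 1
  ring_nf

lemma exp_head {lam B : ℝ} (hl : 0 < lam) (hB : 0 ≤ B) :
    expMeasure lam (Set.Iic B) ≤ ENNReal.ofReal (lam * B) := by
  have i2 : IsProbabilityMeasure (expMeasure lam) := isProbabilityMeasure_expMeasure hl
  have h := cdf_expMeasure_eq (r := lam) hl B
  rw [if_pos hB] at h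
  have h2 : ENNReal.ofReal (cdf (expMeasure lam) B) = expMeasure lam (Set.Iic B) := ofReal_cdf _ _
  rw [← h2, h]
  apply ENNReal.ofReal_le_ofReal
  have := Real.add_one_le_exp (-(lam * B))
  linarith

end Pool.Agent.FPPHE.BADP_

namespace Pool.Agent.FPPHE

open BADP_ MeasureTheory ProbabilityTheory
open scoped ENNReal

theorem stmt_BADP : Stmt_BADP := by
  classical
  intro V _ G Δ hfin hdeg hpar ε hε Γ hΓ
  obtain ⟨par, hpar⟩ := hpar
  set δ : ℝ := min ε 1 with hδ
  have hδ0 : 0 < δ := lt_min hε one_pos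
  have hδ1 : δ ≤ 1 := min_le_right _ _
  have hδε : δ ≤ ε := min_le_left _ _
  set A : ℝ := 4 * Δ / δ + 1 with hA
  have hA0 : 0 < A := by positivity
  set lam : ℝ := δ / (4 * (Δ + 1) * (Γ * A)) with hlam
  have hlam0 : 0 < lam := by positivity
  refine ⟨δ / 4, lam, A, by positivity, by linarith, hlam0, hA0, ?_⟩
  have hr : (Δ : ℝ≥0∞) * expMeasure 1 (Set.Ioi A) ≤ ENNReal.ofReal (δ / 4) := by
    rw [exp_tail A hA0.le]
    have : (Δ : ℝ≥0∞) = ENNReal.ofReal (Δ : ℝ) := by simp
    rw [this, ← ENNReal.ofReal_mul (by positivity)]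
    apply ENNReal.ofReal_le_ofReal
    have h1 := Real.add_one_le_exp A
    have h2 : (Δ : ℝ) ≤ δ / 4 * Real.exp A := by
      have h3 : 4 * (Δ : ℝ) / δ ≤ Real.exp A := by
        rw [hA] at h1 ⊢
        linarith
      have h4 : δ / 4 * (4 * (Δ : ℝ) / δ) = Δ := by field_simp
      calc (Δ : ℝ) = δ / 4 * (4 * (Δ : ℝ) / δ) := h4.symm
        _ ≤ δ / 4 * Real.exp A := by gcongr
    calc (Δ : ℝ) * Real.exp (-A) ≤ (δ / 4 * Real.exp A) * Real.exp (-A) := by gcongr
      _ = δ / 4 := by rw [mul_assoc, ← Real.exp_add]; simp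
  have hs : (Δ : ℝ≥0∞) * expMeasure lam (Set.Iio (Γ * A)) ≤ ENNReal.ofReal (δ / 4) := by
    have h1 : expMeasure lam (Set.Iio (Γ * A)) ≤ ENNReal.ofReal (lam * (Γ * A)) :=
      (measure_mono Set.Iio_subset_Iic_self).trans (exp_head hlam0 (by positivity))
    have h2 : (Δ : ℝ≥0∞) = ENNReal.ofReal (Δ : ℝ) := by simp
    calc (Δ : ℝ≥0∞) * expMeasure lam (Set.Iio (Γ * A))
        ≤ ENNReal.ofReal (Δ : ℝ) * ENNReal.ofReal (lam * (Γ * A)) := by
          rw [← h2]; gcongr
      _ = ENNReal.ofReal (Δ * (lam * (Γ * A))) := by rw [← ENNReal.ofReal_mul (by positivity)]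
      _ ≤ ENNReal.ofReal (δ / 4) := by
          apply ENNReal.ofReal_le_ofReal
          have : lam * (Γ * A) = δ / (4 * (Δ + 1)) := by
            rw [hlam]; field_simp
          rw [this]
          rw [mul_div_assoc', div_le_div_iff₀ (by positivity) (by norm_num)]
          nlinarith [hδ0, (Nat.cast_nonneg Δ : (0 : ℝ) ≤ Δ)]
  set q : ℝ≥0∞ := ENNReal.ofReal (δ / 4) + Δ * expMeasure 1 (Set.Ioi A) +
    Δ * expMeasure lam (Set.Iio (Γ * A)) with hq
  have hqδ : q ≤ ENNReal.ofReal δ := by
    calc q ≤ ENNReal.ofReal (δ / 4) + ENNReal.ofReal (δ / 4) + ENNReal.ofReal (δ / 4) := by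
          rw [hq]; gcongr
      _ = ENNReal.ofReal (δ / 4 + δ / 4 + δ / 4) := by
          rw [ENNReal.ofReal_add (by positivity) (by positivity),
            ENNReal.ofReal_add (by positivity) (by positivity)]
      _ ≤ ENNReal.ofReal δ := ENNReal.ofReal_le_ofReal (by linarith)
  have hq1 : q ≤ 1 := hqδ.trans (by
    rw [← ENNReal.ofReal_one]; exact ENNReal.ofReal_le_ofReal hδ1)
  have hqε : q ≤ ENNReal.ofReal ε := hqδ.trans (ENNReal.ofReal_le_ofReal hδε)
  intro S
  have key : ∀ T : Finset V, T ⊆ S → (∀ v ∈ T, ∀ w ∈ T, ¬ G.Adj v w) → S.card ≤ 2 * T.card →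
      (law V (δ / 4) lam {ω | ∀ v ∈ S, v ∈ badSet G ω A (Γ * A)}) ^ 2 ≤
        ENNReal.ofReal ε ^ S.card := by
    intro T hTS hT hcard
    have h1 := main_ind G Δ hfin hdeg A (Γ * A) (μ := δ / 4) (lam := lam) (by positivity)
      (by linarith) hlam0 T hT ∅ ∅ ∅ (by simp) (by simp) (by simp)
    simp only [Finset.card_empty, pow_zero, mul_one, one_mul] at h1
    have h2 : law V (δ / 4) lam {ω | ∀ v ∈ S, v ∈ badSet G ω A (Γ * A)} ≤ q ^ T.card := by
      refine le_trans (measure_mono ?_) h1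
      intro ω hω
      refine ⟨⟨by simp, by simp, by simp⟩, fun v hv => hω v (hTS hv)⟩
    calc (law V (δ / 4) lam {ω | ∀ v ∈ S, v ∈ badSet G ω A (Γ * A)}) ^ 2
        ≤ (q ^ T.card) ^ 2 := by gcongr
      _ = q ^ (2 * T.card) := by rw [← pow_mul, mul_comm]
      _ ≤ q ^ S.card := pow_le_pow_of_le_one (by simp) hq1 hcard
      _ ≤ ENNReal.ofReal ε ^ S.card := by gcongr
  have hsum : (S.filter (fun v => par v = true)).card + (S.filter (fun v => ¬ par v = true)).card
      = S.card := Finset.card_filter_add_card_filter_not _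
  rcases le_total (S.filter (fun v => par v = true)).card
    (S.filter (fun v => ¬ par v = true)).card with hle | hle
  · refine key (S.filter (fun v => ¬ par v = true)) (Finset.filter_subset _ _) ?_ (by omega)
    intro v hv w hw hvw
    have h1 := (Finset.mem_filter.mp hv).2
    have h2 := (Finset.mem_filter.mp hw).2
    apply hpar v w hvw
    simp only [Bool.not_eq_true] at h1 h2
    rw [h1, h2]
  · refine key (S.filter (fun v => par v = true)) (Finset.filter_subset _ _) ?_ (by omega)
    intro v hv w hw hvw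
    have h1 := (Finset.mem_filter.mp hv).2
    have h2 := (Finset.mem_filter.mp hw).2
    apply hpar v w hvw
    rw [h1, h2]

end Pool.Agent.FPPHE
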