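import Pool.Agent.Work.MP_04d5a3_full.Basic

/-!
# FPPHE (MP_04d5a3_pr): toolkit on walks, cost, contracted distance, classes, hulls
-/

namespace Pool.Agent.FPPHE

open SimpleGraph

variable {V : Type} {G : SimpleGraph V} {C : Set V}

/-! ### cost -/

@[simp] lemma cost_nil (u : V) : cost G C (Walk.nil : G.Walk u u) = 0 := rfl

lemma cost_cons {u w v : V} (h : G.Adj u w) (p : G.Walk w v) :
    cost G C (Walk.cons h p) =
      (open Classical in if u ∈ C ∧ w ∈ C then 0 else 1) + cost G C p := rfl

lemma cost_cons_le {u w v : V} (h : G.Adj u w) (p : G.Walk w v) :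
    cost G C (Walk.cons h p) ≤ 1 + cost G C p := by
  rw [cost_cons]; split_ifs <;> omega

lemma cost_append {u v w : V} (p : G.Walk u v) (q : G.Walk v w) :
    cost G C (p.append q) = cost G C p + cost G C q := by
  induction p with
  | nil => simp
  | cons h p ih => rw [Walk.cons_append, cost_cons, cost_cons, ih, add_assoc]

lemma cost_reverse {u v : V} (p : G.Walk u v) : cost G C p.reverse = cost G C p := by
  induction p with
  | nil => simp
  | @cons u w v h p ih =>
    rw [Walk.reverse_cons, cost_append, ih, cost_cons, cost_cons, cost_nil, add_zero]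
    by_cases h1 : u ∈ C <;> by_cases h2 : w ∈ C <;> simp [h1, h2] <;> omega

lemma cost_le_length {u v : V} (p : G.Walk u v) : cost G C p ≤ p.length := by
  induction p with
  | nil => simp
  | cons h p ih => have := cost_cons_le (C := C) h p; simp only [Walk.length_cons]; omega

/-! ### dc -/

lemma dc_le {x y : V} (p : G.Walk x y) : dc G C x y ≤ cost G C p :=
  Nat.sInf_le ⟨p, rfl⟩

lemma exists_walk (hG : G.Connected) (x y : V) : ∃ p : G.Walk x y, cost G C p = dc G C x y := by
  obtain ⟨p⟩ := hG.preconnected x y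
  exact Nat.sInf_mem (s := {n | ∃ p : G.Walk x y, cost G C p = n}) ⟨_, p, rfl⟩

@[simp] lemma dc_self (x : V) : dc G C x x = 0 := Nat.le_zero.mp (dc_le (Walk.nil))

lemma dc_comm (x y : V) : dc G C x y = dc G C y x := by
  unfold dc
  congr 1
  ext n
  constructor
  · rintro ⟨p, rfl⟩; exact ⟨p.reverse, cost_reverse p⟩
  · rintro ⟨p, rfl⟩; exact ⟨p.reverse, cost_reverse p⟩

lemma dc_tri (hG : G.Connected) (x y z : V) : dc G C x z ≤ dc G C x y + dc G C y z := by
  obtain ⟨p, hp⟩ := exists_walk (C := C) hG x y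
  obtain ⟨q, hq⟩ := exists_walk (C := C) hG y z
  rw [← hp, ← hq, ← cost_append]
  exact dc_le _

lemma dc_adj {x y : V} (h : G.Adj x y) : dc G C x y ≤ 1 := by
  refine (dc_le (Walk.cons h Walk.nil)).trans ?_
  have := cost_cons_le (C := C) h (Walk.nil)
  simpa using this

lemma dc_support {x y : V} (p : G.Walk x y) {z : V} (hz : z ∈ p.support) :
    dc G C x z ≤ cost G C p ∧ dc G C z y ≤ cost G C p := by
  classical
  have h := congrArg (cost G C) (p.take_spec hz)
  rw [cost_append] at h
  constructor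
  · exact (dc_le (p.takeUntil z hz)).trans (by omega)
  · exact (dc_le (p.dropUntil z hz)).trans (by omega)

/-! ### classes -/

lemma mem_cls_self (v : V) : v ∈ cls G C v := Or.inl rfl

lemma cls_out {v : V} (hv : v ∉ C) : cls G C v = {v} := by
  ext u
  constructor
  · rintro (h | ⟨p, hp⟩)
    · exact h
    · exact absurd (hp v p.start_mem_support) hv
  · rintro rfl; exact mem_cls_self _

lemma cls_sub {v : V} (hv : v ∈ C) : cls G C v ⊆ C := by
  rintro u (rfl | ⟨p, hp⟩)
  · exact hv
  · exact hp u p.end_mem_support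

lemma mem_cls_iff {v : V} (hv : v ∈ C) {u : V} :
    u ∈ cls G C v ↔ ∃ p : G.Walk v u, ∀ w ∈ p.support, w ∈ C := by
  constructor
  · rintro (rfl | h)
    · exact ⟨Walk.nil, by simpa using hv⟩
    · exact h
  · exact fun h => Or.inr h

lemma cls_symm {u v : V} (h : u ∈ cls G C v) : v ∈ cls G C u := by
  rcases h with rfl | ⟨p, hp⟩
  · exact mem_cls_self _
  · exact Or.inr ⟨p.reverse, by simpa using hp⟩

lemma cls_trans {u v w : V} (h : u ∈ cls G C v) (h' : v ∈ cls G C w) : u ∈ cls G C w := by
  rcases h with rfl | ⟨p, hp⟩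
  · exact h'
  · rcases h' with rfl | ⟨q, hq⟩
    · exact Or.inr ⟨p, hp⟩
    · refine Or.inr ⟨q.append p, fun z hz => ?_⟩
      rw [Walk.mem_support_append_iff] at hz
      rcases hz with h | h
      · exact hq z h
      · exact hp z h

lemma cls_eq {u v : V} (h : u ∈ cls G C v) : cls G C u = cls G C v := by
  ext w
  exact ⟨fun hw => cls_trans hw h, fun hw => cls_trans hw (cls_symm h)⟩

lemma cls_mem_iff {u v : V} (h : u ∈ cls G C v) : u ∈ C ↔ v ∈ C := by
  rcases h with rfl | ⟨p, hp⟩
  · rfl
  · exact ⟨fun _ => hp v p.start_mem_support, fun _ => hp u p.end_mem_support⟩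

lemma adj_cls {x y : V} (h : G.Adj x y) (hx : x ∈ C) (hy : y ∈ C) : y ∈ cls G C x :=
  Or.inr ⟨Walk.cons h Walk.nil, by
    intro w hw
    simp only [Walk.support_cons, Walk.support_nil, List.mem_cons, List.not_mem_nil, or_false] at hw
    rcases hw with rfl | rfl <;> assumption⟩

lemma cost_eq_zero_of_support {x y : V} (p : G.Walk x y) (hp : ∀ w ∈ p.support, w ∈ C) :
    cost G C p = 0 := by
  induction p with
  | nil => rfl
  | @cons u v w h p ih =>
    rw [cost_cons, ih (fun z hz => hp z (by simp [hz])),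
      if_pos ⟨hp u (by simp), hp v (by simp)⟩]

lemma mem_cls_of_cost {x y : V} (p : G.Walk x y) (hp : cost G C p = 0) : y ∈ cls G C x := by
  induction p with
  | nil => exact mem_cls_self _
  | @cons u v w h p ih =>
    rw [cost_cons] at hp
    by_cases hc : u ∈ C ∧ v ∈ C
    · rw [if_pos hc, zero_add] at hp
      exact cls_trans (ih hp) (adj_cls h hc.1 hc.2)
    · rw [if_neg hc] at hp; omega

lemma dc_of_mem_cls {x y : V} (h : y ∈ cls G C x) : dc G C x y = 0 := by
  rcases h with rfl | ⟨p, hp⟩
  · exact dc_self _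
  · exact Nat.le_zero.mp ((dc_le p).trans (cost_eq_zero_of_support p hp).le)

lemma dc_zero_iff (hG : G.Connected) {x y : V} : dc G C x y = 0 ↔ y ∈ cls G C x := by
  refine ⟨fun h => ?_, dc_of_mem_cls⟩
  obtain ⟨p, hp⟩ := exists_walk (C := C) hG x y
  exact mem_cls_of_cost p (hp.trans h)

lemma dc_congr_left (hG : G.Connected) {x x' y : V} (h : x' ∈ cls G C x) :
    dc G C x' y = dc G C x y := by
  have h1 := dc_tri (C := C) hG x' x y
  have h2 := dc_tri (C := C) hG x x' y
  rw [dc_of_mem_cls h] at h2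
  rw [dc_comm x' x, dc_of_mem_cls h] at h1
  omega

lemma dc_congr_right (hG : G.Connected) {x y y' : V} (h : y' ∈ cls G C y) :
    dc G C x y' = dc G C x y := by
  rw [dc_comm x y', dc_comm x y, dc_congr_left hG h]

/-! ### cores -/

lemma cls_mem_cores {v : V} (hv : v ∈ C) : cls G C v ∈ Cores G C := ⟨v, hv, rfl⟩

lemma eq_cls_of_mem {K : Set V} (hK : K ∈ Cores G C) {u : V} (hu : u ∈ K) : K = cls G C u := by
  obtain ⟨v, _, rfl⟩ := hK
  exact (cls_eq hu).symm

lemma core_sub {K : Set V} (hK : K ∈ Cores G C) : K ⊆ C := by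
  obtain ⟨v, hv, rfl⟩ := hK
  exact cls_sub hv

lemma core_nonempty {K : Set V} (hK : K ∈ Cores G C) : K.Nonempty := by
  obtain ⟨v, _, rfl⟩ := hK
  exact ⟨v, mem_cls_self v⟩

lemma core_adj {K : Set V} (hK : K ∈ Cores G C) {x y : V} (hx : x ∈ K) (h : G.Adj x y)
    (hy : y ∈ C) : y ∈ K := by
  rw [eq_cls_of_mem hK hx]
  exact adj_cls h (core_sub hK hx) hy

lemma core_fin {N : ℕ} {bad : Set V} (hC : CoreSys G N bad C) {K : Set V}
    (hK : K ∈ Cores G C) : K.Finite := by
  obtain ⟨v, _, rfl⟩ := hK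
  exact hC.fin v

lemma core_sep {N : ℕ} {bad : Set V} (hC : CoreSys G N bad C) {K K' : Set V}
    (hK : K ∈ Cores G C) (hK' : K' ∈ Cores G C) (hne : K ≠ K') {u u' : V} (hu : u ∈ K)
    (hu' : u' ∈ K') : D0 * (min (ll N K) (ll N K')) ^ 5 ≤ dc G C u u' := by
  have h1 := eq_cls_of_mem hK hu
  have h2 := eq_cls_of_mem hK' hu'
  have := hC.sep u (core_sub hK hu) u' (core_sub hK' hu') (by
    intro h
    exact hne (h1.trans ((cls_eq h).trans h2.symm)))
  rwa [← h1, ← h2] at this

lemma ll_pos (N : ℕ) (K : Set V) : 1 ≤ ll N K := by unfold ll; omega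

lemma ncard_le_ll {N : ℕ} (hN : 2 ≤ N) (K : Set V) : K.ncard ≤ (N ^ 20) ^ (ll N K - 1) := by
  unfold ll
  rw [Nat.add_sub_cancel_left]
  exact Nat.le_pow_clog (by nlinarith [Nat.one_lt_pow (n := 20) (by norm_num) hN]) _

lemma ll_mono {N : ℕ} {K K' : Set V} (h : K.ncard ≤ K'.ncard) : ll N K ≤ ll N K' := by
  unfold ll
  have := Nat.clog_mono_right (N ^ 20) h
  omega

lemma ncard_lt_of_ll {N : ℕ} {K K' : Set V} (h : ll N K < ll N K') : K.ncard < K'.ncard := by
  by_contra hc
  exact absurd (ll_mono (N := N) (not_lt.mp hc)) (not_le.mpr h)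

lemma mem_coresOf {u v : V} (p : G.Walk u v) (K : Set V) :
    K ∈ coresOf G C p ↔ ∃ w ∈ p.support, w ∈ C ∧ K = cls G C w := by
  classical
  unfold coresOf
  simp only [Finset.mem_image, Finset.mem_filter, List.mem_toFinset]
  constructor
  · rintro ⟨w, ⟨h1, h2⟩, rfl⟩; exact ⟨w, h1, h2, rfl⟩
  · rintro ⟨w, h1, h2, rfl⟩; exact ⟨w, ⟨h1, h2⟩, rfl⟩

lemma coresOf_sub_cores {u v : V} (p : G.Walk u v) {K : Set V} (h : K ∈ coresOf G C p) :
    K ∈ Cores G C := by
  obtain ⟨w, _, hw, rfl⟩ := (mem_coresOf p K).mp h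
  exact cls_mem_cores hw

/-- all vertices of a connected graph walk are in `C` or adjacent to something not in the core -/
lemma coresOf_mono {u v u' v' : V} (p : G.Walk u v) (q : G.Walk u' v')
    (h : ∀ w ∈ p.support, w ∈ q.support) : coresOf G C p ⊆ coresOf G C q := by
  intro K hK
  obtain ⟨w, h1, h2, h3⟩ := (mem_coresOf p K).mp hK
  exact (mem_coresOf q K).mpr ⟨w, h w h1, h2, h3⟩

/-! ### outs -/

@[simp] lemma outs_nil : outs C ([] : List V) = 0 := rfl

lemma outs_cons (v : V) (L : List V) :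
    outs C (v :: L) = (open Classical in if v ∈ C then 0 else 1) + outs C L := by
  classical
  unfold outs
  by_cases h : v ∈ C
  · simp [h]
  · simp [h]; omega

lemma outs_append (L L' : List V) : outs C (L ++ L') = outs C L + outs C L' := by
  classical
  unfold outs
  simp [List.filter_append]

lemma outs_reverse (L : List V) : outs C L.reverse = outs C L := by
  classical
  unfold outs
  simp [List.filter_reverse]

lemma outs_support {u v : V} (p : G.Walk u v) :
    outs C p.support = (open Classical in if u ∈ C then 0 else 1) + outs C p.support.tail := by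
  cases p with
  | nil => simp [outs_cons]
  | cons h p => rw [Walk.support_cons, outs_cons]; rfl

/-- a walk of cost `n` has at most `n + 1` vertices outside `C` -/
lemma outs_le_cost {u v : V} (p : G.Walk u v) : outs C p.support ≤ cost G C p + 1 := by
  induction p with
  | nil => simp only [Walk.support_nil, outs_cons, outs_nil]; split_ifs <;> omega
  | @cons u w v h p ih =>
    rw [Walk.support_cons, outs_cons, cost_cons]
    rw [outs_support] at ih ⊢
    by_cases hu : u ∈ C <;> by_cases hw : w ∈ C <;> simp [hu, hw] at ih ⊢ <;> omega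

/-- after the first vertex -/
lemma outs_tail_le_cost {u v : V} (p : G.Walk u v) : outs C p.support.tail ≤ cost G C p := by
  induction p with
  | nil => simp
  | @cons u w v h p ih =>
    rw [Walk.support_cons, List.tail_cons, outs_support, cost_cons]
    by_cases hu : u ∈ C <;> by_cases hw : w ∈ C <;> simp [hu, hw] at ih ⊢ <;> omega

/-- every step of cost 1 is incident to a vertex outside `C` -/
lemma cost_le_two_outs {u v : V} (p : G.Walk u v) :
    cost G C p + (open Classical in if u ∈ C then 0 else 1) +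
      (open Classical in if v ∈ C then 0 else 1) ≤ 2 * outs C p.support := by
  induction p with
  | nil =>
    simp only [Walk.support_nil, outs_cons, outs_nil, cost_nil]; split_ifs <;> omega
  | @cons u w v h p ih =>
    rw [Walk.support_cons, outs_cons, cost_cons]
    by_cases hu : u ∈ C <;> by_cases hw : w ∈ C <;> by_cases hv : v ∈ C <;>
      simp [hu, hw, hv] at ih ⊢ <;> omega

/-- both ends outside `C` -/
lemma cost_le_outs {u v : V} (p : G.Walk u v) (hu : u ∉ C) (hv : v ∉ C) :
    cost G C p ≤ 2 * outs C p.support.tail := by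
  have h := cost_le_two_outs (C := C) p
  rw [outs_support] at h
  simp only [hu, hv, if_false] at h
  omega

lemma outs_dropLast {u v : V} (p : G.Walk u v) :
    outs C p.support = outs C p.support.dropLast + (open Classical in if v ∈ C then 0 else 1) := by
  have h : p.support = p.support.dropLast ++ [v] := by
    conv_lhs => rw [← List.dropLast_append_getLast p.support_ne_nil]
    simp
  conv_lhs => rw [h]
  rw [outs_append, outs_cons, outs_nil, add_zero]


/-! ### connected sets -/

lemma conn_of_walks {S : Set V} {u : V} (hu : u ∈ S)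
    (h : ∀ v ∈ S, ∃ p : G.Walk u v, ∀ w ∈ p.support, w ∈ S) : (G.induce S).Connected := by
  refine induce_connected_of_patches u hu (fun {v} hv => ?_)
  obtain ⟨p, hp⟩ := h v hv
  refine ⟨{w | w ∈ p.support}, fun w hw => hp w hw, p.start_mem_support, p.end_mem_support, ?_⟩
  exact p.connected_induce_support.preconnected _ _

lemma walk_in {S : Set V} (hS : (G.induce S).Connected) {s t : V} (hs : s ∈ S) (ht : t ∈ S) :
    ∃ p : G.Walk s t, p.IsPath ∧ ∀ w ∈ p.support, w ∈ S := by
  classical
  obtain ⟨q⟩ := hS.preconnected ⟨s, hs⟩ ⟨t, ht⟩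
  let q' : G.Walk s t := q.map (SimpleGraph.Embedding.induce S).toHom
  refine ⟨q'.bypass, q'.bypass_isPath, fun w hw => ?_⟩
  have hw' : w ∈ (q.map (SimpleGraph.Embedding.induce S).toHom).support :=
    q'.support_bypass_subset_support hw
  rw [Walk.support_map] at hw'
  obtain ⟨⟨z, hz⟩, _, rfl⟩ := List.mem_map.mp hw'
  exact hz

lemma conn_union {S T : Set V} (hS : (G.induce S).Connected) (hT : (G.induce T).Connected)
    {s t : V} (hs : s ∈ S) (ht : t ∈ T) (h : s = t ∨ G.Adj s t) :
    (G.induce (S ∪ T)).Connected := by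
  rcases h with rfl | h
  · refine conn_of_walks (Or.inl hs) ?_
    rintro v (hv | hv)
    · obtain ⟨p, _, hp⟩ := walk_in hS hs hv
      exact ⟨p, fun w hw => Or.inl (hp w hw)⟩
    · obtain ⟨p, _, hp⟩ := walk_in hT ht hv
      exact ⟨p, fun w hw => Or.inr (hp w hw)⟩
  · refine conn_of_walks (Or.inl hs) ?_
    rintro v (hv | hv)
    · obtain ⟨p, _, hp⟩ := walk_in hS hs hv
      exact ⟨p, fun w hw => Or.inl (hp w hw)⟩
    · obtain ⟨p, _, hp⟩ := walk_in hT ht hv
      refine ⟨Walk.cons h p, fun w hw => ?_⟩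
      rw [Walk.support_cons, List.mem_cons] at hw
      rcases hw with rfl | hw
      · exact Or.inl hs
      · exact Or.inr (hp w hw)

lemma outs_path_le {S : Set V} (hS : S.Finite) {s t : V} (p : G.Walk s t) (hp : p.IsPath)
    (h : ∀ w ∈ p.support, w ∈ S) : outs C p.support ≤ (S \ C).ncard := by
  classical
  unfold outs
  have hn : (p.support.filter (fun v => decide (v ∉ C))).Nodup := hp.support_nodup.filter _
  rw [← List.toFinset_card_of_nodup hn, ← Set.ncard_coe_finset]
  refine Set.ncard_le_ncard ?_ (hS.subset Set.sdiff_subset)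
  intro w hw
  simp only [List.coe_toFinset, List.mem_filter, Set.mem_ofPred_eq, decide_eq_true_eq] at hw
  exact ⟨h w hw.1, hw.2⟩

/-- in a finite connected set the contracted distance is at most twice the number of outside vertices -/
lemma dc_le_conn {S : Set V} (hS : S.Finite) (hc : (G.induce S).Connected) {s t : V} (hs : s ∈ S)
    (ht : t ∈ S) : dc G C s t ≤ 2 * (S \ C).ncard := by
  obtain ⟨p, hp, hpS⟩ := walk_in hc hs ht
  have h1 := cost_le_two_outs (C := C) p
  have h2 := outs_path_le (C := C) hS p hp hpS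
  have h3 := dc_le (C := C) p
  omega

lemma cls_conn (v : V) : (G.induce (cls G C v)).Connected := by
  refine conn_of_walks (mem_cls_self v) ?_
  rintro u (rfl | ⟨p, hp⟩)
  · exact ⟨Walk.nil, by simp [mem_cls_self]⟩
  · classical
    refine ⟨p, fun w hw => Or.inr ⟨p.takeUntil w hw, fun z hz => hp z ?_⟩⟩
    exact p.support_takeUntil_subset_support hw hz

lemma cls_sat (v : V) : Sat G C (cls G C v) := fun u hu => by rw [cls_eq hu]

lemma core_conn {K : Set V} (hK : K ∈ Cores G C) : (G.induce K).Connected := by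
  obtain ⟨v, _, rfl⟩ := hK; exact cls_conn v

lemma core_sat {K : Set V} (hK : K ∈ Cores G C) : Sat G C K := by
  obtain ⟨v, _, rfl⟩ := hK; exact cls_sat v

/-! ### hull of a walk -/

/-- union of the classes of the vertices of a walk -/
def hull (G : SimpleGraph V) (C : Set V) {u v : V} (p : G.Walk u v) : Set V :=
  {z | ∃ w ∈ p.support, z ∈ cls G C w}

lemma hull_fin (hfin : ∀ v, (cls G C v).Finite) {u v : V} (p : G.Walk u v) :
    (hull G C p).Finite := by
  have : hull G C p = ⋃ w ∈ {w | w ∈ p.support}, cls G C w := by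
    ext z; simp [hull]
  rw [this]
  exact Set.Finite.biUnion (List.finite_toSet _) (fun w _ => hfin w)

lemma support_sub_hull {u v : V} (p : G.Walk u v) {w : V} (hw : w ∈ p.support) :
    w ∈ hull G C p := ⟨w, hw, mem_cls_self w⟩

lemma hull_sat {u v : V} (p : G.Walk u v) : Sat G C (hull G C p) := by
  rintro z ⟨w, hw, hz⟩ y hy
  exact ⟨w, hw, cls_trans hy hz⟩

lemma hull_conn {u v : V} (p : G.Walk u v) : (G.induce (hull G C p)).Connected := by
  classical
  refine conn_of_walks (support_sub_hull p p.start_mem_support) ?_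
  rintro z ⟨w, hw, hz⟩
  obtain ⟨q, _, hq⟩ := walk_in (cls_conn (G := G) (C := C) w) (mem_cls_self w) hz
  refine ⟨(p.takeUntil w hw).append q, fun y hy => ?_⟩
  rw [Walk.mem_support_append_iff] at hy
  rcases hy with h | h
  · exact support_sub_hull p (p.support_takeUntil_subset_support hw h)
  · exact ⟨w, hw, hq y h⟩

lemma hull_good {u v : V} (p : G.Walk u v) : (hull G C p \ C).ncard ≤ outs C p.support := by
  classical
  unfold outs
  refine le_trans ?_ (List.toFinset_card_le _)
  rw [← Set.ncard_coe_finset]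
  refine Set.ncard_le_ncard ?_ (Finset.finite_toSet _)
  rintro z ⟨⟨w, hw, hz⟩, hzC⟩
  have hwC : w ∉ C := fun h => hzC ((cls_mem_iff hz).mpr h)
  rw [cls_out hwC] at hz
  rw [Set.mem_singleton_iff] at hz
  subst hz
  simp [hw, hzC]

lemma dc_hull (hG : G.Connected) {u v : V} (p : G.Walk u v) {z : V} (hz : z ∈ hull G C p) :
    dc G C u z ≤ cost G C p ∧ dc G C z v ≤ cost G C p := by
  obtain ⟨w, hw, hz⟩ := hz
  have := dc_support (C := C) p hw
  rw [dc_congr_right hG hz, dc_congr_left hG hz]
  exact this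

/-! ### saturated sets -/

lemma sat_union {S T : Set V} (hS : Sat G C S) (hT : Sat G C T) : Sat G C (S ∪ T) := by
  rintro v (hv | hv)
  · exact (hS v hv).trans Set.subset_union_left
  · exact (hT v hv).trans Set.subset_union_right

lemma sat_diff {S T : Set V} (hS : Sat G C S) (hT : Sat G C T) : Sat G C (S \ T) := by
  rintro v ⟨hv, hvT⟩ u hu
  exact ⟨hS v hv hu, fun h => hvT (hT u h (cls_symm hu))⟩

lemma mass_le {N : ℕ} {bad : Set V} (hC : CoreSys G N bad C) (n : ℕ) :
    ∀ S : Set V, S.Finite → Sat G C S → (S ∩ C).ncard = n →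
      (S ∩ C).ncard ≤ C1 * (S ∩ bad).ncard := by
  induction n using Nat.strong_induction_on with
  | _ n ih =>
    intro S hS hsat hn
    rcases Set.eq_empty_or_nonempty (S ∩ C) with he | ⟨v, hvS, hvC⟩
    · rw [he]; simp
    · set K := cls G C v with hK
      have hKS : K ⊆ S := hsat v hvS
      have hKC : K ⊆ C := cls_sub hvC
      have hKf : K.Finite := hC.fin v
      have hvK : v ∈ K := mem_cls_self v
      have e1 : S ∩ C = K ∪ ((S \ K) ∩ C) := by
        ext x
        constructor
        · rintro ⟨h1, h2⟩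
          by_cases hx : x ∈ K
          · exact Or.inl hx
          · exact Or.inr ⟨⟨h1, hx⟩, h2⟩
        · rintro (h | ⟨⟨h1, _⟩, h2⟩)
          · exact ⟨hKS h, hKC h⟩
          · exact ⟨h1, h2⟩
      have d1 : Disjoint K ((S \ K) ∩ C) := by
        rw [Set.disjoint_left]; rintro x hx ⟨⟨_, h⟩, _⟩; exact h hx
      have f1 : ((S \ K) ∩ C).Finite := (hS.subset Set.sdiff_subset).subset Set.inter_subset_left
      have c1 : (S ∩ C).ncard = K.ncard + ((S \ K) ∩ C).ncard := by
        rw [e1]; exact Set.ncard_union_eq d1 hKf f1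
      have hKpos : 0 < K.ncard := (Set.ncard_pos hKf).mpr ⟨v, hvK⟩
      have i1 := ih ((S \ K) ∩ C).ncard (by omega) (S \ K) (hS.subset Set.sdiff_subset)
        (sat_diff hsat (cls_sat v)) rfl
      have e2 : S ∩ bad = (K ∩ bad) ∪ ((S \ K) ∩ bad) := by
        ext x
        constructor
        · rintro ⟨h1, h2⟩
          by_cases hx : x ∈ K
          · exact Or.inl ⟨hx, h2⟩
          · exact Or.inr ⟨⟨h1, hx⟩, h2⟩
        · rintro (⟨h, h'⟩ | ⟨⟨h1, _⟩, h2⟩)
          · exact ⟨hKS h, h'⟩
          · exact ⟨h1, h2⟩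
      have d2 : Disjoint (K ∩ bad) ((S \ K) ∩ bad) := by
        rw [Set.disjoint_left]; rintro x ⟨hx, _⟩ ⟨⟨_, h⟩, _⟩; exact h hx
      have c2 : (S ∩ bad).ncard = (K ∩ bad).ncard + ((S \ K) ∩ bad).ncard := by
        rw [e2]
        exact Set.ncard_union_eq d2 (hKf.subset Set.inter_subset_left)
          ((hS.subset Set.sdiff_subset).subset Set.inter_subset_left)
      have i2 := hC.dens v hvC
      rw [← hK] at i2
      rw [c1, c2, mul_add]
      omega

/-- certificates are dense sets -/
lemma dense_of {N : ℕ} {bad : Set V} (hC : CoreSys G N bad C) {S : Set V} (hS : S.Finite)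
    (hc : (G.induce S).Connected) (hsat : Sat G C S)
    (h : (S \ C).ncard ≤ hh * (S ∩ C).ncard) : Dense G bad Mst S := by
  refine ⟨hS, hc, ?_⟩
  have h1 := mass_le hC _ S hS hsat rfl
  have h2 : S.ncard = (S \ C).ncard + (S ∩ C).ncard := by
    rw [← Set.ncard_union_eq (Set.disjoint_left.mpr fun x hx hx' => hx.2 hx'.2)
      (hS.subset Set.sdiff_subset) (hS.subset Set.inter_subset_left), Set.sdiff_union_inter]
  have h3 : (hh + 1) * (S ∩ C).ncard ≤ (hh + 1) * (C1 * (S ∩ bad).ncard) :=
    Nat.mul_le_mul_left _ h1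
  have h4 : Mst * (S ∩ bad).ncard = (hh + 1) * (C1 * (S ∩ bad).ncard) := by
    rw [Mst, mul_assoc]
  rw [h4, h2]
  refine le_trans ?_ h3
  rw [add_mul, one_mul]
  omega

lemma rich_core {N : ℕ} {bad : Set V} (hC : CoreSys G N bad C) {K : Set V}
    (hK : K ∈ Cores G C) : Rich G C K := by
  refine ⟨core_fin hC hK, core_conn hK, core_sat hK, ?_⟩
  rw [Set.sdiff_eq_empty.mpr (core_sub hK), Set.ncard_empty]
  exact Nat.zero_le _

end Pool.Agent.FPPHE
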