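import Pool.Agent.Work.MP_04d5a3_full.Interface
import Pool.Agent.Work.MP_04d5a3_full.Tool

/-! # Block BALL (uses SUM) -/

namespace Pool.Agent.FPPHE.BALL_

open SimpleGraph

variable {V : Type} {G : SimpleGraph V} {C : Set V}

lemma biUnion_bound {α β : Type} {A : Set α} (hA : A.Finite) (f : α → Set β) (m : ℕ)
    (h : ∀ x ∈ A, (f x).Finite ∧ (f x).ncard ≤ m) :
    (⋃ x ∈ A, f x).Finite ∧ (⋃ x ∈ A, f x).ncard ≤ A.ncard * m := by
  classical
  induction A, hA using Set.Finite.induction_on with
  | empty => simp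
  | @insert a s ha hs ih =>
    obtain ⟨h1, h2⟩ := ih (fun x hx => h x (Set.mem_insert_of_mem _ hx))
    obtain ⟨h3, h4⟩ := h a (Set.mem_insert _ _)
    rw [Set.biUnion_insert]
    refine ⟨h3.union h1, ?_⟩
    rw [Set.ncard_insert_of_notMem ha hs]
    have := Set.ncard_union_le (f a) (⋃ x ∈ s, f x)
    rw [add_mul, one_mul]
    omega

/-- points reached by a walk of cost at most `s` which avoids the cores in `T` -/
def Bset (G : SimpleGraph V) (C : Set V) (v : V) (s : ℕ) (T : Finset (Set V)) : Set V :=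
  {u | ∃ p : G.Walk v u, cost G C p ≤ s ∧ ∀ K ∈ coresOf G C p, K ∉ T}

/-- last exit from a set -/
lemma last_exit (P : Set V) {u v : V} (p : G.Walk u v) (hu : u ∈ P) (hv : v ∉ P) :
    ∃ (z x : V) (h : G.Adj z x) (p1 : G.Walk u z) (p2 : G.Walk x v),
      p = p1.append (Walk.cons h p2) ∧ z ∈ P ∧ ∀ w ∈ p2.support, w ∉ P := by
  classical
  induction p with
  | nil => exact absurd hu hv
  | @cons u w v hadj q ih =>
    by_cases hq : ∃ y ∈ q.support, y ∈ P
    · by_cases hw : w ∈ P
      · obtain ⟨z, x, h, p1, p2, he, hz, hall⟩ := ih hw hv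
        exact ⟨z, x, h, Walk.cons hadj p1, p2, by rw [Walk.cons_append, he], hz, hall⟩
      · -- not adjacent: use induction on first vertex of `q` in `P`
        clear ih
        obtain ⟨y, hy, hyP⟩ := hq
        -- split `q` at the last vertex in `P`
        have key : ∀ (n : ℕ) (a b : V) (r : G.Walk a b), r.length ≤ n → b ∉ P →
            (∃ y ∈ r.support, y ∈ P) →
            ∃ (z x : V) (h : G.Adj z x) (p1 : G.Walk a z) (p2 : G.Walk x b),
              r = p1.append (Walk.cons h p2) ∧ z ∈ P ∧ ∀ w ∈ p2.support, w ∉ P := by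
          intro n
          induction n with
          | zero =>
            intro a b r hr hb hy
            cases r with
            | nil =>
              obtain ⟨y, hy, hyP⟩ := hy
              simp only [Walk.support_nil, List.mem_cons, List.not_mem_nil, or_false] at hy
              subst hy; exact absurd hyP hb
            | cons h r' => rw [Walk.length_cons] at hr; omega
          | succ n ihn =>
            intro a b r hr hb hy
            cases r with
            | nil =>
              obtain ⟨y, hy, hyP⟩ := hy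
              simp only [Walk.support_nil, List.mem_cons, List.not_mem_nil, or_false] at hy
              subst hy; exact absurd hyP hb
            | @cons _ c _ h r' =>
              rw [Walk.length_cons] at hr
              by_cases hy' : ∃ y ∈ r'.support, y ∈ P
              · obtain ⟨z, x, h', p1, p2, he, hz, hall⟩ := ihn c b r' (by omega) hb hy'
                exact ⟨z, x, h', Walk.cons h p1, p2, by rw [Walk.cons_append, he], hz, hall⟩
              · push Not at hy'
                obtain ⟨y, hy, hyP⟩ := hy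
                rw [Walk.support_cons, List.mem_cons] at hy
                rcases hy with rfl | hy
                · exact ⟨y, c, h, Walk.nil, r', rfl, hyP, hy'⟩
                · exact absurd hyP (hy' y hy)
        obtain ⟨z, x, h, p1, p2, he, hz, hall⟩ := key q.length w v q le_rfl hv ⟨y, hy, hyP⟩
        exact ⟨z, x, h, Walk.cons hadj p1, p2, by rw [Walk.cons_append, he], hz, hall⟩
    · push Not at hq
      exact ⟨u, w, hadj, Walk.nil, q, rfl, hu, hq⟩

lemma walk_cls {v z : V} (hz : z ∈ cls G C v) :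
    ∃ q : G.Walk v z, cost G C q = 0 ∧ ∀ w ∈ q.support, w ∈ cls G C v := by
  classical
  rcases hz with rfl | ⟨p, hp⟩
  · exact ⟨Walk.nil, rfl, by simp [mem_cls_self]⟩
  · refine ⟨p, cost_eq_zero_of_support p hp, fun w hw => Or.inr ⟨p.takeUntil w hw, fun y hy => ?_⟩⟩
    exact hp y (p.support_takeUntil_subset_support hw hy)

lemma main {N : ℕ} {bad : Set V} (hG : Gr G N) (hC : CoreSys G N bad C) (v0 : V) (r Z : ℕ)
    (hZ : ∀ (v : V) (q0 : G.Walk v0 v), cost G C q0 ≤ r → ∑ K ∈ coresOf G C q0, ll N K ≤ Z)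
    (s : ℕ) : ∀ (v : V) (q0 : G.Walk v0 v), cost G C q0 + s ≤ r → ∀ T : Finset (Set V),
      T ⊆ coresOf G C q0 → cls G C v ∉ T → (∀ K ∈ coresOf G C q0, K = cls G C v ∨ K ∈ T) →
      (Bset G C v s T).Finite ∧
        (Bset G C v s T).ncard ≤ (4 * N ^ 20) ^ s * (N ^ 20) ^ (Z - ∑ K ∈ T, ll N K) := by
  classical
  have hbig : 2 ≤ N := le_trans (by norm_num [Nbig]) hG.big
  have hDpos : 1 ≤ N ^ 20 := Nat.one_le_pow _ _ (by omega)
  -- bound for the size of the class
  have hcl : ∀ (v : V) (q0 : G.Walk v0 v), cost G C q0 ≤ r → ∀ T : Finset (Set V),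
      T ⊆ coresOf G C q0 → cls G C v ∉ T →
      (cls G C v).ncard * (N ^ 20) ^ (Z - ∑ K ∈ coresOf G C q0, ll N K) ≤
        (N ^ 20) ^ (Z - ∑ K ∈ T, ll N K) := by
    intro v q0 hq T hT hv
    have hle := hZ v q0 hq
    by_cases hvC : v ∈ C
    · have hm : cls G C v ∈ coresOf G C q0 :=
        (mem_coresOf _ _).mpr ⟨v, q0.end_mem_support, hvC, rfl⟩
      have hsub : insert (cls G C v) T ⊆ coresOf G C q0 := by
        intro K hK
        rcases Finset.mem_insert.mp hK with rfl | hK
        · exact hm
        · exact hT hK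
      have hs : ll N (cls G C v) + ∑ K ∈ T, ll N K ≤ ∑ K ∈ coresOf G C q0, ll N K := by
        rw [← Finset.sum_insert hv]
        exact Finset.sum_le_sum_of_subset hsub
      have h1 := ncard_le_ll hbig (cls G C v)
      calc (cls G C v).ncard * (N ^ 20) ^ (Z - ∑ K ∈ coresOf G C q0, ll N K)
          ≤ (N ^ 20) ^ (ll N (cls G C v) - 1) * (N ^ 20) ^ (Z - ∑ K ∈ coresOf G C q0, ll N K) :=
            Nat.mul_le_mul_right _ h1
        _ = (N ^ 20) ^ (ll N (cls G C v) - 1 + (Z - ∑ K ∈ coresOf G C q0, ll N K)) := by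
            rw [← pow_add]
        _ ≤ _ := Nat.pow_le_pow_right hDpos (by omega)
    · rw [cls_out hvC, Set.ncard_singleton, one_mul]
      refine Nat.pow_le_pow_right hDpos ?_
      have := Finset.sum_le_sum_of_subset (f := fun K => ll N K) hT
      omega
  induction s with
  | zero =>
    intro v q0 hq T hT hv hall
    have hsub : Bset G C v 0 T ⊆ cls G C v := by
      rintro u ⟨p, hp, _⟩
      exact mem_cls_of_cost p (Nat.le_zero.mp hp)
    refine ⟨(hC.fin v).subset hsub, ?_⟩
    rw [pow_zero, one_mul]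
    refine (Set.ncard_le_ncard hsub (hC.fin v)).trans (le_trans ?_ (hcl v q0 (by omega) T hT hv))
    exact Nat.le_mul_of_pos_right _ (Nat.pow_pos (by omega))
  | succ s ih =>
    intro v q0 hq T hT hv hall
    set T' := coresOf G C q0 with hT'
    set A : Set V := ⋃ z ∈ cls G C v, G.neighborSet z with hA
    obtain ⟨hAf, hAc⟩ := biUnion_bound (hC.fin v) (fun z => G.neighborSet z) (2 * N ^ 20)
      (fun z _ => ⟨hG.fin z, hG.deg z⟩)
    rw [← hA] at hAf hAc
    set b := (4 * N ^ 20) ^ s * (N ^ 20) ^ (Z - ∑ K ∈ T', ll N K) with hb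
    have hBx : ∀ x ∈ A, (Bset G C x s T').Finite ∧ (Bset G C x s T').ncard ≤ b := by
      intro x hx
      rw [hA, Set.mem_iUnion₂] at hx
      obtain ⟨z, hz, hzx⟩ := hx
      by_cases hxT : cls G C x ∈ T'
      · have : Bset G C x s T' = ∅ := by
          ext u
          simp only [Set.mem_empty_iff_false, iff_false]
          rintro ⟨p, _, hp⟩
          have hxC : x ∈ C := core_sub (coresOf_sub_cores _ hxT) (mem_cls_self x)
          exact hp _ ((mem_coresOf _ _).mpr ⟨x, p.start_mem_support, hxC, rfl⟩) hxT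
        rw [this]; simp
      · obtain ⟨q1, hq1, hq1s⟩ := walk_cls hz
        set q' : G.Walk v0 x := (q0.append q1).append (Walk.cons hzx Walk.nil) with hq'
        have hcost : cost G C q' + s ≤ r := by
          have := cost_cons_le (C := C) (G := G) hzx (Walk.nil)
          rw [cost_nil] at this
          rw [hq', cost_append, cost_append, hq1]; omega
        refine ih x q' hcost T' ?_ hxT ?_
        · rw [hT']
          refine coresOf_mono _ _ (fun w hw => ?_)
          rw [hq', Walk.mem_support_append_iff, Walk.mem_support_append_iff]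
          exact Or.inl (Or.inl hw)
        · intro K hK
          obtain ⟨w, hw, hwC, rfl⟩ := (mem_coresOf _ _).mp hK
          rw [hq', Walk.mem_support_append_iff, Walk.mem_support_append_iff] at hw
          rcases hw with (hw | hw) | hw
          · exact Or.inr ((mem_coresOf _ _).mpr ⟨w, hw, hwC, rfl⟩)
          · have hwv := hq1s w hw
            refine Or.inr ((mem_coresOf _ _).mpr ⟨v, q0.end_mem_support,
              (cls_mem_iff hwv).mp hwC, cls_eq hwv⟩)
          · simp only [Walk.support_cons, Walk.support_nil, List.mem_cons, List.not_mem_nil,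
              or_false] at hw
            rcases hw with rfl | rfl
            · exact Or.inr ((mem_coresOf _ _).mpr ⟨v, q0.end_mem_support,
                (cls_mem_iff hz).mp hwC, cls_eq hz⟩)
            · exact Or.inl rfl
    obtain ⟨hUf, hUc⟩ := biUnion_bound hAf (fun x => Bset G C x s T') b hBx
    have hsub : Bset G C v (s + 1) T ⊆ cls G C v ∪ ⋃ x ∈ A, Bset G C x s T' := by
      rintro u ⟨p, hp, hpT⟩
      by_cases hu : u ∈ cls G C v
      · exact Or.inl hu
      · right
        obtain ⟨z, x, h, p1, p2, he, hz, hall2⟩ := last_exit (cls G C v) p (mem_cls_self v) hu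
        rw [Set.mem_iUnion₂]
        refine ⟨x, ?_, p2, ?_, ?_⟩
        · rw [hA, Set.mem_iUnion₂]; exact ⟨z, hz, h⟩
        · rw [he, cost_append, cost_cons] at hp
          have hnot : ¬ (z ∈ C ∧ x ∈ C) := by
            rintro ⟨hzC, hxC⟩
            exact hall2 x p2.start_mem_support (cls_trans (adj_cls h hzC hxC) hz)
          rw [if_neg hnot] at hp
          omega
        · intro K hK hKT
          obtain ⟨w, hw, hwC, rfl⟩ := (mem_coresOf _ _).mp hK
          rcases hall _ hKT with h' | h'
          · exact hall2 w hw (h' ▸ mem_cls_self w)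
          · refine hpT _ ((mem_coresOf _ _).mpr ⟨w, ?_, hwC, rfl⟩) h'
            rw [he, Walk.mem_support_append_iff, Walk.support_cons]
            exact Or.inr (List.mem_cons_of_mem _ hw)
    refine ⟨((hC.fin v).union hUf).subset hsub, ?_⟩
    have hb1 : 1 ≤ b := Nat.mul_pos (Nat.pow_pos (by omega)) (Nat.pow_pos (by omega))
    calc (Bset G C v (s + 1) T).ncard ≤ (cls G C v ∪ ⋃ x ∈ A, Bset G C x s T').ncard :=
          Set.ncard_le_ncard hsub ((hC.fin v).union hUf)
      _ ≤ (cls G C v).ncard + (⋃ x ∈ A, Bset G C x s T').ncard := Set.ncard_union_le _ _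
      _ ≤ (cls G C v).ncard + (cls G C v).ncard * (2 * N ^ 20) * b := by
          have := Nat.mul_le_mul_right b hAc
          omega
      _ ≤ (cls G C v).ncard * ((4 * N ^ 20) * b) := by
          have h1 : (cls G C v).ncard ≤ (cls G C v).ncard * ((2 * N ^ 20) * b) :=
            Nat.le_mul_of_pos_right _ (by positivity)
          calc (cls G C v).ncard + (cls G C v).ncard * (2 * N ^ 20) * b
              ≤ (cls G C v).ncard * ((2 * N ^ 20) * b) + (cls G C v).ncard * (2 * N ^ 20) * b :=
                Nat.add_le_add_right h1 _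
            _ = _ := by ring
      _ = (4 * N ^ 20) ^ (s + 1) *
            ((cls G C v).ncard * (N ^ 20) ^ (Z - ∑ K ∈ T', ll N K)) := by
          rw [hb]; ring
      _ ≤ _ := Nat.mul_le_mul_left _ (hcl v q0 (by omega) T hT hv)

end Pool.Agent.FPPHE.BALL_

namespace Pool.Agent.FPPHE

open SimpleGraph BALL_

theorem stmt_BALL (hSUM : Stmt_SUM) : Stmt_BALL := by
  classical
  intro V G N bad C hG hC v r M hM
  have hbig : Nbig ≤ N := hG.big
  have hN2 : 4 ≤ N := le_trans (by norm_num [Nbig]) hbig
  have hDpos : 1 ≤ N ^ 20 := Nat.one_le_pow _ _ (by omega)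
  have hZ : ∀ (w : V) (q0 : G.Walk v w), cost G C q0 ≤ r →
      ∑ K ∈ coresOf G C q0, ll N K ≤ M + 2 * r / D0 := by
    intro w q0 hq
    have h := hSUM V G N bad C hG.conn hC v w q0 M (by
      intro K hK
      obtain ⟨u, hu, hu', rfl⟩ := (mem_coresOf _ _).mp hK
      exact hM _ (cls_mem_cores hu') ⟨u, mem_cls_self u, ((dc_support q0 hu).1).trans hq⟩)
    have hD : 0 < D0 := by unfold D0; norm_num
    have h2 : D0 * (∑ K ∈ coresOf G C q0, ll N K) ≤ D0 * M + 2 * r := by omega
    have h3 : (∑ K ∈ coresOf G C q0, ll N K) ≤ (D0 * M + 2 * r) / D0 := by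
      rw [Nat.le_div_iff_mul_le hD, mul_comm]; exact h2
    rwa [Nat.mul_add_div hD] at h3
  set T : Finset (Set V) := ∅ with hT
  have hcase := main hG hC v r (M + 2 * r / D0) hZ r v Walk.nil (by simp) ∅ (by simp) (by simp) (by
    intro K hK
    obtain ⟨w, hw, _, rfl⟩ := (mem_coresOf _ _).mp hK
    simp only [Walk.support_nil, List.mem_cons, List.not_mem_nil, or_false] at hw
    subst hw
    exact Or.inl rfl)
  have heq : {u | dc G C v u ≤ r} = Bset G C v r ∅ := by
    ext u
    constructor
    · intro hu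
      obtain ⟨p, hp⟩ := exists_walk (C := C) hG.conn v u
      exact ⟨p, hp ▸ hu, fun K _ => by simp⟩
    · rintro ⟨p, hp, _⟩
      exact (dc_le p).trans hp
  rw [heq]
  refine ⟨hcase.1, hcase.2.trans ?_⟩
  rw [Finset.sum_empty, Nat.sub_zero, mul_pow, pow_add]
  have h1 : 4 ^ r * (N ^ 20) ^ (2 * r / D0) ≤ (N ^ 20) ^ r := by
    have h2 : 4 ^ r ≤ N ^ r := Nat.pow_le_pow_left hN2 r
    have h3 : (N ^ 20) ^ (2 * r / D0) ≤ N ^ r := by
      rw [← pow_mul]
      refine Nat.pow_le_pow_right (by omega) ?_
      unfold D0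
      omega
    calc 4 ^ r * (N ^ 20) ^ (2 * r / D0) ≤ N ^ r * N ^ r := Nat.mul_le_mul h2 h3
      _ = N ^ (2 * r) := by rw [← pow_add]; congr 1; ring
      _ ≤ N ^ (20 * r) := Nat.pow_le_pow_right (by omega) (by omega)
      _ = (N ^ 20) ^ r := by rw [← pow_mul]
  calc 4 ^ r * (N ^ 20) ^ r * ((N ^ 20) ^ M * (N ^ 20) ^ (2 * r / D0))
      = (4 ^ r * (N ^ 20) ^ (2 * r / D0)) * ((N ^ 20) ^ r * (N ^ 20) ^ M) := by ring
    _ ≤ (N ^ 20) ^ r * ((N ^ 20) ^ r * (N ^ 20) ^ M) := Nat.mul_le_mul_right _ h1
    _ = (N ^ 20) ^ (2 * r + M) := by rw [← pow_add, ← pow_add]; congr 1; ring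

end Pool.Agent.FPPHE
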