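import Pool.Agent.Work.MP_04d5a3_full.Defs

/-!
# FPPHE (MP_04d5a3_pr): constants and basic static definitions (PROOF.md, sections 0-6)
-/

namespace Pool.Agent.FPPHE

open scoped ENNReal

/-! ### constants -/

def D0 : ℕ := 10 ^ 6
def G0 : ℕ := 500 * D0
def C1 : ℕ := 1 + G0
def lamI : ℕ := 50000
def nb : ℕ := 2 * lamI
def Ca : ℕ := 2 * lamI
/-- scales of the islands -/
def al (n : ℕ) : ℕ := Ca * lamI ^ n
def hp : ℕ := 3 * lamI
def hh : ℕ := 1 + Ca * (hp + 2)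
def Mst : ℕ := (hh + 1) * C1
def Rn (n : ℕ) : ℕ := 408 * al n
def C6 : ℕ := 100000
def Nbig : ℕ := 10 ^ 10

variable {V : Type}

/-! ### cost, contracted distance, classes -/

/-- number of steps of a walk which do not stay inside `C` -/
noncomputable def cost (G : SimpleGraph V) (C : Set V) : {u v : V} → G.Walk u v → ℕ
  | _, _, SimpleGraph.Walk.nil => 0
  | u, _, SimpleGraph.Walk.cons (v := w) _ p =>
      (open Classical in if u ∈ C ∧ w ∈ C then 0 else 1) + cost G C p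

/-- contracted distance: minimal cost of a walk (junk value `0` if there is no walk) -/
noncomputable def dc (G : SimpleGraph V) (C : Set V) (x y : V) : ℕ :=
  sInf {n | ∃ p : G.Walk x y, cost G C p = n}

/-- the class of `v`: the connected component of `v` in `C`, or `{v}` if `v ∉ C` -/
def cls (G : SimpleGraph V) (C : Set V) (v : V) : Set V :=
  {u | u = v ∨ ∃ p : G.Walk v u, ∀ w ∈ p.support, w ∈ C}

/-- the cores: the connected components of `C` -/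
def Cores (G : SimpleGraph V) (C : Set V) : Set (Set V) := {K | ∃ u ∈ C, K = cls G C u}

/-- logarithmic size, base `D = N ^ 20` -/
noncomputable def ll (N : ℕ) (K : Set V) : ℕ := 1 + Nat.clog (N ^ 20) K.ncard

/-- the cores met by a walk -/
noncomputable def coresOf (G : SimpleGraph V) (C : Set V) {u v : V} (p : G.Walk u v) :
    Finset (Set V) :=
  open Classical in (p.support.toFinset.filter (· ∈ C)).image (cls G C)

/-- number of vertices of a list outside `C`, with multiplicity -/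
noncomputable def outs (C : Set V) (L : List V) : ℕ :=
  open Classical in (L.filter (fun v => decide (v ∉ C))).length

/-- saturated = union of classes -/
def Sat (G : SimpleGraph V) (C S : Set V) : Prop := ∀ v ∈ S, cls G C v ⊆ S

/-! ### the graph -/

/-- adjacency operator on `[0,∞]`-valued functions -/
noncomputable def opA (G : SimpleGraph V) (f : V → ℝ≥0∞) (v : V) : ℝ≥0∞ :=
  ∑' x : G.neighborSet v, f x

/-- square of the `l²` norm -/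
noncomputable def N2 (f : V → ℝ≥0∞) : ℝ≥0∞ := ∑' v, f v ^ 2

/-- what is used about the graph (`D = N ^ 20`, degree `2 D`) in most places -/
structure Gr (G : SimpleGraph V) (N : ℕ) : Prop where
  conn : G.Connected
  fin : ∀ v, (G.neighborSet v).Finite
  deg : ∀ v, (G.neighborSet v).ncard ≤ 2 * N ^ 20
  l2 : ∀ f : V → ℝ≥0∞, N2 (opA G f) ≤ 16 * (N : ℝ≥0∞) ^ 20 * N2 f
  big : Nbig ≤ N

/-! ### dense sets, cores -/

/-- finite connected sets with many bad vertices -/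
def Dense (G : SimpleGraph V) (bad : Set V) (M : ℕ) (S : Set V) : Prop :=
  S.Finite ∧ (G.induce S).Connected ∧ S.ncard ≤ M * (S ∩ bad).ncard

/-- every vertex is in finitely many dense sets -/
def Sparse (G : SimpleGraph V) (bad : Set V) (M : ℕ) : Prop :=
  ∀ v, {S : Set V | Dense G bad M S ∧ v ∈ S}.Finite

/-- conclusion of Lemma CORE (section 1) -/
structure CoreSys (G : SimpleGraph V) (N : ℕ) (bad C : Set V) : Prop where
  sub : bad ⊆ C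
  fin : ∀ v, (cls G C v).Finite
  dens : ∀ v ∈ C, (cls G C v).ncard ≤ C1 * (cls G C v ∩ bad).ncard
  sep : ∀ u ∈ C, ∀ v ∈ C, u ∉ cls G C v →
    D0 * (min (ll N (cls G C u)) (ll N (cls G C v))) ^ 5 ≤ dc G C u v

/-- rich sets (section 3) -/
def Rich (G : SimpleGraph V) (C S : Set V) : Prop :=
  S.Finite ∧ (G.induce S).Connected ∧ Sat G C S ∧ (S \ C).ncard ≤ (S ∩ C).ncard

/-! ### matrices -/

/-- nonnegative infinite matrices acting on `[0,∞]`-valued functions -/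
noncomputable def mulM (t : V → V → ℝ≥0∞) (f : V → ℝ≥0∞) (v : V) : ℝ≥0∞ := ∑' u, t v u * f u

/-- Neumann series `∑ κ^(-n) t^n f` -/
noncomputable def neu (t : V → V → ℝ≥0∞) (κ : ℝ≥0∞) (f : V → ℝ≥0∞) (v : V) : ℝ≥0∞ :=
  ∑' n : ℕ, (κ⁻¹) ^ n * ((mulM t)^[n] f) v

/-- average over the class -/
noncomputable def opPi (G : SimpleGraph V) (C : Set V) (f : V → ℝ≥0∞) (v : V) : ℝ≥0∞ :=
  (∑' u : cls G C v, f u) / ((cls G C v).ncard : ℝ≥0∞)

/-- `Q = Π A Π` -/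
noncomputable def opQ (G : SimpleGraph V) (C : Set V) (f : V → ℝ≥0∞) : V → ℝ≥0∞ :=
  opPi G C (opA G (opPi G C f))

/-- the matrix of `Q` -/
noncomputable def matQ (G : SimpleGraph V) (C : Set V) (v u : V) : ℝ≥0∞ :=
  open Classical in opQ G C (fun x => if x = u then 1 else 0) v

/-- `κ₃ = 4 N^15` -/
noncomputable def kap3 (N : ℕ) : ℝ≥0∞ := 4 * (N : ℝ≥0∞) ^ 15

/-- the kernel `g_x` (section 2) -/
noncomputable def gker (G : SimpleGraph V) (N : ℕ) (C : Set V) (x : V) : V → ℝ≥0∞ :=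
  open Classical in neu (matQ G C) (kap3 N) (fun y => if y ∈ cls G C x then 1 else 0)

/-! ### islands (section 3) -/

/-- rule (a) at scale `n` -/
def ruleA (G : SimpleGraph V) (C : Set V) (n : ℕ) (y : V) : Prop :=
  ∃ S, Rich G C S ∧ al n ≤ Ca * (S ∩ C).ncard ∧ Ca * (S ∩ C).ncard < al (n + 1) ∧
    ∃ s ∈ S, dc G C y s ≤ al n

/-- the islands `X_n` -/
def isl (G : SimpleGraph V) (C : Set V) : ℕ → Set V
  | 0 => {y | ruleA G C 0 y}
  | n + 1 => {y | ruleA G C (n + 1) y ∨ ∃ Y : Finset V, Y.card = nb ∧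
      (∀ z ∈ Y, z ∈ isl G C n ∧ dc G C y z ≤ al (n + 1)) ∧
      ∀ z ∈ Y, ∀ z' ∈ Y, z ≠ z' → 10 * al n ≤ dc G C z z'}

/-- `dc(y, X_n) ≤ r` -/
def nearI (G : SimpleGraph V) (C : Set V) (n r : ℕ) (y : V) : Prop :=
  ∃ x ∈ isl G C n, dc G C y x ≤ r

/-- `D_n` -/
def islD (G : SimpleGraph V) (C : Set V) (n : ℕ) : Set V :=
  {x | x ∈ isl G C n ∧ ∀ m, n < m → ¬ nearI G C m (al m / 4) x}

/-- `IsNet Nt`: for every `n` the set `Nt n` is a maximal `10 α_n`-separated subset of `D_n` -/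
structure IsNet (G : SimpleGraph V) (C : Set V) (Nt : ℕ → Set V) : Prop where
  sub : ∀ n, Nt n ⊆ islD G C n
  sep : ∀ n, ∀ x ∈ Nt n, ∀ y ∈ Nt n, x ≠ y → 10 * al n ≤ dc G C x y
  max : ∀ n, ∀ x ∈ islD G C n, ∃ y ∈ Nt n, dc G C x y < 10 * al n

/-- the truncated kernels -/
noncomputable def Tk (G : SimpleGraph V) (N : ℕ) (C : Set V) (n : ℕ) (x y : V) : ℝ≥0∞ :=
  open Classical in
  if (2 : ℝ≥0∞)⁻¹ ^ n ≤ (N : ℝ≥0∞) ^ (2000 * al n) * gker G N C x y then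
    (N : ℝ≥0∞) ^ (2000 * al n) * gker G N C x y else 0

/-- the field -/
noncomputable def fld (G : SimpleGraph V) (N : ℕ) (C : Set V) (Nt : ℕ → Set V) (y : V) : ℝ≥0∞ :=
  ∑' n : ℕ, ∑' x : Nt n, Tk G N C n x y

/-- the properties of the field used later (section 4) -/
structure Field (G : SimpleGraph V) (N : ℕ) (bad C : Set V) (U : V → ℝ) : Prop where
  nonneg : ∀ v, 0 ≤ U v
  const : ∀ u v, u ∈ cls G C v → U u = U v
  f1 : ∀ v, v ∉ C → ∑ᶠ x ∈ G.neighborSet v, U x ≤ (N : ℝ) ^ 16 * max (U v) 1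
  f1b : ∀ u v, u ∈ C → G.Adj u v → U v ≤ (N : ℝ) ^ 16 * (cls G C u).ncard * U u
  f2 : ∀ v ∈ C, (N : ℝ) ^ (1760 * max Ca (2 * (cls G C v).ncard)) ≤ U v
  f3 : ∀ S, Rich G C S → ∀ v ∈ S, 1 ≤ U v
  f4 : ∀ (u v : V) (p : G.Walk u v), (∀ w ∈ p.support, 1 ≤ U w) →
    ∃ S, Dense G bad Mst S ∧ u ∈ S ∧ v ∈ S

/-! ### the function `ρ` (section 5) -/

/-- hypotheses on the factor `H` of `G = H □ H` -/
structure Fac {Λ : Type} (H : SimpleGraph Λ) (N : ℕ) : Prop where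
  conn : H.Connected
  reg : ∀ a, (H.neighborSet a).ncard = N ^ 20
  big : Nbig ≤ N

/-- properties of `ρ` for the target `v` -/
structure Rho (G : SimpleGraph V) (N : ℕ) (C : Set V) (U : V → ℝ) (v : V) (ρ : V → ℝ) : Prop where
  nonneg : ∀ y, 0 ≤ ρ y
  r1 : ∀ y, U y < 1 → y ≠ v → ∃ x, G.Adj y x ∧ U x < 1 ∧ ρ x ≤ ρ y - 1
  r2 : ∀ y, y ∉ C → 1 ≤ U y → {x | G.Adj y x ∧ x ∉ C ∧ ρ y - 1 < ρ x}.ncard * 100 ≤ N ^ 20
  r3 : ∀ y y', y ∉ C → y' ∉ C → ∀ p : G.Walk y y',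
    |ρ y - ρ y'| ≤ C6 * (cost G C p + ∑ K ∈ coresOf G C p, ll N K : ℕ)

/-! ### collars (section 6) -/

/-- `w_K` -/
noncomputable def wt (N : ℕ) (K : Set V) : ℕ := ll N K

/-- the derivation of the points of the collars of `K` (only smaller cores are swallowed); `rk j y` = stage
at which `(j,y)` is derived -/
def Ranked (G : SimpleGraph V) (N : ℕ) (C : Set V) (Col : Set V → ℕ → Set V) (K : Set V)
    (rk : ℕ → V → ℕ) : Prop :=
  ∀ j, j ≤ 11 * wt N K → ∀ y ∈ Col K j,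
    y ∈ K ∨
    (∃ X : Finset V, N ^ 20 ≤ 100 * X.card ∧ ∀ x ∈ X, G.Adj y x ∧ x ∈ Col K j ∧ rk j x < rk j y) ∨
    (∃ i x, i < j ∧ x ∈ Col K i ∧ (G.Adj x y ∨ x = y) ∧ rk i x < rk j y) ∨
    (∃ K' ∈ Cores G C, K'.ncard < K.ncard ∧ y ∈ Col K' (11 * wt N K') ∧
      ∃ z ∈ Col K' (11 * wt N K'), z ∈ Col K j ∧ rk j z < rk j y)

/-- existence part of the collars: (C1)-(C3) and the derivation -/
structure PreCollars (G : SimpleGraph V) (N : ℕ) (C : Set V) (Col : Set V → ℕ → Set V) : Prop where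
  base : ∀ K ∈ Cores G C, K ⊆ Col K 0
  mono : ∀ K ∈ Cores G C, ∀ i j, i ≤ j → j ≤ 11 * wt N K → Col K i ⊆ Col K j
  clos : ∀ K ∈ Cores G C, ∀ j, j ≤ 11 * wt N K → ∀ y, y ∉ Col K j →
    {x | G.Adj y x ∧ x ∈ Col K j}.ncard * 100 < N ^ 20
  nbr : ∀ K ∈ Cores G C, ∀ j, j < 11 * wt N K → ∀ y ∈ Col K j, ∀ z, G.Adj y z → z ∈ Col K (j + 1)
  swal : ∀ K ∈ Cores G C, ∀ K' ∈ Cores G C, K'.ncard < K.ncard → ∀ j, j ≤ 11 * wt N K →
    Col K' (11 * wt N K') ⊆ Col K j ∨ Disjoint (Col K' (11 * wt N K')) (Col K j)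
  ranked : ∀ K ∈ Cores G C, ∃ rk, Ranked G N C Col K rk

/-- (C1)-(C4) -/
structure Collars (G : SimpleGraph V) (N : ℕ) (C : Set V) (Col : Set V → ℕ → Set V) : Prop where
  base : ∀ K ∈ Cores G C, K ⊆ Col K 0
  mono : ∀ K ∈ Cores G C, ∀ i j, i ≤ j → j ≤ 11 * wt N K → Col K i ⊆ Col K j
  clos : ∀ K ∈ Cores G C, ∀ j, j ≤ 11 * wt N K → ∀ y, y ∉ Col K j →
    {x | G.Adj y x ∧ x ∈ Col K j}.ncard * 100 < N ^ 20
  nbr : ∀ K ∈ Cores G C, ∀ j, j < 11 * wt N K → ∀ y ∈ Col K j, ∀ z, G.Adj y z → z ∈ Col K (j + 1)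
  swal : ∀ K ∈ Cores G C, ∀ K' ∈ Cores G C, K'.ncard < K.ncard → ∀ j, j ≤ 11 * wt N K →
    Col K' (11 * wt N K') ⊆ Col K j ∨ Disjoint (Col K' (11 * wt N K')) (Col K j)
  reach : ∀ K ∈ Cores G C, ∀ j, j ≤ 11 * wt N K → ∀ y ∈ Col K j, ∀ u ∈ K,
    dc G C u y ≤ 5 * (j + wt N K)

/-- (C5)-(C8), (C10) -/
structure Collars2 (G : SimpleGraph V) (N : ℕ) (C : Set V) (Col : Set V → ℕ → Set V) : Prop where
  c5 : ∀ K ∈ Cores G C, ∀ K' ∈ Cores G C, K ≠ K' → ∀ y, y ∈ Col K (11 * wt N K) →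
    y ∈ Col K' (11 * wt N K') → wt N K ≤ wt N K' →
    100 * wt N K ≤ wt N K' ∧ K.ncard < K'.ncard
  /-- levels -/
  c6 : ∀ K ∈ Cores G C, ∀ (y z : V) (p : G.Walk y z) (i : ℕ), y ∈ Col K i →
    i + outs C p.support.tail ≤ 11 * wt N K → z ∈ Col K (i + outs C p.support.tail)
  /-- exit -/
  c7 : ∀ K ∈ Cores G C, ∀ y ∈ Col K (wt N K), ∀ z, G.Adj y z → z ∉ Col K (wt N K) →
    z ∉ C ∧ ∀ K' ∈ Cores G C, ∀ i, i ≤ wt N K' → z ∈ Col K' i → Col K (wt N K) ⊆ Col K' i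
  /-- at most one adjacent collar -/
  c8 : ∀ (j : Set V → ℕ), (∀ K, j K ≤ wt N K) → ∀ y, (∀ K ∈ Cores G C, y ∉ Col K (j K)) →
    ∀ K ∈ Cores G C, ∀ K' ∈ Cores G C, (∃ x, G.Adj y x ∧ x ∈ Col K (j K)) →
    (∃ x, G.Adj y x ∧ x ∈ Col K' (j K')) → K = K'
  c10 : ∀ y, {K | K ∈ Cores G C ∧ y ∈ Col K (11 * wt N K)}.Finite

/-! ### input of the dynamic theorem (section 8) -/

/-- everything that the dynamic argument uses; `Kon` is the constant called `C'` -/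
structure DynData (G : SimpleGraph V) (C : Set V) (Col : Set V → ℕ → Set V) (w : Set V → ℕ)
    (ρ : V → ℝ) (o v : V) (Kon : ℝ) : Prop where
  kon : 1 ≤ Kon
  rho_nonneg : ∀ y, 0 ≤ ρ y
  o_not : o ∉ C
  v_not : v ∉ C
  w_pos : ∀ K, 1 ≤ w K
  base : ∀ K ∈ Cores G C, K ⊆ Col K 0
  mono : ∀ K ∈ Cores G C, ∀ i j, i ≤ j → j ≤ 11 * w K → Col K i ⊆ Col K j
  /-- descent to a visible neighbour; `KK` is any set of cores containing all cores whose `F_K` meets `y` -/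
  desc : ∀ (KK : Set (Set V)), KK ⊆ Cores G C → ∀ (j : Set V → ℕ), (∀ K, j K ≤ w K) →
    ∀ y, y ≠ v → (∀ K ∈ Cores G C, y ∈ Col K (11 * w K) → K ∈ KK) →
    (∀ K ∈ KK, y ∉ Col K (j K)) →
    ∃ x, G.Adj y x ∧ x ∉ C ∧ (∀ K ∈ KK, x ∉ Col K (j K)) ∧ ρ x ≤ ρ y - 1
  /-- exit (C7) -/
  exit : ∀ K ∈ Cores G C, ∀ y ∈ Col K (w K), ∀ z, G.Adj y z → z ∉ Col K (w K) →
    z ∉ C ∧ ∀ K' ∈ Cores G C, ∀ i, i ≤ w K' → z ∈ Col K' i → Col K (w K) ⊆ Col K' i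
  /-- chain (C3), (C5) -/
  chain : ∀ K ∈ Cores G C, ∀ K' ∈ Cores G C, K ≠ K' → w K ≤ w K' → ∀ i i', i ≤ w K → i' ≤ w K' →
    ∀ y, y ∈ Col K i → y ∈ Col K' i' →
    100 * w K ≤ w K' ∧ Col K (11 * w K) ⊆ Col K' i'
  /-- the same alternative for two collars of different size -/
  alt : ∀ K ∈ Cores G C, ∀ K' ∈ Cores G C, w K < w K' → ∀ i', i' ≤ w K' → ∀ y z,
    y ∈ Col K (w K + 1) → z ∈ Col K (w K + 1) → y ∈ Col K' i' → z ∈ Col K' i'
  /-- levels (C6) -/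
  level : ∀ K ∈ Cores G C, ∀ (y z : V) (p : G.Walk y z) (i : ℕ), y ∈ Col K i →
    i + outs C p.support.tail ≤ 11 * w K → z ∈ Col K (i + outs C p.support.tail)
  /-- neighbours -/
  nbr : ∀ K ∈ Cores G C, ∀ j, j < 11 * w K → ∀ y ∈ Col K j, ∀ z, G.Adj y z → z ∈ Col K (j + 1)
  /-- oscillation (C11) -/
  osc : ∀ K ∈ Cores G C, ∀ y z, y ∉ C → z ∉ C → y ∈ Col K (w K + 1) → z ∈ Col K (w K + 1) →
    ρ y ≤ ρ z + Kon * w K
  o_vis : ∀ K ∈ Cores G C, o ∉ Col K (w K)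
  fin : ∀ y, {K | K ∈ Cores G C ∧ y ∈ Col K (11 * w K)}.Finite
  /-- crossing (SUM and (R3)) -/
  cross : ∀ (x y : V), x ∉ C → y ∉ C → ∀ (p : G.Walk x y) (g : ℕ), 1 ≤ g →
    outs C p.support.tail ≤ g → (∀ K ∈ Cores G C, (∃ z ∈ p.support, z ∈ K) → w K < 2 * g) →
    ρ y ≤ ρ x + Kon * g

/-- the constant `C'` -/
def Kon0 : ℝ := 40 * (C6 : ℝ)

/-- good environment off `C` -/
structure GoodEnv (G : SimpleGraph V) (C : Set V) (ω : Env V) (A N' : ℝ) : Prop where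
  pos1 : ∀ e, 0 < ω.2.1 e
  pos2 : ∀ e, 0 < ω.2.2 e
  noseed : ∀ y, y ∉ C → ω.1 y = false
  red : ∀ y, y ∉ C → ∀ x, G.Adj y x → ω.2.1 s(y, x) ≤ A
  blue : ∀ y, y ∉ C → ∀ x, G.Adj y x → N' ≤ ω.2.2 s(y, x)

end Pool.Agent.FPPHE
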