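import Pool.Agent.Work.MP_04d5a3_full.T34b

/-!
# Block CERT: certificates of islands (slack induction)
-/

set_option autoImplicit false

namespace Pool.Agent.FPPHE

open scoped ENNReal
open T34

namespace CERT_

variable {V : Type} {G : SimpleGraph V} {C : Set V}

/-- a vertex near a rich set -/
theorem cert_a {N : ℕ} {bad : Set V} (hG : G.Connected) (hC : CoreSys G N bad C) (n : ℕ) (y : V)
    (h : ruleA G C n y) : ∃ S : Set V, S.Finite ∧ (G.induce S).Connected ∧
      Sat G C S ∧ y ∈ S ∧ (∀ s ∈ S, dc G C y s ≤ 2 * al n) ∧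
      (S \ C).ncard + hp * al n ≤ hh * (S ∩ C).ncard := by
  obtain ⟨S, ⟨hSf, hSc, hSs, hSr⟩, h1, h2, s, hs, hys⟩ := h
  obtain ⟨p, hp'⟩ := exists_cost (C := C) hG y s
  have hcost : cost G C p ≤ al n := by rw [hp']; exact hys
  have hfin : (hull G C p).Finite := hull_finite hC.fin p
  have hSH : (S ∪ hull G C p).Finite := hSf.union hfin
  have hcon : (G.induce (S ∪ hull G C p)).Connected :=
    SimpleGraph.induce_union_connected hSc.preconnected (hull_conn p).preconnected
      ⟨s, hs, mem_hull p p.end_mem_support⟩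
  have hmass : 2 * (S ∩ C).ncard ≤ al n := by
    rw [al_succ] at h2
    unfold Ca lamI at h2
    omega
  refine ⟨S ∪ hull G C p, hSH, hcon, Sat.union hSs (hull_sat p),
    Or.inr (mem_hull p p.start_mem_support), ?_, ?_⟩
  · rintro x (hx | hx)
    · have h3 := dc_triangle (C := C) hG y s x
      have h4 := dc_le_of_conn (C := C) hSf hSc hs hx
      omega
    · have h3 := hull_dc (C := C) hG p hx
      omega
  · have h3 : ((S ∪ hull G C p) \ C).ncard ≤ (S \ C).ncard + (al n + 1) := by
      rw [Set.union_diff_distrib]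
      refine (Set.ncard_union_le _ _).trans (Nat.add_le_add_left ?_ _)
      exact (hull_outs p).trans (Nat.add_le_add_right hcost 1)
    have h4 : (S ∩ C).ncard ≤ ((S ∪ hull G C p) ∩ C).ncard :=
      Set.ncard_le_ncard (Set.inter_subset_inter_left C Set.subset_union_left)
        (hSH.inter_of_left C)
    have h5 : hh * (S ∩ C).ncard ≤ hh * ((S ∪ hull G C p) ∩ C).ncard :=
      Nat.mul_le_mul_left _ h4
    have h6 := al_pos n
    have h7 : hh * (S ∩ C).ncard = (S ∩ C).ncard + (hp + 2) * (Ca * (S ∩ C).ncard) := by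
      unfold hh
      ring
    have h8 : (hp + 2) * al n ≤ (hp + 2) * (Ca * (S ∩ C).ncard) := Nat.mul_le_mul_left _ h1
    have h9 : (hp + 2) * al n = hp * al n + 2 * al n := by ring
    omega

theorem ncard_biUnion_le {α : Type} (Y : Finset α) (S : α → Set V) :
    (⋃ z ∈ Y, S z).ncard ≤ ∑ z ∈ Y, (S z).ncard := by
  classical
  induction Y using Finset.induction_on with
  | empty => simp
  | insert a Y ha ih =>
    rw [Finset.set_biUnion_insert, Finset.sum_insert ha]
    exact (Set.ncard_union_le _ _).trans (Nat.add_le_add_left ih _)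

theorem ncard_biUnion_disjoint {α : Type} (Y : Finset α) (S : α → Set V)
    (hf : ∀ z ∈ Y, (S z).Finite) (hd : ∀ z ∈ Y, ∀ z' ∈ Y, z ≠ z' → Disjoint (S z) (S z')) :
    (⋃ z ∈ Y, S z).ncard = ∑ z ∈ Y, (S z).ncard := by
  classical
  induction Y using Finset.induction_on with
  | empty => simp
  | insert a Y ha ih =>
    have hdis : Disjoint (S a) (⋃ z ∈ Y, S z) := by
      rw [Set.disjoint_iUnion₂_right]
      intro z hz
      apply hd a (Finset.mem_insert_self a Y) z (Finset.mem_insert_of_mem hz)
      rintro rfl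
      exact ha hz
    rw [Finset.set_biUnion_insert, Finset.sum_insert ha,
      Set.ncard_union_eq hdis (hf a (Finset.mem_insert_self a Y))
        (Y.finite_toSet.biUnion fun z hz => hf z (Finset.mem_insert_of_mem hz)), ih]
    · exact fun z hz => hf z (Finset.mem_insert_of_mem hz)
    · exact fun z hz z' hz' => hd z (Finset.mem_insert_of_mem hz) z' (Finset.mem_insert_of_mem hz')

end CERT_

open CERT_

theorem stmt_CERT : Stmt_CERT := by
  intro V G N bad C hGr hC n
  have hG := hGr.conn
  induction n with
  | zero => exact fun y hy => cert_a hG hC 0 y hy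
  | succ n ih =>
    intro y hy
    rcases hy with hy | ⟨Y, hYc, hY, hYs⟩
    · exact cert_a hG hC (n + 1) y hy
    · classical
      have hex : ∀ z : V, ∃ T : Set V, z ∈ Y → (T.Finite ∧ (G.induce T).Connected ∧
          Sat G C T ∧ z ∈ T ∧ (∀ s ∈ T, dc G C z s ≤ 2 * al n) ∧
          (T \ C).ncard + hp * al n ≤ hh * (T ∩ C).ncard) := by
        intro z
        by_cases hz : z ∈ Y
        · obtain ⟨T, hT⟩ := ih z (hY z hz).1
          exact ⟨T, fun _ => hT⟩
        · exact ⟨∅, fun h => absurd h hz⟩
      choose S hS using hex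
      have hpex : ∀ z : V, ∃ p : G.Walk y z, cost G C p = dc G C y z := fun z =>
        exists_cost hG y z
      choose p hp' using hpex
      have hcost : ∀ z ∈ Y, cost G C (p z) ≤ al (n + 1) := fun z hz => by
        rw [hp']; exact (hY z hz).2
      have hstep : 50000 * al n ≤ al (n + 1) := al_lt_step (Nat.lt_succ_self n)
      have hal := al_pos n
      set T : Set V := ⋃ z ∈ Y, (S z ∪ hull G C (p z)) with hT
      have hTf : T.Finite := Y.finite_toSet.biUnion fun z hz =>
        (hS z hz).1.union (hull_finite hC.fin (p z))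
      have hne : Y.Nonempty := by
        rw [← Finset.card_pos, hYc]
        unfold nb lamI
        norm_num
      have hyT : y ∈ T := by
        obtain ⟨z, hz⟩ := hne
        exact Set.mem_biUnion hz (Or.inr (mem_hull _ (p z).start_mem_support))
      have hcon : ∀ z ∈ Y, (G.induce (S z ∪ hull G C (p z))).Connected := fun z hz =>
        SimpleGraph.induce_union_connected (hS z hz).2.1.preconnected (hull_conn (p z)).preconnected
          ⟨z, (hS z hz).2.2.2.1, mem_hull _ (p z).end_mem_support⟩
      refine ⟨T, hTf, ?_, ?_, hyT, ?_, ?_⟩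
      · refine conn_of_walks hyT fun x hx => ?_
        obtain ⟨z, hz, hx⟩ := Set.mem_iUnion₂.1 hx
        obtain ⟨q, _, hq⟩ := walk_of_conn (hcon z hz)
          (Or.inr (mem_hull _ (p z).start_mem_support)) hx
        exact ⟨q, fun w hw => Set.mem_biUnion hz (hq w hw)⟩
      · intro x hx
        obtain ⟨z, hz, hx⟩ := Set.mem_iUnion₂.1 hx
        exact ((Sat.union (hS z hz).2.2.1 (hull_sat (p z))) x hx).trans
          (Set.subset_biUnion_of_mem (u := fun z => S z ∪ hull G C (p z)) hz)
      · intro x hx
        obtain ⟨z, hz, hx⟩ := Set.mem_iUnion₂.1 hx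
        rcases hx with hx | hx
        · have h3 := dc_triangle (C := C) hG y z x
          have h4 := (hS z hz).2.2.2.2.1 x hx
          have h5 := (hY z hz).2
          omega
        · have h3 := hull_dc (C := C) hG (p z) hx
          have h4 := hcost z hz
          omega
      · -- the count
        have h1 : (T \ C).ncard ≤ ∑ z ∈ Y, ((S z \ C).ncard + (al (n + 1) + 1)) := by
          have e1 : T \ C = ⋃ z ∈ Y, ((S z \ C) ∪ (hull G C (p z) \ C)) := by
            ext x
            simp only [hT, Set.mem_diff, Set.mem_iUnion, Set.mem_union, exists_prop]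
            constructor
            · rintro ⟨⟨z, hz, hx⟩, hxC⟩
              exact ⟨z, hz, hx.elim (fun h => Or.inl ⟨h, hxC⟩) fun h => Or.inr ⟨h, hxC⟩⟩
            · rintro ⟨z, hz, hx⟩
              rcases hx with hx | hx
              · exact ⟨⟨z, hz, Or.inl hx.1⟩, hx.2⟩
              · exact ⟨⟨z, hz, Or.inr hx.1⟩, hx.2⟩
          rw [e1]
          refine (ncard_biUnion_le Y _).trans (Finset.sum_le_sum fun z hz => ?_)
          refine (Set.ncard_union_le _ _).trans (Nat.add_le_add_left ?_ _)
          exact (hull_outs (p z)).trans (Nat.add_le_add_right (hcost z hz) 1)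
        have h2 : ∑ z ∈ Y, (S z ∩ C).ncard ≤ (T ∩ C).ncard := by
          rw [← ncard_biUnion_disjoint Y (fun z => S z ∩ C)]
          · apply Set.ncard_le_ncard _ (hTf.inter_of_left C)
            intro x hx
            obtain ⟨z, hz, hx⟩ := Set.mem_iUnion₂.1 hx
            exact ⟨Set.mem_biUnion hz (Or.inl hx.1), hx.2⟩
          · exact fun z hz => (hS z hz).1.inter_of_left C
          · intro z hz z' hz' hne
            rw [Set.disjoint_left]
            rintro x ⟨hx, _⟩ ⟨hx', _⟩
            have h3 := dc_triangle (C := C) hG z x z'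
            have h4 := (hS z hz).2.2.2.2.1 x hx
            have h5 := (hS z' hz').2.2.2.2.1 x hx'
            rw [dc_comm hG] at h5
            have h6 := hYs z hz z' hz' hne
            omega
        have h3 : ∑ z ∈ Y, ((S z \ C).ncard + hp * al n) ≤ ∑ z ∈ Y, hh * (S z ∩ C).ncard :=
          Finset.sum_le_sum fun z hz => (hS z hz).2.2.2.2.2
        rw [Finset.sum_add_distrib, Finset.sum_const, hYc, smul_eq_mul] at h1 h3
        rw [← Finset.mul_sum] at h3
        have h4 : hh * ∑ z ∈ Y, (S z ∩ C).ncard ≤ hh * (T ∩ C).ncard := Nat.mul_le_mul_left _ h2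
        have h5 : al (n + 1) = 50000 * al n := by rw [al_succ]; rfl
        have h6 : nb * (al (n + 1) + 1) + hp * al (n + 1) ≤ nb * (hp * al n) := by
          rw [h5]
          unfold nb hp lamI
          omega
        omega

end Pool.Agent.FPPHE
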