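import Pool.Agent.Work.MP_04d5a3_full.Interface
import Pool.Agent.Work.MP_04d5a3_full.Tool

/-! # Block CHAIN -/

namespace Pool.Agent.FPPHE.CHAIN_

open SimpleGraph

variable {V : Type} {G : SimpleGraph V} {C : Set V}

lemma sum_mono {N : ℕ} {S T : Finset (Set V)} (h : S ⊆ T) :
    ∑ K ∈ S, ll N K ≤ ∑ K ∈ T, ll N K :=
  Finset.sum_le_sum_of_subset h

lemma main {N : ℕ} {F : V → ℝ} {a b : ℝ} (ha : 0 ≤ a) (hb : 0 ≤ b)
    (hF : ∀ u v, u ∈ cls G C v → F u = F v)
    (h1 : ∀ x y, G.Adj x y → x ∉ C → y ∉ C → F x ≤ F y + a)
    (h2 : ∀ x y, G.Adj x y → x ∈ C → y ∉ C →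
      F x ≤ F y + a + b * ll N (cls G C x) ∧ F y ≤ F x + a + b * ll N (cls G C x)) (n : ℕ) :
    ∀ (x y : V) (p : G.Walk x y), p.length ≤ n →
      (x ∉ C → F x ≤ F y + a * cost G C p + 2 * b * (∑ K ∈ coresOf G C p, ll N K : ℕ)) ∧
      (x ∈ C → F x + b * ll N (cls G C x) ≤
        F y + a * cost G C p + 2 * b * (∑ K ∈ coresOf G C p, ll N K : ℕ)) := by
  classical
  induction n using Nat.strong_induction_on with
  | _ n ih =>
    intro x y p hp
    cases p with
    | nil =>
      constructor
      · intro _
        have : (0 : ℝ) ≤ 2 * b * (∑ K ∈ coresOf G C (Walk.nil : G.Walk x x), ll N K : ℕ) := by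
          positivity
        simp only [cost_nil, Nat.cast_zero, mul_zero, add_zero]
        linarith
      · intro hx
        have hm : cls G C x ∈ coresOf G C (Walk.nil : G.Walk x x) :=
          (mem_coresOf _ _).mpr ⟨x, by simp, hx, rfl⟩
        have h3 : ll N (cls G C x) ≤ ∑ K ∈ coresOf G C (Walk.nil : G.Walk x x), ll N K :=
          Finset.single_le_sum (f := fun K => ll N K) (fun _ _ => Nat.zero_le _) hm
        have h4 : (ll N (cls G C x) : ℝ) ≤
            ((∑ K ∈ coresOf G C (Walk.nil : G.Walk x x), ll N K : ℕ) : ℝ) := by
          exact_mod_cast h3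
        simp only [cost_nil, Nat.cast_zero, mul_zero, add_zero]
        nlinarith [Nat.cast_nonneg (α := ℝ) (ll N (cls G C x))]
    | @cons _ w _ h q =>
      rw [Walk.length_cons] at hp
      have hsub : coresOf G C q ⊆ coresOf G C (Walk.cons h q) :=
        coresOf_mono q (Walk.cons h q) (fun z hz => by simp [hz])
      have hs : ((∑ K ∈ coresOf G C q, ll N K : ℕ) : ℝ) ≤
          ((∑ K ∈ coresOf G C (Walk.cons h q), ll N K : ℕ) : ℝ) := by
        exact_mod_cast sum_mono hsub
      have hq := ih (q.length) (by omega) w y q le_rfl
      constructor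
      · intro hx
        have hc : cost G C (Walk.cons h q) = 1 + cost G C q := by
          rw [cost_cons, if_neg (fun hh => hx hh.1)]
        rw [hc]; push_cast
        by_cases hw : w ∈ C
        · have := (h2 w x h.symm hw hx).2
          have := hq.2 hw
          push_cast at hs this
          nlinarith
        · have := h1 x w h hx hw
          have := hq.1 hw
          push_cast at hs this
          nlinarith
      · intro hx
        by_cases hret : ∃ z ∈ q.support, z ∈ cls G C x
        · obtain ⟨z, hz, hzx⟩ := hret
          have hzC : z ∈ C := (cls_mem_iff hzx).mpr hx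
          have hl : (q.dropUntil z hz).length ≤ q.length := by
            have := congrArg Walk.length (q.take_spec hz)
            rw [Walk.length_append] at this; omega
          have hd := (ih (q.dropUntil z hz).length (by omega) z y (q.dropUntil z hz) le_rfl).2 hzC
          have hcq : cost G C (q.dropUntil z hz) ≤ cost G C (Walk.cons h q) := by
            have := congrArg (cost G C) (q.take_spec hz)
            rw [cost_append] at this
            rw [cost_cons]; omega
          have hss : ((∑ K ∈ coresOf G C (q.dropUntil z hz), ll N K : ℕ) : ℝ) ≤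
              ((∑ K ∈ coresOf G C (Walk.cons h q), ll N K : ℕ) : ℝ) := by
            have : coresOf G C (q.dropUntil z hz) ⊆ coresOf G C (Walk.cons h q) :=
              coresOf_mono _ _ (fun y hy => by
                have := q.support_dropUntil_subset_support hz hy
                simp [this])
            exact_mod_cast sum_mono this
          rw [cls_eq hzx, hF z x hzx] at hd
          have hcq' : (cost G C (q.dropUntil z hz) : ℝ) ≤ cost G C (Walk.cons h q) := by
            exact_mod_cast hcq
          nlinarith
        · push Not at hret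
          have hwC : w ∉ C := fun hw => hret w q.start_mem_support (adj_cls h hx hw)
          have hc : cost G C (Walk.cons h q) = 1 + cost G C q := by
            rw [cost_cons, if_neg (fun hh => hwC hh.2)]
          have hnot : cls G C x ∉ coresOf G C q := by
            intro hm
            obtain ⟨z, hz, hzC, he⟩ := (mem_coresOf _ _).mp hm
            exact hret z hz (he ▸ mem_cls_self z)
          have hins : insert (cls G C x) (coresOf G C q) ⊆ coresOf G C (Walk.cons h q) := by
            intro K hK
            rcases Finset.mem_insert.mp hK with rfl | hK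
            · exact (mem_coresOf _ _).mpr ⟨x, by simp, hx, rfl⟩
            · exact hsub hK
          have hsum : ll N (cls G C x) + ∑ K ∈ coresOf G C q, ll N K ≤
              ∑ K ∈ coresOf G C (Walk.cons h q), ll N K := by
            rw [← Finset.sum_insert hnot]
            exact sum_mono hins
          have hsum' : (ll N (cls G C x) : ℝ) + ((∑ K ∈ coresOf G C q, ll N K : ℕ) : ℝ) ≤
              ((∑ K ∈ coresOf G C (Walk.cons h q), ll N K : ℕ) : ℝ) := by
            exact_mod_cast hsum
          have e1 := (h2 x w h hx hwC).1
          have e2 := hq.1 hwC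
          rw [hc]; push_cast at e2 hsum' ⊢
          nlinarith

end Pool.Agent.FPPHE.CHAIN_

namespace Pool.Agent.FPPHE

theorem stmt_CHAIN : Stmt_CHAIN := by
  intro V G N C F a b ha hb hF h1 h2 x y p
  obtain ⟨m1, m2⟩ := CHAIN_.main ha hb hF h1 h2 p.length x y p le_rfl
  by_cases hx : x ∈ C
  · have := m2 hx
    have h3 : (0 : ℝ) ≤ b * ll N (cls G C x) := by positivity
    linarith
  · exact m1 hx

end Pool.Agent.FPPHE
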