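import Pool.Agent.Work.MP_04d5a3_full.Interface

/-!
# FPPHE, block COIN: almost surely no coincidences between finite sums of clocks
-/

namespace Pool.Agent.FPPHE.COIN_

open Pool.Agent.FPPHE MeasureTheory ProbabilityTheory
open scoped ENNReal

lemma exp_singleton (r : ℝ) (c : ℝ) : expMeasure r {c} = 0 := by
  have h : expMeasure r ≪ volume := by
    unfold expMeasure gammaMeasure
    exact withDensity_absolutelyContinuous _ _
  exact h (by simp)

/-- a linear combination of independent variables without atoms has no atoms -/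
theorem slice {ι : Type} (m : Measure ℝ) [IsProbabilityMeasure m] (hm : ∀ c, m {c} = 0)
    (T : Finset ι) (α : ι → ℝ) (e0 : ι) (h0 : e0 ∈ T) (hα : α e0 ≠ 0) (c : ℝ) :
    Measure.infinitePi (fun _ : ι => m) {a | ∑ e ∈ T, α e * a e = c} = 0 := by
  classical
  set P : Measure (ι → ℝ) := Measure.infinitePi (fun _ : ι => m) with hP
  have hind : iIndepFun (fun (e : ι) (a : ι → ℝ) => α e * a e) P :=
    iIndepFun_infinitePi (P := fun _ : ι => m) (X := fun e x => α e * x) (by fun_prop)
  have hmeas : ∀ e : ι, Measurable (fun a : ι → ℝ => α e * a e) := by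
    intro e; fun_prop
  have hI := hind.indepFun_finsetSum_of_notMem hmeas (Finset.notMem_erase e0 T)
  set S : (ι → ℝ) → ℝ := ∑ j ∈ T.erase e0, (fun a : ι → ℝ => α j * a j) with hS
  have hSm : Measurable S := by
    have hSe : S = fun a : ι → ℝ => ∑ j ∈ T.erase e0, α j * a j := by
      ext a
      simp [hS]
    rw [hSe]
    exact Finset.measurable_sum _ (fun j _ => hmeas j)
  have hmap := (indepFun_iff_map_prod_eq_prod_map_map hSm.aemeasurable
    (hmeas e0).aemeasurable).1 hI
  have hset : {a : ι → ℝ | ∑ e ∈ T, α e * a e = c} =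
      (fun a => (S a, α e0 * a e0)) ⁻¹' {q : ℝ × ℝ | q.1 + q.2 = c} := by
    ext a
    simp only [Set.mem_ofPred_eq, Set.mem_preimage]
    rw [← Finset.sum_erase_add T _ h0, hS]
    simp
  have hmq : MeasurableSet {q : ℝ × ℝ | q.1 + q.2 = c} :=
    measurableSet_eq_fun (by fun_prop) (by fun_prop)
  rw [hset, ← Measure.map_apply (by fun_prop) hmq, hmap]
  have : IsProbabilityMeasure (P.map (fun a : ι → ℝ => α e0 * a e0)) :=
    Measure.isProbabilityMeasure_map (hmeas e0).aemeasurable
  have : IsProbabilityMeasure (P.map S) :=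
    Measure.isProbabilityMeasure_map hSm.aemeasurable
  rw [Measure.prod_apply hmq]
  have hz : ∀ x : ℝ, (P.map (fun a : ι → ℝ => α e0 * a e0)) (Prod.mk x ⁻¹' {q : ℝ × ℝ | q.1 + q.2 = c}) = 0 := by
    intro x
    have h1 : (Prod.mk x ⁻¹' {q : ℝ × ℝ | q.1 + q.2 = c}) = {c - x} := by
      ext y
      simp only [Set.mem_preimage, Set.mem_ofPred_eq, Set.mem_singleton_iff]
      constructor <;> intro h <;> linarith
    rw [h1, Measure.map_apply (hmeas e0) (measurableSet_singleton _)]
    have h2 : ((fun a : ι → ℝ => α e0 * a e0) ⁻¹' {c - x}) = (fun a : ι → ℝ => a e0) ⁻¹' {(c - x) / α e0} := by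
      ext a
      simp only [Set.mem_preimage, Set.mem_singleton_iff]
      rw [eq_div_iff hα, mul_comm]
    rw [h2, ← Measure.map_apply (by fun_prop) (measurableSet_singleton _), hP,
      Measure.infinitePi_map_eval]
    exact hm _
  rw [lintegral_congr hz, lintegral_zero]

end Pool.Agent.FPPHE.COIN_

namespace Pool.Agent.FPPHE

open MeasureTheory ProbabilityTheory COIN_
open scoped ENNReal

theorem stmt_COIN : Stmt_COIN := by
  classical
  intro V _ μ lam hμ0 hμ1 hlam
  have h1 : IsProbabilityMeasure (expMeasure 1) := isProbabilityMeasure_expMeasure one_pos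
  have h2 : IsProbabilityMeasure (expMeasure lam) := isProbabilityMeasure_expMeasure hlam
  have hctb : Countable (Sym2 V) := by
    unfold Sym2
    infer_instance
  rw [ae_all_iff]
  intro F
  rw [ae_all_iff]
  intro F'
  by_cases hF : F = F'
  · exact Filter.Eventually.of_forall (fun _ h => absurd hF h)
  set a : Sym2 V × Bool → ℝ := fun x => (if x ∈ F then 1 else 0) - (if x ∈ F' then 1 else 0) with ha
  have hne : ∃ x0 ∈ F ∪ F', a x0 ≠ 0 := by
    by_contra hcon
    push Not at hcon
    apply hF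
    ext x
    by_cases hx1 : x ∈ F
    · have := hcon x (Finset.mem_union_left _ hx1)
      rw [ha] at this
      by_cases hx2 : x ∈ F'
      · simp [hx1, hx2]
      · simp [hx1, hx2] at this
    · by_cases hx2 : x ∈ F'
      · have := hcon x (Finset.mem_union_right _ hx2)
        rw [ha] at this
        simp [hx1, hx2] at this
      · simp [hx1, hx2]
  obtain ⟨⟨e0, b0⟩, hx0, hx0a⟩ := hne
  -- the two parts of the difference
  set T1 : Finset (Sym2 V) := ((F ∪ F').filter (fun x => x.2 = true)).image Prod.fst with hT1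
  set T2 : Finset (Sym2 V) := ((F ∪ F').filter (fun x => x.2 = false)).image Prod.fst with hT2
  have hdiff : ∀ ω : Env V, (∑ x ∈ F, (if x.2 then ω.2.1 x.1 else ω.2.2 x.1)) -
      ∑ x ∈ F', (if x.2 then ω.2.1 x.1 else ω.2.2 x.1) =
      (∑ e ∈ T1, a (e, true) * ω.2.1 e) + ∑ e ∈ T2, a (e, false) * ω.2.2 e := by
    intro ω
    have e1 : ∑ x ∈ F, (if x.2 then ω.2.1 x.1 else ω.2.2 x.1) =
        ∑ x ∈ F ∪ F', (if x ∈ F then 1 else 0) * (if x.2 then ω.2.1 x.1 else ω.2.2 x.1) := by
      simp only [ite_mul, one_mul, zero_mul]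
      rw [← Finset.sum_filter]
      congr 1
      ext x
      simp
    have e2 : ∑ x ∈ F', (if x.2 then ω.2.1 x.1 else ω.2.2 x.1) =
        ∑ x ∈ F ∪ F', (if x ∈ F' then 1 else 0) * (if x.2 then ω.2.1 x.1 else ω.2.2 x.1) := by
      simp only [ite_mul, one_mul, zero_mul]
      rw [← Finset.sum_filter]
      congr 1
      ext x
      simp
    rw [e1, e2, ← Finset.sum_sub_distrib]
    have e3 : ∀ x ∈ F ∪ F', (if x ∈ F then (1 : ℝ) else 0) * (if x.2 then ω.2.1 x.1 else ω.2.2 x.1) -
        (if x ∈ F' then (1 : ℝ) else 0) * (if x.2 then ω.2.1 x.1 else ω.2.2 x.1) =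
        a x * (if x.2 then ω.2.1 x.1 else ω.2.2 x.1) := by
      intro x _
      rw [ha]; ring
    rw [Finset.sum_congr rfl e3, ← Finset.sum_filter_add_sum_filter_not (F ∪ F') (fun x => x.2 = true)]
    congr 1
    · rw [hT1, Finset.sum_image]
      · refine Finset.sum_congr rfl ?_
        rintro ⟨e, b⟩ hx
        obtain ⟨_, hb⟩ := Finset.mem_filter.1 hx
        simp only at hb
        subst hb
        simp
      · rintro ⟨e, b⟩ hx ⟨e', b'⟩ hx' h
        obtain ⟨_, hb⟩ := Finset.mem_filter.1 hx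
        obtain ⟨_, hb'⟩ := Finset.mem_filter.1 hx'
        simp only at hb hb' h
        subst hb hb' h
        rfl
    · rw [hT2, Finset.sum_image]
      · have : (F ∪ F').filter (fun x => ¬ x.2 = true) = (F ∪ F').filter (fun x => x.2 = false) := by
          ext x; simp
        rw [this]
        refine Finset.sum_congr rfl ?_
        rintro ⟨e, b⟩ hx
        obtain ⟨_, hb⟩ := Finset.mem_filter.1 hx
        simp only at hb
        subst hb
        simp
      · rintro ⟨e, b⟩ hx ⟨e', b'⟩ hx' h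
        obtain ⟨_, hb⟩ := Finset.mem_filter.1 hx
        obtain ⟨_, hb'⟩ := Finset.mem_filter.1 hx'
        simp only at hb hb' h
        subst hb hb' h
        rfl
  have hmeas : MeasurableSet {q : (Sym2 V → ℝ) × (Sym2 V → ℝ) |
      (∑ e ∈ T1, a (e, true) * q.1 e) + ∑ e ∈ T2, a (e, false) * q.2 e = 0} :=
    measurableSet_eq_fun (by fun_prop) (by fun_prop)
  have hnull : ((Measure.infinitePi (fun _ : Sym2 V => expMeasure 1)).prod
      (Measure.infinitePi (fun _ : Sym2 V => expMeasure lam))) {q : (Sym2 V → ℝ) × (Sym2 V → ℝ) |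
      (∑ e ∈ T1, a (e, true) * q.1 e) + ∑ e ∈ T2, a (e, false) * q.2 e = 0} = 0 := by
    cases b0 with
    | true =>
      rw [Measure.prod_apply_symm hmeas]
      have hz : ∀ y : Sym2 V → ℝ, (Measure.infinitePi (fun _ : Sym2 V => expMeasure 1))
          ((fun x => (x, y)) ⁻¹' {q : (Sym2 V → ℝ) × (Sym2 V → ℝ) |
            (∑ e ∈ T1, a (e, true) * q.1 e) + ∑ e ∈ T2, a (e, false) * q.2 e = 0}) = 0 := by
        intro y
        have h3 : ((fun x => (x, y)) ⁻¹' {q : (Sym2 V → ℝ) × (Sym2 V → ℝ) |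
            (∑ e ∈ T1, a (e, true) * q.1 e) + ∑ e ∈ T2, a (e, false) * q.2 e = 0}) =
            {x : Sym2 V → ℝ | ∑ e ∈ T1, a (e, true) * x e = - ∑ e ∈ T2, a (e, false) * y e} := by
          ext x
          simp only [Set.mem_preimage, Set.mem_ofPred_eq]
          constructor <;> intro h <;> linarith
        rw [h3]
        refine slice (expMeasure 1) (exp_singleton 1) T1 (fun e => a (e, true)) e0 ?_ hx0a _
        rw [hT1, Finset.mem_image]
        exact ⟨(e0, true), Finset.mem_filter.2 ⟨hx0, rfl⟩, rfl⟩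
      rw [lintegral_congr hz, lintegral_zero]
    | false =>
      rw [Measure.prod_apply hmeas]
      have hz : ∀ x : Sym2 V → ℝ, (Measure.infinitePi (fun _ : Sym2 V => expMeasure lam))
          (Prod.mk x ⁻¹' {q : (Sym2 V → ℝ) × (Sym2 V → ℝ) |
            (∑ e ∈ T1, a (e, true) * q.1 e) + ∑ e ∈ T2, a (e, false) * q.2 e = 0}) = 0 := by
        intro x
        have h3 : (Prod.mk x ⁻¹' {q : (Sym2 V → ℝ) × (Sym2 V → ℝ) |
            (∑ e ∈ T1, a (e, true) * q.1 e) + ∑ e ∈ T2, a (e, false) * q.2 e = 0}) =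
            {y : Sym2 V → ℝ | ∑ e ∈ T2, a (e, false) * y e = - ∑ e ∈ T1, a (e, true) * x e} := by
          ext y
          simp only [Set.mem_preimage, Set.mem_ofPred_eq]
          constructor <;> intro h <;> linarith
        rw [h3]
        refine slice (expMeasure lam) (exp_singleton lam) T2 (fun e => a (e, false)) e0 ?_ hx0a _
        rw [hT2, Finset.mem_image]
        exact ⟨(e0, false), Finset.mem_filter.2 ⟨hx0, rfl⟩, rfl⟩
      rw [lintegral_congr hz, lintegral_zero]
  have hlaw : law V μ lam {ω : Env V |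
      (∑ e ∈ T1, a (e, true) * ω.2.1 e) + ∑ e ∈ T2, a (e, false) * ω.2.2 e = 0} = 0 := by
    unfold law
    have h3 : {ω : Env V | (∑ e ∈ T1, a (e, true) * ω.2.1 e) + ∑ e ∈ T2, a (e, false) * ω.2.2 e = 0} =
        Set.univ ×ˢ {q : (Sym2 V → ℝ) × (Sym2 V → ℝ) |
          (∑ e ∈ T1, a (e, true) * q.1 e) + ∑ e ∈ T2, a (e, false) * q.2 e = 0} := by
      ext ω
      simp
    rw [h3, Measure.prod_prod, hnull, mul_zero]
  have hae : ∀ᵐ ω ∂(law V μ lam), ¬ ((∑ e ∈ T1, a (e, true) * ω.2.1 e) +
      ∑ e ∈ T2, a (e, false) * ω.2.2 e = 0) := by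
    rw [ae_iff]
    simpa using hlaw
  filter_upwards [hae] with ω hω _ heq
  apply hω
  rw [← hdiff ω, heq, sub_self]

end Pool.Agent.FPPHE
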