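import Pool.Agent.Work.MP_04d5a3_full.Basic

/-!
# FPPHE (MP_04d5a3_pr): block statements.  Block `X` proves `stmt_X : Stmt_X` (or from other `Stmt_Y` as
hypotheses) in the file `Work/MP_04d5a3_full/X.lean`.  Paper proofs: PROOF.md (section numbers given).
-/

namespace Pool.Agent.FPPHE

open MeasureTheory ProbabilityTheory
open scoped ENNReal

/-! ### toolkit (TOOL, written by helper6, file Tool.lean)

### section 1 -/

/-- CORE (section 1): existence of the cores (Zorn) -/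
def Stmt_CORE : Prop :=
  ∀ (V : Type) (G : SimpleGraph V) (N : ℕ) (bad : Set V), Gr G N → Sparse G bad Mst →
    ∃ C, CoreSys G N bad C

/-- SUM -/
def Stmt_SUM : Prop :=
  ∀ (V : Type) (G : SimpleGraph V) (N : ℕ) (bad C : Set V), G.Connected → CoreSys G N bad C →
    ∀ (u v : V) (p : G.Walk u v) (M : ℕ), (∀ K ∈ coresOf G C p, ll N K ≤ M) →
      D0 * ∑ K ∈ coresOf G C p, ll N K ≤ D0 * M + 2 * cost G C p

/-- BALL -/
def Stmt_BALL : Prop :=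
  ∀ (V : Type) (G : SimpleGraph V) (N : ℕ) (bad C : Set V), Gr G N → CoreSys G N bad C →
    ∀ (v : V) (r M : ℕ), (∀ K ∈ Cores G C, (∃ u ∈ K, dc G C v u ≤ r) → ll N K ≤ M) →
      {u | dc G C v u ≤ r}.Finite ∧ {u | dc G C v u ≤ r}.ncard ≤ (N ^ 20) ^ (2 * r + M)

/-- CHAIN: a class-constant function which changes by at most `a` along a step outside `C` and by at most
`a + b * ll(core)` along a step into or out of a core -/
def Stmt_CHAIN : Prop :=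
  ∀ (V : Type) (G : SimpleGraph V) (N : ℕ) (C : Set V) (F : V → ℝ) (a b : ℝ), 0 ≤ a → 0 ≤ b →
    (∀ u v, u ∈ cls G C v → F u = F v) →
    (∀ x y, G.Adj x y → x ∉ C → y ∉ C → F x ≤ F y + a) →
    (∀ x y, G.Adj x y → x ∈ C → y ∉ C →
      F x ≤ F y + a + b * ll N (cls G C x) ∧ F y ≤ F x + a + b * ll N (cls G C x)) →
    ∀ (x y : V) (p : G.Walk x y),
      F x ≤ F y + a * cost G C p + 2 * b * (∑ K ∈ coresOf G C p, ll N K : ℕ)

/-! ### section 2 -/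

/-- NEU: Neumann series of a nonnegative matrix -/
def Stmt_NEU : Prop :=
  ∀ (V : Type) (t : V → V → ℝ≥0∞) (c κ : ℝ≥0∞), κ ≠ 0 → κ ≠ ⊤ → 2 * c ≤ κ →
    (∀ f, N2 (mulM t f) ≤ c ^ 2 * N2 f) →
    ∀ f : V → ℝ≥0∞, (∀ v, mulM t (neu t κ f) v ≤ κ * neu t κ f v) ∧ (∀ v, f v ≤ neu t κ f v) ∧
      N2 (neu t κ f) ≤ 4 * N2 f ∧ ∀ v, (neu t κ f v) ^ 2 ≤ 4 * N2 f

/-- OPQ: the operator `Q` -/
def Stmt_OPQ : Prop :=
  ∀ (V : Type) (G : SimpleGraph V) (N : ℕ) (bad C : Set V), Gr G N → CoreSys G N bad C →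
    (∀ f, mulM (matQ G C) f = opQ G C f) ∧
    (∀ f, N2 (opQ G C f) ≤ 16 * (N : ℝ≥0∞) ^ 20 * N2 f) ∧
    (∀ f u v, u ∈ cls G C v → opQ G C f u = opQ G C f v) ∧
    (∀ f : V → ℝ≥0∞, (∀ u v, u ∈ cls G C v → f u = f v) →
      (∀ v, v ∉ C → opQ G C f v = opA G f v) ∧
      (∀ v, v ∈ C → ∀ u ∈ cls G C v, ∀ x, G.Adj u x → f x ≤ (cls G C v).ncard * opQ G C f v))

/-- KER: bounds for the kernels `g_x` -/
def Stmt_KER : Prop :=
  ∀ (V : Type) (G : SimpleGraph V) (N : ℕ) (bad C : Set V), Gr G N → CoreSys G N bad C → ∀ x : V,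
    (∀ u v, u ∈ cls G C v → gker G N C x u = gker G N C x v) ∧
    (∀ v, opQ G C (gker G N C x) v ≤ kap3 N * gker G N C x v) ∧
    (∀ v ∈ cls G C x, 1 ≤ gker G N C x v) ∧
    (∀ y, (gker G N C x y) ^ 2 * (N : ℝ≥0∞) ^ (10 * dc G C x y) ≤ 4 * (cls G C x).ncard) ∧
    (∀ (y : V) (p : G.Walk x y),
      1 ≤ gker G N C x y * (N : ℝ≥0∞) ^ (16 * cost G C p) *
        (N : ℝ≥0∞) ^ (20 * ∑ K ∈ coresOf G C p, ll N K))

/-! ### section 3 -/

/-- CERT: certificates of islands (slack induction) -/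
def Stmt_CERT : Prop :=
  ∀ (V : Type) (G : SimpleGraph V) (N : ℕ) (bad C : Set V), Gr G N → CoreSys G N bad C →
    ∀ (n : ℕ) (y : V), y ∈ isl G C n → ∃ S : Set V, S.Finite ∧ (G.induce S).Connected ∧
      Sat G C S ∧ y ∈ S ∧ (∀ s ∈ S, dc G C y s ≤ 2 * al n) ∧
      (S \ C).ncard + hp * al n ≤ hh * (S ∩ C).ncard

/-- ISLA: finiteness, sizes of cores, nets -/
def Stmt_ISLA : Prop :=
  ∀ (V : Type) (G : SimpleGraph V) (N : ℕ) (bad C : Set V), Gr G N → CoreSys G N bad C →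
    Sparse G bad Mst →
    (∀ y, {n | nearI G C n (Rn n + 1) y}.Finite) ∧
    (∀ S, Rich G C S → ∀ y ∈ S, ∃ n, y ∈ isl G C n ∧ Ca * (S ∩ C).ncard < al (n + 1)) ∧
    (∀ y n r, (∀ m, n < m → ¬ nearI G C m (al m / 2) y) → 2 * r ≤ al (n + 1) →
      ∀ K ∈ Cores G C, (∃ u ∈ K, dc G C y u ≤ r) → Ca * K.ncard < al (n + 1)) ∧
    (∀ n, ∀ x ∈ islD G C n, Ca * (cls G C x).ncard < al (n + 1))

/-- ISLB: existence of nets, (NEAR), (FEW) -/
def Stmt_ISLB : Prop :=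
  ∀ (V : Type) (G : SimpleGraph V) (N : ℕ) (bad C : Set V), Gr G N → CoreSys G N bad C →
    (∃ Nt, IsNet G C Nt) ∧
    ∀ Nt, IsNet G C Nt → ∀ (y : V) (n : ℕ), (∀ m, n < m → ¬ nearI G C m (al m / 2) y) →
      (nearI G C n (al n / 2) y → ∃ x ∈ Nt n, dc G C x y ≤ 11 * al n) ∧
      (∀ Y : Finset V, (∀ x ∈ Y, x ∈ Nt n ∧ dc G C x y ≤ Rn n + 1) → Y.card < nb)

/-! ### section 4 -/

/-- FLD: (S1)-(S4) for the field -/
def Stmt_FLD : Prop :=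
  ∀ (V : Type) (G : SimpleGraph V) (N : ℕ) (bad C : Set V), Gr G N → CoreSys G N bad C →
    Sparse G bad Mst → ∀ Nt, IsNet G C Nt →
    (∀ n, ∀ x ∈ Nt n, ∀ y, Tk G N C n x y ≠ 0 → dc G C x y ≤ Rn n) ∧
    (∀ u v, u ∈ cls G C v → fld G N C Nt u = fld G N C Nt v) ∧
    (∀ y n, nearI G C n (al n / 2) y → (N : ℝ≥0∞) ^ (1760 * al n) ≤ fld G N C Nt y) ∧
    (∀ y, opQ G C (fld G N C Nt) y ≤ (N : ℝ≥0∞) ^ 16 * max (fld G N C Nt y) 1) ∧
    (∀ y, fld G N C Nt y < ⊤)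

/-- VIT: (F4), Vitali argument -/
def Stmt_VIT : Prop :=
  ∀ (V : Type) (G : SimpleGraph V) (N : ℕ) (bad C : Set V), Gr G N → CoreSys G N bad C →
    ∀ (u v : V) (p : G.Walk u v),
      (∀ w ∈ p.support, ∃ n, ∃ x ∈ isl G C n, dc G C w x ≤ Rn n) →
      ∃ S, Dense G bad Mst S ∧ u ∈ S ∧ v ∈ S

/-- FIELD: assembly of section 4 -/
def Stmt_FIELD : Prop :=
  ∀ (V : Type) (G : SimpleGraph V) (N : ℕ) (bad C : Set V), Gr G N → CoreSys G N bad C →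
    Sparse G bad Mst → ∃ U, Field G N bad C U

/-! ### section 5 -/

/-- QC: quasi-convexity of `{U < 1}` -/
def Stmt_QC : Prop :=
  ∀ (Λ : Type) (H : SimpleGraph Λ) (N : ℕ) (C : Set (Λ × Λ)) (U : Λ × Λ → ℝ), Fac H N →
    (∀ v, 0 ≤ U v) → (∀ v, v ∉ C → ∑ᶠ x ∈ (H.boxProd H).neighborSet v, U x ≤ (N : ℝ) ^ 16 * max (U v) 1) →
    (∀ v ∈ C, (N : ℝ) ^ 340 ≤ U v) →
    ∀ s s', U s < 1 → U s' < 1 → ∃ p : (H.boxProd H).Walk s s', (∀ w ∈ p.support, U w < 1) ∧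
      p.length ≤ 200 * (H.boxProd H).dist s s'

/-- E3: `dist ≤ 4 dc` on `{U < 1}` -/
def Stmt_E3 : Prop :=
  ∀ (V : Type) (G : SimpleGraph V) (N : ℕ) (bad C : Set V) (U : V → ℝ), Gr G N →
    CoreSys G N bad C → (∀ v ∈ C, 1 ≤ U v) → (∀ S, Rich G C S → ∀ v ∈ S, 1 ≤ U v) →
    ∀ s s', U s < 1 → U s' < 1 → G.dist s s' ≤ 4 * dc G C s s'

/-- RHO: the functions `ρ` -/
def Stmt_RHO : Prop :=
  ∀ (Λ : Type) (H : SimpleGraph Λ) (N : ℕ) (bad C : Set (Λ × Λ)) (U : Λ × Λ → ℝ), Fac H N →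
    Gr (H.boxProd H) N → CoreSys (H.boxProd H) N bad C → Field (H.boxProd H) N bad C U →
    ∀ v, U v < 1 → ∃ ρ, Rho (H.boxProd H) N C U v ρ

/-! ### section 6 -/

/-- COLDEF: existence of the collars with their derivations -/
def Stmt_COLDEF : Prop :=
  ∀ (V : Type) (G : SimpleGraph V) (N : ℕ) (bad C : Set V), Gr G N → CoreSys G N bad C →
    ∃ Col, PreCollars G N C Col

/-- REACH (C4): choose-min rule -/
def Stmt_REACH : Prop :=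
  ∀ (V : Type) (G : SimpleGraph V) (N : ℕ) (bad C : Set V), Gr G N → CoreSys G N bad C →
    ∀ Col, PreCollars G N C Col → Collars G N C Col

/-- COLB: (C5)-(C8), (C10) -/
def Stmt_COLB : Prop :=
  ∀ (V : Type) (G : SimpleGraph V) (N : ℕ) (bad C : Set V), Gr G N → CoreSys G N bad C →
    Sparse G bad Mst → ∀ Col, Collars G N C Col → Collars2 G N C Col

/-- DATA: everything for the dynamic theorem; (C9), (C11), descent, crossing -/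
def Stmt_DATA : Prop :=
  ∀ (V : Type) (G : SimpleGraph V) (N : ℕ) (bad C : Set V) (U : V → ℝ) (Col : Set V → ℕ → Set V)
    (ρ : V → ℝ) (o v : V), Gr G N → (∀ a, (G.neighborSet a).ncard = 2 * N ^ 20) →
    CoreSys G N bad C → Sparse G bad Mst → Field G N bad C U → Collars G N C Col →
    Collars2 G N C Col → Rho G N C U v ρ → U o < 1 → U v < 1 →
    DynData G C Col (wt N) ρ o v Kon0

/-! ### sections 7, 8 -/

/-- EVO: histories and lineages (H1)-(H3) -/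
def Stmt_EVO : Prop :=
  ∀ (V : Type) (G : SimpleGraph V) (o : V) (ω : Env V) (τ : V → ℝ≥0∞) (red : V → Prop),
    (∀ e, 0 < ω.2.1 e) → (∀ e, 0 < ω.2.2 e) → (∀ v, (G.neighborSet v).Finite) →
    IsEvolution G o ω τ red →
    (∀ y, τ y < ⊤ → red y → ∃ p : G.Walk y o, ∀ w ∈ p.support, red w ∧ τ w ≤ τ y) ∧
    (∀ (C : Set V) (N' : ℝ), 0 ≤ N' → (∀ y, y ∉ C → ω.1 y = false) →
      (∀ y, y ∉ C → ∀ x, G.Adj y x → N' ≤ ω.2.2 s(y, x)) →
      ∀ x, τ x < ⊤ → ¬ red x → ∃ y₀, red y₀ ∧ ∃ p : G.Walk x y₀, (∀ w ∈ p.support, τ w ≤ τ x) ∧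
        τ y₀ + ENNReal.ofReal N' * (outs C p.support.dropLast : ℝ≥0∞) ≤ τ x) ∧
    (∀ y x, G.Adj y x → τ y < ⊤ → red y → τ x ≤ τ y + ENNReal.ofReal (ω.2.1 s(y, x)))

/-- DYN: the dynamic theorem (section 8) -/
def Stmt_DYN : Prop :=
  ∀ (V : Type) (G : SimpleGraph V) (C : Set V) (Col : Set V → ℕ → Set V) (w : Set V → ℕ)
    (ρ : V → ℝ) (o v : V) (Kon : ℝ), DynData G C Col w ρ o v Kon →
    (∀ u, (G.neighborSet u).Finite) →
    ∀ (ω : Env V) (A N' : ℝ), 0 < A → 20 * Kon * A ≤ N' → GoodEnv G C ω A N' →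
    ∀ (τ : V → ℝ≥0∞) (red : V → Prop), IsEvolution G o ω τ red → red v ∧ τ v < ⊤

/-! ### the graph -/

/-- `k`-th free group and its Cayley graph, the `2k`-regular tree -/
def treeG (k : ℕ) : SimpleGraph (FreeGroup (Fin k)) where
  Adj u v := u ≠ v ∧ ∃ i : Fin k, v = u * FreeGroup.of i ∨ u = v * FreeGroup.of i
  symm := ⟨fun _ _ h => ⟨h.1.symm, h.2.elim (fun i hi => ⟨i, hi.symm⟩)⟩⟩
  loopless := ⟨fun _ h => h.1 rfl⟩

/-- TREE1: basic facts on the tree -/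
def Stmt_TREE1 : Prop :=
  ∀ k : ℕ, 1 ≤ k → (treeG k).Connected ∧ (∀ a, ((treeG k).neighborSet a).ncard = 2 * k) ∧
    VertexTransitive (treeG k) ∧
    (∃ par : FreeGroup (Fin k) → Bool, ∀ a c, (treeG k).Adj a c → par a ≠ par c) ∧
    (∀ n : ℕ, {a | (treeG k).dist 1 a ≤ n}.Finite ∧ k ^ n ≤ {a | (treeG k).dist 1 a ≤ n}.ncard)

/-- TREE2: `l²` bound -/
def Stmt_TREE2 : Prop :=
  ∀ k : ℕ, 1 ≤ k → ∀ f : FreeGroup (Fin k) → ℝ≥0∞,
    N2 (opA (treeG k) f) ≤ 4 * (2 * k : ℝ≥0∞) * N2 f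

/-- TREE3: the product graph -/
def Stmt_TREE3 : Prop :=
  ∀ k N : ℕ, Nbig ≤ N → 2 * k = N ^ 20 →
    Gr ((treeG k).boxProd (treeG k)) N ∧ Fac (treeG k) N ∧
    (∀ a, (((treeG k).boxProd (treeG k)).neighborSet a).ncard = 2 * N ^ 20) ∧
    VertexTransitive ((treeG k).boxProd (treeG k)) ∧
    ExpGrowth ((treeG k).boxProd (treeG k)) 1 ∧
    (∃ par : FreeGroup (Fin k) × FreeGroup (Fin k) → Bool,
      ∀ a c, ((treeG k).boxProd (treeG k)).Adj a c → par a ≠ par c)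

/-! ### probability (section 9) -/

/-- the bad vertices of an environment -/
def badSet {V : Type} (G : SimpleGraph V) (ω : Env V) (A N' : ℝ) : Set V :=
  {v | ω.1 v = true ∨ ∃ x, G.Adj v x ∧ (A < ω.2.1 s(v, x) ∨ ω.2.2 s(v, x) < N')}

/-- ANIM: counting connected sets -/
def Stmt_ANIM : Prop :=
  ∀ (V : Type) (G : SimpleGraph V) (Δ : ℕ), 1 ≤ Δ → (∀ v, (G.neighborSet v).Finite) →
    (∀ v, (G.neighborSet v).ncard ≤ Δ) → ∀ (v : V) (n : ℕ),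
      {S : Set V | S.Finite ∧ (G.induce S).Connected ∧ v ∈ S ∧ S.ncard = n}.Finite ∧
      {S : Set V | S.Finite ∧ (G.induce S).Connected ∧ v ∈ S ∧ S.ncard = n}.ncard ≤ Δ ^ (2 * n)

/-- BADP: all vertices of a finite set of one parity are bad -/
def Stmt_BADP : Prop :=
  ∀ (V : Type) (_ : Countable V) (G : SimpleGraph V) (Δ : ℕ), (∀ v, (G.neighborSet v).Finite) →
    (∀ v, (G.neighborSet v).ncard ≤ Δ) → (∃ par : V → Bool, ∀ a c, G.Adj a c → par a ≠ par c) →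
    ∀ ε : ℝ, 0 < ε → ∀ Γ : ℝ, 0 < Γ → ∃ μ lam A : ℝ, 0 < μ ∧ μ < 1 ∧ 0 < lam ∧ 0 < A ∧
      ∀ S : Finset V, (law V μ lam {ω | ∀ v ∈ S, v ∈ badSet G ω A (Γ * A)}) ^ 2 ≤
        ENNReal.ofReal ε ^ S.card

/-- PSP: sparsity with positive probability -/
def Stmt_PSP : Prop :=
  ∀ (V : Type) (_ : Countable V) (G : SimpleGraph V) (Δ : ℕ), (∀ v, (G.neighborSet v).Finite) →
    (∀ v, (G.neighborSet v).ncard ≤ Δ) → (∃ par : V → Bool, ∀ a c, G.Adj a c → par a ≠ par c) →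
    ∀ (o : V) (Γ : ℝ), 0 < Γ → ∃ μ lam A : ℝ, 0 < μ ∧ μ < 1 ∧ 0 < lam ∧ 0 < A ∧
      ∃ E : Set (Env V), MeasurableSet E ∧ 0 < law V μ lam E ∧ ∀ ω ∈ E,
        (∀ e, 0 < ω.2.1 e) ∧ (∀ e, 0 < ω.2.2 e) ∧ Sparse G (badSet G ω A (Γ * A)) Mst ∧
        ∀ S, Dense G (badSet G ω A (Γ * A)) Mst S → o ∉ S

/-- NOEX: no explosion. Almost surely only finitely many vertices are reached within time `t` by a path with
clocks `min(red, blue)`. -/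
def Stmt_NOEX : Prop :=
  ∀ (V : Type) (_ : Countable V) (G : SimpleGraph V) (Δ : ℕ), (∀ v, (G.neighborSet v).Finite) →
    (∀ v, (G.neighborSet v).ncard ≤ Δ) → ∀ (o : V) (μ lam : ℝ), 0 < μ → μ < 1 → 0 < lam →
    ∀ᵐ ω ∂(law V μ lam), (∀ e, 0 < ω.2.1 e) ∧ (∀ e, 0 < ω.2.2 e) ∧
      ∀ t : ℝ, {v | ∃ p : G.Walk o v,
        (p.edges.map (fun e => min (ω.2.1 e) (ω.2.2 e))).sum ≤ t}.Finite

/-- COIN: almost surely no two different finite sets of clocks have the same sum -/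
def Stmt_COIN : Prop :=
  ∀ (V : Type) (_ : Countable V) (μ lam : ℝ), 0 < μ → μ < 1 → 0 < lam →
    ∀ᵐ ω ∂(law V μ lam), ∀ F F' : Finset (Sym2 V × Bool), F ≠ F' →
      ∑ x ∈ F, (if x.2 then ω.2.1 x.1 else ω.2.2 x.1) ≠
        ∑ x ∈ F', (if x.2 then ω.2.1 x.1 else ω.2.2 x.1)

/-- EXI: deterministic existence and uniqueness of the evolution -/
def Stmt_EXI : Prop :=
  ∀ (V : Type) (G : SimpleGraph V) (o : V) (ω : Env V), G.Connected →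
    (∀ v, (G.neighborSet v).Finite) → (∀ e, 0 < ω.2.1 e) → (∀ e, 0 < ω.2.2 e) →
    (∀ t : ℝ, {v | ∃ p : G.Walk o v,
        (p.edges.map (fun e => min (ω.2.1 e) (ω.2.2 e))).sum ≤ t}.Finite) →
    (∃ τ red, IsEvolution G o ω τ red) ∧
    ((∀ F F' : Finset (Sym2 V × Bool), F ≠ F' →
      ∑ x ∈ F, (if x.2 then ω.2.1 x.1 else ω.2.2 x.1) ≠
        ∑ x ∈ F', (if x.2 then ω.2.1 x.1 else ω.2.2 x.1)) →
      ∀ τ red τ' red', IsEvolution G o ω τ red → IsEvolution G o ω τ' red' →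
        τ' = τ ∧ ∀ v, τ v < ⊤ → (red' v ↔ red v))

end Pool.Agent.FPPHE
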