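import Pool.Agent.Work.MP_04d5a3_full.Tool
import Pool.Agent.Work.MP_04d5a3_full.Interface

/-!
# FPPHE (MP_04d5a3_pr): block COLB, properties (C5)-(C8), (C10) of the collars (helper60)
-/

namespace Pool.Agent.FPPHE

open SimpleGraph

namespace COLB_

variable {V : Type} {G : SimpleGraph V} {C : Set V} {N : ℕ} {bad : Set V}
  {Col : Set V → ℕ → Set V}

lemma sep' (hC : CoreSys G N bad C) {K K' : Set V}
    (hK : K ∈ Cores G C) (hK' : K' ∈ Cores G C) (hne : K ≠ K') (hw : wt N K ≤ wt N K')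
    {u u' : V} (hu : u ∈ K) (hu' : u' ∈ K') : 10 ^ 6 * wt N K ≤ dc G C u u' := by
  have h := core_sep hC hK hK' hne hu hu'
  unfold wt at hw ⊢
  rw [min_eq_left hw] at h
  have h1 : 1 ≤ ll N K := ll_pos N K
  have h2 : ll N K ≤ ll N K ^ 5 := Nat.le_self_pow (by norm_num) _
  have h3 : D0 = 10 ^ 6 := rfl
  rw [h3] at h
  calc 10 ^ 6 * ll N K ≤ 10 ^ 6 * ll N K ^ 5 := Nat.mul_le_mul_left _ h2
    _ ≤ _ := h

lemma c5 (hG : G.Connected) (hC : CoreSys G N bad C) (hCol : Collars G N C Col) :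
    ∀ K ∈ Cores G C, ∀ K' ∈ Cores G C, K ≠ K' → ∀ y, y ∈ Col K (11 * wt N K) →
    y ∈ Col K' (11 * wt N K') → wt N K ≤ wt N K' →
    100 * wt N K ≤ wt N K' ∧ K.ncard < K'.ncard := by
  intro K hK K' hK' hne y hy hy' hw
  obtain ⟨u, hu⟩ := core_nonempty hK
  obtain ⟨u', hu'⟩ := core_nonempty hK'
  have h1 := hCol.reach K hK _ le_rfl y hy u hu
  have h2 := hCol.reach K' hK' _ le_rfl y hy' u' hu'
  have h3 := sep' hC hK hK' hne hw hu hu'
  have h4 := dc_tri (C := C) hG u y u'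
  rw [dc_comm y u'] at h4
  have hp : 1 ≤ wt N K := ll_pos N K
  have h5 : 100 * wt N K ≤ wt N K' := by omega
  refine ⟨h5, ncard_lt_of_ll (N := N) ?_⟩
  unfold wt at h5 hp
  omega

lemma step_core (hG : G.Connected) (hC : CoreSys G N bad C) (hCol : Collars G N C Col)
    {K : Set V} (hK : K ∈ Cores G C) {i : ℕ} (hi : i ≤ 11 * wt N K) {y w : V}
    (hy : y ∈ Col K i) (h : G.Adj y w) (hw : w ∈ C) : w ∈ Col K i := by
  have hp : 1 ≤ wt N K := ll_pos N K
  have hL : cls G C w ∈ Cores G C := cls_mem_cores hw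
  have hwL : w ∈ cls G C w := mem_cls_self w
  have hpL : 1 ≤ wt N (cls G C w) := ll_pos N _
  by_cases he : cls G C w = K
  · rw [he] at hwL
    exact hCol.mono K hK 0 i (Nat.zero_le _) hi (hCol.base K hK hwL)
  by_cases hlt : (cls G C w).ncard < K.ncard
  · have h0 : w ∈ Col (cls G C w) 0 := hCol.base _ hL hwL
    have h1 : y ∈ Col (cls G C w) (0 + 1) := hCol.nbr _ hL 0 (by omega) w h0 y h.symm
    have h2 : y ∈ Col (cls G C w) (11 * wt N (cls G C w)) :=
      hCol.mono _ hL _ _ (by omega) le_rfl h1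
    rcases hCol.swal K hK _ hL hlt i hi with h3 | h3
    · exact h3 (hCol.mono _ hL 0 _ (Nat.zero_le _) le_rfl h0)
    · exact absurd hy (Set.disjoint_left.mp h3 h2)
  · exfalso
    have hle : wt N K ≤ wt N (cls G C w) := ll_mono (not_lt.mp hlt)
    obtain ⟨u, hu⟩ := core_nonempty hK
    have h1 := hCol.reach K hK i hi y hy u hu
    have h2 := sep' hC hK hL (Ne.symm he) hle hu hwL
    have h3 := dc_tri (C := C) hG u y w
    have h4 := dc_adj (C := C) h
    omega

lemma c6 (hG : G.Connected) (hC : CoreSys G N bad C) (hCol : Collars G N C Col) :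
    ∀ K ∈ Cores G C, ∀ (y z : V) (p : G.Walk y z) (i : ℕ), y ∈ Col K i →
    i + outs C p.support.tail ≤ 11 * wt N K → z ∈ Col K (i + outs C p.support.tail) := by
  intro K hK y z p
  induction p with
  | nil => intro i hy _; simpa using hy
  | @cons y w z h p ih =>
    intro i hy hi
    rw [Walk.support_cons, List.tail_cons, outs_support] at hi ⊢
    by_cases hw : w ∈ C
    · rw [if_pos hw, zero_add] at hi ⊢
      exact ih i (step_core hG hC hCol hK (by omega) hy h hw) hi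
    · rw [if_neg hw, ← add_assoc] at hi ⊢
      exact ih (i + 1) (hCol.nbr K hK i (by omega) y hy w h) hi

lemma c7 (hG : G.Connected) (hC : CoreSys G N bad C) (hCol : Collars G N C Col) :
    ∀ K ∈ Cores G C, ∀ y ∈ Col K (wt N K), ∀ z, G.Adj y z → z ∉ Col K (wt N K) →
    z ∉ C ∧ ∀ K' ∈ Cores G C, ∀ i, i ≤ wt N K' → z ∈ Col K' i → Col K (wt N K) ⊆ Col K' i := by
  intro K hK y hy z h hz
  have hp : 1 ≤ wt N K := ll_pos N K
  refine ⟨fun hzC => hz (step_core hG hC hCol hK (by omega) hy h hzC), ?_⟩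
  intro K' hK' i hi hz'
  have hp' : 1 ≤ wt N K' := ll_pos N K'
  by_cases he : K = K'
  · subst he
    exact absurd (hCol.mono K hK i _ hi (by omega) hz') hz
  have h1 : z ∈ Col K (wt N K + 1) := hCol.nbr K hK _ (by omega) y hy z h
  have h2 : z ∈ Col K (11 * wt N K) := hCol.mono K hK _ _ (by omega) le_rfl h1
  have h3 : z ∈ Col K' (11 * wt N K') := hCol.mono K' hK' _ _ (by omega) le_rfl hz'
  rcases le_total (wt N K) (wt N K') with hw | hw
  · have h4 := (c5 hG hC hCol K hK K' hK' he z h2 h3 hw).2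
    rcases hCol.swal K' hK' K hK h4 i (by omega) with h5 | h5
    · exact (hCol.mono K hK _ _ (by omega) le_rfl).trans h5
    · exact absurd hz' (Set.disjoint_left.mp h5 h2)
  · have h4 := (c5 hG hC hCol K' hK' K hK (Ne.symm he) z h3 h2 hw).2
    have h5 : y ∈ Col K' (i + 1) := hCol.nbr K' hK' i (by omega) z hz' y h.symm
    have h6 : y ∈ Col K' (11 * wt N K') := hCol.mono K' hK' _ _ (by omega) le_rfl h5
    rcases hCol.swal K hK K' hK' h4 (wt N K) (by omega) with h7 | h7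
    · exact absurd (h7 h3) hz
    · exact absurd hy (Set.disjoint_left.mp h7 h6)

lemma c8_aux (hG : G.Connected) (hC : CoreSys G N bad C) (hCol : Collars G N C Col)
    (j : Set V → ℕ) (hj : ∀ K, j K ≤ wt N K) (y : V) (hy : ∀ K ∈ Cores G C, y ∉ Col K (j K))
    (K : Set V) (hK : K ∈ Cores G C) (K' : Set V) (hK' : K' ∈ Cores G C)
    (h : ∃ x, G.Adj y x ∧ x ∈ Col K (j K)) (h' : ∃ x, G.Adj y x ∧ x ∈ Col K' (j K'))
    (hw : wt N K ≤ wt N K') : K = K' := by
  by_contra he
  have hp : 1 ≤ wt N K := ll_pos N K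
  have hp' : 1 ≤ wt N K' := ll_pos N K'
  obtain ⟨x, hx, hxK⟩ := h
  obtain ⟨x', hx', hxK'⟩ := h'
  have hjK := hj K
  have hjK' := hj K'
  have h1 : y ∈ Col K (j K + 1) := hCol.nbr K hK _ (by omega) x hxK y hx.symm
  have h1' : y ∈ Col K' (j K' + 1) := hCol.nbr K' hK' _ (by omega) x' hxK' y hx'.symm
  have h2 : y ∈ Col K (11 * wt N K) := hCol.mono K hK _ _ (by omega) le_rfl h1
  have h2' : y ∈ Col K' (11 * wt N K') := hCol.mono K' hK' _ _ (by omega) le_rfl h1'
  have h3 := (c5 hG hC hCol K hK K' hK' he y h2 h2' hw).2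
  have h4 : x' ∈ Col K (j K + 1 + 1) := hCol.nbr K hK _ (by omega) y h1 x' hx'
  have h5 : x' ∈ Col K (11 * wt N K) := hCol.mono K hK _ _ (by omega) le_rfl h4
  rcases hCol.swal K' hK' K hK h3 (j K') (by omega) with h6 | h6
  · exact hy K' hK' (h6 h2)
  · exact Set.disjoint_left.mp h6 h5 hxK'

lemma wt_le (hN : 2 ≤ N) {K : Set V} : wt N K ≤ 1 + K.ncard := by
  unfold wt ll
  have : Nat.clog (N ^ 20) K.ncard ≤ K.ncard := by
    refine Nat.clog_le_of_le_pow ?_
    have h1 : 1 < N ^ 20 := Nat.one_lt_pow (by norm_num) hN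
    exact (Nat.lt_pow_self h1).le
  omega

lemma c10 (hG : G.Connected) (hN : 2 ≤ N) (hC : CoreSys G N bad C) (hS : Sparse G bad Mst)
    (hCol : Collars G N C Col) (y : V) :
    {K | K ∈ Cores G C ∧ y ∈ Col K (11 * wt N K)}.Finite := by
  have hfin : (⋃ S ∈ {S : Set V | Dense G bad Mst S ∧ y ∈ S}, {K : Set V | K ⊆ S}).Finite := by
    refine Set.Finite.biUnion (hS y) ?_
    rintro S ⟨hSd, _⟩
    exact hSd.1.finite_subsets
  refine hfin.subset ?_
  rintro K ⟨hK, hy⟩
  obtain ⟨u, hu⟩ := core_nonempty hK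
  have hr := hCol.reach K hK _ le_rfl y hy u hu
  obtain ⟨p, hp⟩ := exists_walk (C := C) hG u y
  have hKS : K ⊆ hull G C p := by
    intro z hz
    refine ⟨u, p.start_mem_support, ?_⟩
    rw [← eq_cls_of_mem hK hu]
    exact hz
  have hf : (hull G C p).Finite := hull_fin hC.fin p
  have hd : Dense G bad Mst (hull G C p) := by
    refine dense_of hC hf (hull_conn p) (hull_sat p) ?_
    have h1 := hull_good (C := C) p
    have h2 := outs_le_cost (C := C) p
    have h3 : K.ncard ≤ (hull G C p ∩ C).ncard :=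
      Set.ncard_le_ncard (Set.subset_inter hKS (core_sub hK)) (hf.subset Set.inter_subset_left)
    have h4 : 1 ≤ K.ncard := (Set.ncard_pos (core_fin hC hK)).mpr ⟨u, hu⟩
    have h5 := wt_le (K := K) hN
    have h6 : (121 : ℕ) ≤ hh := by
      unfold hh Ca FPPHE.hp lamI; norm_num
    calc (hull G C p \ C).ncard ≤ 121 * K.ncard := by omega
      _ ≤ hh * K.ncard := Nat.mul_le_mul_right _ h6
      _ ≤ _ := Nat.mul_le_mul_left _ h3
  simp only [Set.mem_iUnion]
  exact ⟨hull G C p, ⟨hd, support_sub_hull p p.end_mem_support⟩, hKS⟩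

end COLB_

open COLB_ in
theorem stmt_COLB : Stmt_COLB := by
  intro V G N bad C hGr hC hS Col hCol
  have hN : 2 ≤ N := le_trans (by unfold Nbig; norm_num) hGr.big
  refine ⟨c5 hGr.conn hC hCol, c6 hGr.conn hC hCol, c7 hGr.conn hC hCol, ?_, ?_⟩
  · intro j hj y hy K hK K' hK' h h'
    rcases le_total (wt N K) (wt N K') with hw | hw
    · exact c8_aux hGr.conn hC hCol j hj y hy K hK K' hK' h h' hw
    · exact (c8_aux hGr.conn hC hCol j hj y hy K' hK' K hK h' h hw).symm
  · exact c10 hGr.conn hN hC hS hCol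

end Pool.Agent.FPPHE
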