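import Pool.Agent.Work.MP_04d5a3_full.Interface

/-!
# FPPHE (MP_04d5a3_pr): block COLDEF, existence of the collars with their derivations
-/

namespace Pool.Agent.FPPHE

namespace COLDEF_

variable {V : Type}

/-- points of level `j` derived before stage `s` -/
def stg (G : SimpleGraph V) (N : ℕ) (C : Set V) (K : Set V)
    (F : (K' : Set V) → K'.ncard < K.ncard → Set V) : ℕ → ℕ → Set V
  | 0, _ => K
  | s + 1, j => {y | y ∈ stg G N C K F s j ∨
      N ^ 20 ≤ 100 * {x | G.Adj y x ∧ x ∈ stg G N C K F s j}.ncard ∨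
      (∃ i x, i < j ∧ x ∈ stg G N C K F s i ∧ (G.Adj x y ∨ x = y)) ∨
      (∃ K', ∃ h : K'.ncard < K.ncard, K' ∈ Cores G C ∧ y ∈ F K' h ∧
        ∃ z ∈ F K' h, z ∈ stg G N C K F s j)}

/-- the collars -/
noncomputable def col (G : SimpleGraph V) (N : ℕ) (C : Set V) (K : Set V) (j : ℕ) : Set V :=
  {y | ∃ s, y ∈ stg G N C K
    (fun K' (_ : K'.ncard < K.ncard) => col G N C K' (11 * wt N K')) s j}
termination_by K.ncard

/-- the stages with the collars of the smaller cores -/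
noncomputable def st (G : SimpleGraph V) (N : ℕ) (C : Set V) (K : Set V) (s j : ℕ) : Set V :=
  stg G N C K (fun K' (_ : K'.ncard < K.ncard) => col G N C K' (11 * wt N K')) s j

lemma mem_col {G : SimpleGraph V} {N : ℕ} {C K : Set V} {j : ℕ} {y : V} :
    y ∈ col G N C K j ↔ ∃ s, y ∈ st G N C K s j := by
  rw [col]; rfl

lemma st_zero {G : SimpleGraph V} {N : ℕ} {C K : Set V} {j : ℕ} : st G N C K 0 j = K := rfl

lemma mem_st_succ {G : SimpleGraph V} {N : ℕ} {C K : Set V} {s j : ℕ} {y : V} :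
    y ∈ st G N C K (s + 1) j ↔ (y ∈ st G N C K s j ∨
      N ^ 20 ≤ 100 * {x | G.Adj y x ∧ x ∈ st G N C K s j}.ncard ∨
      (∃ i x, i < j ∧ x ∈ st G N C K s i ∧ (G.Adj x y ∨ x = y)) ∨
      (∃ K', ∃ _ : K'.ncard < K.ncard, K' ∈ Cores G C ∧ y ∈ col G N C K' (11 * wt N K') ∧
        ∃ z ∈ col G N C K' (11 * wt N K'), z ∈ st G N C K s j)) := Iff.rfl

lemma st_mono {G : SimpleGraph V} {N : ℕ} {C K : Set V} {j : ℕ} {s t : ℕ} (h : s ≤ t) :
    st G N C K s j ⊆ st G N C K t j := by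
  induction h with
  | refl => exact subset_rfl
  | step _ ih => exact fun y hy => mem_st_succ.mpr (Or.inl (ih hy))

lemma st_sub {G : SimpleGraph V} {N : ℕ} {C K : Set V} {j : ℕ} {s : ℕ} :
    st G N C K s j ⊆ col G N C K j := fun _ hy => mem_col.mpr ⟨s, hy⟩

lemma exists_stage {G : SimpleGraph V} {N : ℕ} {C K : Set V} {j : ℕ} (X : Set V) (hX : X.Finite)
    (h : X ⊆ col G N C K j) : ∃ s, X ⊆ st G N C K s j := by
  induction X, hX using Set.Finite.induction_on with
  | empty => exact ⟨0, Set.empty_subset _⟩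
  | @insert a X _ _ ih =>
    obtain ⟨s, hs⟩ := ih (fun x hx => h (Set.mem_insert_of_mem _ hx))
    obtain ⟨t, ht⟩ := mem_col.mp (h (Set.mem_insert _ _))
    refine ⟨max s t, ?_⟩
    intro x hx
    rcases Set.mem_insert_iff.mp hx with rfl | hx
    · exact st_mono (le_max_right s t) ht
    · exact st_mono (le_max_left s t) (hs hx)

lemma col_mono {G : SimpleGraph V} {N : ℕ} {C K : Set V} {i j : ℕ} (h : i ≤ j) :
    col G N C K i ⊆ col G N C K j := by
  rcases h.eq_or_lt with rfl | h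
  · exact subset_rfl
  · intro x hx
    obtain ⟨s, hs⟩ := mem_col.mp hx
    exact st_sub (s := s + 1) (mem_st_succ.mpr (Or.inr (Or.inr (Or.inl ⟨i, x, h, hs, Or.inr rfl⟩))))

lemma col_base {G : SimpleGraph V} {N : ℕ} {C K : Set V} {j : ℕ} : K ⊆ col G N C K j :=
  fun _ hx => st_sub (s := 0) hx

lemma col_clos {G : SimpleGraph V} {N : ℕ} {C K : Set V} {j : ℕ}
    (hfin : ∀ v, (G.neighborSet v).Finite) {y : V} (hy : y ∉ col G N C K j) :
    {x | G.Adj y x ∧ x ∈ col G N C K j}.ncard * 100 < N ^ 20 := by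
  by_contra hc
  have hc := not_lt.mp hc
  have hF : {x | G.Adj y x ∧ x ∈ col G N C K j}.Finite :=
    (hfin y).subset (fun x hx => hx.1)
  obtain ⟨s, hs⟩ := exists_stage _ hF (fun x hx => hx.2)
  apply hy
  apply st_sub (s := s + 1)
  refine mem_st_succ.mpr (Or.inr (Or.inl ?_))
  have hF' : {x | G.Adj y x ∧ x ∈ st G N C K s j}.Finite :=
    (hfin y).subset (fun x hx => hx.1)
  have : {x | G.Adj y x ∧ x ∈ col G N C K j}.ncard ≤ {x | G.Adj y x ∧ x ∈ st G N C K s j}.ncard :=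
    Set.ncard_le_ncard (fun x hx => ⟨hx.1, hs hx⟩) hF'
  omega

lemma col_nbr {G : SimpleGraph V} {N : ℕ} {C K : Set V} {j : ℕ} {y z : V}
    (hy : y ∈ col G N C K j) (h : G.Adj y z) : z ∈ col G N C K (j + 1) := by
  obtain ⟨s, hs⟩ := mem_col.mp hy
  exact st_sub (s := s + 1) (mem_st_succ.mpr
    (Or.inr (Or.inr (Or.inl ⟨j, y, Nat.lt_succ_self j, hs, Or.inl h⟩))))

lemma col_swal {G : SimpleGraph V} {N : ℕ} {C K K' : Set V} {j : ℕ} (hK' : K' ∈ Cores G C)
    (h : K'.ncard < K.ncard) :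
    col G N C K' (11 * wt N K') ⊆ col G N C K j ∨
      Disjoint (col G N C K' (11 * wt N K')) (col G N C K j) := by
  by_cases hd : Disjoint (col G N C K' (11 * wt N K')) (col G N C K j)
  · exact Or.inr hd
  · left
    obtain ⟨z, hz1, hz2⟩ := Set.not_disjoint_iff.mp hd
    obtain ⟨s, hs⟩ := mem_col.mp hz2
    intro y hy
    exact st_sub (s := s + 1) (mem_st_succ.mpr
      (Or.inr (Or.inr (Or.inr ⟨K', h, hK', hy, z, hz1, hs⟩))))

/-- the rank -/
noncomputable def rk (G : SimpleGraph V) (N : ℕ) (C : Set V) (K : Set V) (j : ℕ) (y : V) : ℕ :=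
  sInf {s | y ∈ st G N C K s j}

lemma rk_le {G : SimpleGraph V} {N : ℕ} {C K : Set V} {s j : ℕ} {y : V}
    (h : y ∈ st G N C K s j) : rk G N C K j y ≤ s := Nat.sInf_le h

lemma mem_rk {G : SimpleGraph V} {N : ℕ} {C K : Set V} {j : ℕ} {y : V}
    (h : y ∈ col G N C K j) : y ∈ st G N C K (rk G N C K j y) j :=
  Nat.sInf_mem (s := {s | y ∈ st G N C K s j}) (mem_col.mp h)

lemma ranked {G : SimpleGraph V} {N : ℕ} {C K : Set V} (hfin : ∀ v, (G.neighborSet v).Finite) :
    Ranked G N C (col G N C) K (rk G N C K) := by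
  intro j _ y hy
  have h1 := mem_rk hy
  rcases h0 : rk G N C K j y with _ | s
  · left
    rw [h0, st_zero] at h1
    exact h1
  · right
    rw [h0] at h1
    rcases mem_st_succ.mp h1 with h | h | ⟨i, x, hij, hx, hxy⟩ | ⟨K', hlt, hK', hyF, z, hz, hzs⟩
    · have := rk_le h
      omega
    · left
      have hF : {x | G.Adj y x ∧ x ∈ st G N C K s j}.Finite :=
        (hfin y).subset (fun x hx => hx.1)
      refine ⟨hF.toFinset, ?_, ?_⟩
      · rwa [Set.ncard_eq_toFinset_card _ hF] at h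
      · intro x hx
        have hx := (Set.Finite.mem_toFinset hF).mp hx
        exact ⟨hx.1, st_sub hx.2, Nat.lt_succ_of_le (rk_le hx.2)⟩
    · right; left
      exact ⟨i, x, hij, st_sub hx, hxy, Nat.lt_succ_of_le (rk_le hx)⟩
    · right; right
      exact ⟨K', hK', hlt, hyF, z, hz, st_sub hzs, Nat.lt_succ_of_le (rk_le hzs)⟩

end COLDEF_

/-- block COLDEF -/
theorem stmt_COLDEF : Stmt_COLDEF := by
  intro V G N bad C hG _
  refine ⟨COLDEF_.col G N C, ?_⟩
  constructor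
  · intro K _
    exact COLDEF_.col_base
  · intro K _ i j hij _
    exact COLDEF_.col_mono hij
  · intro K _ j _ y hy
    exact COLDEF_.col_clos hG.fin hy
  · intro K _ j _ y hy z hz
    exact COLDEF_.col_nbr hy hz
  · intro K _ K' hK' hlt j _
    exact COLDEF_.col_swal hK' hlt
  · intro K _
    exact ⟨COLDEF_.rk G N C K, COLDEF_.ranked hG.fin⟩

end Pool.Agent.FPPHE
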