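import Pool.Agent.Work.MP_04d5a3_full.Interface
import Pool.Agent.Work.MP_04d5a3_full.Tool

/-!
# FPPHE (MP_04d5a3_pr): block CORE, existence of the cores (Zorn)
-/

namespace Pool.Agent.FPPHE

open SimpleGraph

namespace CORE_

variable {V : Type} {G : SimpleGraph V}

/-! ### numerical inequalities -/

lemma sqrt_ineq {x y : ℝ} (hx : 0 ≤ x) (hxy : x ≤ y) :
    Real.sqrt x / 2 ≤ Real.sqrt x + Real.sqrt y - Real.sqrt (x + y) := by
  have hy : 0 ≤ y := hx.trans hxy
  have h1 : Real.sqrt (x + y) ≤ Real.sqrt y + Real.sqrt x / 2 := by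
    rw [Real.sqrt_le_iff]
    refine ⟨by positivity, ?_⟩
    have h2 := Real.sq_sqrt hx
    have h3 := Real.sq_sqrt hy
    have h4 : Real.sqrt x ≤ Real.sqrt y := Real.sqrt_le_sqrt hxy
    have h5 := Real.sqrt_nonneg x
    nlinarith
  linarith

lemma sqrt_add_le {x y : ℝ} (hx : 0 ≤ x) (hy : 0 ≤ y) :
    Real.sqrt (x + y) ≤ Real.sqrt x + Real.sqrt y := by
  rw [Real.sqrt_le_iff]
  refine ⟨by positivity, ?_⟩
  have h2 := Real.sq_sqrt hx
  have h3 := Real.sq_sqrt hy
  have h4 := Real.sqrt_nonneg x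
  have h5 := Real.sqrt_nonneg y
  nlinarith

lemma ll_nat {N : ℕ} (hN : Nbig ≤ N) {K : Set V} {x : ℕ} (hx : 1 ≤ x) (hK : K.ncard ≤ C1 * x) :
    (ll N K) ^ 10 ≤ 62500 * x := by
  unfold ll
  have hD : (10 ^ 10) ^ 20 ≤ N ^ 20 := Nat.pow_le_pow_left (by unfold Nbig at hN; exact hN) 20
  rcases h : Nat.clog (N ^ 20) K.ncard with _ | _ | e
  · norm_num; omega
  · norm_num; omega
  · have h1 : 1 < N ^ 20 := lt_of_lt_of_le (by norm_num) hD
    have h2 : 1 < K.ncard := by
      by_contra hc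
      have : Nat.clog (N ^ 20) K.ncard = 0 := Nat.clog_of_right_le_one (not_lt.mp hc) _
      omega
    have h3 := Nat.pow_pred_clog_lt_self h1 h2
    rw [h] at h3
    have h4 : (10 ^ 200) ^ (e + 1) ≤ (N ^ 20) ^ (e + 1) :=
      Nat.pow_le_pow_left (by norm_num at hD ⊢; exact hD) _
    have h5 : (e + 1 + 1).pred = e + 1 := rfl
    rw [h5] at h3
    have h6 : C1 ≤ 10 ^ 9 := by unfold C1 G0 D0; norm_num
    have h7 : (10 ^ 200) ^ (e + 1) ≤ 10 ^ 9 * x :=
      (h4.trans h3.le).trans (hK.trans (Nat.mul_le_mul_right x h6))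
    have h8 : 10 ^ 191 * (10 ^ 200) ^ e ≤ x := by
      have : 10 ^ 9 * (10 ^ 191 * (10 ^ 200) ^ e) ≤ 10 ^ 9 * x := by
        refine le_trans (le_of_eq ?_) h7
        rw [pow_succ (10 ^ 200) e, ← mul_assoc, ← pow_add, mul_comm]
      exact Nat.le_of_mul_le_mul_left this (by norm_num)
    have h9 : 1 + (e + 1 + 1) ≤ 3 * 2 ^ e := by
      have := Nat.lt_two_pow_self (n := e)
      omega
    calc (1 + (e + 1 + 1)) ^ 10 ≤ (3 * 2 ^ e) ^ 10 := Nat.pow_le_pow_left h9 10
      _ = 3 ^ 10 * (2 ^ 10) ^ e := by rw [mul_pow, ← pow_mul, ← pow_mul, mul_comm e 10]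
      _ ≤ 10 ^ 191 * (10 ^ 200) ^ e :=
          Nat.mul_le_mul (by norm_num) (Nat.pow_le_pow_left (by norm_num) e)
      _ ≤ x := h8
      _ ≤ 62500 * x := by omega

lemma ll_real {N : ℕ} (hN : Nbig ≤ N) {K : Set V} {x : ℕ} (hx : 1 ≤ x) (hK : K.ncard ≤ C1 * x) :
    ((ll N K : ℕ) : ℝ) ^ 5 ≤ 250 * Real.sqrt x := by
  have h1 := ll_nat hN hx hK
  have h2 : ((ll N K : ℕ) : ℝ) ^ 10 ≤ 62500 * (x : ℝ) := by exact_mod_cast h1
  have h3 : (((ll N K : ℕ) : ℝ) ^ 5 / 250) ≤ Real.sqrt x := by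
    apply Real.le_sqrt_of_sq_le
    have : (((ll N K : ℕ) : ℝ) ^ 5 / 250) ^ 2 = ((ll N K : ℕ) : ℝ) ^ 10 / 62500 := by ring
    rw [this]
    linarith
  linarith

/-- number of bad vertices, as a real number -/
noncomputable def bt (bad K : Set V) : ℝ := ((K ∩ bad).ncard : ℝ)

lemma bt_nonneg (bad K : Set V) : 0 ≤ bt bad K := Nat.cast_nonneg _

/-- admissible sets -/
def Adm (bad K : Set V) : Prop :=
  K.Finite ∧ (K.ncard : ℝ) + (G0 : ℝ) * Real.sqrt (bt bad K) ≤ (C1 : ℝ) * bt bad K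

/-- systems -/
def Sys (G : SimpleGraph V) (bad C : Set V) : Prop :=
  bad ⊆ C ∧ ∀ v ∈ C, Adm bad (cls G C v)

lemma adm_le {bad K : Set V} (h : Adm bad K) : K.ncard ≤ C1 * (K ∩ bad).ncard := by
  have h1 := h.2
  have h2 : 0 ≤ (G0 : ℝ) * Real.sqrt (bt bad K) := by positivity
  have h3 : (K.ncard : ℝ) ≤ (C1 : ℝ) * ((K ∩ bad).ncard : ℝ) := by
    unfold bt at h1 h2; linarith
  exact_mod_cast h3

lemma adm_dense {bad K : Set V} (h : Adm bad K) (hc : (G.induce K).Connected) :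
    Dense G bad Mst K := by
  refine ⟨h.1, hc, (adm_le h).trans (Nat.mul_le_mul_right _ ?_)⟩
  unfold Mst
  exact Nat.le_mul_of_pos_left _ (by omega)

lemma adm_bad {bad K : Set V} (h : Adm bad K) (hne : K.Nonempty) : ∃ b ∈ K, b ∈ bad := by
  by_contra hc
  push Not at hc
  have h1 := adm_le h
  have h2 : K ∩ bad = ∅ := by
    ext z; simp only [Set.mem_inter_iff, Set.mem_empty_iff_false, iff_false, not_and]
    exact hc z
  rw [h2, Set.ncard_empty, mul_zero, Nat.le_zero, Set.ncard_eq_zero h.1] at h1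
  exact hne.ne_empty h1

lemma bt_pos {bad K : Set V} (h : Adm bad K) (hne : K.Nonempty) : 1 ≤ (K ∩ bad).ncard := by
  obtain ⟨b, hb, hb'⟩ := adm_bad h hne
  exact (Set.ncard_pos (h.1.subset Set.inter_subset_left)).mpr ⟨b, hb, hb'⟩

lemma cls_mono {C C' : Set V} (h : C ⊆ C') (v : V) : cls G C v ⊆ cls G C' v := by
  rintro u (rfl | ⟨p, hp⟩)
  · exact mem_cls_self _
  · exact Or.inr ⟨p, fun w hw => h (hp w hw)⟩

/-! ### the initial system -/

lemma sys_bad {bad : Set V} (hS : Sparse G bad Mst) : Sys G bad bad := by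
  refine ⟨subset_rfl, fun v hv => ?_⟩
  have hsub : cls G bad v ⊆ bad := cls_sub hv
  have hfin : (cls G bad v).Finite := by
    refine ((hS v).sUnion (fun S hS => hS.1.1)).subset ?_
    intro u hu
    obtain ⟨p, hp⟩ := (mem_cls_iff hv).mp hu
    refine ⟨{w | w ∈ p.support}, ⟨⟨List.finite_toSet _, p.connected_induce_support, ?_⟩,
      p.start_mem_support⟩, p.end_mem_support⟩
    have : {w | w ∈ p.support} ∩ bad = {w | w ∈ p.support} :=
      Set.inter_eq_left.mpr (fun w hw => hp w hw)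
    rw [this]
    exact Nat.le_mul_of_pos_left _ (by unfold Mst C1; positivity)
  refine ⟨hfin, ?_⟩
  have hb : bt bad (cls G bad v) = ((cls G bad v).ncard : ℝ) := by
    unfold bt; rw [Set.inter_eq_left.mpr hsub]
  rw [hb]
  have h1 : (1 : ℝ) ≤ ((cls G bad v).ncard : ℝ) := by
    have : 1 ≤ (cls G bad v).ncard := (Set.ncard_pos hfin).mpr ⟨v, mem_cls_self v⟩
    exact_mod_cast this
  have h2 : Real.sqrt ((cls G bad v).ncard : ℝ) ≤ ((cls G bad v).ncard : ℝ) := by
    rw [Real.sqrt_le_iff]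
    constructor
    · linarith
    · nlinarith
  have h3 : (C1 : ℝ) = 1 + (G0 : ℝ) := by unfold C1; push_cast; ring
  rw [h3]
  have h4 : (0 : ℝ) ≤ (G0 : ℝ) := Nat.cast_nonneg _
  nlinarith

/-! ### chains -/

lemma chain_list {c : Set (Set V)} (hc : IsChain (· ⊆ ·) c) {C1' : Set V} (h1 : C1' ∈ c) :
    ∀ L : List V, (∀ w ∈ L, w ∈ ⋃₀ c) → ∃ C2 ∈ c, C1' ⊆ C2 ∧ ∀ w ∈ L, w ∈ C2
  | [], _ => ⟨C1', h1, subset_rfl, by simp⟩
  | a :: L, h => by
    obtain ⟨C2, h2, h12, hL⟩ := chain_list hc h1 L (fun w hw => h w (List.mem_cons_of_mem _ hw))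
    obtain ⟨C3, h3, ha⟩ := h a (List.mem_cons_self ..)
    rcases hc.total h2 h3 with h23 | h32
    · refine ⟨C3, h3, h12.trans h23, fun w hw => ?_⟩
      rcases List.mem_cons.mp hw with rfl | hw
      · exact ha
      · exact h23 (hL w hw)
    · refine ⟨C2, h2, h12, fun w hw => ?_⟩
      rcases List.mem_cons.mp hw with rfl | hw
      · exact h32 ha
      · exact hL w hw

lemma sys_chain {bad : Set V} (hS : Sparse G bad Mst) {c : Set (Set V)}
    (hcS : c ⊆ {C | Sys G bad C}) (hc : IsChain (· ⊆ ·) c) (hne : c.Nonempty) :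
    Sys G bad (⋃₀ c) := by
  constructor
  · obtain ⟨C0, h0⟩ := hne
    exact ((hcS h0).1).trans (Set.subset_sUnion_of_mem h0)
  · rintro v ⟨C0, h0, hv0⟩
    obtain ⟨b, hb, hbb⟩ := adm_bad ((hcS h0).2 v hv0) ⟨v, mem_cls_self v⟩
    have hfin : {K | ∃ C ∈ c, C0 ⊆ C ∧ K = cls G C v}.Finite := by
      refine (hS b).subset ?_
      rintro K ⟨C, hC, hC0, rfl⟩
      exact ⟨adm_dense ((hcS hC).2 v (hC0 hv0)) (cls_conn v), cls_mono hC0 v hb⟩
    obtain ⟨K, ⟨C1', h1, h01, rfl⟩, hmax⟩ := Set.exists_max_image _ Set.ncard hfin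
      ⟨cls G C0 v, C0, h0, subset_rfl, rfl⟩
    have heq : cls G (⋃₀ c) v = cls G C1' v := by
      apply Set.Subset.antisymm
      · rintro u (rfl | ⟨p, hp⟩)
        · exact mem_cls_self _
        · obtain ⟨C2, h2, h12, hL⟩ := chain_list hc h1 p.support hp
          have e : cls G C1' v = cls G C2 v := by
            refine Set.eq_of_subset_of_ncard_le (cls_mono h12 v) ?_
              ((hcS h2).2 v (h12 (h01 hv0))).1
            exact hmax _ ⟨C2, h2, h01.trans h12, rfl⟩
          rw [e]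
          exact Or.inr ⟨p, hL⟩
      · exact cls_mono (Set.subset_sUnion_of_mem h1) v
    rw [heq]
    exact (hcS h1).2 v (h01 hv0)

/-! ### adding classes only increases the slack -/

lemma slack {bad C : Set V} (hC : Sys G bad C) (n : ℕ) :
    ∀ S : Set V, S.Finite → S ⊆ C → Sat G C S → S.ncard = n → ∀ a : ℝ, 0 ≤ a →
      (S.ncard : ℝ) + (G0 : ℝ) * (Real.sqrt (a + bt bad S) - Real.sqrt a) ≤
        (C1 : ℝ) * bt bad S := by
  induction n using Nat.strong_induction_on with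
  | _ n ih =>
    intro S hS hSC hsat hn a ha
    rcases Set.eq_empty_or_nonempty S with rfl | ⟨v, hvS⟩
    · simp [bt]
    · have hvC := hSC hvS
      set K := cls G C v with hK
      have hKS : K ⊆ S := hsat v hvS
      have hAdm : Adm bad K := hC.2 v hvC
      have hKf : K.Finite := hAdm.1
      have hvK : v ∈ K := mem_cls_self v
      have hKpos : 0 < K.ncard := (Set.ncard_pos hKf).mpr ⟨v, hvK⟩
      have c1 : S.ncard = K.ncard + (S \ K).ncard := by
        have := Set.ncard_sdiff_add_ncard_of_subset hKS hS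
        omega
      have c2 : bt bad S = bt bad K + bt bad (S \ K) := by
        unfold bt
        have e2 : S ∩ bad = (K ∩ bad) ∪ ((S \ K) ∩ bad) := by
          ext x
          constructor
          · rintro ⟨h1, h2⟩
            by_cases hx : x ∈ K
            · exact Or.inl ⟨hx, h2⟩
            · exact Or.inr ⟨⟨h1, hx⟩, h2⟩
          · rintro (⟨h, h'⟩ | ⟨⟨h1, _⟩, h2⟩)
            · exact ⟨hKS h, h'⟩
            · exact ⟨h1, h2⟩
        have d2 : Disjoint (K ∩ bad) ((S \ K) ∩ bad) := by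
          rw [Set.disjoint_left]; rintro x ⟨hx, _⟩ ⟨⟨_, h⟩, _⟩; exact h hx
        rw [e2, Set.ncard_union_eq d2 (hKf.subset Set.inter_subset_left)
          ((hS.subset Set.sdiff_subset).subset Set.inter_subset_left)]
        push_cast; ring
      have i1 := ih (S \ K).ncard (by omega) (S \ K) (hS.subset Set.sdiff_subset)
        (Set.sdiff_subset.trans hSC) (sat_diff hsat (cls_sat v)) rfl (a + bt bad K)
        (add_nonneg ha (bt_nonneg _ _))
      have i2 := hAdm.2
      have i3 := sqrt_add_le ha (bt_nonneg bad K)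
      have i4 : (0 : ℝ) ≤ (G0 : ℝ) := Nat.cast_nonneg _
      rw [c1, c2, ← add_assoc]
      push_cast
      nlinarith [mul_le_mul_of_nonneg_left i3 i4]

lemma bt_split {bad K S : Set V} (hKS : K ⊆ S) (hS : S.Finite) :
    bt bad S = bt bad K + bt bad (S \ K) := by
  unfold bt
  have e2 : S ∩ bad = (K ∩ bad) ∪ ((S \ K) ∩ bad) := by
    ext x
    constructor
    · rintro ⟨h1, h2⟩
      by_cases hx : x ∈ K
      · exact Or.inl ⟨hx, h2⟩
      · exact Or.inr ⟨⟨h1, hx⟩, h2⟩
    · rintro (⟨h, h'⟩ | ⟨⟨h1, _⟩, h2⟩)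
      · exact ⟨hKS h, h'⟩
      · exact ⟨h1, h2⟩
  have d2 : Disjoint (K ∩ bad) ((S \ K) ∩ bad) := by
    rw [Set.disjoint_left]; rintro x ⟨hx, _⟩ ⟨⟨_, h⟩, _⟩; exact h hx
  rw [e2, Set.ncard_union_eq d2 ((hS.subset hKS).subset Set.inter_subset_left)
    ((hS.subset Set.sdiff_subset).subset Set.inter_subset_left)]
  push_cast; ring

/-! ### merging -/

/-- finiteness of the new component -/
lemma new_fin {N : ℕ} (hG : Gr G N) {bad C : Set V} (hC : Sys G bad C) {u v : V}
    (p : G.Walk u v) : (cls G (C ∪ {w | w ∈ p.support}) u).Finite := by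
  set W : Set V := {w | w ∈ p.support} with hW
  have hWf : W.Finite := List.finite_toSet _
  set A : Set V := {z | z ∈ C ∧ ∃ w ∈ W, z = w ∨ G.Adj w z} with hA
  have hAf : A.Finite := by
    refine (hWf.union (hWf.biUnion (t := fun w => G.neighborSet w)
      (fun w _ => hG.fin w))).subset ?_
    rintro z ⟨_, w, hw, rfl | h⟩
    · exact Or.inl hw
    · exact Or.inr (Set.mem_biUnion hw h)
  have hMf : (W ∪ ⋃ z ∈ A, cls G C z).Finite :=
    hWf.union (hAf.biUnion (fun z hz => (hC.2 z hz.1).1))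
  have key : ∀ x t (q : G.Walk x t), x ∈ W ∪ ⋃ z ∈ A, cls G C z →
      (∀ w ∈ q.support, w ∈ C ∪ W) → t ∈ W ∪ ⋃ z ∈ A, cls G C z := by
    intro x t q
    induction q with
    | nil => exact fun h _ => h
    | @cons x y t h q ih =>
      intro hx hq
      refine ih ?_ (fun w hw => hq w (by simp [hw]))
      rcases hq y (by simp) with hy | hy
      · right
        rcases hx with hx | hx
        · exact Set.mem_biUnion (x := y) ⟨hy, x, hx, Or.inr h⟩ (mem_cls_self y)
        · obtain ⟨z, hz, hxz⟩ := Set.mem_iUnion₂.mp hx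
          have hxC : x ∈ C := (cls_mem_iff hxz).mpr hz.1
          exact Set.mem_biUnion hz (cls_trans (adj_cls h hxC hy) hxz)
      · exact Or.inl hy
  refine hMf.subset ?_
  rintro t (rfl | ⟨q, hq⟩)
  · exact Or.inl p.start_mem_support
  · exact key u t q (Or.inl p.start_mem_support) hq

lemma support_sub_new {C : Set V} {u v : V} (p : G.Walk u v) {w : V} (hw : w ∈ p.support) :
    w ∈ cls G (C ∪ {w | w ∈ p.support}) u := by
  classical
  exact Or.inr ⟨p.takeUntil w hw, fun z hz =>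
    Or.inr (p.support_takeUntil_subset_support hw hz)⟩

/-- the new component is admissible -/
lemma new_adm {N : ℕ} (hG : Gr G N) {bad C : Set V} (hC : Sys G bad C) {u v : V} (hu : u ∈ C)
    (hv : v ∈ C) (huv : u ∉ cls G C v) (p : G.Walk u v)
    (hp : cost G C p < D0 * (min (ll N (cls G C u)) (ll N (cls G C v))) ^ 5) :
    Adm bad (cls G (C ∪ {w | w ∈ p.support}) u) := by
  have hTf := new_fin hG hC p
  set C' : Set V := C ∪ {w | w ∈ p.support} with hC'
  set T := cls G C' u with hT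
  have hCC : C ⊆ C' := Set.subset_union_left
  have hTC' : T ⊆ C' := cls_sub (hCC hu)
  have hWT : ∀ w ∈ p.support, w ∈ T := fun w hw => support_sub_new p hw
  have hcl : ∀ z ∈ T, cls G C z ⊆ T := fun z hz => by
    have := cls_mono (G := G) hCC z
    rwa [cls_eq hz] at this
  set K1 := cls G C u with hK1
  set K2 := cls G C v with hK2
  have hK1A : Adm bad K1 := hC.2 u hu
  have hK2A : Adm bad K2 := hC.2 v hv
  have hK1T : K1 ⊆ T ∩ C := fun z hz => ⟨hcl u (hWT u p.start_mem_support) hz, cls_sub hu hz⟩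
  have hK12 : Disjoint K1 K2 := by
    rw [Set.disjoint_left]
    intro z hz1 hz2
    exact huv (cls_trans (cls_symm hz1) hz2)
  have hK2T : K2 ⊆ (T ∩ C) \ K1 := fun z hz =>
    ⟨⟨hcl v (hWT v p.end_mem_support) hz, cls_sub hv hz⟩,
      fun h => (Set.disjoint_left.mp hK12) h hz⟩
  have hTCf : (T ∩ C).Finite := hTf.subset Set.inter_subset_left
  have hsTC : Sat G C (T ∩ C) := fun z hz w hw => ⟨hcl z hz.1 hw, cls_sub hz.2 hw⟩
  set S := ((T ∩ C) \ K1) \ K2 with hS
  have hSf : S.Finite := (hTCf.subset Set.sdiff_subset).subset Set.sdiff_subset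
  have hSs : Sat G C S := sat_diff (sat_diff hsTC (cls_sat u)) (cls_sat v)
  have hSC : S ⊆ C := fun z hz => hz.1.1.2
  -- counting
  have n1 : T.ncard = (T \ C).ncard + (T ∩ C).ncard := by
    rw [← Set.ncard_union_eq (Set.disjoint_left.mpr fun x hx hx' => hx.2 hx'.2)
      (hTf.subset Set.sdiff_subset) (hTf.subset Set.inter_subset_left), Set.sdiff_union_inter]
  have n2 : (T ∩ C).ncard = K1.ncard + ((T ∩ C) \ K1).ncard := by
    have := Set.ncard_sdiff_add_ncard_of_subset hK1T hTCf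
    omega
  have n3 : ((T ∩ C) \ K1).ncard = K2.ncard + S.ncard := by
    have := Set.ncard_sdiff_add_ncard_of_subset hK2T (hTCf.subset Set.sdiff_subset)
    rw [← hS] at this
    omega
  have b1 : bt bad T = bt bad (T ∩ C) := by
    unfold bt
    congr 2
    ext z
    constructor
    · rintro ⟨h1, h2⟩; exact ⟨⟨h1, hC.1 h2⟩, h2⟩
    · rintro ⟨⟨h1, _⟩, h2⟩; exact ⟨h1, h2⟩
  have b2 := bt_split (bad := bad) hK1T hTCf
  have b3 := bt_split (bad := bad) hK2T (hTCf.subset Set.sdiff_subset)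
  rw [← hS] at b3
  -- the outside vertices
  have g1 : (T \ C).ncard ≤ cost G C p := by
    have h1 : (T \ C).ncard ≤ (hull G C p \ C).ncard := by
      refine Set.ncard_le_ncard ?_ ((hull_fin (fun w => ?_) p).subset Set.sdiff_subset)
      · rintro z ⟨hz, hzC⟩
        refine ⟨?_, hzC⟩
        rcases hTC' hz with h | h
        · exact absurd h hzC
        · exact support_sub_hull p h
      · by_cases hw : w ∈ C
        · exact (hC.2 w hw).1
        · rw [cls_out hw]; exact Set.finite_singleton w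
    have h2 := hull_good (C := C) p
    have h3 := outs_support (C := C) p
    have h4 := outs_tail_le_cost (C := C) p
    simp only [hu, if_true] at h3
    omega
  -- the slack
  have x1 : 1 ≤ (K1 ∩ bad).ncard := bt_pos hK1A ⟨u, mem_cls_self u⟩
  have x2 : 1 ≤ (K2 ∩ bad).ncard := bt_pos hK2A ⟨v, mem_cls_self v⟩
  have l1 := ll_real (N := N) hG.big x1 (adm_le hK1A)
  have l2 := ll_real (N := N) hG.big x2 (adm_le hK2A)
  have e1 : (((K1 ∩ bad).ncard : ℕ) : ℝ) = bt bad K1 := rfl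
  have e2 : (((K2 ∩ bad).ncard : ℕ) : ℝ) = bt bad K2 := rfl
  rw [e1] at l1
  rw [e2] at l2
  have g2 : ((T \ C).ncard : ℝ) ≤
      (D0 : ℝ) * (((min (ll N K1) (ll N K2)) : ℕ) : ℝ) ^ 5 := by
    have : (T \ C).ncard ≤ D0 * (min (ll N K1) (ll N K2)) ^ 5 := g1.trans hp.le
    exact_mod_cast this
  have g3 : (((min (ll N K1) (ll N K2)) : ℕ) : ℝ) ^ 5 ≤
      500 * (Real.sqrt (bt bad K1) + Real.sqrt (bt bad K2) -
        Real.sqrt (bt bad K1 + bt bad K2)) := by
    rcases le_total (bt bad K1) (bt bad K2) with hle | hle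
    · have h1 := sqrt_ineq (bt_nonneg bad K1) hle
      have h2 : (((min (ll N K1) (ll N K2)) : ℕ) : ℝ) ^ 5 ≤ ((ll N K1 : ℕ) : ℝ) ^ 5 :=
        pow_le_pow_left₀ (Nat.cast_nonneg _) (by exact_mod_cast min_le_left _ _) 5
      linarith
    · have h1 := sqrt_ineq (bt_nonneg bad K2) hle
      have h2 : (((min (ll N K1) (ll N K2)) : ℕ) : ℝ) ^ 5 ≤ ((ll N K2 : ℕ) : ℝ) ^ 5 :=
        pow_le_pow_left₀ (Nat.cast_nonneg _) (by exact_mod_cast min_le_right _ _) 5
      rw [add_comm (bt bad K2) (bt bad K1)] at h1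
      linarith
  have g4 : (G0 : ℝ) = 500 * (D0 : ℝ) := by unfold G0; push_cast; ring
  have g5 : ((T \ C).ncard : ℝ) ≤ (G0 : ℝ) * (Real.sqrt (bt bad K1) + Real.sqrt (bt bad K2) -
        Real.sqrt (bt bad K1 + bt bad K2)) := by
    have h0 : (0 : ℝ) ≤ (D0 : ℝ) := Nat.cast_nonneg _
    have := mul_le_mul_of_nonneg_left g3 h0
    rw [g4]
    linarith
  have s1 := slack hC _ S hSf hSC hSs rfl (bt bad K1 + bt bad K2)
    (add_nonneg (bt_nonneg _ _) (bt_nonneg _ _))
  refine ⟨hTf, ?_⟩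
  have e3 : bt bad K1 + (bt bad K2 + bt bad S) = bt bad K1 + bt bad K2 + bt bad S := by ring
  rw [b1, b2, b3, n1, n2, n3, e3]
  push_cast
  have a1 := hK1A.2
  have a2 := hK2A.2
  linarith [a1, a2, s1, g5]

lemma merge {N : ℕ} (hG : Gr G N) {bad C : Set V} (hC : Sys G bad C) {u v : V} (hu : u ∈ C)
    (hv : v ∈ C) (huv : u ∉ cls G C v) (p : G.Walk u v)
    (hp : cost G C p < D0 * (min (ll N (cls G C u)) (ll N (cls G C v))) ^ 5) :
    Sys G bad (C ∪ {w | w ∈ p.support}) := by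
  classical
  refine ⟨hC.1.trans Set.subset_union_left, fun z hz => ?_⟩
  by_cases hzT : z ∈ cls G (C ∪ {w | w ∈ p.support}) u
  · rw [cls_eq hzT]
    exact new_adm hG hC hu hv huv p hp
  · have hzC : z ∈ C := by
      rcases hz with h | h
      · exact h
      · exact absurd (support_sub_new p h) hzT
    have : cls G (C ∪ {w | w ∈ p.support}) z = cls G C z := by
      apply Set.Subset.antisymm
      · rintro t (rfl | ⟨q, hq⟩)
        · exact mem_cls_self _
        · refine Or.inr ⟨q, fun w hw => ?_⟩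
          rcases hq w hw with h | h
          · exact h
          · exfalso
            apply hzT
            have h1 : w ∈ cls G (C ∪ {w | w ∈ p.support}) z :=
              Or.inr ⟨q.takeUntil w hw, fun y hy =>
                hq y (q.support_takeUntil_subset_support hw hy)⟩
            exact cls_trans (cls_symm h1) (support_sub_new p h)
      · exact cls_mono Set.subset_union_left z
    rw [this]
    exact hC.2 z hzC

end CORE_

/-- block CORE -/
theorem stmt_CORE : Stmt_CORE := by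
  intro V G N bad hG hS
  obtain ⟨C, _, hmax⟩ := zorn_subset_nonempty {C | CORE_.Sys G bad C}
    (fun c hc hch hne => ⟨⋃₀ c, CORE_.sys_chain hS hc hch hne,
      fun s hs => Set.subset_sUnion_of_mem hs⟩) bad (CORE_.sys_bad hS)
  have hC : CORE_.Sys G bad C := hmax.prop
  refine ⟨C, hC.1, fun v => ?_, fun v hv => CORE_.adm_le (hC.2 v hv), ?_⟩
  · by_cases hv : v ∈ C
    · exact (hC.2 v hv).1
    · rw [cls_out hv]; exact Set.finite_singleton v
  · intro u hu v hv huv
    by_contra hc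
    obtain ⟨p, hp⟩ := exists_walk (C := C) hG.conn u v
    have h1 := CORE_.merge hG hC hu hv huv p (by rw [hp]; exact not_le.mp hc)
    have h2 : C ∪ {w | w ∈ p.support} ⊆ C := hmax.le_of_ge h1 Set.subset_union_left
    exact huv (cls_symm (Or.inr ⟨p, fun w hw => h2 (Or.inr hw)⟩))

end Pool.Agent.FPPHE
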