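import Pool.Agent.Work.MP_04d5a3_full.COLB

/-!
# FPPHE (MP_04d5a3_pr): block DATA, the input of the dynamic theorem (helper60)
-/

namespace Pool.Agent.FPPHE

open SimpleGraph

namespace DATA_

variable {V : Type} {G : SimpleGraph V} {C : Set V} {N : ℕ} {bad : Set V}
  {Col : Set V → ℕ → Set V} {U : V → ℝ}

lemma one_lt_U (hN : 2 ≤ N) (hF : Field G N bad C U) {v : V} (hv : v ∈ C) : 1 ≤ U v := by
  refine le_trans ?_ (hF.f2 v hv)
  exact one_le_pow₀ (by exact_mod_cast (by omega : 1 ≤ N))

lemma not_mem_of_lt (hN : 2 ≤ N) (hF : Field G N bad C U) {v : V} (hv : U v < 1) : v ∉ C :=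
  fun h => absurd (one_lt_U hN hF h) (not_le.mpr hv)

/-- a walk of small cost starting near `K` meets only cores of size `ll ≤ ll K` -/
lemma small_cores (hG : G.Connected) (hC : CoreSys G N bad C) {K : Set V} (hK : K ∈ Cores G C)
    {u x y : V} (hu : u ∈ K) (p : G.Walk x y) {a : ℕ} (hux : dc G C u x ≤ a * wt N K)
    {b : ℕ} (hp : cost G C p ≤ b * wt N K) (hab : a + b < 10 ^ 6) :
    ∀ K' ∈ coresOf G C p, ll N K' ≤ ll N K := by
  intro K' hK'
  by_contra hlt
  have hlt := not_le.mp hlt
  obtain ⟨w, hw, hwC, rfl⟩ := (mem_coresOf p K').mp hK'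
  have hne : K ≠ cls G C w := by rintro rfl; exact lt_irrefl _ hlt
  have h1 := COLB_.sep' hC hK (cls_mem_cores hwC) hne (by unfold wt; omega) hu (mem_cls_self w)
  have h2 := (dc_support (C := C) p hw).1
  have h3 := dc_tri (C := C) hG u x w
  have h4 : dc G C u w ≤ (a + b) * wt N K := by rw [add_mul]; omega
  have h5 : 1 ≤ wt N K := ll_pos N K
  have h6 : (a + b) * wt N K < 10 ^ 6 * wt N K := Nat.mul_lt_mul_of_pos_right hab h5
  omega

lemma sum_small (hSUM : Stmt_SUM) (hG : G.Connected) (hC : CoreSys G N bad C) {K : Set V}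
    {x y : V} (p : G.Walk x y)
    {b : ℕ} (hp : cost G C p ≤ b * wt N K) (hb : 2 * b < 10 ^ 6)
    (h : ∀ K' ∈ coresOf G C p, ll N K' ≤ ll N K) :
    ∑ K' ∈ coresOf G C p, ll N K' ≤ 2 * wt N K := by
  have h1 := hSUM V G N bad C hG hC x y p (ll N K) h
  have h3 : D0 = 10 ^ 6 := rfl
  rw [h3] at h1
  have h5 : 1 ≤ ll N K := ll_pos N K
  unfold wt at hp ⊢
  have h6 : 2 * b * ll N K < 10 ^ 6 * ll N K := Nat.mul_lt_mul_of_pos_right hb h5
  have h7 : 2 * b * ll N K = 2 * (b * ll N K) := by ring
  omega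

/-- (C9) -/
lemma c9 (hSUM : Stmt_SUM) (hCHAIN : Stmt_CHAIN) (hGr : Gr G N) (hC : CoreSys G N bad C)
    (hF : Field G N bad C U) (hCol : Collars G N C Col) :
    ∀ K ∈ Cores G C, ∀ y ∈ Col K (11 * wt N K), 1 ≤ U y := by
  intro K hK y hy
  by_contra hlt
  have hlt := not_le.mp hlt
  have hG := hGr.conn
  have hN10 : (10 : ℕ) ^ 10 ≤ N := hGr.big
  have hN : 2 ≤ N := le_trans (by norm_num) hN10
  have hNR : (1 : ℝ) < N := by exact_mod_cast (by omega : 1 < N)
  have hlogN : 0 < Real.log N := Real.log_pos hNR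
  obtain ⟨u, hu⟩ := core_nonempty hK
  have hr := hCol.reach K hK _ le_rfl y hy u hu
  obtain ⟨p, hp⟩ := exists_walk (C := C) hG u y
  have hw1 : 1 ≤ wt N K := ll_pos N K
  have hcost : cost G C p ≤ 60 * wt N K := by omega
  have hsm := small_cores hG hC hK hu p (a := 0) (by simp) hcost (by norm_num)
  have hsum := sum_small hSUM hG hC p hcost (by norm_num) hsm
  -- the function F = log_N max(U,1)
  set F : V → ℝ := fun x => Real.log (max (U x) 1) / Real.log N with hFdef
  have hmax : ∀ x, (1 : ℝ) ≤ max (U x) 1 := fun x => le_max_right _ _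
  have hkey : ∀ (x x' : V) (c : ℝ) (m : ℕ), max (U x') 1 ≤ (N : ℝ) ^ m * max (U x) 1 →
      (m : ℝ) ≤ c → F x' ≤ F x + c := by
    intro x x' c m h hm
    have h1 : Real.log (max (U x') 1) ≤ m * Real.log N + Real.log (max (U x) 1) := by
      rw [← Real.log_pow, ← Real.log_mul (by positivity) (by linarith [hmax x])]
      exact Real.log_le_log (by linarith [hmax x']) h
    have h2 : F x' ≤ (m * Real.log N + Real.log (max (U x) 1)) / Real.log N := by
      rw [hFdef]; exact div_le_div_of_nonneg_right h1 hlogN.le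
    have h3 : (m * Real.log N + Real.log (max (U x) 1)) / Real.log N = m + F x := by
      rw [hFdef, add_div, mul_div_assoc, div_self hlogN.ne', mul_one]
    linarith
  -- one step from outside
  have hstep : ∀ x x', x ∉ C → G.Adj x x' → U x' ≤ (N : ℝ) ^ 16 * max (U x) 1 := by
    intro x x' hx h
    refine le_trans ?_ (hF.f1 x hx)
    have hfin : (G.neighborSet x).Finite := hGr.fin x
    rw [finsum_mem_eq_finite_toFinset_sum _ hfin]
    exact Finset.single_le_sum (f := fun z => U z) (fun z _ => hF.nonneg z)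
      (by simpa using h : x' ∈ hfin.toFinset)
  have hone : ∀ m : ℕ, (1 : ℝ) ≤ (N : ℝ) ^ m := fun m => one_le_pow₀ hNR.le
  have hst1 : ∀ x x', x ∉ C → G.Adj x x' → F x' ≤ F x + 16 := by
    intro x x' hx h
    refine hkey x x' 16 16 ?_ (by norm_num)
    refine max_le (hstep x x' hx h) ?_
    have := hone 16
    nlinarith [hmax x]
  have hst2 : ∀ x x', x ∈ C → G.Adj x x' → F x' ≤ F x + 16 + 20 * ll N (cls G C x) := by
    intro x x' hx h
    have hb := hF.f1b x x' hx h
    have hcard : ((cls G C x).ncard : ℝ) ≤ (N : ℝ) ^ (20 * (ll N (cls G C x) - 1)) := by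
      have := ncard_le_ll hN (cls G C x)
      rw [← pow_mul] at this
      exact_mod_cast this
    have hUx : U x ≤ max (U x) 1 := le_max_left _ _
    have h16 : (0 : ℝ) ≤ (N : ℝ) ^ 16 := by positivity
    have hm : max (U x') 1 ≤ (N : ℝ) ^ (16 + 20 * (ll N (cls G C x) - 1)) * max (U x) 1 := by
      refine max_le ?_ ?_
      · refine hb.trans ?_
        rw [pow_add]
        have h0 : (0 : ℝ) ≤ (cls G C x).ncard := by positivity
        have hU0 := hF.nonneg x
        gcongr
      · have := hone (16 + 20 * (ll N (cls G C x) - 1))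
        nlinarith [hmax x]
    have h4 := hkey x x' _ _ hm le_rfl
    have h5 : ((16 + 20 * (ll N (cls G C x) - 1) : ℕ) : ℝ) ≤ 16 + 20 * ll N (cls G C x) := by
      have : (16 + 20 * (ll N (cls G C x) - 1) : ℕ) ≤ 16 + 20 * ll N (cls G C x) := by omega
      exact_mod_cast this
    linarith
  have hch := hCHAIN V G N C F 16 20 (by norm_num) (by norm_num)
    (by
      intro a b hab
      simp only [hFdef]
      rw [hF.const a b hab])
    (by
      intro x z h hx hz
      have := hst1 z x hz h.symm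
      linarith)
    (by
      intro x z h hx hz
      have h1 := hst1 z x hz h.symm
      have h2 := hst2 x z hx h
      have h0 : (0 : ℝ) ≤ ll N (cls G C x) := by positivity
      constructor <;> linarith)
    u y p
  have hFy : F y = 0 := by
    simp only [hFdef]
    rw [max_eq_right hlt.le, Real.log_one, zero_div]
  rw [hFy] at hch
  -- lower bound for F u
  have huC : u ∈ C := core_sub hK hu
  have hf2 := hF.f2 u huC
  rw [← eq_cls_of_mem hK hu] at hf2
  have hlow : ((1760 * max Ca (2 * K.ncard) : ℕ) : ℝ) ≤ F u := by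
    have h1 : Real.log ((N : ℝ) ^ (1760 * max Ca (2 * K.ncard))) ≤ Real.log (max (U u) 1) :=
      Real.log_le_log (by positivity) (hf2.trans (le_max_left _ _))
    rw [Real.log_pow] at h1
    simp only [hFdef]
    rw [le_div_iff₀ hlogN]
    exact h1
  have hle := COLB_.wt_le (K := K) hN
  have hKpos : 1 ≤ K.ncard := (Set.ncard_pos (core_fin hC hK)).mpr ⟨u, hu⟩
  have hc' : (cost G C p : ℝ) ≤ 60 * wt N K := by exact_mod_cast hcost
  have hs' : ((∑ K' ∈ coresOf G C p, ll N K' : ℕ) : ℝ) ≤ 2 * wt N K := by exact_mod_cast hsum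
  have hfin1 : F u ≤ 1040 * wt N K := by
    linarith
  have hfin2 : ((1760 * max Ca (2 * K.ncard) : ℕ) : ℝ) ≤ 1040 * wt N K := hlow.trans hfin1
  have hfin3 : 1760 * max Ca (2 * K.ncard) ≤ 1040 * wt N K := by exact_mod_cast hfin2
  have h9 : 2 * K.ncard ≤ max Ca (2 * K.ncard) := le_max_right _ _
  omega

end DATA_

open DATA_ COLB_ in
theorem stmt_DATA (hSUM : Stmt_SUM) (hCHAIN : Stmt_CHAIN) : Stmt_DATA := by
  intro V G N bad C U Col ρ o v hGr hdeg hC hS hF hCol hCol2 hR hUo hUv
  have hG := hGr.conn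
  have hN10 : (10 : ℕ) ^ 10 ≤ N := hGr.big
  have hN : 2 ≤ N := le_trans (by norm_num) hN10
  have hNR : (1 : ℝ) < N := by exact_mod_cast (by omega : 1 < N)
  have hc9 := c9 hSUM hCHAIN hGr hC hF hCol
  have hkon : (Kon0 : ℝ) = 40 * C6 := rfl
  have hC6 : (0 : ℝ) ≤ C6 := by positivity
  refine
    { kon := ?_
      rho_nonneg := hR.nonneg
      o_not := not_mem_of_lt hN hF hUo
      v_not := not_mem_of_lt hN hF hUv
      w_pos := fun K => ll_pos N K
      base := hCol.base
      mono := hCol.mono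
      desc := ?_
      exit := hCol2.c7
      chain := ?_
      alt := ?_
      level := hCol2.c6
      nbr := hCol.nbr
      osc := ?_
      o_vis := ?_
      fin := hCol2.c10
      cross := ?_ }
  · rw [hkon]
    have : (1 : ℝ) ≤ C6 := by
      have : 1 ≤ C6 := by unfold C6; norm_num
      exact_mod_cast this
    linarith
  · -- descent
    intro KK hKK j hj y hyv hall hnot
    have hmem : ∀ K ∈ Cores G C, ∀ x, x ∈ Col K (j K) → x ∈ Col K (11 * wt N K) := by
      intro K hK x hx
      exact hCol.mono K hK _ _ (by have := hj K; omega) le_rfl hx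
    have hy0 : ∀ K ∈ Cores G C, y ∉ Col K (j K) := fun K hK hy =>
      hnot K (hall K hK (hmem K hK y hy)) hy
    have hcore : ∀ x, x ∈ C → x ∈ Col (cls G C x) (j (cls G C x)) := by
      intro x hx
      have hK := cls_mem_cores (G := G) hx
      exact hCol.mono _ hK 0 _ (Nat.zero_le _) (by have := hj (cls G C x); omega)
        (hCol.base _ hK (mem_cls_self x))
    have hyC : y ∉ C := fun h => hy0 _ (cls_mem_cores h) (hcore y h)
    rcases lt_or_ge (U y) 1 with hUy | hUy
    · obtain ⟨x, hx, hUx, hρ⟩ := hR.r1 y hUy hyv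
      refine ⟨x, hx, not_mem_of_lt hN hF hUx, ?_, hρ⟩
      intro K hK hxK
      exact absurd (hc9 K (hKK hK) x (hmem K (hKK hK) x hxK)) (not_le.mpr hUx)
    · have h1 := hR.r2 y hyC hUy
      -- neighbours in collars
      set B1 : Set V := {x | G.Adj y x ∧ x ∉ C ∧ ρ y - 1 < ρ x} with hB1
      set B2 : Set V := {x | G.Adj y x ∧ ∃ K ∈ Cores G C, x ∈ Col K (j K)} with hB2
      have h2 : B2.ncard * 100 ≤ N ^ 20 := by
        by_cases hex : ∃ K ∈ Cores G C, ∃ x, G.Adj y x ∧ x ∈ Col K (j K)
        · obtain ⟨K, hK, hx⟩ := hex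
          have hsub : B2 ⊆ {x | G.Adj y x ∧ x ∈ Col K (j K)} := by
            rintro x ⟨hxy, K', hK', hxK'⟩
            have := hCol2.c8 j hj y hy0 K hK K' hK' hx ⟨x, hxy, hxK'⟩
            subst this
            exact ⟨hxy, hxK'⟩
          have hfin : {x | G.Adj y x ∧ x ∈ Col K (j K)}.Finite :=
            (hGr.fin y).subset (fun x hx => hx.1)
          have h3 := Set.ncard_le_ncard hsub hfin
          have h4 := hCol.clos K hK (j K) (by have := hj K; omega) y (hy0 K hK)
          omega
        · have : B2 = ∅ := by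
            ext x
            simp only [hB2, Set.mem_ofPred_eq, Set.mem_empty_iff_false, iff_false]
            rintro ⟨hxy, K', hK', hxK'⟩
            exact hex ⟨K', hK', x, hxy, hxK'⟩
          rw [this]; simp
      have hNpos : 0 < N ^ 20 := by positivity
      have hex : ∃ x ∈ G.neighborSet y, x ∉ B1 ∪ B2 := by
        by_contra hcon
        push Not at hcon
        have hsub : G.neighborSet y ⊆ B1 ∪ B2 := hcon
        have hfin : (B1 ∪ B2).Finite := (hGr.fin y).subset (by
          rintro x (hx | hx)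
          · exact hx.1
          · exact hx.1)
        have h3 := Set.ncard_le_ncard hsub hfin
        have h4 := Set.ncard_union_le B1 B2
        rw [hdeg y] at h3
        omega
      obtain ⟨x, hxy, hx⟩ := hex
      rw [Set.mem_union, not_or] at hx
      have hxnot : ∀ K ∈ Cores G C, x ∉ Col K (j K) := fun K hK hxK => hx.2 ⟨hxy, K, hK, hxK⟩
      have hxC : x ∉ C := fun h => hxnot _ (cls_mem_cores h) (hcore x h)
      refine ⟨x, hxy, hxC, fun K hK => hxnot K (hKK hK), ?_⟩
      by_contra hlt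
      exact hx.1 ⟨hxy, hxC, not_le.mp hlt⟩
  · -- chain
    intro K hK K' hK' hne hw i i' hi hi' y hy hy'
    have h1 : y ∈ Col K (11 * wt N K) := hCol.mono K hK _ _ (by omega) le_rfl hy
    have h2 : y ∈ Col K' (11 * wt N K') := hCol.mono K' hK' _ _ (by omega) le_rfl hy'
    have h3 := hCol2.c5 K hK K' hK' hne y h1 h2 hw
    refine ⟨h3.1, ?_⟩
    rcases hCol.swal K' hK' K hK h3.2 i' (by omega) with h4 | h4
    · exact h4
    · exact absurd hy' (Set.disjoint_left.mp h4 h1)
  · -- alt
    intro K hK K' hK' hw i' hi' y z hy hz hy'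
    have hp : 1 ≤ wt N K := ll_pos N K
    have h1 : y ∈ Col K (11 * wt N K) := hCol.mono K hK _ _ (by omega) le_rfl hy
    have h2 : z ∈ Col K (11 * wt N K) := hCol.mono K hK _ _ (by omega) le_rfl hz
    rcases hCol.swal K' hK' K hK (ncard_lt_of_ll hw) i' (by omega) with h4 | h4
    · exact h4 h2
    · exact absurd hy' (Set.disjoint_left.mp h4 h1)
  · -- osc
    intro K hK y z hy hz hyK hzK
    have hp : 1 ≤ wt N K := ll_pos N K
    obtain ⟨u, hu⟩ := core_nonempty hK
    have h1 := hCol.reach K hK _ (by omega) y hyK u hu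
    have h2 := hCol.reach K hK _ (by omega) z hzK u hu
    obtain ⟨p, hp'⟩ := exists_walk (C := C) hG y z
    have h3 := dc_tri (C := C) hG y u z
    rw [dc_comm y u] at h3
    have hcost : cost G C p ≤ 30 * wt N K := by omega
    have hsm := small_cores hG hC hK hu p (a := 15) (by omega) hcost (by norm_num)
    have hsum := sum_small hSUM hG hC p hcost (by norm_num) hsm
    have h4 := hR.r3 y z hy hz p
    have h5 := (le_abs_self _).trans h4
    have h6 : ((cost G C p + ∑ K ∈ coresOf G C p, ll N K : ℕ) : ℝ) ≤ 40 * wt N K := by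
      have : cost G C p + ∑ K ∈ coresOf G C p, ll N K ≤ 40 * wt N K := by omega
      exact_mod_cast this
    have h7 := mul_le_mul_of_nonneg_left h6 hC6
    rw [hkon]
    linarith
  · -- o_vis
    intro K hK ho
    have hp : 1 ≤ wt N K := ll_pos N K
    exact absurd (hc9 K hK o (hCol.mono K hK _ _ (by omega) le_rfl ho)) (not_le.mpr hUo)
  · -- cross
    intro x y hx hy p g hg hout hcores
    have h1 := cost_le_outs (C := C) p hx hy
    have h2 : ∀ K ∈ coresOf G C p, ll N K ≤ 2 * g := by
      intro K hK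
      obtain ⟨w, hw, hwC, rfl⟩ := (mem_coresOf p K).mp hK
      exact (hcores _ (cls_mem_cores hwC) ⟨w, hw, mem_cls_self w⟩).le
    have h3 := hSUM V G N bad C hG hC x y p (2 * g) h2
    have hD : D0 = 10 ^ 6 := rfl
    rw [hD] at h3
    have h4 := hR.r3 x y hx hy p
    have h5 := (neg_abs_le _).trans' (neg_le_neg h4)
    have h6 : ((cost G C p + ∑ K ∈ coresOf G C p, ll N K : ℕ) : ℝ) ≤ 40 * g := by
      have : cost G C p + ∑ K ∈ coresOf G C p, ll N K ≤ 40 * g := by omega
      exact_mod_cast this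
    have h7 := mul_le_mul_of_nonneg_left h6 hC6
    rw [hkon]
    linarith

end Pool.Agent.FPPHE
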