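import Pool.Agent.Work.MP_04d5a3_full.EVO

/-!
# FPPHE, block DYN: the dynamic theorem (PROOF.md, section 8)
-/

namespace Pool.Agent.FPPHE.DYN_

open Pool.Agent.FPPHE Pool.Agent.FPPHE.EVO_
open scoped ENNReal

variable {V : Type}

/-! ### walks and `outs` -/

lemma outs_tail (C : Set V) {G : SimpleGraph V} {x y : V} (p : G.Walk x y) (hx : x ∉ C) :
    outs C p.support = 1 + outs C p.support.tail := by
  rw [← SimpleGraph.Walk.cons_tail_support p, outs_cons, if_neg hx, List.tail_cons]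

lemma outs_tail' (C : Set V) {G : SimpleGraph V} {x y : V} (p : G.Walk x y) (hx : x ∈ C) :
    outs C p.support = outs C p.support.tail := by
  rw [← SimpleGraph.Walk.cons_tail_support p, outs_cons, if_pos hx, List.tail_cons, zero_add]

lemma outs_dropLast (C : Set V) {G : SimpleGraph V} {x y : V} (p : G.Walk x y) (hy : y ∉ C) :
    outs C p.support = outs C p.support.dropLast + 1 := by
  have h : p.support = p.support.dropLast ++ [y] := by
    have h1 := List.dropLast_append_getLast (SimpleGraph.Walk.support_ne_nil p)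
    rw [SimpleGraph.Walk.getLast_support] at h1
    exact h1.symm
  conv_lhs => rw [h]
  rw [outs_append, outs_cons, outs_nil, if_neg hy]

lemma outs_pos (C : Set V) (L : List V) (a : V) (ha : a ∈ L) (haC : a ∉ C) : 1 ≤ outs C L := by
  classical
  unfold outs
  exact List.length_pos_of_mem (a := a) (by simp [ha, haC])

/-- first exit of a set along a walk -/
lemma first_exit {G : SimpleGraph V} (C : Set V) : ∀ {x y : V} (p : G.Walk x y), y ∉ C →
    ∃ z, z ∈ p.support ∧ z ∉ C ∧ ∃ r : G.Walk x z, (∀ w ∈ r.support, w ∈ p.support) ∧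
      outs C r.support = 1 := by
  intro x y p
  induction p with
  | nil =>
    intro hy
    refine ⟨_, by simp, hy, SimpleGraph.Walk.nil, by simp, ?_⟩
    simp [outs_cons, outs_nil, hy]
  | @cons a b c hab p ih =>
    intro hy
    by_cases ha : a ∈ C
    · obtain ⟨z, hz, hzC, r, hr, ho⟩ := ih hy
      refine ⟨z, by simp [hz], hzC, SimpleGraph.Walk.cons hab r, ?_, ?_⟩
      · intro w hw
        rw [SimpleGraph.Walk.support_cons, List.mem_cons] at hw ⊢
        rcases hw with rfl | hw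
        · exact Or.inl rfl
        · exact Or.inr (hr w hw)
      · rw [SimpleGraph.Walk.support_cons, outs_cons, if_pos ha, zero_add, ho]
    · refine ⟨a, by simp, ha, SimpleGraph.Walk.nil, by simp, ?_⟩
      simp [outs_cons, outs_nil, ha]

/-- some exit of a set along a walk -/
lemma some_exit {G : SimpleGraph V} (X : Set V) {x y : V} (p : G.Walk x y) (hx : x ∈ X)
    (hy : y ∉ X) : ∃ a b, a ∈ p.support ∧ b ∈ p.support ∧ G.Adj a b ∧ a ∈ X ∧ b ∉ X := by
  obtain ⟨d, hd, h1, h2⟩ := p.exists_boundary_dart X hx hy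
  exact ⟨d.fst, d.snd, p.dart_fst_mem_support_of_mem_darts hd,
    p.dart_snd_mem_support_of_mem_darts hd, d.adj, h1, h2⟩

/-! ### the set-up -/

section main

variable {G : SimpleGraph V} {C : Set V} {Col : Set V → ℕ → Set V} {w : Set V → ℕ}
  {ρ : V → ℝ} {o v : V} {Kon : ℝ} (D : DynData G C Col w ρ o v Kon)
  {ω : Env V} {A N' : ℝ} {τ : V → ℝ≥0∞} {red : V → Prop}

/-- the potential -/
noncomputable def pot (A : ℝ) (τ : V → ℝ≥0∞) (ρ : V → ℝ) (y : V) : ℝ := (τ y).toReal + 2 * A * ρ y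

/-- visible vertices -/
def Vis (KK : Set (Set V)) (Col : Set V → ℕ → Set V) (τ : V → ℝ≥0∞) (red : V → Prop) (T0 : ℝ≥0∞)
    (j : Set V → ℕ) (y : V) : Prop :=
  red y ∧ τ y ≤ T0 ∧ ∀ K ∈ KK, y ∉ Col K (j K)

/-- finiteness of the set of pairs -/
lemma finite_pairs (KK : Finset (Set V)) (w : Set V → ℕ) :
    {j : Set V → ℕ | (∀ K, j K ≤ w K) ∧ ∀ K, K ∉ KK → j K = 0}.Finite := by
  classical
  have hinj : Set.InjOn (fun (j : Set V → ℕ) (K : KK) => j K)
      {j : Set V → ℕ | (∀ K, j K ≤ w K) ∧ ∀ K, K ∉ KK → j K = 0} := by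
    intro j hj j' hj' h
    funext K
    by_cases hK : K ∈ KK
    · exact congrFun h ⟨K, hK⟩
    · rw [hj.2 K hK, hj'.2 K hK]
  refine Set.Finite.of_finite_image ?_ hinj
  refine Set.Finite.subset (Set.Finite.pi' (t := fun K : KK => {n : ℕ | n ≤ w K})
    (fun K => Set.finite_le_nat (w K))) ?_
  rintro f ⟨j, hj, rfl⟩ K
  exact hj.1 K

include D in
/-- the history leaves `R_K` through a vertex which is as visible as `y` -/
lemma exit_history (hA : 0 < A)
    (hH1 : ∀ y, τ y < ⊤ → red y → ∃ p : G.Walk y o, ∀ w ∈ p.support, red w ∧ τ w ≤ τ y)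
    (K : Set V) (hK : K ∈ Cores G C) (y : V) (hy : y ∈ Col K (w K)) (hyC : y ∉ C)
    (hτ : τ y < ⊤) (hr : red y) :
    ∃ z, red z ∧ τ z ≤ τ y ∧ z ∉ C ∧ z ∉ Col K (w K) ∧
      (∀ K' ∈ Cores G C, ∀ i, i ≤ w K' → z ∈ Col K' i → Col K (w K) ⊆ Col K' i) ∧
      pot A τ ρ z ≤ pot A τ ρ y + 2 * A * (Kon * w K) := by
  obtain ⟨p, hp⟩ := hH1 y hτ hr
  obtain ⟨a, b, ha, hb, hab, haX, hbX⟩ := some_exit (Col K (w K)) p hy (D.o_vis K hK)
  obtain ⟨hbC, hb2⟩ := D.exit K hK a haX b hab hbX
  have hw := D.w_pos K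
  have hy1 : y ∈ Col K (w K + 1) := D.mono K hK (w K) (w K + 1) (by omega) (by omega) hy
  have hb1 : b ∈ Col K (w K + 1) := D.nbr K hK (w K) (by omega) a haX b hab
  have hosc := D.osc K hK b y hbC hyC hb1 hy1
  refine ⟨b, (hp b hb).1, (hp b hb).2, hbC, hbX, hb2, ?_⟩
  unfold pot
  have h1 : (τ b).toReal ≤ (τ y).toReal := ENNReal.toReal_mono hτ.ne (hp b hb).2
  have h2 : 2 * A * ρ b ≤ 2 * A * (ρ y + Kon * w K) :=
    mul_le_mul_of_nonneg_left hosc (by linarith)
  linarith

/-- the minimising pair -/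
structure Min (G : SimpleGraph V) (C : Set V) (Col : Set V → ℕ → Set V) (w : Set V → ℕ)
    (ρ : V → ℝ) (τ : V → ℝ≥0∞) (red : V → Prop) (T0 : ℝ≥0∞) (A c1 : ℝ)
    (KK : Finset (Set V)) (j : Set V → ℕ) (u : V) : Prop where
  le : ∀ K, j K ≤ w K
  zero : ∀ K, K ∉ KK → j K = 0
  vis : Vis (KK : Set (Set V)) Col τ red T0 j u
  min : ∀ (j' : Set V → ℕ) (u' : V), (∀ K, j' K ≤ w K) → (∀ K, K ∉ KK → j' K = 0) →
    Vis (KK : Set (Set V)) Col τ red T0 j' u' →
    pot A τ ρ u - c1 * A * (∑ K ∈ KK, (j K : ℝ)) ≤ pot A τ ρ u' - c1 * A * (∑ K ∈ KK, (j' K : ℝ))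

lemma exists_min {T0 : ℝ≥0∞} (hfin : {y | τ y ≤ T0}.Finite) (A c1 : ℝ) (KK : Finset (Set V))
    (u0 : V) (j0 : Set V → ℕ) (h0 : ∀ K, j0 K ≤ w K) (h0' : ∀ K, K ∉ KK → j0 K = 0)
    (hv : Vis (KK : Set (Set V)) Col τ red T0 j0 u0) :
    ∃ j u, Min G C Col w ρ τ red T0 A c1 KK j u := by
  classical
  have hF : {q : (Set V → ℕ) × V | ((∀ K, q.1 K ≤ w K) ∧ ∀ K, K ∉ KK → q.1 K = 0) ∧
      Vis (KK : Set (Set V)) Col τ red T0 q.1 q.2}.Finite := by
    refine Set.Finite.subset ((finite_pairs KK w).prod hfin) ?_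
    rintro ⟨j, u⟩ ⟨h1, h2⟩
    exact ⟨h1, h2.2.1⟩
  obtain ⟨⟨j, u⟩, hq, hmin⟩ := Set.exists_min_image _
    (fun q : (Set V → ℕ) × V => pot A τ ρ q.2 - c1 * A * (∑ K ∈ KK, (q.1 K : ℝ))) hF
    ⟨(j0, u0), ⟨h0, h0'⟩, hv⟩
  refine ⟨j, u, hq.1.1, hq.1.2, hq.2, ?_⟩
  intro j' u' h1 h2 h3
  exact hmin (j', u') ⟨⟨h1, h2⟩, h3⟩

lemma sum_update (KK : Finset (Set V)) (j : Set V → ℕ) (K : Set V) (hK : K ∈ KK) (m : ℕ) :
    ∑ K' ∈ KK, ((open Classical in Function.update j K m) K' : ℝ) =
      (∑ K' ∈ KK, (j K' : ℝ)) - j K + m := by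
  classical
  rw [← Finset.add_sum_erase KK _ hK, ← Finset.add_sum_erase KK (fun K' => (j K' : ℝ)) hK]
  have : ∑ x ∈ KK.erase K, ((Function.update j K m) x : ℝ) = ∑ x ∈ KK.erase K, (j x : ℝ) := by
    refine Finset.sum_congr rfl ?_
    intro x hx
    rw [Function.update_of_ne (Finset.ne_of_mem_erase hx)]
  rw [this]
  simp only [Function.update_self]
  ring

variable {T0 : ℝ≥0∞} {KK : Finset (Set V)} {j : Set V → ℕ} {u : V}

include D in
/-- a visible vertex is outside `C` -/
lemma vis_not_C (hKKall : ∀ y, τ y ≤ T0 → ∀ K ∈ Cores G C, y ∈ Col K (11 * w K) → K ∈ KK)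
    {j : Set V → ℕ} (hj : ∀ K, j K ≤ w K) {y : V}
    (hv : Vis (KK : Set (Set V)) Col τ red T0 j y) : y ∉ C := by
  intro hy
  have hK : cls G C y ∈ Cores G C := ⟨y, hy, rfl⟩
  have hyK : y ∈ cls G C y := Or.inl rfl
  have h0 : y ∈ Col (cls G C y) 0 := D.base _ hK hyK
  have h11 : y ∈ Col (cls G C y) (11 * w (cls G C y)) :=
    D.mono _ hK 0 _ (Nat.zero_le _) le_rfl h0
  have hKK := hKKall y hv.2.1 _ hK h11
  refine hv.2.2 _ hKK ?_
  exact D.mono _ hK 0 _ (Nat.zero_le _) (by have := hj (cls G C y); omega) h0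

include D in
/-- CLAIM 1 -/
lemma claim1 (hA : 0 < A) (hT0 : T0 < ⊤)
    (hKK : ∀ K ∈ KK, K ∈ Cores G C)
    (hKKall : ∀ y, τ y ≤ T0 → ∀ K ∈ Cores G C, y ∈ Col K (11 * w K) → K ∈ KK)
    (hH1 : ∀ y, τ y < ⊤ → red y → ∃ p : G.Walk y o, ∀ w ∈ p.support, red w ∧ τ w ≤ τ y)
    (M : Min G C Col w ρ τ red T0 A (5 * Kon) KK j u) :
    ∀ K ∈ KK, w K ≤ 2 * j K := by
  classical
  intro K hK
  by_contra hlt
  push Not at hlt
  have hKC := hKK K hK
  have hkon := D.kon
  have huC := vis_not_C D hKKall M.le M.vis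
  have hτu : τ u < ⊤ := lt_of_le_of_lt M.vis.2.1 hT0
  -- the raised levels
  set j' : Set V → ℕ := Function.update j K (w K) with hj'
  have hj'le : ∀ K', j' K' ≤ w K' := by
    intro K'
    by_cases h : K' = K
    · subst h; simp [hj']
    · rw [hj', Function.update_of_ne h]; exact M.le K'
  have hj'0 : ∀ K', K' ∉ KK → j' K' = 0 := by
    intro K' hK'
    have h : K' ≠ K := by rintro rfl; exact hK' hK
    rw [hj', Function.update_of_ne h]; exact M.zero K' hK'
  have hsum := sum_update KK j K hK (w K)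
  have hc : 0 < 5 * Kon * A := by positivity
  have hjw : (j K : ℝ) < w K := by exact_mod_cast (by omega : j K < w K)
  by_cases hu : u ∈ Col K (w K)
  · obtain ⟨z, hzr, hzτ, hzC, hzR, hzex, hzpot⟩ := exit_history D hA hH1 K hKC u hu huC hτu M.vis.1
    have hzvis : Vis (KK : Set (Set V)) Col τ red T0 j' z := by
      refine ⟨hzr, hzτ.trans M.vis.2.1, ?_⟩
      intro K2 hK2 hz2
      by_cases h : K2 = K
      · subst h
        rw [hj', Function.update_self] at hz2
        exact hzR hz2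
      · rw [hj', Function.update_of_ne h] at hz2
        exact M.vis.2.2 K2 hK2 (hzex K2 (hKK K2 hK2) (j K2) (M.le K2) hz2 hu)
    have hm := M.min j' z hj'le hj'0 hzvis
    rw [hsum] at hm
    have h1 : 5 * Kon * A * ((w K : ℝ) - j K) ≤ 2 * A * (Kon * w K) := by nlinarith
    have h2 : (2 * (j K : ℝ)) < w K := by exact_mod_cast hlt
    have h3 : 0 < Kon * A := by positivity
    nlinarith
  · have huvis : Vis (KK : Set (Set V)) Col τ red T0 j' u := by
      refine ⟨M.vis.1, M.vis.2.1, ?_⟩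
      intro K2 hK2 hz2
      by_cases h : K2 = K
      · subst h
        rw [hj', Function.update_self] at hz2
        exact hu hz2
      · rw [hj', Function.update_of_ne h] at hz2
        exact M.vis.2.2 K2 hK2 hz2
    have hm := M.min j' u hj'le hj'0 huvis
    rw [hsum] at hm
    nlinarith

include D in
/-- CLAIM 2 -/
lemma claim2 (hA : 0 < A) (hT0 : T0 < ⊤)
    (hKK : ∀ K ∈ KK, K ∈ Cores G C)
    (hKKall : ∀ y, τ y ≤ T0 → ∀ K ∈ Cores G C, y ∈ Col K (11 * w K) → K ∈ KK)
    (hH1 : ∀ y, τ y < ⊤ → red y → ∃ p : G.Walk y o, ∀ w ∈ p.support, red w ∧ τ w ≤ τ y)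
    (M : Min G C Col w ρ τ red T0 A (5 * Kon) KK j u)
    (x y : V) (hxj : ∀ K ∈ KK, x ∉ Col K (j K)) (hyr : red y) (hyC : y ∉ C) (hyτ : τ y ≤ T0)
    (p : G.Walk y x) (g : ℕ) (hg : 1 ≤ g) (hp : outs C p.support.tail = g) :
    pot A τ ρ u ≤ pot A τ ρ y + 6 * Kon * A * g := by
  classical
  have hkon := D.kon
  have hKA : 0 < Kon * A := by positivity
  have hg1 : (1 : ℝ) ≤ g := by exact_mod_cast hg
  have hcl1 := claim1 D hA hT0 hKK hKKall hH1 M
  set B : Finset (Set V) := KK.filter (fun K => y ∈ Col K (j K)) with hB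
  by_cases hBne : B.Nonempty
  swap
  · -- `y` is visible
    have hvis : Vis (KK : Set (Set V)) Col τ red T0 j y := by
      refine ⟨hyr, hyτ, ?_⟩
      intro K hK hy
      exact hBne ⟨K, Finset.mem_filter.2 ⟨hK, hy⟩⟩
    have hm := M.min j y M.le M.zero hvis
    nlinarith
  obtain ⟨L, hLB, hLmax⟩ := Finset.exists_max_image B w hBne
  obtain ⟨hLK, hyL⟩ := Finset.mem_filter.1 hLB
  have hLC := hKK L hLK
  have hyLw : y ∈ Col L (w L) :=
    D.mono L hLC (j L) (w L) (M.le L) (by omega) hyL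
  have hτy : τ y < ⊤ := lt_of_le_of_lt hyτ hT0
  -- the smaller ones
  have hsmall : ∀ K ∈ B, K ≠ L → 100 * w K ≤ w L ∧ Col K (11 * w K) ⊆ Col L (j L) := by
    intro K hK hne
    obtain ⟨hKK1, hyK⟩ := Finset.mem_filter.1 hK
    exact D.chain K (hKK K hKK1) L hLC hne (hLmax K hK) (j K) (j L) (M.le K) (M.le L) y hyK hyL
  have hgw : ∀ K ∈ B, K ≠ L → 10 * w K < g := by
    intro K hK hne
    obtain ⟨hKK1, hyK⟩ := Finset.mem_filter.1 hK
    by_contra hcon
    have hle : j K + outs C p.support.tail ≤ 11 * w K := by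
      have := M.le K
      omega
    have hx := D.level K (hKK K hKK1) y x p (j K) hyK hle
    have hx' := D.mono K (hKK K hKK1) _ (11 * w K) hle le_rfl hx
    exact hxj L hLK ((hsmall K hK hne).2 hx')
  by_cases hcase : j L < g
  · obtain ⟨z, hzr, hzτ, hzC, hzR, hzex, hzpot⟩ := exit_history D hA hH1 L hLC y hyLw hyC hτy hyr
    have hzvis : Vis (KK : Set (Set V)) Col τ red T0 j z := by
      refine ⟨hzr, hzτ.trans hyτ, ?_⟩
      intro K2 hK2 hz2
      have hy2 : y ∈ Col K2 (j K2) := hzex K2 (hKK K2 hK2) (j K2) (M.le K2) hz2 hyLw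
      by_cases h : K2 = L
      · subst h
        exact hzR (D.mono K2 hLC (j K2) (w K2) (M.le K2) (by omega) hz2)
      · have h2 := (hsmall K2 (Finset.mem_filter.2 ⟨hK2, hy2⟩) h).2
        have h3 := h2 (D.mono K2 (hKK K2 hK2) (j K2) (11 * w K2) (by have := M.le K2; omega)
          le_rfl hz2)
        exact hzR (D.mono L hLC (j L) (w L) (M.le L) (by omega) h3)
    have hm := M.min j z M.le M.zero hzvis
    have h1 : (w L : ℝ) ≤ 2 * g := by
      have := hcl1 L hLK
      exact_mod_cast (by omega : w L ≤ 2 * g)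
    have h2 : Kon * A * (w L : ℝ) ≤ Kon * A * (2 * g) := mul_le_mul_of_nonneg_left h1 hKA.le
    nlinarith
  · push Not at hcase
    -- the vertex `y''`
    have hy'' : ∃ z, red z ∧ τ z ≤ τ y ∧ (∀ K2 ∈ KK, K2 ≠ L → z ∉ Col K2 (j K2)) ∧
        (∀ i, i ≤ w L → z ∈ Col L i → y ∈ Col L i) ∧
        pot A τ ρ z ≤ pot A τ ρ y + Kon * A * g := by
      by_cases hB1 : (B.erase L).Nonempty
      · obtain ⟨K1, hK1, hK1max⟩ := Finset.exists_max_image (B.erase L) w hB1
        obtain ⟨hK1L, hK1B⟩ := Finset.mem_erase.1 hK1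
        obtain ⟨hK1K, hyK1⟩ := Finset.mem_filter.1 hK1B
        have hK1C := hKK K1 hK1K
        have hyK1w : y ∈ Col K1 (w K1) :=
          D.mono K1 hK1C (j K1) (w K1) (M.le K1) (by omega) hyK1
        obtain ⟨z, hzr, hzτ, hzC, hzR, hzex, hzpot⟩ :=
          exit_history D hA hH1 K1 hK1C y hyK1w hyC hτy hyr
        refine ⟨z, hzr, hzτ, ?_, ?_, ?_⟩
        · intro K2 hK2 hne hz2
          have hy2 : y ∈ Col K2 (j K2) := hzex K2 (hKK K2 hK2) (j K2) (M.le K2) hz2 hyK1w
          have hK2B : K2 ∈ B := Finset.mem_filter.2 ⟨hK2, hy2⟩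
          by_cases h : K2 = K1
          · subst h
            exact hzR (D.mono K2 hK1C (j K2) (w K2) (M.le K2) (by omega) hz2)
          · have hle := hK1max K2 (Finset.mem_erase.2 ⟨hne, hK2B⟩)
            have h2 := (D.chain K2 (hKK K2 hK2) K1 hK1C h hle (j K2) (j K1) (M.le K2) (M.le K1)
              y hy2 hyK1).2
            have h3 := h2 (D.mono K2 (hKK K2 hK2) (j K2) (11 * w K2) (by have := M.le K2; omega)
              le_rfl hz2)
            exact hzR (D.mono K1 hK1C (j K1) (w K1) (M.le K1) (by omega) h3)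
        · intro i hi hz
          exact hzex L hLC i hi hz hyK1w
        · have h1 : (10 * (w K1 : ℝ)) ≤ g := by exact_mod_cast (hgw K1 hK1B hK1L).le
          have h2 : Kon * A * (10 * (w K1 : ℝ)) ≤ Kon * A * g := mul_le_mul_of_nonneg_left h1 hKA.le
          have h3 : 0 ≤ Kon * A * (w K1 : ℝ) := by positivity
          nlinarith
      · refine ⟨y, hyr, le_rfl, ?_, fun i _ h => h, ?_⟩
        · intro K2 hK2 hne hy2
          exact hB1 ⟨K2, Finset.mem_erase.2 ⟨hne, Finset.mem_filter.2 ⟨hK2, hy2⟩⟩⟩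
        · nlinarith
    obtain ⟨z, hzr, hzτ, hz1, hz2, hzpot⟩ := hy''
    set j' : Set V → ℕ := Function.update j L (j L - g) with hj'
    have hj'le : ∀ K', j' K' ≤ w K' := by
      intro K'
      by_cases h : K' = L
      · subst h
        rw [hj', Function.update_self]
        have := M.le K'
        omega
      · rw [hj', Function.update_of_ne h]; exact M.le K'
    have hj'0 : ∀ K', K' ∉ KK → j' K' = 0 := by
      intro K' hK'
      have h : K' ≠ L := by rintro rfl; exact hK' hLK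
      rw [hj', Function.update_of_ne h]; exact M.zero K' hK'
    have hzvis : Vis (KK : Set (Set V)) Col τ red T0 j' z := by
      refine ⟨hzr, hzτ.trans hyτ, ?_⟩
      intro K2 hK2 hzK2
      by_cases h : K2 = L
      · subst h
        rw [hj', Function.update_self] at hzK2
        have hlw := M.le K2
        have hyK2 := hz2 (j K2 - g) (by omega) hzK2
        have hx := D.level K2 hLC y x p (j K2 - g) hyK2 (by omega)
        rw [hp, Nat.sub_add_cancel hcase] at hx
        exact hxj K2 hLK hx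
      · rw [hj', Function.update_of_ne h] at hzK2
        exact hz1 K2 hK2 h hzK2
    have hm := M.min j' z hj'le hj'0 hzvis
    rw [sum_update KK j L hLK (j L - g)] at hm
    have hcast : ((j L - g : ℕ) : ℝ) = (j L : ℝ) - g := by
      rw [Nat.cast_sub hcase]
    rw [hcast] at hm
    nlinarith

end main

end Pool.Agent.FPPHE.DYN_

namespace Pool.Agent.FPPHE

open DYN_ EVO_
open scoped ENNReal

theorem stmt_DYN : Stmt_DYN := by
  classical
  intro V G C Col w ρ o v Kon D hloc ω A N' hA hN' E τ red EV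
  obtain ⟨hH1, hH2, hH3⟩ := stmt_EVO V G o ω τ red E.pos1 E.pos2 hloc EV
  have hkon := D.kon
  have hKA : 0 < Kon * A := by positivity
  have hN0 : 0 ≤ N' := by nlinarith
  -- the horizon
  set T0 : ℝ≥0∞ := ENNReal.ofReal (2 * A * ρ o) with hT0def
  have hT0 : T0 < ⊤ := ENNReal.ofReal_lt_top
  set T1 : ℝ≥0∞ := T0 + ENNReal.ofReal A with hT1def
  have hT1 : T1 < ⊤ := ENNReal.add_lt_top.2 ⟨hT0, ENNReal.ofReal_lt_top⟩
  have hfin1 : {y | τ y ≤ T1}.Finite := EV.finite T1 hT1
  have hfin0 : {y | τ y ≤ T0}.Finite := EV.finite T0 hT0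
  have hKKfin : {K | K ∈ Cores G C ∧ ∃ y, τ y ≤ T1 ∧ y ∈ Col K (11 * w K)}.Finite := by
    have : {K | K ∈ Cores G C ∧ ∃ y, τ y ≤ T1 ∧ y ∈ Col K (11 * w K)} ⊆
        ⋃ y ∈ {y | τ y ≤ T1}, {K | K ∈ Cores G C ∧ y ∈ Col K (11 * w K)} := by
      rintro K ⟨hK, y, hy, hyK⟩
      simp only [Set.mem_iUnion]
      exact ⟨y, hy, hK, hyK⟩
    exact Set.Finite.subset (hfin1.biUnion (fun y _ => D.fin y)) this
  set KK : Finset (Set V) := hKKfin.toFinset with hKKdef
  have hKKmem : ∀ K, K ∈ KK ↔ K ∈ Cores G C ∧ ∃ y, τ y ≤ T1 ∧ y ∈ Col K (11 * w K) := by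
    intro K
    rw [hKKdef, Set.Finite.mem_toFinset]
    rfl
  have hKK : ∀ K ∈ KK, K ∈ Cores G C := fun K hK => ((hKKmem K).1 hK).1
  have hT01 : T0 ≤ T1 := le_self_add
  have hKKall1 : ∀ y, τ y ≤ T1 → ∀ K ∈ Cores G C, y ∈ Col K (11 * w K) → K ∈ KK :=
    fun y hy K hK hyK => (hKKmem K).2 ⟨hK, y, hy, hyK⟩
  have hKKall : ∀ y, τ y ≤ T0 → ∀ K ∈ Cores G C, y ∈ Col K (11 * w K) → K ∈ KK :=
    fun y hy => hKKall1 y (hy.trans hT01)
  -- the minimiser
  have hovis : Vis (KK : Set (Set V)) Col τ red T0 (fun _ => 0) o := by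
    refine ⟨EV.red_o, by rw [EV.zero]; exact zero_le, ?_⟩
    intro K hK ho
    exact D.o_vis K (hKK K hK) (D.mono K (hKK K hK) 0 (w K) (Nat.zero_le _) (by omega) ho)
  obtain ⟨j, u, M⟩ := exists_min (C := C) (G := G) (ρ := ρ) (w := w) hfin0 A (5 * Kon) KK o
    (fun _ => 0) (fun _ => Nat.zero_le _) (fun _ _ => rfl) hovis
  have huC := vis_not_C D hKKall M.le M.vis
  have hτu : τ u < ⊤ := lt_of_le_of_lt M.vis.2.1 hT0
  suffices huv : u = v by
    subst huv
    exact ⟨M.vis.1, hτu⟩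
  by_contra huv
  -- `pot u ≤ pot o`
  have hpo : pot A τ ρ u ≤ 2 * A * ρ o := by
    have hvis : Vis (KK : Set (Set V)) Col τ red T0 j o := by
      refine ⟨EV.red_o, by rw [EV.zero]; exact zero_le, ?_⟩
      intro K hK ho
      exact D.o_vis K (hKK K hK)
        (D.mono K (hKK K hK) (j K) (w K) (M.le K) (by omega) ho)
    have hm := M.min j o M.le M.zero hvis
    have : pot A τ ρ o = 2 * A * ρ o := by
      unfold pot
      rw [EV.zero]
      simp
    linarith
  obtain ⟨x, hux, hxC, hxj, hρx⟩ := D.desc (KK : Set (Set V)) (fun K hK => hKK K hK) j M.le u huv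
    (fun K hK h => hKKall u M.vis.2.1 K hK h) M.vis.2.2
  have hτx1 : τ x ≤ τ u + ENNReal.ofReal A :=
    (hH3 u x hux hτu M.vis.1).trans
      (add_le_add le_rfl (ENNReal.ofReal_le_ofReal (E.red u huC x hux)))
  have hτx : τ x < ⊤ := lt_of_le_of_lt hτx1 (ENNReal.add_lt_top.2 ⟨hτu, ENNReal.ofReal_lt_top⟩)
  have hτxr : (τ x).toReal ≤ (τ u).toReal + A := by
    have h := ENNReal.toReal_mono (ENNReal.add_lt_top.2 ⟨hτu, ENNReal.ofReal_lt_top⟩).ne hτx1
    rwa [ENNReal.toReal_add hτu.ne ENNReal.ofReal_ne_top, ENNReal.toReal_ofReal hA.le] at h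
  have hτxT1 : τ x ≤ T1 := hτx1.trans (add_le_add M.vis.2.1 le_rfl)
  have hρx' : 2 * A * ρ x ≤ 2 * A * (ρ u - 1) := mul_le_mul_of_nonneg_left hρx (by linarith)
  by_cases hxr : red x
  · -- `x` is red: contradiction with minimality
    have hpx : pot A τ ρ x ≤ pot A τ ρ u - A := by
      unfold pot
      linarith
    have hxT0 : τ x ≤ T0 := by
      rw [hT0def, ← ENNReal.ofReal_toReal hτx.ne]
      apply ENNReal.ofReal_le_ofReal
      have h1 : (τ x).toReal ≤ pot A τ ρ x := by
        unfold pot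
        have := D.rho_nonneg x
        have : 0 ≤ 2 * A * ρ x := by positivity
        linarith
      linarith
    have hm := M.min j x M.le M.zero ⟨hxr, hxT0, hxj⟩
    linarith
  · -- `x` is blue
    obtain ⟨y₀, hy₀r, p, hpτ, hple⟩ := hH2 C N' hN0 E.noseed E.blue x hτx hxr
    set g : ℕ := outs C p.support.dropLast with hgdef
    have hxy : x ≠ y₀ := by
      rintro rfl
      exact hxr hy₀r
    have hg : 1 ≤ g := by
      refine outs_pos C _ x ?_ hxC
      cases p with
      | nil => exact absurd rfl hxy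
      | cons h q =>
        rw [SimpleGraph.Walk.support_cons,
          List.dropLast_cons_of_ne_nil (SimpleGraph.Walk.support_ne_nil q)]
        exact List.mem_cons_self
    have hg1 : (1 : ℝ) ≤ g := by exact_mod_cast hg
    have hτy₀ : τ y₀ < ⊤ := lt_of_le_of_lt (hpτ y₀ p.end_mem_support) hτx
    -- first vertex of the history of `y₀` outside `C`
    obtain ⟨q, hq⟩ := hH1 y₀ hτy₀ hy₀r
    obtain ⟨y, hyq, hyC, r, hr, hr1⟩ := first_exit C q D.o_not
    have hyr : red y := (hq y hyq).1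
    have hyτ : τ y ≤ τ y₀ := (hq y hyq).2
    have hτy : τ y < ⊤ := lt_of_le_of_lt hyτ hτy₀
    -- the time of `y`
    have hτyr : (τ y).toReal + N' * g ≤ (τ u).toReal + A := by
      have h1 : τ y + ENNReal.ofReal N' * (g : ℝ≥0∞) ≤ τ x := (add_le_add hyτ le_rfl).trans hple
      have h2 := ENNReal.toReal_mono hτx.ne h1
      rw [ENNReal.toReal_add hτy.ne (ENNReal.mul_ne_top ENNReal.ofReal_ne_top (ENNReal.natCast_ne_top g)),
        ENNReal.toReal_mul, ENNReal.toReal_ofReal hN0, ENNReal.toReal_natCast] at h2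
      linarith
    have hNg : 20 * (Kon * A) * g ≤ N' * g := mul_le_mul_of_nonneg_right (by linarith) (by linarith)
    have hKAg : Kon * A ≤ Kon * A * g := by nlinarith
    have hAK : A ≤ Kon * A := by nlinarith
    have hyT0 : τ y ≤ T0 := by
      refine le_trans ?_ M.vis.2.1
      rw [← ENNReal.ofReal_toReal hτy.ne, ← ENNReal.ofReal_toReal hτu.ne]
      apply ENNReal.ofReal_le_ofReal
      nlinarith
    -- the walk from `x` to `y`
    set s : G.Walk x y := p.append r with hs
    have hsup : s.support = p.support.dropLast ++ r.support := by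
      have h1 : p.support = p.support.dropLast ++ [y₀] := by
        have h1 := List.dropLast_append_getLast (SimpleGraph.Walk.support_ne_nil p)
        rw [SimpleGraph.Walk.getLast_support] at h1
        exact h1.symm
      rw [hs, SimpleGraph.Walk.support_append]
      conv_lhs => rw [h1]
      rw [List.append_assoc]
      congr 1
      rw [List.singleton_append]
      exact SimpleGraph.Walk.cons_tail_support r
    have hsouts : outs C s.support = g + 1 := by
      rw [hsup, outs_append, hr1]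
    have hstail : outs C s.support.tail = g := by
      have := outs_tail C s hxC
      omega
    have hsrev : outs C s.reverse.support.tail = g := by
      have h1 := outs_tail C s.reverse hyC
      rw [SimpleGraph.Walk.support_reverse, outs_reverse] at h1
      rw [SimpleGraph.Walk.support_reverse]
      omega
    have hsτ : ∀ z ∈ s.support, τ z ≤ T1 := by
      intro z hz
      rw [hs, SimpleGraph.Walk.mem_support_append_iff] at hz
      rcases hz with hz | hz
      · exact (hpτ z hz).trans hτxT1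
      · exact ((hq z (hr z hz)).2.trans (hpτ y₀ p.end_mem_support)).trans hτxT1
    have hcl1 := claim1 D hA hT0 hKK hKKall hH1 M
    have hcl2 := claim2 D hA hT0 hKK hKKall hH1 M x y hxj hyr hyC hyT0 s.reverse g hg hsrev
    have hcores : ∀ K ∈ Cores G C, (∃ z ∈ s.support, z ∈ K) → w K < 2 * g := by
      rintro K hK ⟨z, hz, hzK⟩
      have hz0 : z ∈ Col K 0 := D.base K hK hzK
      have hzF : z ∈ Col K (11 * w K) := D.mono K hK 0 _ (Nat.zero_le _) le_rfl hz0
      have hKmem : K ∈ KK := hKKall1 z (hsτ z hz) K hK hzF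
      have hzC : z ∈ C := by
        obtain ⟨a, haC, rfl⟩ := hK
        rcases hzK with rfl | ⟨t, ht⟩
        · exact haC
        · exact ht z t.end_mem_support
      have hw1 := hcl1 K hKmem
      -- the part of the walk from `x` to `z`
      have hsplit : outs C (s.takeUntil z hz).support + outs C (s.dropUntil z hz).support.tail
          = g + 1 := by
        rw [← outs_append, ← SimpleGraph.Walk.support_append, SimpleGraph.Walk.take_spec]
        exact hsouts
      have hdrop : 1 ≤ outs C (s.dropUntil z hz).support.tail := by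
        have h1 : outs C (s.dropUntil z hz).support = outs C (s.dropUntil z hz).support.tail :=
          outs_tail' C _ hzC
        rw [← h1]
        exact outs_pos C _ y (SimpleGraph.Walk.end_mem_support _) hyC
      have htake : outs C (s.takeUntil z hz).reverse.support.tail ≤ g := by
        have h1 := outs_tail' C (s.takeUntil z hz).reverse hzC
        rw [SimpleGraph.Walk.support_reverse, outs_reverse] at h1
        rw [SimpleGraph.Walk.support_reverse]
        omega
      by_contra hcon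
      have hjg : g ≤ j K := by omega
      have hlw := M.le K
      have hx1 := D.level K hK z x (s.takeUntil z hz).reverse 0 hz0 (by omega)
      exact hxj K hKmem (D.mono K hK _ (j K) (by omega) (by omega) hx1)
    have hcross := D.cross x y hxC hyC s g hg (le_of_eq hstail) hcores
    have h1 : 2 * A * ρ y ≤ 2 * A * (ρ x + Kon * g) := mul_le_mul_of_nonneg_left hcross (by linarith)
    have h2 : pot A τ ρ y ≤ pot A τ ρ u - A - N' * g + 2 * (Kon * A) * g := by
      unfold pot
      nlinarith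
    nlinarith

end Pool.Agent.FPPHE
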