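import Mathlib

/-!
# FPPHE (MP_04d5a3_pr): definitions of the model and the final statement
-/

namespace Pool.Agent.FPPHE

open MeasureTheory ProbabilityTheory
open scoped ENNReal

/-- An environment: dormant seeds, clocks of the edges for `FPP_1`, clocks of the edges for `FPP_lambda`. -/
abbrev Env (V : Type) : Type := (V → Bool) × (Sym2 V → ℝ) × (Sym2 V → ℝ)

/-- law of one seed indicator -/
noncomputable def seedLaw (μ : ℝ) : Measure Bool :=
  ENNReal.ofReal μ • Measure.dirac true + ENNReal.ofReal (1 - μ) • Measure.dirac false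

/-- The law of the environment: all coordinates independent, seeds Bernoulli(`μ`), clocks of `FPP_1`
exponential of rate `1`, clocks of `FPP_lambda` exponential of rate `lam`. -/
noncomputable def law (V : Type) (μ lam : ℝ) : Measure (Env V) :=
  (Measure.infinitePi (fun _ : V => seedLaw μ)).prod
    ((Measure.infinitePi (fun _ : Sym2 V => expMeasure 1)).prod
      (Measure.infinitePi (fun _ : Sym2 V => expMeasure lam)))

/-- the clock which the species of `u` (`FPP_1` if `red`) uses on the edge `uv` -/
noncomputable def clock {V : Type} (ω : Env V) (red : Prop) (u v : V) : ℝ≥0∞ :=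
  open Classical in
  if red then ENNReal.ofReal (ω.2.1 s(u, v)) else ENNReal.ofReal (ω.2.2 s(u, v))

/-- `τ` = time of occupation of every vertex (`⊤` = never), `red v` = `v` is occupied by `FPP_1`
(meaningful only if `τ v < ⊤`; the other occupied vertices are occupied by `FPP_lambda`).
* at time `0` only `o` is occupied, by `FPP_1`;
* every occupied vertex `u` tries to occupy each neighbour `v` at time `τ u` + (clock of the edge for the
  species of `u`); a vertex is occupied at the time of the first attempt;
* a vertex with a dormant seed is occupied by `FPP_lambda` at the time of the first attempt (activation);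
* any other vertex is occupied by the species which made the first attempt;
* only finitely many vertices are occupied in finite time. -/
structure IsEvolution {V : Type} (G : SimpleGraph V) (o : V) (ω : Env V) (τ : V → ℝ≥0∞)
    (red : V → Prop) : Prop where
  zero : τ o = 0
  red_o : red o
  first : ∀ v, v ≠ o → τ v = ⨅ u : G.neighborSet v, τ u + clock ω (red u) u v
  seed : ∀ v, v ≠ o → τ v < ⊤ → ω.1 v = true → ¬ red v
  noseed : ∀ v, v ≠ o → τ v < ⊤ → ω.1 v = false →
    ∃ u, G.Adj v u ∧ τ v = τ u + clock ω (red u) u v ∧ (red v ↔ red u)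
  finite : ∀ t : ℝ≥0∞, t < ⊤ → {v | τ v ≤ t}.Finite

/-- a species with occupied set `X` survives if `X` contains an infinite connected set -/
def Survives {V : Type} (G : SimpleGraph V) (X : Set V) : Prop :=
  ∃ W : Set V, W ⊆ X ∧ W.Infinite ∧ (G.induce W).Connected

/-- vertex-transitive -/
def VertexTransitive {V : Type} (G : SimpleGraph V) : Prop :=
  ∀ u v : V, ∃ φ : G ≃g G, φ u = v

/-- exponential growth: `liminf |B(o,n)|^(1/n) > 1` -/
def ExpGrowth {V : Type} (G : SimpleGraph V) (o : V) : Prop :=
  1 < Filter.liminf (fun n : ℕ => (({v : V | G.dist o v ≤ n}.ncard : ℝ≥0∞)) ^ ((1 : ℝ) / (n : ℝ)))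
    Filter.atTop

/-- Negation of Q1. -/
def FinalStatement : Prop :=
  ∃ (V : Type) (_ : Countable V) (G : SimpleGraph V) (o : V) (μ lam : ℝ),
    Infinite V ∧ G.Connected ∧ (∀ v, (G.neighborSet v).Finite) ∧ VertexTransitive G ∧
    ExpGrowth G o ∧ 0 < μ ∧ μ < 1 ∧ 0 < lam ∧
    (∀ᵐ ω ∂(law V μ lam), ∃ (τ : V → ℝ≥0∞) (red : V → Prop), IsEvolution G o ω τ red ∧
      ∀ (τ' : V → ℝ≥0∞) (red' : V → Prop), IsEvolution G o ω τ' red' →
        τ' = τ ∧ ∀ v, τ v < ⊤ → (red' v ↔ red v)) ∧
    ∃ E : Set (Env V), MeasurableSet E ∧ 0 < law V μ lam E ∧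
      ∀ ω ∈ E, ∀ (τ : V → ℝ≥0∞) (red : V → Prop), IsEvolution G o ω τ red →
        Survives G {v | τ v < ⊤ ∧ red v} ∧ ¬ Survives G {v | τ v < ⊤ ∧ ¬ red v}

end Pool.Agent.FPPHE
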