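import Pool.Agent.Work.MP_04d5a3_full.Interface
import Pool.Agent.Work.MP_04d5a3_full.Tool

/-!
# FPPHE (MP_04d5a3_pr): block E3
-/

namespace Pool.Agent.FPPHE

open SimpleGraph

/-- block E3 -/
theorem stmt_E3 : Stmt_E3 := by
  intro V G N bad C U hG hC _ hR s s' hs _
  obtain ⟨p, hp⟩ := exists_walk (C := C) hG.conn s s'
  have hTf : (hull G C p).Finite := hull_fin hC.fin p
  have hTc := hull_conn (C := C) p
  have hTs := hull_sat (C := C) p
  have hsT : s ∈ hull G C p := support_sub_hull p p.start_mem_support
  have hsT' : s' ∈ hull G C p := support_sub_hull p p.end_mem_support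
  have h1 : (hull G C p ∩ C).ncard < (hull G C p \ C).ncard := by
    by_contra hc
    exact absurd (hR _ ⟨hTf, hTc, hTs, not_lt.mp hc⟩ s hsT) (not_le.mpr hs)
  have h2 := hull_good (C := C) p
  have h3 := outs_le_cost (C := C) p
  obtain ⟨q, hq, hqT⟩ := walk_in hTc hsT hsT'
  have h4 : q.length + 1 ≤ (hull G C p).ncard := by
    classical
    rw [← Walk.length_support, ← List.toFinset_card_of_nodup hq.support_nodup,
      ← Set.ncard_coe_finset]
    refine Set.ncard_le_ncard ?_ hTf
    intro w hw
    exact hqT w (by simpa using hw)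
  have h5 : (hull G C p).ncard = (hull G C p \ C).ncard + (hull G C p ∩ C).ncard := by
    rw [← Set.ncard_union_eq (Set.disjoint_left.mpr fun x hx hx' => hx.2 hx'.2)
      (hTf.subset Set.sdiff_subset) (hTf.subset Set.inter_subset_left), Set.sdiff_union_inter]
  have h6 := dist_le q
  omega

end Pool.Agent.FPPHE
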