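import Pool.Agent.Work.MP_04d5a3_full.Interface

/-!
# FPPHE, block EVO: histories and lineages (H1)-(H3)
-/

namespace Pool.Agent.FPPHE.EVO_

open Pool.Agent.FPPHE
open scoped ENNReal

variable {V : Type}

lemma outs_cons (C : Set V) (a : V) (L : List V) :
    outs C (a :: L) = (open Classical in if a ∈ C then 0 else 1) + outs C L := by
  classical
  unfold outs
  by_cases h : a ∈ C
  · simp [h]
  · simp [h, Nat.add_comm]

lemma outs_nil (C : Set V) : outs C ([] : List V) = 0 := by
  simp [outs]

lemma outs_append (C : Set V) (L L' : List V) : outs C (L ++ L') = outs C L + outs C L' := by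
  unfold outs
  simp [List.filter_append]

lemma outs_reverse (C : Set V) (L : List V) : outs C L.reverse = outs C L := by
  unfold outs
  rw [List.filter_reverse, List.length_reverse]

lemma clock_red (ω : Env V) {p : Prop} (h : p) (u v : V) :
    clock ω p u v = ENNReal.ofReal (ω.2.1 s(u, v)) := by
  simp [clock, h]

lemma clock_blue (ω : Env V) {p : Prop} (h : ¬ p) (u v : V) :
    clock ω p u v = ENNReal.ofReal (ω.2.2 s(u, v)) := by
  simp [clock, h]

lemma clock_pos (ω : Env V) (h1 : ∀ e, 0 < ω.2.1 e) (h2 : ∀ e, 0 < ω.2.2 e) (p : Prop) (u v : V) :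
    0 < clock ω p u v := by
  by_cases h : p
  · rw [clock_red ω h]; exact ENNReal.ofReal_pos.2 (h1 _)
  · rw [clock_blue ω h]; exact ENNReal.ofReal_pos.2 (h2 _)

/-- the time of occupation drops along the parent -/
lemma lt_parent {a b c : ℝ≥0∞} (hc : 0 < c) (h : a = b + c) (ha : a < ⊤) : b < a := by
  rw [h] at ha ⊢
  have hb : b ≠ ⊤ := by
    intro hb
    rw [hb] at ha
    simp at ha
  exact ENNReal.lt_add_right hb hc.ne'

variable (G : SimpleGraph V) (o : V) (ω : Env V) (τ : V → ℝ≥0∞) (red : V → Prop)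

lemma card_lt (E : IsEvolution G o ω τ red) {u y : V} (hy : τ y < ⊤) (h : τ u < τ y) :
    {w | τ w ≤ τ u}.ncard < {w | τ w ≤ τ y}.ncard := by
  refine Set.ncard_lt_ncard ?_ (E.finite _ hy)
  refine ⟨fun w hw => le_trans (show τ w ≤ τ u from hw) h.le, ?_⟩
  intro hs
  have : y ∈ {w | τ w ≤ τ u} := hs (show τ y ≤ τ y from le_rfl)
  exact absurd (show τ y ≤ τ u from this) (not_le.2 h)

theorem H1 (h1 : ∀ e, 0 < ω.2.1 e) (h2 : ∀ e, 0 < ω.2.2 e) (E : IsEvolution G o ω τ red) :
    ∀ (n : ℕ) (y : V), {w | τ w ≤ τ y}.ncard ≤ n → τ y < ⊤ → red y →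
      ∃ p : G.Walk y o, ∀ w ∈ p.support, red w ∧ τ w ≤ τ y := by
  intro n
  induction n with
  | zero =>
    intro y hn hy hr
    have hpos : 0 < {w | τ w ≤ τ y}.ncard :=
      (Set.ncard_pos (E.finite _ hy)).2 ⟨y, show τ y ≤ τ y from le_rfl⟩
    omega
  | succ n ih =>
    intro y hn hy hr
    by_cases ho : y = o
    · subst ho
      refine ⟨SimpleGraph.Walk.nil, ?_⟩
      intro w hw
      simp at hw
      subst hw
      exact ⟨hr, le_rfl⟩
    · have hs : ω.1 y = false := by
        cases hb : ω.1 y with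
        | false => rfl
        | true => exact absurd hr (E.seed y ho hy hb)
      obtain ⟨u, hadj, hτ, hru⟩ := E.noseed y ho hy hs
      have hlt : τ u < τ y := lt_parent (clock_pos ω h1 h2 _ _ _) hτ hy
      have hcard := card_lt G o ω τ red E hy hlt
      obtain ⟨p, hp⟩ := ih u (by omega) (hlt.trans hy) (hru.1 hr)
      refine ⟨SimpleGraph.Walk.cons hadj p, ?_⟩
      intro w hw
      rw [SimpleGraph.Walk.support_cons, List.mem_cons] at hw
      rcases hw with rfl | hw
      · exact ⟨hr, le_rfl⟩
      · exact ⟨(hp w hw).1, (hp w hw).2.trans hlt.le⟩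

theorem H2 (h1 : ∀ e, 0 < ω.2.1 e) (h2 : ∀ e, 0 < ω.2.2 e) (hf : ∀ v, (G.neighborSet v).Finite)
    (E : IsEvolution G o ω τ red) (C : Set V) (N' : ℝ)
    (hs : ∀ y, y ∉ C → ω.1 y = false)
    (hb : ∀ y, y ∉ C → ∀ x, G.Adj y x → N' ≤ ω.2.2 s(y, x)) :
    ∀ (n : ℕ) (x : V), {w | τ w ≤ τ x}.ncard ≤ n → τ x < ⊤ → ¬ red x →
      ∃ y₀, red y₀ ∧ ∃ p : G.Walk x y₀, (∀ w ∈ p.support, τ w ≤ τ x) ∧
        τ y₀ + ENNReal.ofReal N' * (outs C p.support.dropLast : ℝ≥0∞) ≤ τ x := by
  classical
  intro n
  induction n with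
  | zero =>
    intro y hn hy hr
    have hpos : 0 < {w | τ w ≤ τ y}.ncard :=
      (Set.ncard_pos (E.finite _ hy)).2 ⟨y, show τ y ≤ τ y from le_rfl⟩
    omega
  | succ n ih =>
    intro x hn hx hr
    have ho : x ≠ o := by
      rintro rfl
      exact hr E.red_o
    -- the parent: `u` blue with the recursive step, or `u` red and `x` a seed
    have key : ∃ u, G.Adj x u ∧ τ x = τ u + clock ω (red u) u x ∧ (red u → x ∈ C) := by
      cases hbx : ω.1 x with
      | false =>
        obtain ⟨u, hadj, hτ, hru⟩ := E.noseed x ho hx hbx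
        exact ⟨u, hadj, hτ, fun h => absurd (hru.2 h) hr⟩
      | true =>
        have hxC : x ∈ C := by
          by_contra hxC
          rw [hs x hxC] at hbx
          exact Bool.noConfusion hbx
        have hfin : Finite (G.neighborSet x) := (hf x).to_subtype
        have hfirst := E.first x ho
        have hne : Nonempty (G.neighborSet x) := by
          by_contra hne
          rw [not_nonempty_iff] at hne
          rw [iInf_of_empty] at hfirst
          rw [hfirst] at hx
          exact lt_irrefl _ hx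
        obtain ⟨u, hu⟩ := exists_eq_ciInf_of_finite
          (f := fun u : G.neighborSet x => τ u + clock ω (red u) u x)
        refine ⟨u, u.2, ?_, fun _ => hxC⟩
        rw [hfirst]
        exact hu.symm
    obtain ⟨u, hadj, hτ, hC⟩ := key
    have hlt : τ u < τ x := lt_parent (clock_pos ω h1 h2 _ _ _) hτ hx
    by_cases hru : red u
    · refine ⟨u, hru, SimpleGraph.Walk.cons hadj SimpleGraph.Walk.nil, ?_, ?_⟩
      · intro w hw
        simp at hw
        rcases hw with rfl | rfl
        · exact le_rfl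
        · exact hlt.le
      · have : outs C (SimpleGraph.Walk.cons hadj SimpleGraph.Walk.nil : G.Walk x u).support.dropLast = 0 := by
          simp [outs_cons, outs_nil, hC hru]
        rw [this]
        simp
        exact hlt.le
    · have hcard := card_lt G o ω τ red E hx hlt
      obtain ⟨y₀, hy₀, p, hp, hle⟩ := ih u (by omega) (hlt.trans hx) hru
      refine ⟨y₀, hy₀, SimpleGraph.Walk.cons hadj p, ?_, ?_⟩
      · intro w hw
        rw [SimpleGraph.Walk.support_cons, List.mem_cons] at hw
        rcases hw with rfl | hw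
        · exact le_rfl
        · exact (hp w hw).trans hlt.le
      · rw [SimpleGraph.Walk.support_cons, List.dropLast_cons_of_ne_nil (SimpleGraph.Walk.support_ne_nil p),
          outs_cons]
        rw [clock_blue ω hru] at hτ
        by_cases hxC : x ∈ C
        · simp only [hxC, if_true, zero_add]
          exact hle.trans hlt.le
        · simp only [hxC, if_false]
          push_cast
          rw [mul_add, mul_one]
          have hN' : N' ≤ ω.2.2 s(u, x) := by
            have := hb x hxC u hadj
            rwa [Sym2.eq_swap] at this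
          calc τ y₀ + (ENNReal.ofReal N' + ENNReal.ofReal N' * (outs C p.support.dropLast : ℝ≥0∞))
              = (τ y₀ + ENNReal.ofReal N' * (outs C p.support.dropLast : ℝ≥0∞)) + ENNReal.ofReal N' := by
                ring
            _ ≤ τ u + ENNReal.ofReal (ω.2.2 s(u, x)) :=
                add_le_add hle (ENNReal.ofReal_le_ofReal hN')
            _ = τ x := hτ.symm

theorem H3 (E : IsEvolution G o ω τ red) (y x : V) (hadj : G.Adj y x) (hr : red y) :
    τ x ≤ τ y + ENNReal.ofReal (ω.2.1 s(y, x)) := by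
  by_cases ho : x = o
  · subst ho
    rw [E.zero]
    exact zero_le
  · rw [E.first x ho]
    refine iInf_le_of_le ⟨y, hadj.symm⟩ ?_
    simp only
    rw [clock_red ω hr]

end Pool.Agent.FPPHE.EVO_

namespace Pool.Agent.FPPHE

theorem stmt_EVO : Stmt_EVO := by
  intro V G o ω τ red h1 h2 hf E
  refine ⟨?_, ?_, ?_⟩
  · intro y hy hr
    exact EVO_.H1 G o ω τ red h1 h2 E _ y le_rfl hy hr
  · intro C N' _ hs hb x hx hr
    exact EVO_.H2 G o ω τ red h1 h2 hf E C N' hs hb _ x le_rfl hx hr
  · intro y x hadj _ hr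
    exact EVO_.H3 G o ω τ red E y x hadj hr

end Pool.Agent.FPPHE
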