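import Pool.Agent.Work.MP_04d5a3_full.EVO

/-!
# FPPHE, block EXI: deterministic existence and uniqueness of the evolution
-/

namespace Pool.Agent.FPPHE.EXI_

open Pool.Agent.FPPHE Pool.Agent.FPPHE.EVO_
open scoped ENNReal

variable {V : Type}

/-- real version of the clock -/
noncomputable def clk (ω : Env V) (red : Prop) (u v : V) : ℝ :=
  open Classical in if red then ω.2.1 s(u, v) else ω.2.2 s(u, v)

lemma clock_eq (ω : Env V) (red : Prop) (u v : V) :
    clock ω red u v = ENNReal.ofReal (clk ω red u v) := by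
  unfold clock clk
  split_ifs <;> rfl

lemma clk_pos {ω : Env V} (h1 : ∀ e, 0 < ω.2.1 e) (h2 : ∀ e, 0 < ω.2.2 e) (red : Prop) (u v : V) :
    0 < clk ω red u v := by
  unfold clk
  split_ifs
  · exact h1 _
  · exact h2 _

lemma min_le_clk (ω : Env V) (red : Prop) (u v : V) :
    min (ω.2.1 s(u, v)) (ω.2.2 s(u, v)) ≤ clk ω red u v := by
  unfold clk
  split_ifs
  · exact min_le_left _ _
  · exact min_le_right _ _

/-! ### uniqueness -/

section uniq

variable (G : SimpleGraph V) (o : V) (ω : Env V)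

/-- value of a finite set of clocks -/
noncomputable def val (ω : Env V) (F : Finset (Sym2 V × Bool)) : ℝ :=
  ∑ x ∈ F, (if x.2 then ω.2.1 x.1 else ω.2.2 x.1)

/-- parent of an occupied vertex -/
lemma parent (h1 : ∀ e, 0 < ω.2.1 e) (h2 : ∀ e, 0 < ω.2.2 e) (hf : ∀ v, (G.neighborSet v).Finite)
    {τ : V → ℝ≥0∞} {red : V → Prop} (E : IsEvolution G o ω τ red) {v : V} (ho : v ≠ o)
    (hv : τ v < ⊤) :
    ∃ u, G.Adj v u ∧ τ v = τ u + clock ω (red u) u v ∧ τ u < τ v ∧
      (ω.1 v = false → (red v ↔ red u)) := by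
  cases hb : ω.1 v with
  | false =>
    obtain ⟨u, hadj, hτ, hr⟩ := E.noseed v ho hv hb
    exact ⟨u, hadj, hτ, lt_parent (clock_pos ω h1 h2 _ _ _) hτ hv, fun _ => hr⟩
  | true =>
    have hfin : Finite (G.neighborSet v) := (hf v).to_subtype
    have hfirst := E.first v ho
    have hne : Nonempty (G.neighborSet v) := by
      by_contra hne
      rw [not_nonempty_iff] at hne
      rw [iInf_of_empty] at hfirst
      rw [hfirst] at hv
      exact lt_irrefl _ hv
    obtain ⟨u, hu⟩ := exists_eq_ciInf_of_finite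
      (f := fun u : G.neighborSet v => τ u + clock ω (red u) u v)
    have hτ : τ v = τ u + clock ω (red u) u v := by
      rw [hfirst]; exact hu.symm
    exact ⟨u, u.2, hτ, lt_parent (clock_pos ω h1 h2 _ _ _) hτ hv, fun h => by simp at h⟩

lemma lineage (h1 : ∀ e, 0 < ω.2.1 e) (h2 : ∀ e, 0 < ω.2.2 e) (hf : ∀ v, (G.neighborSet v).Finite)
    {τ : V → ℝ≥0∞} {red : V → Prop} (E : IsEvolution G o ω τ red) :
    ∀ (n : ℕ) (v : V), {w | τ w ≤ τ v}.ncard ≤ n → τ v < ⊤ →
      ∃ F : Finset (Sym2 V × Bool), (τ v).toReal = val ω F ∧ ∀ x ∈ F, ∀ w ∈ x.1, τ w ≤ τ v := by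
  classical
  intro n
  induction n with
  | zero =>
    intro y hn hy
    have hpos : 0 < {w | τ w ≤ τ y}.ncard :=
      (Set.ncard_pos (E.finite _ hy)).2 ⟨y, show τ y ≤ τ y from le_rfl⟩
    omega
  | succ n ih =>
    intro v hn hv
    by_cases ho : v = o
    · subst ho
      refine ⟨∅, ?_, by simp⟩
      rw [E.zero]
      simp [val]
    · obtain ⟨u, hadj, hτ, hlt, _⟩ := parent G o ω h1 h2 hf E ho hv
      have hcard := card_lt G o ω τ red E hv hlt
      obtain ⟨F, hF, hF2⟩ := ih u (by omega) (hlt.trans hv)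
      have hnot : (s(u, v), decide (red u)) ∉ F := by
        intro hmem
        have := hF2 _ hmem v (by simp)
        exact absurd hlt (not_lt.2 this)
      refine ⟨insert (s(u, v), decide (red u)) F, ?_, ?_⟩
      · unfold val
        rw [Finset.sum_insert hnot]
        rw [hτ, clock_eq, ENNReal.toReal_add (hlt.trans hv).ne ENNReal.ofReal_ne_top,
          ENNReal.toReal_ofReal (clk_pos h1 h2 _ _ _).le, hF, add_comm]
        unfold val clk
        simp
      · intro x hx w hw
        rw [Finset.mem_insert] at hx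
        rcases hx with rfl | hx
        · simp only [Sym2.mem_iff] at hw
          rcases hw with rfl | rfl
          · exact hlt.le
          · exact le_rfl
        · exact (hF2 x hx w hw).trans hlt.le

/-- one direction of the comparison -/
lemma half (h1 : ∀ e, 0 < ω.2.1 e) (h2 : ∀ e, 0 < ω.2.2 e) (hf : ∀ v, (G.neighborSet v).Finite)
    (hco : ∀ F F' : Finset (Sym2 V × Bool), F ≠ F' → val ω F ≠ val ω F')
    {τ τ' : V → ℝ≥0∞} {red red' : V → Prop} (E : IsEvolution G o ω τ red)
    (E' : IsEvolution G o ω τ' red') (v : V) (hv : τ v < ⊤) (hle : τ v ≤ τ' v)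
    (hind : ∀ w, min (τ w) (τ' w) < τ v → τ' w = τ w ∧ (red' w ↔ red w)) :
    τ' v = τ v ∧ (red' v ↔ red v) := by
  classical
  by_cases ho : v = o
  · subst ho
    rw [E.zero, E'.zero]
    exact ⟨rfl, iff_of_true E'.red_o E.red_o⟩
  obtain ⟨u, hadj, hτ, hlt, hcol⟩ := parent G o ω h1 h2 hf E ho hv
  obtain ⟨hu1, hu2⟩ := hind u (lt_of_le_of_lt (min_le_left _ _) hlt)
  have hτ' : τ' v ≤ τ v := by
    rw [E'.first v ho]
    refine iInf_le_of_le ⟨u, hadj⟩ ?_
    simp only
    rw [hu1, hτ]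
    have : clock ω (red' u) u v = clock ω (red u) u v := by
      rw [show red' u = red u from propext hu2]
    rw [this]
  have heq : τ' v = τ v := le_antisymm hτ' hle
  refine ⟨heq, ?_⟩
  have hv' : τ' v < ⊤ := by rw [heq]; exact hv
  cases hb : ω.1 v with
  | true => exact iff_of_false (E'.seed v ho hv' hb) (E.seed v ho hv hb)
  | false =>
    obtain ⟨u', hadj', hτ2, hlt', hcol'⟩ := parent G o ω h1 h2 hf E' ho hv'
    rw [heq] at hlt'
    obtain ⟨hu1', hu2'⟩ := hind u' (lt_of_le_of_lt (min_le_right _ _) hlt')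
    rw [hcol' hb, hcol hb, hu2']
    -- both parents have the same colour
    by_contra hne
    have hne' : ¬ (red u' ↔ red u) := hne
    have hlu' : τ u' < ⊤ := by rw [← hu1']; exact hlt'.trans hv
    have hlu'v : τ u' < τ v := by rw [← hu1']; exact hlt'
    obtain ⟨F, hF, hF2⟩ := lineage G o ω h1 h2 hf E _ u le_rfl (hlt.trans hv)
    obtain ⟨F', hF', hF2'⟩ := lineage G o ω h1 h2 hf E _ u' le_rfl hlu'
    have hnot : ∀ b, (s(u, v), b) ∉ F := by
      intro b hmem
      exact absurd hlt (not_lt.2 (hF2 _ hmem v (by simp)))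
    have hnot' : ∀ w b, (s(w, v), b) ∉ F' := by
      intro w b hmem
      exact absurd hlu'v (not_lt.2 (hF2' _ hmem v (by simp)))
    have hval : val ω (insert (s(u, v), decide (red u)) F) = (τ v).toReal := by
      unfold val
      rw [Finset.sum_insert (hnot _)]
      rw [hτ, clock_eq, ENNReal.toReal_add (hlt.trans hv).ne ENNReal.ofReal_ne_top,
        ENNReal.toReal_ofReal (clk_pos h1 h2 _ _ _).le, hF, add_comm]
      unfold val clk
      simp
    have hval' : val ω (insert (s(u', v), decide (red u')) F') = (τ v).toReal := by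
      unfold val
      rw [Finset.sum_insert (hnot' _ _)]
      rw [← heq, hτ2, show red' u' = red u' from propext hu2', hu1', clock_eq,
        ENNReal.toReal_add hlu'.ne ENNReal.ofReal_ne_top,
        ENNReal.toReal_ofReal (clk_pos h1 h2 _ _ _).le, hF', add_comm]
      unfold val clk
      simp
    refine hco (insert (s(u, v), decide (red u)) F) (insert (s(u', v), decide (red u')) F') ?_
      (hval.trans hval'.symm)
    intro hEq
    have hmem : (s(u, v), decide (red u)) ∈ insert (s(u', v), decide (red u')) F' := by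
      rw [← hEq]; exact Finset.mem_insert_self _ _
    rw [Finset.mem_insert] at hmem
    rcases hmem with hmem | hmem
    · have h3 := congrArg Prod.snd hmem
      simp only [decide_eq_decide] at h3
      exact hne' h3.symm
    · exact hnot' u _ hmem

theorem uniq (h1 : ∀ e, 0 < ω.2.1 e) (h2 : ∀ e, 0 < ω.2.2 e) (hf : ∀ v, (G.neighborSet v).Finite)
    (hco : ∀ F F' : Finset (Sym2 V × Bool), F ≠ F' → val ω F ≠ val ω F')
    {τ τ' : V → ℝ≥0∞} {red red' : V → Prop} (E : IsEvolution G o ω τ red)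
    (E' : IsEvolution G o ω τ' red') :
    ∀ (n : ℕ) (v : V), {w | min (τ w) (τ' w) ≤ min (τ v) (τ' v)}.ncard ≤ n →
      min (τ v) (τ' v) < ⊤ → τ' v = τ v ∧ (red' v ↔ red v) := by
  intro n
  have hfin : ∀ t : ℝ≥0∞, t < ⊤ → {w | min (τ w) (τ' w) ≤ t}.Finite := by
    intro t ht
    refine ((E.finite t ht).union (E'.finite t ht)).subset ?_
    intro w hw
    rcases min_le_iff.1 (show min (τ w) (τ' w) ≤ t from hw) with h | h
    · exact Or.inl h
    · exact Or.inr h
  induction n with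
  | zero =>
    intro y hn hy
    have hpos : 0 < {w | min (τ w) (τ' w) ≤ min (τ y) (τ' y)}.ncard :=
      (Set.ncard_pos (hfin _ hy)).2 ⟨y, show min (τ y) (τ' y) ≤ min (τ y) (τ' y) from le_rfl⟩
    omega
  | succ n ih =>
    intro v hn hv
    have hind : ∀ w, min (τ w) (τ' w) < min (τ v) (τ' v) → τ' w = τ w ∧ (red' w ↔ red w) := by
      intro w hw
      refine ih w ?_ (hw.trans hv)
      have : {x | min (τ x) (τ' x) ≤ min (τ w) (τ' w)}.ncard <
          {x | min (τ x) (τ' x) ≤ min (τ v) (τ' v)}.ncard := by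
        refine Set.ncard_lt_ncard ?_ (hfin _ hv)
        refine ⟨fun x hx => le_trans (show min (τ x) (τ' x) ≤ min (τ w) (τ' w) from hx) hw.le, ?_⟩
        intro hs
        have h3 : v ∈ {x | min (τ x) (τ' x) ≤ min (τ w) (τ' w)} :=
          hs (show min (τ v) (τ' v) ≤ min (τ v) (τ' v) from le_rfl)
        exact absurd (show min (τ v) (τ' v) ≤ min (τ w) (τ' w) from h3) (not_le.2 hw)
      omega
    rcases le_total (τ v) (τ' v) with h | h
    · rw [min_eq_left h] at hv hind
      exact half G o ω h1 h2 hf hco E E' v hv h hind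
    · rw [min_eq_right h] at hv hind
      have := half G o ω h1 h2 hf hco E' E v hv h (by
        intro w hw
        rw [min_comm] at hw
        obtain ⟨h3, h4⟩ := hind w hw
        exact ⟨h3.symm, h4.symm⟩)
      exact ⟨this.1.symm, this.2.symm⟩

end uniq

/-! ### existence -/

section exist

variable (G : SimpleGraph V) (o : V) (ω : Env V)

/-- partial evolution on a finite set -/
structure Part (S : Finset V) (τ : V → ℝ) (red : V → Prop) : Prop where
  mem_o : o ∈ S
  tau_o : τ o = 0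
  red_o : red o
  le : ∀ u ∈ S, ∀ v ∈ S, G.Adj u v → v ≠ o → τ v ≤ τ u + clk ω (red u) u v
  par : ∀ v ∈ S, v ≠ o → ∃ u ∈ S, G.Adj v u ∧ τ v = τ u + clk ω (red u) u v ∧
    (ω.1 v = true → ¬ red v) ∧ (ω.1 v = false → (red v ↔ red u))
  front : ∀ u ∈ S, ∀ x, x ∉ S → G.Adj u x → ∀ v ∈ S, τ v ≤ τ u + clk ω (red u) u x
  nonneg : ∀ v ∈ S, 0 ≤ τ v
  path : ∀ v ∈ S, ∃ p : G.Walk o v,
    (p.edges.map (fun e => min (ω.2.1 e) (ω.2.2 e))).sum ≤ τ v

/-- there is a boundary pair -/
def Bdry (S : Finset V) : Prop := ∃ u ∈ S, ∃ x, x ∉ S ∧ G.Adj u x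

lemma part_init (h1 : ∀ e, 0 < ω.2.1 e) (h2 : ∀ e, 0 < ω.2.2 e) :
    Part G o ω {o} (fun _ => 0) (fun _ => True) := by
  refine ⟨by simp, rfl, trivial, ?_, ?_, ?_, ?_, ?_⟩
  · intro u _ v hv _ hvo
    exact absurd (by simpa using hv) hvo
  · intro v hv hvo
    exact absurd (by simpa using hv) hvo
  · intro u _ x _ _ v _
    have := clk_pos (ω := ω) h1 h2 True u x
    linarith
  · intro v _; exact le_rfl
  · intro v hv
    have : v = o := by simpa using hv
    subst this
    exact ⟨SimpleGraph.Walk.nil, by simp⟩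

open Classical in
lemma part_step (h1 : ∀ e, 0 < ω.2.1 e) (h2 : ∀ e, 0 < ω.2.2 e) (hf : ∀ v, (G.neighborSet v).Finite)
    {S : Finset V} {τ : V → ℝ} {red : V → Prop} (P : Part G o ω S τ red) (hB : Bdry G S) :
    ∃ x, x ∉ S ∧ ∃ (τ' : V → ℝ) (red' : V → Prop), Part G o ω (insert x S) τ' red' ∧
      (∀ v ∈ S, τ' v = τ v) ∧ (∀ v ∈ S, (red' v ↔ red v)) := by
  -- the minimal boundary pair
  have hfin : {q : V × V | q.1 ∈ S ∧ q.2 ∉ S ∧ G.Adj q.1 q.2}.Finite := by
    have : {q : V × V | q.1 ∈ S ∧ q.2 ∉ S ∧ G.Adj q.1 q.2} ⊆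
        ⋃ u ∈ (S : Set V), (fun x => (u, x)) '' (G.neighborSet u) := by
      rintro ⟨u, x⟩ ⟨hu, _, hadj⟩
      simp only [Set.mem_iUnion]
      exact ⟨u, hu, x, hadj, rfl⟩
    exact Set.Finite.subset (S.finite_toSet.biUnion (fun u _ => (hf u).image _)) this
  obtain ⟨u0, hu0, x0, hx0, hadj0⟩ := hB
  obtain ⟨⟨u, x⟩, ⟨hu, hx, hadj⟩, hmin⟩ := Set.exists_min_image _
    (fun q : V × V => τ q.1 + clk ω (red q.1) q.1 q.2) hfin ⟨(u0, x0), hu0, hx0, hadj0⟩
  simp only at hu hx hadj
  have hmin' : ∀ u' ∈ S, ∀ x', x' ∉ S → G.Adj u' x' →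
      τ u + clk ω (red u) u x ≤ τ u' + clk ω (red u') u' x' := by
    intro u' hu' x' hx' hadj'
    exact hmin (u', x') ⟨hu', hx', hadj'⟩
  set T : ℝ := τ u + clk ω (red u) u x with hT
  set τ' : V → ℝ := Function.update τ x T with hτ'
  set red' : V → Prop := Function.update red x (if ω.1 x = true then False else red u) with hred'
  have hτS : ∀ v ∈ S, τ' v = τ v := by
    intro v hv
    have : v ≠ x := by rintro rfl; exact hx hv
    rw [hτ', Function.update_of_ne this]
  have hrS : ∀ v ∈ S, (red' v = red v) := by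
    intro v hv
    have : v ≠ x := by rintro rfl; exact hx hv
    rw [hred', Function.update_of_ne this]
  have hτx : τ' x = T := by rw [hτ', Function.update_self]
  have hrx : red' x = (if ω.1 x = true then False else red u) := by
    rw [hred', Function.update_self]
  have hox : o ≠ x := by rintro rfl; exact hx P.mem_o
  have hTle : ∀ v ∈ S, τ v ≤ T := fun v hv => P.front u hu x hx hadj v hv
  refine ⟨x, hx, τ', red', ?_, hτS, fun v hv => by rw [hrS v hv]⟩
  refine ⟨Finset.mem_insert_of_mem P.mem_o, ?_, ?_, ?_, ?_, ?_, ?_, ?_⟩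
  · rw [hτS o P.mem_o]; exact P.tau_o
  · rw [hrS o P.mem_o]; exact P.red_o
  · -- le
    intro a ha b hb hab hbo
    rw [Finset.mem_insert] at ha hb
    rcases ha with rfl | ha
    · rcases hb with rfl | hb
      · exact absurd hab (G.loopless.irrefl _)
      · rw [hτx, hτS b hb]
        have := hTle b hb
        have := clk_pos (ω := ω) h1 h2 (red' a) a b
        linarith
    · rcases hb with rfl | hb
      · rw [hτx, hτS a ha, hrS a ha]
        exact hmin' a ha b hx hab
      · rw [hτS a ha, hrS a ha, hτS b hb]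
        exact P.le a ha b hb hab hbo
  · -- par
    intro b hb hbo
    rw [Finset.mem_insert] at hb
    rcases hb with rfl | hb
    · refine ⟨u, Finset.mem_insert_of_mem hu, hadj.symm, ?_, ?_, ?_⟩
      · rw [hτx, hτS u hu, hrS u hu]
      · intro h
        rw [hrx, if_pos h]
        exact id
      · intro h
        rw [hrx, if_neg (by simp [h]), hrS u hu]
    · obtain ⟨c, hc, hbc, e1, e2, e3⟩ := P.par b hb hbo
      refine ⟨c, Finset.mem_insert_of_mem hc, hbc, ?_, ?_, ?_⟩
      · rw [hτS b hb, hτS c hc, hrS c hc]; exact e1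
      · rw [hrS b hb]; exact e2
      · rw [hrS b hb, hrS c hc]; exact e3
  · -- front
    intro a ha y hy hay v hv
    have hy' : y ∉ S := fun h => hy (Finset.mem_insert_of_mem h)
    have hvT : τ' v ≤ T := by
      rw [Finset.mem_insert] at hv
      rcases hv with rfl | hv
      · rw [hτx]
      · rw [hτS v hv]; exact hTle v hv
    rw [Finset.mem_insert] at ha
    rcases ha with rfl | ha
    · rw [hτx]
      have := clk_pos (ω := ω) h1 h2 (red' a) a y
      linarith
    · rw [hτS a ha, hrS a ha]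
      exact hvT.trans (hmin' a ha y hy' hay)
  · -- nonneg
    intro v hv
    rw [Finset.mem_insert] at hv
    rcases hv with rfl | hv
    · rw [hτx]
      have := P.nonneg u hu
      have := clk_pos (ω := ω) h1 h2 (red u) u v
      linarith
    · rw [hτS v hv]; exact P.nonneg v hv
  · -- path
    intro v hv
    rw [Finset.mem_insert] at hv
    rcases hv with rfl | hv
    · obtain ⟨p, hp⟩ := P.path u hu
      refine ⟨p.concat hadj, ?_⟩
      rw [SimpleGraph.Walk.edges_concat, List.concat_eq_append, List.map_append, List.sum_append,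
        hτx]
      have := min_le_clk ω (red u) u v
      simp only [List.map_cons, List.map_nil, List.sum_cons, List.sum_nil, add_zero]
      linarith
    · obtain ⟨p, hp⟩ := P.path v hv
      exact ⟨p, by rw [hτS v hv]; exact hp⟩

/-- states -/
def St : Type := {s : Finset V × (V → ℝ) × (V → Prop) // Part G o ω s.1 s.2.1 s.2.2}

open Classical in
lemma step_ex (h1 : ∀ e, 0 < ω.2.1 e) (h2 : ∀ e, 0 < ω.2.2 e) (hf : ∀ v, (G.neighborSet v).Finite)
    (s : St G o ω) : ∃ s' : St G o ω,
      (∀ v ∈ s.1.1, v ∈ s'.1.1 ∧ s'.1.2.1 v = s.1.2.1 v ∧ (s'.1.2.2 v ↔ s.1.2.2 v)) ∧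
      (Bdry G s.1.1 → s'.1.1.card = s.1.1.card + 1) := by
  by_cases hB : Bdry G s.1.1
  · obtain ⟨x, hx, τ', red', P', e1, e2⟩ := part_step G o ω h1 h2 hf s.2 hB
    refine ⟨⟨(insert x s.1.1, τ', red'), P'⟩, ?_, ?_⟩
    · intro v hv
      exact ⟨Finset.mem_insert_of_mem hv, e1 v hv, e2 v hv⟩
    · intro _
      exact Finset.card_insert_of_notMem hx
  · exact ⟨s, fun v hv => ⟨hv, rfl, Iff.rfl⟩, fun h => absurd h hB⟩

theorem exist (h1 : ∀ e, 0 < ω.2.1 e) (h2 : ∀ e, 0 < ω.2.2 e)
    (hf : ∀ v, (G.neighborSet v).Finite)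
    (hne : ∀ t : ℝ, {v | ∃ p : G.Walk o v,
        (p.edges.map (fun e => min (ω.2.1 e) (ω.2.2 e))).sum ≤ t}.Finite) :
    ∃ τ red, IsEvolution G o ω τ red := by
  classical
  choose f hf1 hf2 using step_ex G o ω h1 h2 hf
  let sq : ℕ → St G o ω := fun n => Nat.rec ⟨({o}, (fun _ => 0), fun _ => True), part_init G o ω h1 h2⟩
    (fun _ s => f s) n
  have hsucc : ∀ n, sq (n + 1) = f (sq n) := fun _ => rfl
  have hmono : ∀ n m, n ≤ m → ∀ v ∈ (sq n).1.1, v ∈ (sq m).1.1 ∧
      (sq m).1.2.1 v = (sq n).1.2.1 v ∧ ((sq m).1.2.2 v ↔ (sq n).1.2.2 v) := by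
    intro n m hnm
    induction m, hnm using Nat.le_induction with
    | base => intro v hv; exact ⟨hv, rfl, Iff.rfl⟩
    | succ m _ ih =>
      intro v hv
      obtain ⟨e1, e2, e3⟩ := ih v hv
      obtain ⟨e1', e2', e3'⟩ := hf1 (sq m) v e1
      rw [hsucc]
      exact ⟨e1', e2'.trans e2, e3'.trans e3⟩
  set τ : V → ℝ≥0∞ := fun v => if h : ∃ n, v ∈ (sq n).1.1 then
    ENNReal.ofReal ((sq h.choose).1.2.1 v) else ⊤ with hτdef
  set red : V → Prop := fun v => ∃ n, v ∈ (sq n).1.1 ∧ (sq n).1.2.2 v with hreddef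
  have hτ : ∀ n, ∀ v ∈ (sq n).1.1, τ v = ENNReal.ofReal ((sq n).1.2.1 v) := by
    intro n v hv
    have hex : ∃ n, v ∈ (sq n).1.1 := ⟨n, hv⟩
    rw [hτdef]
    simp only [dif_pos hex]
    congr 1
    rcases le_total hex.choose n with h | h
    · exact (hmono _ _ h v hex.choose_spec).2.1.symm
    · exact (hmono _ _ h v hv).2.1
  have hτtop : ∀ v, (¬ ∃ n, v ∈ (sq n).1.1) → τ v = ⊤ := by
    intro v hv
    rw [hτdef]
    simp only [dif_neg hv]
  have hτlt : ∀ v, τ v < ⊤ → ∃ n, v ∈ (sq n).1.1 := by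
    intro v hv
    by_contra hcon
    rw [hτtop v hcon] at hv
    exact lt_irrefl _ hv
  have hred : ∀ n, ∀ v ∈ (sq n).1.1, (red v ↔ (sq n).1.2.2 v) := by
    intro n v hv
    constructor
    · rintro ⟨m, hm, hr⟩
      rcases le_total m n with h | h
      · exact (hmono _ _ h v hm).2.2.2 hr
      · exact (hmono _ _ h v hv).2.2.1 hr
    · intro h
      exact ⟨n, hv, h⟩
  have ho : o ∈ (sq 0).1.1 := (sq 0).2.mem_o
  -- finiteness
  have hfinite : ∀ t : ℝ≥0∞, t < ⊤ → {v | τ v ≤ t}.Finite := by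
    intro t ht
    refine (hne t.toReal).subset ?_
    intro v hv
    have hv' : τ v ≤ t := hv
    obtain ⟨n, hn⟩ := hτlt v (lt_of_le_of_lt hv' ht)
    obtain ⟨p, hp⟩ := (sq n).2.path v hn
    refine ⟨p, hp.trans ?_⟩
    rw [hτ n v hn] at hv'
    exact (ENNReal.ofReal_le_iff_le_toReal ht.ne).1 hv'
  -- neighbours of occupied vertices are occupied
  have hocc : ∀ n, ∀ u ∈ (sq n).1.1, ∀ v, G.Adj u v → ∃ m, v ∈ (sq m).1.1 := by
    intro n u hu v huv
    by_contra hcon
    push Not at hcon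
    have hcard : ∀ k, (sq (n + k)).1.1.card = (sq n).1.1.card + k := by
      intro k
      induction k with
      | zero => rfl
      | succ k ih =>
        have hb : Bdry G (sq (n + k)).1.1 :=
          ⟨u, (hmono n (n + k) (by omega) u hu).1, v, hcon _, huv⟩
        rw [← add_assoc, hsucc, hf2 _ hb, ih]
        ring
    set T : ℝ := (sq n).1.2.1 u + clk ω ((sq n).1.2.2 u) u v with hT
    have hsub : ∀ k, ((sq (n + k)).1.1 : Set V) ⊆ {v | ∃ p : G.Walk o v,
        (p.edges.map (fun e => min (ω.2.1 e) (ω.2.2 e))).sum ≤ T} := by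
      intro k x hx
      obtain ⟨p, hp⟩ := (sq (n + k)).2.path x hx
      refine ⟨p, hp.trans ?_⟩
      obtain ⟨e1, e2, e3⟩ := hmono n (n + k) (by omega) u hu
      have h3 := (sq (n + k)).2.front u e1 v (hcon _) huv x hx
      rw [e2, show (sq (n + k)).1.2.2 u = (sq n).1.2.2 u from propext e3] at h3
      exact h3
    have hbd : ∀ k, (sq n).1.1.card + k ≤ {v | ∃ p : G.Walk o v,
        (p.edges.map (fun e => min (ω.2.1 e) (ω.2.2 e))).sum ≤ T}.ncard := by
      intro k
      rw [← hcard k, ← Set.ncard_coe_finset]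
      exact Set.ncard_le_ncard (hsub k) (hne T)
    have := hbd ({v | ∃ p : G.Walk o v,
        (p.edges.map (fun e => min (ω.2.1 e) (ω.2.2 e))).sum ≤ T}.ncard + 1)
    omega
  refine ⟨τ, red, ?_⟩
  refine ⟨?_, ?_, ?_, ?_, ?_, hfinite⟩
  · rw [hτ 0 o ho, (sq 0).2.tau_o, ENNReal.ofReal_zero]
  · exact (hred 0 o ho).2 (sq 0).2.red_o
  · -- first
    intro v hvo
    by_cases hv : ∃ n, v ∈ (sq n).1.1
    · obtain ⟨n, hn⟩ := hv
      apply le_antisymm
      · refine le_iInf ?_
        rintro ⟨u, hu⟩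
        simp only
        by_cases hu' : ∃ m, u ∈ (sq m).1.1
        · obtain ⟨m, hm⟩ := hu'
          have hv2 := (hmono n (max n m) (le_max_left _ _) v hn).1
          have hu2 := (hmono m (max n m) (le_max_right _ _) u hm).1
          rw [hτ _ v hv2, hτ _ u hu2, clock_eq,
            show red u = (sq (max n m)).1.2.2 u from propext (hred _ u hu2),
            ← ENNReal.ofReal_add ((sq (max n m)).2.nonneg u hu2) (clk_pos h1 h2 _ _ _).le]
          apply ENNReal.ofReal_le_ofReal
          exact (sq (max n m)).2.le u hu2 v hv2 (SimpleGraph.Adj.symm hu) hvo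
        · rw [hτtop u hu', top_add]
          exact le_top
      · obtain ⟨u, hu, hadj, e1, _, _⟩ := (sq n).2.par v hn hvo
        refine iInf_le_of_le ⟨u, hadj⟩ ?_
        simp only
        rw [hτ _ v hn, hτ _ u hu, clock_eq,
            show red u = (sq n).1.2.2 u from propext (hred _ u hu),
            ← ENNReal.ofReal_add ((sq n).2.nonneg u hu) (clk_pos h1 h2 _ _ _).le, ← e1]
    · rw [hτtop v hv]
      symm
      rw [iInf_eq_top]
      rintro ⟨u, hu⟩
      simp only
      have : ¬ ∃ m, u ∈ (sq m).1.1 := by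
        rintro ⟨m, hm⟩
        exact hv (hocc m u hm v (SimpleGraph.Adj.symm hu))
      rw [hτtop u this, top_add]
  · -- seed
    intro v hvo hv hs
    obtain ⟨n, hn⟩ := hτlt v hv
    obtain ⟨u, hu, hadj, e1, e2, e3⟩ := (sq n).2.par v hn hvo
    rw [hred n v hn]
    exact e2 hs
  · -- noseed
    intro v hvo hv hs
    obtain ⟨n, hn⟩ := hτlt v hv
    obtain ⟨u, hu, hadj, e1, e2, e3⟩ := (sq n).2.par v hn hvo
    refine ⟨u, hadj, ?_, ?_⟩
    · rw [hτ _ v hn, hτ _ u hu, clock_eq,
            show red u = (sq n).1.2.2 u from propext (hred _ u hu),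
            ← ENNReal.ofReal_add ((sq n).2.nonneg u hu) (clk_pos h1 h2 _ _ _).le, ← e1]
    · rw [hred n v hn, hred n u hu]
      exact e3 hs

end exist

end Pool.Agent.FPPHE.EXI_

namespace Pool.Agent.FPPHE

open EXI_
open scoped ENNReal

theorem stmt_EXI : Stmt_EXI := by
  intro V G o ω _ hf h1 h2 hne
  refine ⟨exist G o ω h1 h2 hf hne, ?_⟩
  intro hco τ red τ' red' E E'
  have key := uniq G o ω h1 h2 hf (fun F F' h => hco F F' h) E E'
  constructor
  · funext v
    by_cases hv : min (τ v) (τ' v) < ⊤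
    · exact (key _ v le_rfl hv).1
    · rw [not_lt, top_le_iff, min_eq_top] at hv
      rw [hv.1, hv.2]
  · intro v hv
    exact (key _ v le_rfl (lt_of_le_of_lt (min_le_left _ _) hv)).2

end Pool.Agent.FPPHE
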