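import Pool.Agent.Work.MP_04d5a3_full.Interface

/-!
# FPPHE (MP_04d5a3_pr), block EXI, uniqueness half
-/

namespace Pool.Agent.FPPHE

open scoped ENNReal

namespace EXIU_

variable {V : Type} {G : SimpleGraph V} {o : V} {ω : Env V}

/-- the value of a clock -/
noncomputable def cv (ω : Env V) (x : Sym2 V × Bool) : ℝ := if x.2 then ω.2.1 x.1 else ω.2.2 x.1

theorem cv_pos (h1 : ∀ e, 0 < ω.2.1 e) (h2 : ∀ e, 0 < ω.2.2 e) (x : Sym2 V × Bool) :
    0 < cv ω x := by
  unfold cv
  split_ifs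
  · exact h1 _
  · exact h2 _

theorem clock_eq (red : Prop) (u v : V) :
    clock ω red u v = ENNReal.ofReal (cv ω (s(u, v), (open Classical in decide red))) := by
  classical
  unfold clock cv
  by_cases h : red <;> simp [h]

theorem clock_pos (h1 : ∀ e, 0 < ω.2.1 e) (h2 : ∀ e, 0 < ω.2.2 e) (red : Prop) (u v : V) :
    0 < clock ω red u v := by
  rw [clock_eq]
  exact ENNReal.ofReal_pos.2 (cv_pos h1 h2 _)

variable {τ : V → ℝ≥0∞} {red : V → Prop}

theorem exists_pred (hfin : ∀ v, (G.neighborSet v).Finite) (h : IsEvolution G o ω τ red) {v : V}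
    (hv : v ≠ o) (ht : τ v < ⊤) : ∃ u, G.Adj v u ∧ τ v = τ u + clock ω (red u) u v := by
  have hf := h.first v hv
  have : Finite (G.neighborSet v) := (hfin v).to_subtype
  by_cases hne : Nonempty (G.neighborSet v)
  · obtain ⟨u, hu⟩ := exists_eq_ciInf_of_finite
      (f := fun u : G.neighborSet v => τ u + clock ω (red u) u v)
    exact ⟨u, u.2, by rw [hf, ← hu]⟩
  · rw [not_nonempty_iff] at hne
    rw [iInf_of_empty] at hf
    exact absurd hf ht.ne

theorem pred_lt (h1 : ∀ e, 0 < ω.2.1 e) (h2 : ∀ e, 0 < ω.2.2 e) {u v : V} (ht : τ v < ⊤)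
    (h : τ v = τ u + clock ω (red u) u v) : τ u < τ v := by
  have hu : τ u ≠ ⊤ := by
    intro hc
    rw [h, hc, top_add] at ht
    exact lt_irrefl _ ht
  rw [h]
  exact ENNReal.lt_add_right hu (clock_pos h1 h2 _ _ _).ne'

/-- time induction -/
theorem induction_time (h : ∀ t : ℝ≥0∞, t < ⊤ → {v | τ v ≤ t}.Finite) (P : V → Prop)
    (hP : ∀ v, τ v < ⊤ → (∀ u, τ u < τ v → P u) → P v) : ∀ v, τ v < ⊤ → P v := by
  intro v hv
  by_contra hc
  have hfin : ({u | τ u ≤ τ v} ∩ {u | ¬ P u}).Finite := (h _ hv).inter_of_left _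
  obtain ⟨u, ⟨hu1, hu2⟩, hmin⟩ := Set.exists_min_image _ τ hfin
    ⟨v, (le_refl (τ v) : v ∈ {u | τ u ≤ τ v}), hc⟩
  have hu1' : τ u ≤ τ v := hu1
  refine hu2 (hP u (hu1'.trans_lt hv) fun w hw => ?_)
  by_contra hw2
  exact absurd (hmin w ⟨hw.le.trans hu1', hw2⟩) (not_le.2 hw)

theorem exists_set (hfin : ∀ v, (G.neighborSet v).Finite) (h1 : ∀ e, 0 < ω.2.1 e)
    (h2 : ∀ e, 0 < ω.2.2 e) (h : IsEvolution G o ω τ red) :
    ∀ v, τ v < ⊤ → ∃ F : Finset (Sym2 V × Bool), τ v = ENNReal.ofReal (∑ x ∈ F, cv ω x) ∧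
      ∀ x ∈ F, ∀ w ∈ x.1, τ w ≤ τ v := by
  classical
  apply induction_time h.finite
  intro v hv ih
  by_cases hvo : v = o
  · refine ⟨∅, ?_, by simp⟩
    rw [hvo, h.zero]
    simp
  · obtain ⟨u, hu, hu2⟩ := exists_pred hfin h hvo hv
    have hlt : τ u < τ v := pred_lt h1 h2 hv hu2
    obtain ⟨F, hF, hF2⟩ := ih u hlt
    have hnot : (s(u, v), decide (red u)) ∉ F := by
      intro hc
      have := hF2 _ hc v (Sym2.mem_mk_right u v)
      exact absurd this (not_le.2 hlt)
    refine ⟨insert (s(u, v), decide (red u)) F, ?_, ?_⟩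
    · rw [Finset.sum_insert hnot, ENNReal.ofReal_add (cv_pos h1 h2 _).le
        (Finset.sum_nonneg fun x _ => (cv_pos h1 h2 x).le), ← hF, hu2, clock_eq, add_comm]
    · intro x hx w hw
      rcases Finset.mem_insert.1 hx with rfl | hx
      · rcases Sym2.mem_iff.1 hw with rfl | rfl
        · exact hlt.le
        · exact le_rfl
      · exact (hF2 x hx w hw).trans hlt.le

/-- no ties -/
theorem no_tie (hfin : ∀ v, (G.neighborSet v).Finite) (h1 : ∀ e, 0 < ω.2.1 e)
    (h2 : ∀ e, 0 < ω.2.2 e)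
    (hc : ∀ F F' : Finset (Sym2 V × Bool), F ≠ F' → ∑ x ∈ F, cv ω x ≠ ∑ x ∈ F', cv ω x)
    (h : IsEvolution G o ω τ red) {v u u' : V} (hv : τ v < ⊤)
    (hu : τ v = τ u + clock ω (red u) u v) (hu' : τ v = τ u' + clock ω (red u') u' v) :
    u = u' := by
  classical
  by_contra hne
  have hlt : τ u < τ v := pred_lt h1 h2 hv hu
  have hlt' : τ u' < τ v := pred_lt h1 h2 hv hu'
  obtain ⟨F, hF, hF2⟩ := exists_set hfin h1 h2 h u (hlt.trans hv)
  obtain ⟨F', hF', hF2'⟩ := exists_set hfin h1 h2 h u' (hlt'.trans hv)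
  have hnot : (s(u, v), decide (red u)) ∉ F := by
    intro hc
    exact absurd (hF2 _ hc v (Sym2.mem_mk_right u v)) (not_le.2 hlt)
  have hnot' : (s(u', v), decide (red u')) ∉ F' := by
    intro hc
    exact absurd (hF2' _ hc v (Sym2.mem_mk_right u' v)) (not_le.2 hlt')
  have hnn : ∀ S : Finset (Sym2 V × Bool), 0 ≤ ∑ x ∈ S, cv ω x :=
    fun S => Finset.sum_nonneg fun x _ => (cv_pos h1 h2 x).le
  have e1 : τ v = ENNReal.ofReal (∑ x ∈ insert (s(u, v), decide (red u)) F, cv ω x) := by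
    rw [Finset.sum_insert hnot, ENNReal.ofReal_add (cv_pos h1 h2 _).le (hnn _), ← hF, hu,
      clock_eq, add_comm]
  have e2 : τ v = ENNReal.ofReal (∑ x ∈ insert (s(u', v), decide (red u')) F', cv ω x) := by
    rw [Finset.sum_insert hnot', ENNReal.ofReal_add (cv_pos h1 h2 _).le (hnn _), ← hF', hu',
      clock_eq, add_comm]
  refine hc _ _ ?_ ((ENNReal.ofReal_eq_ofReal_iff (hnn _) (hnn _)).1 (e1.symm.trans e2))
  intro heq
  have hmem : (s(u, v), decide (red u)) ∈ insert (s(u', v), decide (red u')) F' := by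
    rw [← heq]
    exact Finset.mem_insert_self _ _
  rcases Finset.mem_insert.1 hmem with hx | hx
  · have := (Prod.ext_iff.1 hx).1
    simp only [Sym2.eq_iff] at this
    rcases this with ⟨h3, -⟩ | ⟨h3, h4⟩
    · exact hne h3
    · exact hne (h3.trans h4)
  · exact absurd (hF2' _ hx v (Sym2.mem_mk_right u v)) (not_le.2 hlt')

/-- one half of the comparison step -/
theorem step {τ' : V → ℝ≥0∞} {red' : V → Prop} (hfin : ∀ v, (G.neighborSet v).Finite)
    (h1 : ∀ e, 0 < ω.2.1 e) (h2 : ∀ e, 0 < ω.2.2 e)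
    (h : IsEvolution G o ω τ red) (h' : IsEvolution G o ω τ' red') {v : V} (hvo : v ≠ o)
    (hv : τ v < ⊤) (hle : τ v ≤ τ' v)
    (ih : ∀ u, τ u < τ v → τ' u = τ u ∧ (red' u ↔ red u)) : τ' v = τ v := by
  obtain ⟨u, hu, hu2⟩ := exists_pred hfin h hvo hv
  have hlt : τ u < τ v := pred_lt h1 h2 hv hu2
  obtain ⟨i1, i2⟩ := ih u hlt
  refine le_antisymm ?_ hle
  rw [h'.first v hvo]
  refine (iInf_le _ (⟨u, hu⟩ : G.neighborSet v)).trans ?_
  rw [hu2]
  simp only [i1, propext i2]
  exact le_rfl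

end EXIU_

open EXIU_ in
theorem exi_unique {V : Type} (G : SimpleGraph V) (o : V) (ω : Env V)
    (hfin : ∀ v, (G.neighborSet v).Finite) (h1 : ∀ e, 0 < ω.2.1 e) (h2 : ∀ e, 0 < ω.2.2 e)
    (hc : ∀ F F' : Finset (Sym2 V × Bool), F ≠ F' →
      ∑ x ∈ F, (if x.2 then ω.2.1 x.1 else ω.2.2 x.1) ≠
        ∑ x ∈ F', (if x.2 then ω.2.1 x.1 else ω.2.2 x.1)) :
    ∀ τ red τ' red', IsEvolution G o ω τ red → IsEvolution G o ω τ' red' →
        τ' = τ ∧ ∀ v, τ v < ⊤ → (red' v ↔ red v) := by
  intro τ red τ' red' h h'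
  -- agreement at all vertices of finite time for one of the evolutions
  have key : ∀ v, min (τ v) (τ' v) < ⊤ → τ' v = τ v ∧ (red' v ↔ red v) := by
    apply induction_time (τ := fun v => min (τ v) (τ' v))
    · intro t ht
      refine ((h.finite t ht).union (h'.finite t ht)).subset ?_
      intro v hv
      have hv' : min (τ v) (τ' v) ≤ t := hv
      rcases min_le_iff.1 hv' with hv | hv
      · exact Or.inl hv
      · exact Or.inr hv
    · intro v hv ih
      by_cases hvo : v = o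
      · subst hvo
        exact ⟨by rw [h.zero, h'.zero], iff_of_true h'.red_o h.red_o⟩
      have ht : τ' v = τ v := by
        rcases le_total (τ v) (τ' v) with hle | hle
        · rw [min_eq_left hle] at hv
          refine step hfin h1 h2 h h' hvo hv hle fun u hu => ih u ?_
          rw [min_eq_left hle]
          exact (min_le_left _ _).trans_lt hu
        · rw [min_eq_right hle] at hv
          refine (step hfin h1 h2 h' h hvo hv hle fun u hu => ?_).symm
          have := ih u (by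
            rw [min_eq_right hle]
            exact (min_le_right _ _).trans_lt hu)
          exact ⟨this.1.symm, this.2.symm⟩
      refine ⟨ht, ?_⟩
      have hv' : τ v < ⊤ := by rwa [ht, min_self] at hv
      have ih' : ∀ u, τ u < τ v → τ' u = τ u ∧ (red' u ↔ red u) := fun u hu => ih u (by
        rw [ht, min_self]
        exact (min_le_left _ _).trans_lt hu)
      by_cases hs : ω.1 v = true
      · exact iff_of_false (h'.seed v hvo (by rw [ht]; exact hv') hs) (h.seed v hvo hv' hs)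
      · have hs' : ω.1 v = false := by simpa using hs
        obtain ⟨u, -, hu2, hu3⟩ := h.noseed v hvo hv' hs'
        obtain ⟨u', -, hu2', hu3'⟩ := h'.noseed v hvo (by rw [ht]; exact hv') hs'
        have l1 : τ u < τ v := pred_lt h1 h2 hv' hu2
        have l2 : τ' u' < τ v := by
          have := pred_lt h1 h2 (by rw [ht]; exact hv') hu2'
          rwa [ht] at this
        obtain ⟨a1, a2⟩ := ih' u l1
        obtain ⟨b1, b2⟩ := ih u' (by
          rw [ht, min_self]
          exact (min_le_right _ _).trans_lt l2)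
        have hu4 : τ v = τ u' + clock ω (red u') u' v := by
          rw [← ht, hu2', b1]
          simp only [propext b2]
        have := no_tie hfin h1 h2 hc h hv' hu2 hu4
        subst this
        rw [hu3, hu3', a2]
  have htau : τ' = τ := by
    funext v
    by_cases hv : min (τ v) (τ' v) < ⊤
    · exact (key v hv).1
    · rw [not_lt, top_le_iff, min_eq_top] at hv
      rw [hv.1, hv.2]
  exact ⟨htau, fun v hv => (key v ((min_le_left _ _).trans_lt hv)).2⟩

end Pool.Agent.FPPHE
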