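import Pool.Agent.Work.MP_04d5a3_full.Interface
import Pool.Agent.Work.MP_04d5a3_full.Tool

/-!
# FPPHE (MP_04d5a3_pr): block FIELD (assembly of section 4)
-/

namespace Pool.Agent.FPPHE.FIELD_

open SimpleGraph
open scoped ENNReal

variable {V : Type} {G : SimpleGraph V} {C : Set V}

lemma al_succ (n : ℕ) : al (n + 1) = 50000 * al n := by
  unfold al lamI Ca
  ring

lemma Ca_le_al (n : ℕ) : Ca ≤ al n := by
  unfold al
  exact Nat.le_mul_of_pos_right _ (Nat.pow_pos (by unfold lamI; norm_num))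

end Pool.Agent.FPPHE.FIELD_

namespace Pool.Agent.FPPHE

open FIELD_
open scoped ENNReal

theorem stmt_FIELD (hOPQ : Stmt_OPQ) (hISLA : Stmt_ISLA) (hISLB : Stmt_ISLB) (hFLD : Stmt_FLD)
    (hVIT : Stmt_VIT) : Stmt_FIELD := by
  classical
  intro V G N bad C hG hC hsp
  have hN : 1 ≤ N := le_trans (by unfold Nbig; norm_num) hG.big
  have hN1 : (1 : ℝ) ≤ (N : ℝ) := by exact_mod_cast hN
  obtain ⟨Nt, hNt⟩ := (hISLB V G N bad C hG hC).1
  obtain ⟨s1, s2, s3, s4, s5⟩ := hFLD V G N bad C hG hC hsp Nt hNt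
  obtain ⟨_, hrich, _, _⟩ := hISLA V G N bad C hG hC hsp
  obtain ⟨_, _, _, hop⟩ := hOPQ V G N bad C hG hC
  obtain ⟨o1, o2⟩ := hop (fld G N C Nt) s2
  set F := fld G N C Nt with hF
  have hisl : ∀ n y, y ∈ isl G C n → (N : ℝ) ^ (1760 * al n) ≤ (F y).toReal := by
    intro n y hy
    have h1 := s3 y n ⟨y, hy, by rw [dc_self]; exact Nat.zero_le _⟩
    have h2 := ENNReal.toReal_mono (s5 y).ne h1
    rw [ENNReal.toReal_pow, ENNReal.toReal_natCast] at h2
    exact h2
  have hQ : ∀ y, (opQ G C F y).toReal ≤ (N : ℝ) ^ 16 * max (F y).toReal 1 := by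
    intro y
    have h1 : max (F y) 1 < ⊤ := max_lt (s5 y) ENNReal.one_lt_top
    have h2 : (N : ℝ≥0∞) ^ 16 * max (F y) 1 ≠ ⊤ :=
      ENNReal.mul_ne_top (ENNReal.pow_ne_top (ENNReal.natCast_ne_top _)) h1.ne
    have h3 := ENNReal.toReal_mono h2 (s4 y)
    rw [ENNReal.toReal_mul, ENNReal.toReal_pow, ENNReal.toReal_natCast,
      ENNReal.toReal_max (s5 y).ne ENNReal.one_ne_top, ENNReal.toReal_one] at h3
    exact h3
  have hQt : ∀ y, opQ G C F y < ⊤ := by
    intro y
    refine (s4 y).trans_lt ?_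
    exact ENNReal.mul_lt_top (ENNReal.pow_lt_top (ENNReal.natCast_lt_top _))
      (max_lt (s5 y) ENNReal.one_lt_top)
  have f2 : ∀ v ∈ C, (N : ℝ) ^ (1760 * max Ca (2 * (cls G C v).ncard)) ≤ (F v).toReal := by
    intro v hv
    obtain ⟨n, hn, hn2⟩ := hrich (cls G C v) (rich_core hC (cls_mem_cores hv)) v (mem_cls_self v)
    rw [Set.inter_eq_left.mpr (cls_sub hv), al_succ] at hn2
    refine le_trans ?_ (hisl n v hn)
    refine pow_le_pow_right₀ hN1 (Nat.mul_le_mul_left _ (max_le (Ca_le_al n) ?_))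
    unfold Ca lamI at hn2
    omega
  have hone : ∀ n, (1 : ℝ) ≤ (N : ℝ) ^ n := fun n => one_le_pow₀ hN1
  refine ⟨fun y => (F y).toReal, ?_, ?_, ?_, ?_, f2, ?_, ?_⟩
  · intro v; exact ENNReal.toReal_nonneg
  · intro u v h
    show (F u).toReal = (F v).toReal
    rw [s2 u v h]
  · intro v hv
    refine le_trans (le_of_eq ?_) (hQ v)
    rw [o1 v hv]
    unfold opA
    have : Fintype (G.neighborSet v) := (hG.fin v).fintype
    rw [tsum_fintype, ENNReal.toReal_sum (s := Finset.univ)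
      (f := fun b : G.neighborSet v => F b) (fun x _ => (s5 x).ne)]
    rw [finsum_mem_eq_finite_toFinset_sum _ (hG.fin v)]
    rw [← Finset.sum_coe_sort]
    refine (Fintype.sum_equiv (Equiv.subtypeEquivRight (fun x => by simp)) _ _ ?_)
    intro x
    rfl
  · intro u v hu huv
    show (F v).toReal ≤ (N : ℝ) ^ 16 * (cls G C u).ncard * (F u).toReal
    have h1 := o2 u hu u (mem_cls_self u) v huv
    have h2 := ENNReal.toReal_mono
      (ENNReal.mul_ne_top (ENNReal.natCast_ne_top _) (hQt u).ne) h1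
    rw [ENNReal.toReal_mul, ENNReal.toReal_natCast] at h2
    have h3 := hQ u
    have h4 : (1 : ℝ) ≤ (F u).toReal := (hone _).trans (f2 u hu)
    rw [max_eq_left h4] at h3
    calc (F v).toReal ≤ (cls G C u).ncard * (opQ G C F u).toReal := h2
      _ ≤ (cls G C u).ncard * ((N : ℝ) ^ 16 * (F u).toReal) :=
          mul_le_mul_of_nonneg_left h3 (Nat.cast_nonneg _)
      _ = _ := by ring
  · intro S hS v hv
    obtain ⟨n, hn, _⟩ := hrich S hS v hv
    exact (hone _).trans (hisl n v hn)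
  · intro u v p hp
    refine hVIT V G N bad C hG hC u v p ?_
    intro w hw
    have h1 := hp w hw
    have h2 : F w ≠ 0 := by
      intro h0
      simp only [h0, ENNReal.toReal_zero] at h1
      linarith
    rw [hF] at h2
    unfold fld at h2
    rw [Ne, ENNReal.tsum_eq_zero] at h2
    push Not at h2
    obtain ⟨n, hn⟩ := h2
    rw [Ne, ENNReal.tsum_eq_zero] at hn
    push Not at hn
    obtain ⟨⟨x, hx⟩, hxn⟩ := hn
    refine ⟨n, x, (hNt.sub n hx).1, ?_⟩
    rw [dc_comm]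
    exact s1 n x hx w hxn

end Pool.Agent.FPPHE
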