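import Pool.Agent.Work.MP_04d5a3_full.Interface
import Pool.Agent.Work.MP_04d5a3_full.Tool

/-! # Block FINAL: assembly -/

namespace Pool.Agent.FPPHE.FINAL_

open SimpleGraph MeasureTheory ProbabilityTheory
open scoped ENNReal

variable {V : Type} {G : SimpleGraph V} {C : Set V}

/-- components of `{1 ≤ U}` are finite, and `{U < 1}` is infinite and connected: geometric part -/
lemma blue_dies {N : ℕ} {bad C : Set V} {U : V → ℝ} (hU : Field G N bad C U)
    (hS : Sparse G bad Mst) (B : Set V) (hB : ∀ v ∈ B, 1 ≤ U v) : ¬ Survives G B := by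
  rintro ⟨W, hWB, hWinf, hWc⟩
  obtain ⟨w0, hw0⟩ := hWinf.nonempty
  refine hWinf (((hS w0).biUnion (fun S hS' => hS'.1.1)).subset ?_)
  intro w hw
  obtain ⟨p, _, hp⟩ := walk_in hWc hw0 hw
  obtain ⟨S, hSd, h0, h1⟩ := hU.f4 w0 w p (fun z hz => hB z (hWB (hp z hz)))
  rw [Set.mem_iUnion₂]
  exact ⟨S, ⟨hSd, h0⟩, h1⟩

/-- a walk ending in a set has a last part: the first entry into the set -/
lemma first_entry (P : Set V) {u v : V} (p : G.Walk u v) (hu : u ∉ P) (hv : v ∈ P) :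
    ∃ (y z : V) (q : G.Walk u y), G.Adj y z ∧ z ∈ P ∧ ∀ w ∈ q.support, w ∉ P := by
  induction p with
  | nil => exact absurd hv hu
  | @cons u w v h p ih =>
    by_cases hw : w ∈ P
    · exact ⟨u, w, Walk.nil, h, hw, by simpa using hu⟩
    · obtain ⟨y, z, q, h1, h2, h3⟩ := ih hw hv
      refine ⟨y, z, Walk.cons h q, h1, h2, fun x hx => ?_⟩
      rw [Walk.support_cons, List.mem_cons] at hx
      rcases hx with rfl | hx
      · exact hu
      · exact h3 x hx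

lemma good_infinite [Infinite V] {N : ℕ} {bad C : Set V} {U : V → ℝ} (hG : G.Connected)
    (hfin : ∀ v, (G.neighborSet v).Finite) (hU : Field G N bad C U)
    (hS : Sparse G bad Mst) (o : V) (ho : U o < 1) : {v | U v < 1}.Infinite := by
  intro hW
  set W := {v | U v < 1} with hWdef
  have hNf : (⋃ z ∈ W, G.neighborSet z).Finite := hW.biUnion (fun z _ => hfin z)
  have hall : (Set.univ : Set V) ⊆ W ∪ ⋃ y ∈ (⋃ z ∈ W, G.neighborSet z),
      ⋃ S ∈ {S : Set V | Dense G bad Mst S ∧ y ∈ S}, S := by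
    intro x _
    by_cases hx : x ∈ W
    · exact Or.inl hx
    · right
      obtain ⟨p⟩ := hG.preconnected x o
      obtain ⟨y, z, q, h1, h2, h3⟩ := first_entry W p hx ho
      obtain ⟨S, hSd, hxS, hyS⟩ := hU.f4 x y q (fun w hw => not_lt.mp (h3 w hw))
      rw [Set.mem_iUnion₂]
      refine ⟨y, Set.mem_iUnion₂.mpr ⟨z, h2, h1.symm⟩, Set.mem_iUnion₂.mpr ⟨S, ⟨hSd, hyS⟩, hxS⟩⟩
  refine Set.infinite_univ ((hW.union (hNf.biUnion fun y _ =>
    (hS y).biUnion (fun S hS' => hS'.1.1))).subset hall)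

end Pool.Agent.FPPHE.FINAL_

namespace Pool.Agent.FPPHE

open SimpleGraph MeasureTheory ProbabilityTheory
open scoped ENNReal

/-- the deterministic theorem on a product graph -/
theorem FINAL_det (hCORE : Stmt_CORE) (hFIELD : Stmt_FIELD) (hCOLDEF : Stmt_COLDEF)
    (hREACH : Stmt_REACH) (hCOLB : Stmt_COLB) (hRHO : Stmt_RHO) (hDATA : Stmt_DATA)
    (hDYN : Stmt_DYN) (hQC : Stmt_QC)
    {Λ : Type} (H : SimpleGraph Λ) (N : ℕ) [Infinite (Λ × Λ)] (hFac : Fac H N)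
    (hGr : Gr (H.boxProd H) N)
    (hreg : ∀ a, ((H.boxProd H).neighborSet a).ncard = 2 * N ^ 20) (o : Λ × Λ)
    (ω : Env (Λ × Λ)) (A : ℝ) (hA : 0 < A) (hp1 : ∀ e, 0 < ω.2.1 e) (hp2 : ∀ e, 0 < ω.2.2 e)
    (hSp : Sparse (H.boxProd H) (badSet (H.boxProd H) ω A (20 * Kon0 * A)) Mst)
    (ho : ∀ S, Dense (H.boxProd H) (badSet (H.boxProd H) ω A (20 * Kon0 * A)) Mst S → o ∉ S)
    (τ : Λ × Λ → ℝ≥0∞) (red : Λ × Λ → Prop) (hev : IsEvolution (H.boxProd H) o ω τ red) :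
    Survives (H.boxProd H) {v | τ v < ⊤ ∧ red v} ∧
      ¬ Survives (H.boxProd H) {v | τ v < ⊤ ∧ ¬ red v} := by
  set G := H.boxProd H with hGdef
  set bad := badSet G ω A (20 * Kon0 * A) with hbad
  obtain ⟨C, hC⟩ := hCORE _ G N bad hGr hSp
  obtain ⟨U, hU⟩ := hFIELD _ G N bad C hGr hC hSp
  obtain ⟨Col, hCol⟩ := hCOLDEF _ G N bad C hGr hC
  have hCo := hREACH _ G N bad C hGr hC Col hCol
  have hCo2 := hCOLB _ G N bad C hGr hC hSp Col hCo
  have hUo : U o < 1 := by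
    by_contra h
    obtain ⟨S, hS, h1, _⟩ := hU.f4 o o Walk.nil (fun w hw => by
      simp only [Walk.support_nil, List.mem_cons, List.not_mem_nil, or_false] at hw
      subst hw; exact not_lt.mp h)
    exact ho S hS h1
  have hred : ∀ v, U v < 1 → red v ∧ τ v < ⊤ := by
    intro v hv
    obtain ⟨ρ, hρ⟩ := hRHO Λ H N bad C U hFac hGr hC hU v hv
    have hd := hDATA _ G N bad C U Col ρ o v hGr hreg hC hSp hU hCo hCo2 hρ hUo hv
    refine hDYN _ G C Col (wt N) ρ o v Kon0 hd hGr.fin ω A (20 * Kon0 * A) hA le_rfl ?_ τ red hev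
    have hnb : ∀ y, y ∉ C → y ∉ bad := fun y hy hb => hy (hC.sub hb)
    refine ⟨hp1, hp2, ?_, ?_, ?_⟩
    · intro y hy
      by_contra h
      exact hnb y hy (Or.inl (by simpa using h))
    · intro y hy x hx
      by_contra h
      exact hnb y hy (Or.inr ⟨x, hx, Or.inl (not_le.mp h)⟩)
    · intro y hy x hx
      by_contra h
      exact hnb y hy (Or.inr ⟨x, hx, Or.inr (not_le.mp h)⟩)
  constructor
  · refine ⟨{v | U v < 1}, fun v hv => ⟨(hred v hv).2, (hred v hv).1⟩,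
      FINAL_.good_infinite hGr.conn hGr.fin hU hSp o hUo, ?_⟩
    refine conn_of_walks (u := o) hUo (fun v hv => ?_)
    obtain ⟨p, hp, _⟩ := hQC Λ H N C U hFac hU.nonneg hU.f1 (fun v hv => by
      refine le_trans ?_ (hU.f2 v hv)
      have hN : (1 : ℝ) ≤ N := by
        have : 1 ≤ N := le_trans (by norm_num [Nbig]) hGr.big
        exact_mod_cast this
      refine pow_le_pow_right₀ hN ?_
      have : Ca ≤ max Ca (2 * (cls G C v).ncard) := le_max_left _ _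
      have h2 : Ca = 100000 := by norm_num [Ca, lamI]
      omega) o v hUo hv
    exact ⟨p, hp⟩
  · refine FINAL_.blue_dies hU hSp _ ?_
    rintro v ⟨_, hv⟩
    by_contra h
    exact hv (hred v (not_le.mp h)).1

theorem final_of (hCORE : Stmt_CORE) (hFIELD : Stmt_FIELD) (hCOLDEF : Stmt_COLDEF)
    (hREACH : Stmt_REACH) (hCOLB : Stmt_COLB) (hRHO : Stmt_RHO) (hDATA : Stmt_DATA)
    (hDYN : Stmt_DYN) (hQC : Stmt_QC) (hTREE3 : Stmt_TREE3) (hPSP : Stmt_PSP)
    (hNOEX : Stmt_NOEX) (hCOIN : Stmt_COIN) (hEXI : Stmt_EXI) : FinalStatement := by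
  obtain ⟨k, N, hN, hk⟩ : ∃ k N : ℕ, Nbig ≤ N ∧ 2 * k = N ^ 20 :=
    ⟨5 * 10 ^ 199, 10 ^ 10, le_refl _, by norm_num⟩
  have hk1 : 1 ≤ k := by
    have h1 : 1 ≤ N := le_trans (by norm_num [Nbig]) hN
    have h2 : 1 ≤ N ^ 20 := Nat.one_le_pow _ _ h1
    omega
  obtain ⟨hGr, hFac, hreg, hVT, hExp, hpar⟩ := hTREE3 k N hN hk
  have : Nonempty (Fin k) := ⟨⟨0, by omega⟩⟩
  have hcount : Countable (FreeGroup (Fin k) × FreeGroup (Fin k)) := by
    have : Countable (FreeGroup (Fin k)) := by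
      unfold FreeGroup
      infer_instance
    infer_instance
  have hinf : Infinite (FreeGroup (Fin k) × FreeGroup (Fin k)) := by
    have : Infinite (FreeGroup (Fin k)) := inferInstance
    infer_instance
  have hdeg : ∀ v, (((treeG k).boxProd (treeG k)).neighborSet v).ncard ≤ 2 * N ^ 20 :=
    fun v => (hreg v).le
  have hKon : (0 : ℝ) < 20 * Kon0 := by unfold Kon0 C6; norm_num
  obtain ⟨μ, lam, A, hμ0, hμ1, hlam, hA, E, hE, hEpos, hEω⟩ :=
    hPSP _ hcount _ (2 * N ^ 20) hGr.fin hdeg hpar (1, 1) (20 * Kon0) hKon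
  refine ⟨_, hcount, (treeG k).boxProd (treeG k), (1, 1), μ, lam, hinf, hGr.conn, hGr.fin, hVT,
    hExp, hμ0, hμ1, hlam, ?_, E, hE, hEpos, ?_⟩
  · filter_upwards [hNOEX _ hcount _ (2 * N ^ 20) hGr.fin hdeg (1, 1) μ lam hμ0 hμ1 hlam,
      hCOIN _ hcount μ lam hμ0 hμ1 hlam] with ω h1 h2
    obtain ⟨⟨τ, red, hev⟩, huniq⟩ := hEXI _ _ (1, 1) ω hGr.conn hGr.fin h1.1 h1.2.1 h1.2.2
    exact ⟨τ, red, hev, fun τ' red' hev' => huniq h2 τ red τ' red' hev hev'⟩
  · intro ω hω τ red hev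
    obtain ⟨hp1, hp2, hSp, ho⟩ := hEω ω hω
    exact FINAL_det hCORE hFIELD hCOLDEF hREACH hCOLB hRHO hDATA hDYN hQC (treeG k) N hFac hGr
      hreg (1, 1) ω A hA hp1 hp2 hSp ho τ red hev

end Pool.Agent.FPPHE
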