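import Pool.Agent.Work.MP_04d5a3_full.NEU

/-!
# FPPHE (MP_04d5a3_pr), block OPQ: the operator `Q = Π A Π`
-/

namespace Pool.Agent.FPPHE

open scoped ENNReal

namespace OPQ_

variable {V : Type} {G : SimpleGraph V} {C : Set V}

/-! ### classes -/

theorem mem_cls_self (v : V) : v ∈ cls G C v := Or.inl rfl

theorem mem_cls_symm {u v : V} (h : u ∈ cls G C v) : v ∈ cls G C u := by
  rcases h with rfl | ⟨p, hp⟩
  · exact mem_cls_self _
  · exact Or.inr ⟨p.reverse, fun w hw => hp w (by simpa using hw)⟩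

theorem mem_cls_trans {u v w : V} (h : u ∈ cls G C v) (h' : v ∈ cls G C w) : u ∈ cls G C w := by
  rcases h with rfl | ⟨p, hp⟩
  · exact h'
  rcases h' with rfl | ⟨q, hq⟩
  · exact Or.inr ⟨p, hp⟩
  · refine Or.inr ⟨q.append p, fun x hx => ?_⟩
    rcases (SimpleGraph.Walk.mem_support_append_iff q p).1 hx with h | h
    · exact hq x h
    · exact hp x h

theorem cls_eq {u v : V} (h : u ∈ cls G C v) : cls G C u = cls G C v := by
  ext w
  exact ⟨fun hw => mem_cls_trans hw h, fun hw => mem_cls_trans hw (mem_cls_symm h)⟩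

theorem mem_C_of_mem_cls {u v : V} (hv : v ∈ C) (h : u ∈ cls G C v) : u ∈ C := by
  rcases h with rfl | ⟨p, hp⟩
  · exact hv
  · exact hp _ p.end_mem_support

theorem cls_of_not_mem {v : V} (hv : v ∉ C) : cls G C v = {v} := by
  ext u
  constructor
  · rintro (rfl | ⟨p, hp⟩)
    · rfl
    · exact absurd (hp _ p.start_mem_support) hv
  · rintro rfl
    exact mem_cls_self _

theorem ncard_pos (hfin : ∀ v, (cls G C v).Finite) (v : V) : 0 < (cls G C v).ncard :=
  (Set.ncard_pos (hfin v)).2 ⟨v, mem_cls_self v⟩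

/-! ### additivity -/

theorem opA_tsum {ι : Type} (h : ι → V → ℝ≥0∞) (v : V) :
    opA G (fun u => ∑' i, h i u) v = ∑' i, opA G (h i) v := by
  unfold opA
  exact ENNReal.tsum_comm

theorem opA_smul (a : ℝ≥0∞) (f : V → ℝ≥0∞) (v : V) :
    opA G (fun u => a * f u) v = a * opA G f v := by
  unfold opA
  exact ENNReal.tsum_mul_left

theorem opPi_tsum {ι : Type} (h : ι → V → ℝ≥0∞) (v : V) :
    opPi G C (fun u => ∑' i, h i u) v = ∑' i, opPi G C (h i) v := by
  unfold opPi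
  rw [ENNReal.tsum_comm]
  simp only [div_eq_mul_inv]
  exact ENNReal.tsum_mul_right.symm

theorem opPi_smul (a : ℝ≥0∞) (f : V → ℝ≥0∞) (v : V) :
    opPi G C (fun u => a * f u) v = a * opPi G C f v := by
  unfold opPi
  rw [ENNReal.tsum_mul_left, mul_div_assoc]

theorem opQ_tsum {ι : Type} (h : ι → V → ℝ≥0∞) (v : V) :
    opQ G C (fun u => ∑' i, h i u) v = ∑' i, opQ G C (h i) v := by
  unfold opQ
  have e1 : opPi G C (fun u => ∑' i, h i u) = fun u => ∑' i, opPi G C (h i) u :=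
    funext fun u => opPi_tsum h u
  have e2 : opA G (fun u => ∑' i, opPi G C (h i) u) = fun u => ∑' i, opA G (opPi G C (h i)) u :=
    funext fun u => opA_tsum _ u
  rw [e1, e2, opPi_tsum]

theorem opQ_smul (a : ℝ≥0∞) (f : V → ℝ≥0∞) (v : V) :
    opQ G C (fun u => a * f u) v = a * opQ G C f v := by
  unfold opQ
  have e1 : opPi G C (fun u => a * f u) = fun u => a * opPi G C f u :=
    funext fun u => opPi_smul a f u
  have e2 : opA G (fun u => a * opPi G C f u) = fun u => a * opA G (opPi G C f) u :=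
    funext fun u => opA_smul _ _ u
  rw [e1, e2, opPi_smul]

theorem mulM_matQ (f : V → ℝ≥0∞) : mulM (matQ G C) f = opQ G C f := by
  classical
  funext v
  have e : f = fun x => ∑' u, f u * (if x = u then 1 else 0) := by
    funext x
    rw [tsum_eq_single x]
    · simp
    · intro u hu
      rw [if_neg (Ne.symm hu), mul_zero]
  have h1 : opQ G C f v = ∑' u, f u * opQ G C (fun x => if x = u then 1 else 0) v := by
    conv_lhs => rw [e]
    rw [opQ_tsum]
    exact tsum_congr fun u => opQ_smul _ _ _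
  rw [h1]
  unfold mulM matQ
  refine tsum_congr fun u => ?_
  rw [mul_comm]

/-! ### monotonicity, constancy -/

theorem opPi_const {u v : V} (f : V → ℝ≥0∞) (h : u ∈ cls G C v) :
    opPi G C f u = opPi G C f v := by
  unfold opPi
  rw [cls_eq h]

theorem opPi_of_const (hfin : ∀ v, (cls G C v).Finite) (f : V → ℝ≥0∞)
    (hf : ∀ u v, u ∈ cls G C v → f u = f v) (v : V) : opPi G C f v = f v := by
  unfold opPi
  have h1 : ∀ u : cls G C v, f u = f v := fun u => hf u v u.2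
  have h2 : ∑' u : cls G C v, f u = ((cls G C v).ncard : ℝ≥0∞) * f v := by
    rw [tsum_congr h1]
    have := (hfin v).to_subtype
    have := Fintype.ofFinite (cls G C v)
    rw [tsum_fintype, Finset.sum_const, nsmul_eq_mul, Finset.card_univ, ← Nat.card_eq_fintype_card]
    rfl
  have h3 : ((cls G C v).ncard : ℝ≥0∞) ≠ 0 := by
    have := ncard_pos hfin v
    exact_mod_cast this.ne'
  rw [h2, mul_comm, ENNReal.mul_div_cancel_right h3 (ENNReal.natCast_ne_top _)]

theorem opPi_of_not_mem (f : V → ℝ≥0∞) {v : V} (hv : v ∉ C) : opPi G C f v = f v := by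
  unfold opPi
  rw [cls_of_not_mem hv, Set.ncard_singleton, tsum_singleton v f]
  simp

theorem N2_opPi_le (hfin : ∀ v, (cls G C v).Finite) (f : V → ℝ≥0∞) :
    N2 (opPi G C f) ≤ N2 f := by
  classical
  have h1 : ∀ v, opPi G C f v ^ 2 ≤
      (∑' u, if u ∈ cls G C v then f u ^ 2 else 0) / ((cls G C v).ncard : ℝ≥0∞) := by
    intro v
    have h3 : ((cls G C v).ncard : ℝ≥0∞) ≠ 0 := by
      have := ncard_pos hfin v
      exact_mod_cast this.ne'
    have h4 : ((cls G C v).ncard : ℝ≥0∞) ≠ ⊤ := ENNReal.natCast_ne_top _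
    have hc := NEU_.cs (fun _ : cls G C v => (1 : ℝ≥0∞)) (fun u : cls G C v => f u)
    have h5 : ∑' _ : cls G C v, (1 : ℝ≥0∞) ^ 2 = ((cls G C v).ncard : ℝ≥0∞) := by
      have := (hfin v).to_subtype
      have := Fintype.ofFinite (cls G C v)
      rw [tsum_fintype, Finset.sum_const, nsmul_eq_mul, Finset.card_univ,
        ← Nat.card_eq_fintype_card, one_pow, mul_one]
      rfl
    have h6 : ∑' u : cls G C v, f u ^ 2 = ∑' u, if u ∈ cls G C v then f u ^ 2 else 0 := by
      rw [tsum_subtype (cls G C v) (fun u => f u ^ 2)]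
      rfl
    simp only [one_mul] at hc
    rw [h5, h6] at hc
    unfold opPi
    rw [div_eq_mul_inv, div_eq_mul_inv, mul_pow]
    calc (∑' u : cls G C v, f u) ^ 2 * (((cls G C v).ncard : ℝ≥0∞)⁻¹) ^ 2
        ≤ (((cls G C v).ncard : ℝ≥0∞) * ∑' u, if u ∈ cls G C v then f u ^ 2 else 0) *
          (((cls G C v).ncard : ℝ≥0∞)⁻¹) ^ 2 := by gcongr
      _ = (((cls G C v).ncard : ℝ≥0∞) * ((cls G C v).ncard : ℝ≥0∞)⁻¹) *
          ((∑' u, if u ∈ cls G C v then f u ^ 2 else 0) * ((cls G C v).ncard : ℝ≥0∞)⁻¹) := by ring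
      _ = _ := by rw [ENNReal.mul_inv_cancel h3 h4, one_mul]
  unfold N2
  refine (ENNReal.tsum_le_tsum h1).trans ?_
  have h2 : ∀ v, (∑' u, if u ∈ cls G C v then f u ^ 2 else 0) / ((cls G C v).ncard : ℝ≥0∞) =
      ∑' u, if v ∈ cls G C u then f u ^ 2 * ((cls G C u).ncard : ℝ≥0∞)⁻¹ else 0 := by
    intro v
    rw [div_eq_mul_inv, ← ENNReal.tsum_mul_right]
    refine tsum_congr fun u => ?_
    by_cases h : u ∈ cls G C v
    · rw [if_pos h, if_pos (mem_cls_symm h), cls_eq h]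
    · rw [if_neg h, if_neg (fun h' => h (mem_cls_symm h')), zero_mul]
  rw [tsum_congr h2, ENNReal.tsum_comm]
  refine ENNReal.tsum_le_tsum fun u => ?_
  have h3 : ((cls G C u).ncard : ℝ≥0∞) ≠ 0 := by
    have := ncard_pos hfin u
    exact_mod_cast this.ne'
  have h4 : ((cls G C u).ncard : ℝ≥0∞) ≠ ⊤ := ENNReal.natCast_ne_top _
  have h5 : (∑' v, if v ∈ cls G C u then f u ^ 2 * ((cls G C u).ncard : ℝ≥0∞)⁻¹ else 0) =
      ((cls G C u).ncard : ℝ≥0∞) * (f u ^ 2 * ((cls G C u).ncard : ℝ≥0∞)⁻¹) := by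
    have e : ∑' _ : cls G C u, (f u ^ 2 * ((cls G C u).ncard : ℝ≥0∞)⁻¹) =
        ∑' v, if v ∈ cls G C u then f u ^ 2 * ((cls G C u).ncard : ℝ≥0∞)⁻¹ else 0 := by
      rw [tsum_subtype (cls G C u) (fun _ => f u ^ 2 * ((cls G C u).ncard : ℝ≥0∞)⁻¹)]
      rfl
    rw [← e]
    have := (hfin u).to_subtype
    have := Fintype.ofFinite (cls G C u)
    rw [tsum_fintype, Finset.sum_const, nsmul_eq_mul, Finset.card_univ,
      ← Nat.card_eq_fintype_card]
    rfl
  rw [h5, mul_comm (f u ^ 2), ← mul_assoc, ENNReal.mul_inv_cancel h3 h4, one_mul]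

theorem N2_opQ_le {N : ℕ} (hG : Gr G N) (hfin : ∀ v, (cls G C v).Finite) (f : V → ℝ≥0∞) :
    N2 (opQ G C f) ≤ 16 * (N : ℝ≥0∞) ^ 20 * N2 f := by
  unfold opQ
  calc N2 (opPi G C (opA G (opPi G C f))) ≤ N2 (opA G (opPi G C f)) := N2_opPi_le hfin _
    _ ≤ 16 * (N : ℝ≥0∞) ^ 20 * N2 (opPi G C f) := hG.l2 _
    _ ≤ 16 * (N : ℝ≥0∞) ^ 20 * N2 f := by
      gcongr
      exact N2_opPi_le hfin f

end OPQ_

open OPQ_ in
theorem stmt_OPQ : Stmt_OPQ := by
  intro V G N bad C hG hC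
  have hfin := hC.fin
  refine ⟨mulM_matQ, N2_opQ_le hG hfin, fun f u v h => opPi_const _ h, fun f hf => ?_⟩
  have e : opPi G C f = f := funext fun v => opPi_of_const hfin f hf v
  refine ⟨fun v hv => ?_, fun v hv u hu x hx => ?_⟩
  · unfold opQ
    rw [e]
    exact opPi_of_not_mem _ hv
  · unfold opQ
    rw [e]
    have h3 : ((cls G C v).ncard : ℝ≥0∞) ≠ 0 := by
      have := ncard_pos hfin v
      exact_mod_cast this.ne'
    have h4 : ((cls G C v).ncard : ℝ≥0∞) ≠ ⊤ := ENNReal.natCast_ne_top _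
    have h5 : f x ≤ opA G f u := by
      unfold opA
      exact ENNReal.le_tsum (f := fun y : G.neighborSet u => f y) ⟨x, hx⟩
    have h6 : opA G f u ≤ ∑' y : cls G C v, opA G f y :=
      ENNReal.le_tsum (f := fun y : cls G C v => opA G f y) ⟨u, hu⟩
    unfold opPi
    rw [ENNReal.mul_div_cancel h3 h4]
    exact h5.trans h6

end Pool.Agent.FPPHE
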