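import Pool.Agent.Work.MP_04d5a3_full.ISLA
import Pool.Agent.Work.MP_04d5a3_full.OPQ

/-!
# Block FLD: the field (S1)-(S4)
-/

set_option autoImplicit false

namespace Pool.Agent.FPPHE

open scoped ENNReal
open T34

namespace FLD_

variable {V : Type} {G : SimpleGraph V} {C : Set V} {N : ℕ} {bad : Set V}

/-! ### sizes -/

theorem ll_le (K : Set V) : ll N K ≤ 1 + K.ncard := by
  unfold ll
  apply Nat.add_le_add_left
  rcases Nat.lt_or_ge 1 (N ^ 20) with h | h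
  · exact Nat.clog_le_of_le_pow (Nat.lt_pow_self h).le
  · rw [Nat.clog_of_left_le_one h]
    exact Nat.zero_le _

theorem size_le {n k : ℕ} (h : Ca * k < al (n + 1)) : 2 * k ≤ al n := by
  rw [al_succ] at h
  unfold Ca lamI at h
  omega

theorem mem_coresOf {u v : V} (p : G.Walk u v) {K : Set V} :
    K ∈ coresOf G C p ↔ ∃ w ∈ p.support, w ∈ C ∧ K = cls G C w := by
  classical
  unfold coresOf
  simp only [Finset.mem_image, Finset.mem_filter, List.mem_toFinset]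
  constructor
  · rintro ⟨w, ⟨h1, h2⟩, rfl⟩
    exact ⟨w, h1, h2, rfl⟩
  · rintro ⟨w, h1, h2, rfl⟩
    exact ⟨w, ⟨h1, h2⟩, rfl⟩

/-- balls are finite -/
theorem ball_fin (hBALL : Stmt_BALL) (hISLA : Stmt_ISLA) (hGr : Gr G N) (hC : CoreSys G N bad C)
    (hSp : Sparse G bad Mst) (y : V) (r : ℕ) : {u | dc G C y u ≤ r}.Finite := by
  obtain ⟨h1, _, h3, _⟩ := hISLA V G N bad C hGr hC hSp
  obtain ⟨B, hB⟩ := (h1 y).bddAbove
  set n := max B (2 * r) with hn
  have hnot : ∀ m, n < m → ¬ nearI G C m (al m / 2) y := by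
    rintro m hm ⟨x, hx, hyx⟩
    have := hB (show m ∈ {n | nearI G C n (Rn n + 1) y} from
      ⟨x, hx, hyx.trans (by unfold Rn; omega)⟩)
    have h4 := le_max_left B (2 * r)
    omega
  have hr : 2 * r ≤ al (n + 1) := by
    have h5 := lt_al (n + 1)
    have h4 := le_max_right B (2 * r)
    omega
  refine (hBALL V G N bad C hGr hC y r (1 + al (n + 1)) ?_).1
  intro K hK hKu
  have h6 := h3 y n r hnot hr K hK hKu
  have h7 := ll_le (N := N) K
  unfold Ca lamI at h6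
  omega

/-! ### (S1) -/

variable (hKER : Stmt_KER) (hGr : Gr G N) (hC : CoreSys G N bad C)

include hGr in
theorem one_lt_N : 1 < N := by
  have := hGr.big
  unfold Nbig at this
  omega

include hGr in
theorem N_ne_zero : (N : ℝ≥0∞) ≠ 0 := by
  have := one_lt_N hGr
  exact Nat.cast_ne_zero.2 (by omega)

include hGr in
theorem one_le_N : (1 : ℝ≥0∞) ≤ (N : ℝ≥0∞) := by
  have := one_lt_N hGr
  exact_mod_cast this.le

include hKER hGr hC in
theorem gker_lt_top (x y : V) : gker G N C x y < ⊤ := by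
  obtain ⟨_, _, _, h4, _⟩ := hKER V G N bad C hGr hC x
  by_contra h
  rw [not_lt, top_le_iff] at h
  have h5 := h4 y
  rw [h] at h5
  have h6 : (N : ℝ≥0∞) ^ (10 * dc G C x y) ≠ 0 := pow_ne_zero _ (N_ne_zero hGr)
  rw [ENNReal.top_pow (by norm_num), ENNReal.top_mul h6, top_le_iff] at h5
  exact absurd h5 (ENNReal.mul_ne_top (by norm_num) (ENNReal.natCast_ne_top _))

theorem Tk_le (n : ℕ) (x y : V) :
    Tk G N C n x y ≤ (N : ℝ≥0∞) ^ (2000 * al n) * gker G N C x y := by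
  unfold Tk
  split_ifs
  · exact le_rfl
  · exact zero_le

include hKER hGr hC in
theorem Tk_lt_top (n : ℕ) (x y : V) : Tk G N C n x y < ⊤ :=
  (Tk_le n x y).trans_lt (ENNReal.mul_lt_top
    (ENNReal.pow_lt_top (ENNReal.natCast_lt_top N)) (gker_lt_top hKER hGr hC x y))

theorem Tk_cond {n : ℕ} {x y : V} (h : Tk G N C n x y ≠ 0) :
    (2 : ℝ≥0∞)⁻¹ ^ n ≤ (N : ℝ≥0∞) ^ (2000 * al n) * gker G N C x y ∧
      Tk G N C n x y = (N : ℝ≥0∞) ^ (2000 * al n) * gker G N C x y := by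
  unfold Tk at h ⊢
  split_ifs at h ⊢ with h1
  · exact ⟨h1, rfl⟩
  · exact absurd rfl h

include hKER hGr hC in
theorem S1 {n : ℕ} {x : V} (hx : Ca * (cls G C x).ncard < al (n + 1)) {y : V}
    (h : Tk G N C n x y ≠ 0) : dc G C x y ≤ Rn n := by
  obtain ⟨_, _, _, h4, _⟩ := hKER V G N bad C hGr hC x
  obtain ⟨hc, _⟩ := Tk_cond h
  have h1 : (1 : ℝ≥0∞) ≤ 2 ^ n * ((N : ℝ≥0∞) ^ (2000 * al n) * gker G N C x y) := by
    calc (1 : ℝ≥0∞) = 2 ^ n * (2 : ℝ≥0∞)⁻¹ ^ n := by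
          rw [← mul_pow, ENNReal.mul_inv_cancel (by norm_num) (by norm_num), one_pow]
      _ ≤ _ := mul_le_mul_right hc _
  have h2 : (1 : ℝ≥0∞) ≤ 4 ^ n * (N : ℝ≥0∞) ^ (4000 * al n) * gker G N C x y ^ 2 := by
    calc (1 : ℝ≥0∞) = 1 ^ 2 := (one_pow 2).symm
      _ ≤ (2 ^ n * ((N : ℝ≥0∞) ^ (2000 * al n) * gker G N C x y)) ^ 2 :=
          pow_le_pow_left' h1 2
      _ = 4 ^ n * (N : ℝ≥0∞) ^ (4000 * al n) * gker G N C x y ^ 2 := by
          rw [mul_pow, mul_pow, ← pow_mul, ← pow_mul, mul_comm n 2, pow_mul 2 2 n]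
          norm_num
          rw [show 2000 * al n * 2 = 4000 * al n by ring]
          ring
  have h3 : (N : ℝ≥0∞) ^ (10 * dc G C x y) ≤
      4 ^ n * (N : ℝ≥0∞) ^ (4000 * al n) * (4 * (cls G C x).ncard) := by
    calc (N : ℝ≥0∞) ^ (10 * dc G C x y) = 1 * (N : ℝ≥0∞) ^ (10 * dc G C x y) := (one_mul _).symm
      _ ≤ 4 ^ n * (N : ℝ≥0∞) ^ (4000 * al n) * gker G N C x y ^ 2 *
            (N : ℝ≥0∞) ^ (10 * dc G C x y) := mul_le_mul_left h2 _
      _ = 4 ^ n * (N : ℝ≥0∞) ^ (4000 * al n) * (gker G N C x y ^ 2 *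
            (N : ℝ≥0∞) ^ (10 * dc G C x y)) := by ring
      _ ≤ _ := mul_le_mul_right (h4 y) _
  have h5 : N ^ (10 * dc G C x y) ≤ 4 ^ n * N ^ (4000 * al n) * (4 * (cls G C x).ncard) := by
    exact_mod_cast h3
  have h6 := size_le hx
  have h7 : 4 ^ n * (4 * (cls G C x).ncard) ≤ N ^ (3 * al n) := by
    have h8 : (cls G C x).ncard ≤ 2 ^ al n := by
      have := al_lt_two_pow n
      omega
    have h9 := lt_al n
    calc 4 ^ n * (4 * (cls G C x).ncard) ≤ 4 ^ n * (4 * 2 ^ al n) := by gcongr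
      _ = 2 ^ (2 * n + 2 + al n) := by
          rw [pow_add, pow_add, pow_mul]
          norm_num
          ring
      _ ≤ 2 ^ (3 * al n) := Nat.pow_le_pow_right (by norm_num) (by omega)
      _ ≤ N ^ (3 * al n) := Nat.pow_le_pow_left (by have := one_lt_N hGr; omega) _
  have h10 : N ^ (10 * dc G C x y) ≤ N ^ (4003 * al n) := by
    calc N ^ (10 * dc G C x y) ≤ 4 ^ n * N ^ (4000 * al n) * (4 * (cls G C x).ncard) := h5
      _ = N ^ (4000 * al n) * (4 ^ n * (4 * (cls G C x).ncard)) := by ring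
      _ ≤ N ^ (4000 * al n) * N ^ (3 * al n) := Nat.mul_le_mul_left _ h7
      _ = N ^ (4003 * al n) := by rw [← pow_add]; congr 1; ring
  have h11 := (Nat.pow_le_pow_iff_right (one_lt_N hGr)).1 h10
  unfold Rn
  omega

/-! ### (S2) -/

include hKER hGr hC in
theorem S2 (hSUM : Stmt_SUM) (hISLA : Stmt_ISLA) (hISLB : Stmt_ISLB) (hSp : Sparse G bad Mst)
    {Nt : ℕ → Set V} (hNt : IsNet G C Nt) {y : V} {m : ℕ} (hm : nearI G C m (al m / 2) y)
    (hmax : ∀ m', m < m' → ¬ nearI G C m' (al m' / 2) y) :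
    (N : ℝ≥0∞) ^ (1760 * al m) ≤ fld G N C Nt y := by
  obtain ⟨_, hB⟩ := hISLB V G N bad C hGr hC
  obtain ⟨x, hx, hxy⟩ := (hB Nt hNt y m hmax).1 hm
  obtain ⟨p, hp⟩ := exists_cost (C := C) hGr.conn x y
  obtain ⟨_, _, h3, _⟩ := hISLA V G N bad C hGr hC hSp
  have hal := al_pos m
  have hM : ∀ K ∈ coresOf G C p, ll N K ≤ al m := by
    intro K hK
    obtain ⟨w, hw, hwC, rfl⟩ := (mem_coresOf p).1 hK
    have h4 := h3 y m (11 * al m) hmax (by rw [al_succ]; unfold lamI; omega) (cls G C w)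
      ⟨w, hwC, rfl⟩ ⟨w, self_mem_cls w, by
        rw [dc_comm hGr.conn]
        have := dc_mem_right (C := C) p hw
        omega⟩
    have h5 := size_le h4
    have h6 := ll_le (N := N) (cls G C w)
    omega
  have hS := hSUM V G N bad C hGr.conn hC x y p (al m) hM
  have hS' : ∑ K ∈ coresOf G C p, ll N K ≤ 2 * al m := by
    have h5 : D0 * ∑ K ∈ coresOf G C p, ll N K ≤ D0 * (2 * al m) := by
      refine hS.trans ?_
      unfold D0
      omega
    exact Nat.le_of_mul_le_mul_left h5 (by unfold D0; norm_num)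
  obtain ⟨_, _, _, _, h5⟩ := hKER V G N bad C hGr hC x
  have h6 := h5 y p
  have h7 : (1 : ℝ≥0∞) ≤ gker G N C x y * (N : ℝ≥0∞) ^ (216 * al m) := by
    refine h6.trans ?_
    rw [mul_assoc, ← pow_add]
    exact mul_le_mul_right (pow_le_pow_right₀ (one_le_N hGr) (by omega)) _
  have h8 : (N : ℝ≥0∞) ^ (1760 * al m) ≤ (N : ℝ≥0∞) ^ (2000 * al m) * gker G N C x y := by
    calc (N : ℝ≥0∞) ^ (1760 * al m) = (N : ℝ≥0∞) ^ (1760 * al m) * 1 := (mul_one _).symm
      _ ≤ (N : ℝ≥0∞) ^ (1760 * al m) * (gker G N C x y * (N : ℝ≥0∞) ^ (216 * al m)) :=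
          mul_le_mul_right h7 _
      _ = (N : ℝ≥0∞) ^ (1976 * al m) * gker G N C x y := by
          rw [mul_comm (gker G N C x y), ← mul_assoc, ← pow_add]
          congr 2
          ring
      _ ≤ (N : ℝ≥0∞) ^ (2000 * al m) * gker G N C x y :=
          mul_le_mul_left (pow_le_pow_right₀ (one_le_N hGr) (by omega)) _
  have h9 : (2 : ℝ≥0∞)⁻¹ ^ m ≤ (N : ℝ≥0∞) ^ (2000 * al m) * gker G N C x y := by
    calc (2 : ℝ≥0∞)⁻¹ ^ m ≤ 1 := pow_le_one' (by norm_num) m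
      _ ≤ (N : ℝ≥0∞) ^ (1760 * al m) := one_le_pow₀ (one_le_N hGr)
      _ ≤ _ := h8
  have h10 : Tk G N C m x y = (N : ℝ≥0∞) ^ (2000 * al m) * gker G N C x y := by
    unfold Tk
    rw [if_pos h9]
  calc (N : ℝ≥0∞) ^ (1760 * al m) ≤ Tk G N C m x y := h10 ▸ h8
    _ ≤ ∑' z : Nt m, Tk G N C m z y := ENNReal.le_tsum (f := fun z : Nt m => Tk G N C m z y) ⟨x, hx⟩
    _ ≤ fld G N C Nt y := ENNReal.le_tsum (f := fun n => ∑' z : Nt n, Tk G N C n z y) m

/-! ### (S3) -/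

theorem opPi_mono {f g : V → ℝ≥0∞} (h : ∀ v, f v ≤ g v) (v : V) : opPi G C f v ≤ opPi G C g v := by
  unfold opPi
  exact ENNReal.div_le_div_right (ENNReal.tsum_le_tsum fun u : cls G C v => h u) _

theorem opA_mono {f g : V → ℝ≥0∞} (h : ∀ v, f v ≤ g v) (v : V) : opA G f v ≤ opA G g v := by
  unfold opA
  exact ENNReal.tsum_le_tsum fun u : G.neighborSet v => h u

theorem opQ_mono {f g : V → ℝ≥0∞} (h : ∀ v, f v ≤ g v) (v : V) : opQ G C f v ≤ opQ G C g v :=
  opPi_mono (opA_mono (opPi_mono h)) v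

theorem opPi_ne_zero (hG : G.Connected) {f : V → ℝ≥0∞} {x : V} {R : ℕ}
    (h : ∀ z, f z ≠ 0 → dc G C x z ≤ R) {v : V} (hv : opPi G C f v ≠ 0) : dc G C x v ≤ R := by
  by_contra hlt
  apply hv
  unfold opPi
  have : ∀ u : cls G C v, f u = 0 := by
    intro u
    by_contra hu
    have h1 := h u hu
    rw [dc_cls_right hG u.2] at h1
    exact hlt h1
  rw [ENNReal.tsum_eq_zero.2 this, ENNReal.zero_div]

theorem opQ_ne_zero (hG : G.Connected) {f : V → ℝ≥0∞} {x : V} {R : ℕ}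
    (h : ∀ z, f z ≠ 0 → dc G C x z ≤ R) {v : V} (hv : opQ G C f v ≠ 0) :
    dc G C x v ≤ R + 1 := by
  refine opPi_ne_zero hG (f := opA G (opPi G C f)) ?_ hv
  intro z hz
  by_contra hlt
  apply hz
  unfold opA
  rw [ENNReal.tsum_eq_zero]
  intro w
  by_contra hw
  have h1 := opPi_ne_zero hG h hw
  have h2 := dc_triangle (C := C) hG x w z
  have h3 : dc G C w z ≤ 1 := dc_adj (SimpleGraph.Adj.symm w.2)
  omega

include hKER hGr hC in
theorem term {n : ℕ} {x : V} (hx : Ca * (cls G C x).ncard < al (n + 1)) (y : V) :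
    opQ G C (Tk G N C n x) y ≤ kap3 N * Tk G N C n x y +
      kap3 N * ((2 : ℝ≥0∞)⁻¹ ^ n *
        (open Classical in if dc G C y x ≤ Rn n + 1 then 1 else 0)) := by
  classical
  obtain ⟨_, h2, _, _, _⟩ := hKER V G N bad C hGr hC x
  have h3 : opQ G C (Tk G N C n x) y ≤
      kap3 N * ((N : ℝ≥0∞) ^ (2000 * al n) * gker G N C x y) := by
    calc opQ G C (Tk G N C n x) y ≤
        opQ G C (fun z => (N : ℝ≥0∞) ^ (2000 * al n) * gker G N C x z) y :=
          opQ_mono (Tk_le n x) y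
      _ = (N : ℝ≥0∞) ^ (2000 * al n) * opQ G C (gker G N C x) y := OPQ_.opQ_smul _ _ _
      _ ≤ (N : ℝ≥0∞) ^ (2000 * al n) * (kap3 N * gker G N C x y) := mul_le_mul_right (h2 y) _
      _ = _ := by ring
  by_cases hT : Tk G N C n x y = 0
  · by_cases hz : opQ G C (Tk G N C n x) y = 0
    · rw [hz]
      exact zero_le
    · have h4 : dc G C x y ≤ Rn n + 1 :=
        opQ_ne_zero hGr.conn (fun z hz => S1 hKER hGr hC hx hz) hz
      rw [dc_comm hGr.conn] at h4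
      rw [if_pos h4, mul_one]
      refine (h3.trans (mul_le_mul_right ?_ _)).trans le_add_self
      by_contra hlt
      rw [not_le] at hlt
      have h5 : Tk G N C n x y = (N : ℝ≥0∞) ^ (2000 * al n) * gker G N C x y := by
        unfold Tk
        rw [if_pos hlt.le]
      rw [hT] at h5
      rw [← h5] at hlt
      exact not_lt_bot hlt
  · obtain ⟨_, h5⟩ := Tk_cond hT
    rw [← h5] at h3
    exact h3.trans le_self_add

/-- counting by finite subsets -/
theorem tsum_ind_le {s : Set V} (P : V → Prop) [DecidablePred P] {k : ℝ≥0∞}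
    (h : ∀ Y : Finset V, (∀ x ∈ Y, x ∈ s ∧ P x) → (Y.card : ℝ≥0∞) ≤ k) :
    ∑' x : s, (if P x then (1 : ℝ≥0∞) else 0) ≤ k := by
  classical
  rw [ENNReal.tsum_eq_iSup_sum]
  refine iSup_le fun t => ?_
  rw [Finset.sum_ite, Finset.sum_const_zero, add_zero, Finset.sum_const, nsmul_eq_mul, mul_one]
  have h1 := h ((t.filter fun x : s => P x).map (Function.Embedding.subtype _)) (by
    intro x hx
    rw [Finset.mem_map] at hx
    obtain ⟨z, hz, rfl⟩ := hx
    exact ⟨z.2, (Finset.mem_filter.1 hz).2⟩)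
  rw [Finset.card_map] at h1
  exact h1

theorem exists_max {y : V} (hfin : {n | nearI G C n (Rn n + 1) y}.Finite) {m : ℕ}
    (hm : nearI G C m (al m / 2) y) : ∃ k, m ≤ k ∧ nearI G C k (al k / 2) y ∧
      ∀ k', k < k' → ¬ nearI G C k' (al k' / 2) y := by
  classical
  have hfin' : {n | nearI G C n (al n / 2) y}.Finite := by
    refine hfin.subset ?_
    rintro n ⟨x, hx, h⟩
    exact ⟨x, hx, h.trans (by unfold Rn; omega)⟩
  obtain ⟨k, hk, hmax⟩ := hfin'.toFinset.exists_max_image id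
    ⟨m, hfin'.mem_toFinset.2 hm⟩
  refine ⟨k, hmax m (hfin'.mem_toFinset.2 hm), hfin'.mem_toFinset.1 hk, fun k' hk' h => ?_⟩
  have := hmax k' (hfin'.mem_toFinset.2 h)
  simp only [id] at this
  omega

include hKER hGr hC in
/-- the number of net points close to `y` -/
theorem cnt (hSUM : Stmt_SUM) (hBALL : Stmt_BALL) (hISLA : Stmt_ISLA) (hISLB : Stmt_ISLB)
    (hSp : Sparse G bad Mst) {Nt : ℕ → Set V} (hNt : IsNet G C Nt) (y : V) (n : ℕ) :
    ∑' x : Nt n, (open Classical in if dc G C y x ≤ Rn n + 1 then (1 : ℝ≥0∞) else 0) ≤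
      nb + fld G N C Nt y := by
  classical
  refine tsum_ind_le (fun x => dc G C y x ≤ Rn n + 1) ?_
  intro Y hY
  obtain ⟨h1, _, h3, _⟩ := hISLA V G N bad C hGr hC hSp
  by_cases hn : ∀ m, n < m → ¬ nearI G C m (al m / 2) y
  · obtain ⟨_, hB⟩ := hISLB V G N bad C hGr hC
    have h4 := (hB Nt hNt y n hn).2 Y fun x hx => ⟨(hY x hx).1, by
      rw [dc_comm hGr.conn]
      exact (hY x hx).2⟩
    refine le_trans ?_ (le_self_add (a := (nb : ℝ≥0∞)))
    exact_mod_cast h4.le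
  · push Not at hn
    obtain ⟨m, hm, hm'⟩ := hn
    obtain ⟨k, hk, hk1, hk2⟩ := exists_max (h1 y) hm'
    have h5 := S2 hKER hGr hC hSUM hISLA hISLB hSp hNt hk1 hk2
    have h6 : 50000 * al n ≤ al k := al_lt_step (lt_of_lt_of_le hm hk)
    have h7 := al_pos n
    have h8 := al_pos k
    have hr : 2 * (Rn n + 1) ≤ al k := by
      unfold Rn
      omega
    have hball := hBALL V G N bad C hGr hC y (Rn n + 1) (al k) (by
      intro K hK hKu
      have h9 := h3 y k (Rn n + 1) hk2 (hr.trans (al_mono (Nat.le_succ k))) K hK hKu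
      have h10 := size_le h9
      have h11 := ll_le (N := N) K
      omega)
    have h12 : Y.card ≤ N ^ (1760 * al k) := by
      calc Y.card = (Y : Set V).ncard := (Set.ncard_coe_finset Y).symm
        _ ≤ {u | dc G C y u ≤ Rn n + 1}.ncard :=
            Set.ncard_le_ncard (fun x hx => (hY x hx).2) hball.1
        _ ≤ (N ^ 20) ^ (2 * (Rn n + 1) + al k) := hball.2
        _ = N ^ (20 * (2 * (Rn n + 1) + al k)) := (pow_mul _ _ _).symm
        _ ≤ N ^ (1760 * al k) :=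
            Nat.pow_le_pow_right (by have := one_lt_N hGr; omega) (by omega)
    refine le_trans ?_ (le_add_self (b := (nb : ℝ≥0∞)))
    refine le_trans ?_ h5
    exact_mod_cast h12

theorem geom (a : ℝ≥0∞) : ∑' n : ℕ, (2 : ℝ≥0∞)⁻¹ ^ n * a = 2 * a := by
  rw [ENNReal.tsum_mul_right, ENNReal.tsum_geometric, ENNReal.one_sub_inv_two, inv_inv]

include hGr in
theorem final_num (F : ℝ≥0∞) :
    kap3 N * F + kap3 N * (2 * ((nb : ℝ≥0∞) + F)) ≤ (N : ℝ≥0∞) ^ 16 * max F 1 := by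
  have hN : (800012 : ℝ≥0∞) ≤ (N : ℝ≥0∞) := by
    have h := hGr.big
    unfold Nbig at h
    have h' : 800012 ≤ N := by omega
    exact_mod_cast h'
  have h1 : F ≤ max F 1 := le_max_left _ _
  have h2 : (nb : ℝ≥0∞) ≤ nb * max F 1 := le_mul_of_one_le_right' (le_max_right _ _)
  calc kap3 N * F + kap3 N * (2 * ((nb : ℝ≥0∞) + F)) ≤
      kap3 N * max F 1 + kap3 N * (2 * ((nb : ℝ≥0∞) * max F 1 + max F 1)) := by gcongr
    _ = (N : ℝ≥0∞) ^ 15 * (800012 * max F 1) := by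
        unfold kap3 nb lamI
        push_cast
        ring
    _ ≤ (N : ℝ≥0∞) ^ 15 * ((N : ℝ≥0∞) * max F 1) := by gcongr
    _ = (N : ℝ≥0∞) ^ 16 * max F 1 := by ring

include hKER hGr hC in
theorem S3 (hSUM : Stmt_SUM) (hBALL : Stmt_BALL) (hISLA : Stmt_ISLA) (hISLB : Stmt_ISLB)
    (hSp : Sparse G bad Mst) {Nt : ℕ → Set V} (hNt : IsNet G C Nt) (y : V) :
    opQ G C (fld G N C Nt) y ≤ (N : ℝ≥0∞) ^ 16 * max (fld G N C Nt y) 1 := by
  classical
  obtain ⟨_, _, _, h4⟩ := hISLA V G N bad C hGr hC hSp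
  have e1 : opQ G C (fld G N C Nt) y = ∑' n : ℕ, ∑' x : Nt n, opQ G C (Tk G N C n x) y := by
    have h1 : fld G N C Nt = fun z => ∑' n : ℕ, (fun z => ∑' x : Nt n, Tk G N C n x z) z := rfl
    rw [h1, OPQ_.opQ_tsum]
    refine tsum_congr fun n => ?_
    exact OPQ_.opQ_tsum (fun x : Nt n => Tk G N C n x) y
  have e2 : ∀ n, ∑' x : Nt n, opQ G C (Tk G N C n x) y ≤
      kap3 N * (∑' x : Nt n, Tk G N C n x y) +
        kap3 N * ((2 : ℝ≥0∞)⁻¹ ^ n * (nb + fld G N C Nt y)) := by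
    intro n
    calc ∑' x : Nt n, opQ G C (Tk G N C n x) y ≤
        ∑' x : Nt n, (kap3 N * Tk G N C n x y +
          kap3 N * ((2 : ℝ≥0∞)⁻¹ ^ n * (if dc G C y x ≤ Rn n + 1 then 1 else 0))) :=
          ENNReal.tsum_le_tsum fun x =>
            term hKER hGr hC (h4 n x (hNt.sub n x.2)) y
      _ = kap3 N * (∑' x : Nt n, Tk G N C n x y) + kap3 N * ((2 : ℝ≥0∞)⁻¹ ^ n *
            ∑' x : Nt n, (if dc G C y x ≤ Rn n + 1 then (1 : ℝ≥0∞) else 0)) := by
          rw [ENNReal.tsum_add, ENNReal.tsum_mul_left, ENNReal.tsum_mul_left,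
            ENNReal.tsum_mul_left]
      _ ≤ _ := by
          gcongr
          exact cnt hKER hGr hC hSUM hBALL hISLA hISLB hSp hNt y n
  calc opQ G C (fld G N C Nt) y = ∑' n : ℕ, ∑' x : Nt n, opQ G C (Tk G N C n x) y := e1
    _ ≤ ∑' n : ℕ, (kap3 N * (∑' x : Nt n, Tk G N C n x y) +
        kap3 N * ((2 : ℝ≥0∞)⁻¹ ^ n * (nb + fld G N C Nt y))) := ENNReal.tsum_le_tsum e2
    _ = kap3 N * fld G N C Nt y + kap3 N * (2 * (nb + fld G N C Nt y)) := by
        rw [ENNReal.tsum_add, ENNReal.tsum_mul_left, ENNReal.tsum_mul_left, geom]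
        rfl
    _ ≤ _ := final_num hGr _

include hKER hGr hC in
theorem S4 (hBALL : Stmt_BALL) (hISLA : Stmt_ISLA) (hSp : Sparse G bad Mst)
    {Nt : ℕ → Set V} (hNt : IsNet G C Nt) (y : V) : fld G N C Nt y < ⊤ := by
  classical
  obtain ⟨h1, _, _, h4⟩ := hISLA V G N bad C hGr hC hSp
  have hS1 : ∀ n, ∀ x : Nt n, Tk G N C n x y ≠ 0 → dc G C x y ≤ Rn n := fun n x hx =>
    S1 hKER hGr hC (h4 n x (hNt.sub n x.2)) hx
  have hz : ∀ n, n ∉ (h1 y).toFinset → ∑' x : Nt n, Tk G N C n x y = 0 := by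
    intro n hn
    rw [ENNReal.tsum_eq_zero]
    intro x
    by_contra hx
    apply hn
    rw [Set.Finite.mem_toFinset]
    refine ⟨x, (hNt.sub n x.2).1, ?_⟩
    rw [dc_comm hGr.conn]
    exact (hS1 n x hx).trans (Nat.le_succ _)
  unfold fld
  rw [tsum_eq_sum (s := (h1 y).toFinset) hz]
  rw [ENNReal.sum_lt_top]
  intro n _
  have hball := ball_fin hBALL hISLA hGr hC hSp y (Rn n)
  have hfin : {x : Nt n | dc G C y x ≤ Rn n}.Finite :=
    hball.preimage (f := fun x : Nt n => (x : V)) Subtype.coe_injective.injOn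
  have hz' : ∀ x : Nt n, x ∉ hfin.toFinset → Tk G N C n x y = 0 := by
    intro x hx
    by_contra h
    apply hx
    rw [Set.Finite.mem_toFinset]
    change dc G C y x ≤ Rn n
    rw [dc_comm hGr.conn]
    exact hS1 n x h
  rw [tsum_eq_sum (s := hfin.toFinset) hz', ENNReal.sum_lt_top]
  exact fun x _ => Tk_lt_top hKER hGr hC n x y

end FLD_

open FLD_

theorem stmt_FLD (hKER : Stmt_KER) (hSUM : Stmt_SUM) (hBALL : Stmt_BALL) (hISLA : Stmt_ISLA)
    (hISLB : Stmt_ISLB) : Stmt_FLD := by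
  intro V G N bad C hGr hC hSp Nt hNt
  obtain ⟨h1, _, _, h4⟩ := hISLA V G N bad C hGr hC hSp
  refine ⟨fun n x hx y hy => S1 hKER hGr hC (h4 n x (hNt.sub n hx)) hy, ?_, ?_,
    S3 hKER hGr hC hSUM hBALL hISLA hISLB hSp hNt, S4 hKER hGr hC hBALL hISLA hSp hNt⟩
  · intro u v huv
    unfold fld
    refine tsum_congr fun n => tsum_congr fun x => ?_
    have h5 : gker G N C x u = gker G N C x v :=
      (hKER V G N bad C hGr hC x).1 u v huv
    unfold Tk
    rw [h5]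
  · intro y n hn
    obtain ⟨k, hk, hk1, hk2⟩ := exists_max (h1 y) hn
    refine le_trans ?_ (S2 hKER hGr hC hSUM hISLA hISLB hSp hNt hk1 hk2)
    exact pow_le_pow_right₀ (one_le_N hGr) (Nat.mul_le_mul_left _ (al_mono hk))

end Pool.Agent.FPPHE
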