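import Pool.Agent.Work.MP_04d5a3_full.T34b

/-!
# Block ISLA: finiteness of the islands near a point, sizes of cores
-/

set_option autoImplicit false

namespace Pool.Agent.FPPHE

open scoped ENNReal
open T34

namespace ISLA_

variable {V : Type} {G : SimpleGraph V} {C : Set V}

/-- every point has islands within `R_n` for finitely many scales only (radius `R_n + 1`) -/
theorem nearR_finite (hCERT : Stmt_CERT) {N : ℕ} {bad : Set V} (hGr : Gr G N)
    (hC : CoreSys G N bad C) (hSp : Sparse G bad Mst) (y : V) :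
    {n | nearI G C n (Rn n + 1) y}.Finite := by
  classical
  have hG := hGr.conn
  have hF : {S : Set V | Dense G bad Mst S ∧ y ∈ S}.Finite := hSp y
  obtain ⟨B, hB⟩ : ∃ B : ℕ, ∀ S ∈ {S : Set V | Dense G bad Mst S ∧ y ∈ S},
      hh * (S ∩ C).ncard ≤ B := by
    obtain ⟨B, hB⟩ := (hF.image fun S => hh * (S ∩ C).ncard).bddAbove
    exact ⟨B, fun S hS => hB (Set.mem_image_of_mem _ hS)⟩
  refine (Set.finite_Iic B).subset ?_
  rintro n ⟨x, hx, hyx⟩
  obtain ⟨S, hSf, hSc, hSs, hxS, _, hS⟩ := hCERT V G N bad C hGr hC n x hx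
  obtain ⟨p, hp'⟩ := exists_cost (C := C) hG y x
  have hfin : (hull G C p).Finite := hull_finite hC.fin p
  have hSH : (S ∪ hull G C p).Finite := hSf.union hfin
  have hcon : (G.induce (S ∪ hull G C p)).Connected :=
    SimpleGraph.induce_union_connected hSc.preconnected (hull_conn p).preconnected
      ⟨x, hxS, mem_hull p p.end_mem_support⟩
  have h3 : ((S ∪ hull G C p) \ C).ncard ≤ (S \ C).ncard + (Rn n + 2) := by
    rw [Set.union_diff_distrib]
    refine (Set.ncard_union_le _ _).trans (Nat.add_le_add_left ?_ _)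
    exact (hull_outs p).trans (Nat.add_le_add_right (by rw [hp']; exact hyx) 1 : _ ≤ Rn n + 1 + 1)
  have h4 : (S ∩ C).ncard ≤ ((S ∪ hull G C p) ∩ C).ncard :=
    Set.ncard_le_ncard (Set.inter_subset_inter_left C Set.subset_union_left)
      (hSH.inter_of_left C)
  have h5 : hh * (S ∩ C).ncard ≤ hh * ((S ∪ hull G C p) ∩ C).ncard :=
    Nat.mul_le_mul_left _ h4
  have h6 := al_pos n
  have h7 : Rn n + 2 + al n ≤ hp * al n := by
    unfold Rn hp lamI
    omega
  have hd : Dense G bad Mst (S ∪ hull G C p) := by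
    refine dense_of hC hSH hcon (Sat.union hSs (hull_sat p)) ?_
    omega
  have h8 := hB _ ⟨hd, Or.inr (mem_hull p p.start_mem_support)⟩
  have h9 := lt_al n
  rw [Set.mem_Iic]
  omega

theorem rich_pos {S : Set V} (hS : Rich G C S) : 1 ≤ (S ∩ C).ncard := by
  obtain ⟨hf, hc, _, h⟩ := hS
  by_contra h0
  have h1 : (S ∩ C).ncard = 0 := by omega
  have h2 : (S \ C).ncard = 0 := by omega
  have h3 := ncard_split (C := C) hf
  rw [h1, h2, add_zero, Set.ncard_eq_zero hf] at h3
  obtain ⟨x, hx⟩ := hc.nonempty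
  have hx' : x ∈ (∅ : Set V) := h3 ▸ hx
  exact hx'

theorem rich_isl {S : Set V} (hS : Rich G C S) {y : V} (hy : y ∈ S) :
    ∃ n, y ∈ isl G C n ∧ Ca * (S ∩ C).ncard < al (n + 1) := by
  classical
  have hpos := rich_pos hS
  have hex : ∃ n, Ca * (S ∩ C).ncard < al (n + 1) := by
    refine ⟨Ca * (S ∩ C).ncard, ?_⟩
    have := lt_al (Ca * (S ∩ C).ncard + 1)
    omega
  set n := Nat.find hex with hn
  have h1 : Ca * (S ∩ C).ncard < al (n + 1) := Nat.find_spec hex
  have h2 : al n ≤ Ca * (S ∩ C).ncard := by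
    rcases Nat.eq_zero_or_pos n with h0 | h0
    · rw [h0]
      have : al 0 = Ca := by unfold al; simp
      rw [this]
      exact Nat.le_mul_of_pos_right _ hpos
    · have h3 := Nat.find_min hex (m := n - 1) (by omega)
      rw [not_lt, Nat.sub_add_cancel h0] at h3
      exact h3
  have h3 : ruleA G C n y := ⟨S, hS, h2, h1, y, hy, by rw [dc_self]; exact Nat.zero_le _⟩
  refine ⟨n, ?_, h1⟩
  rcases n with _ | n
  · exact h3
  · exact Or.inl h3

theorem core_rich {N : ℕ} {bad : Set V} (hC : CoreSys G N bad C) {v : V} (hv : v ∈ C) :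
    Rich G C (cls G C v) := by
  have h1 : cls G C v ∩ C = cls G C v :=
    Set.inter_eq_left.2 fun x hx => mem_of_cls hx hv
  have h2 : cls G C v \ C = ∅ := Set.diff_eq_empty.2 fun x hx => mem_of_cls hx hv
  refine ⟨hC.fin v, ?_, fun x hx y hy => cls_trans hy hx, ?_⟩
  · exact conn_of_walks (self_mem_cls v) fun x hx => cls_walk hx
  · rw [h2, Set.ncard_empty]
    exact Nat.zero_le _

theorem core_inter {v : V} (hv : v ∈ C) : cls G C v ∩ C = cls G C v :=
  Set.inter_eq_left.2 fun _ hx => mem_of_cls hx hv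

end ISLA_

open ISLA_

theorem stmt_ISLA (hCERT : Stmt_CERT) : Stmt_ISLA := by
  intro V G N bad C hGr hC hSp
  have hG := hGr.conn
  refine ⟨?_, fun S hS y hy => rich_isl hS hy, ?_, ?_⟩
  · exact nearR_finite hCERT hGr hC hSp
  · intro y n r hn hr K hK hKu
    obtain ⟨v, hv, rfl⟩ := hK
    obtain ⟨u, hu, hyu⟩ := hKu
    obtain ⟨m, hm, hm'⟩ := rich_isl (core_rich hC hv) hu
    rw [core_inter hv] at hm'
    rcases Nat.lt_or_ge n m with h | h
    · exfalso
      apply hn m h
      refine ⟨u, hm, hyu.trans ?_⟩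
      have := al_mono (show n + 1 ≤ m from h)
      omega
    · exact hm'.trans_le (al_mono (by omega))
  · intro n x hx
    by_cases hxC : x ∈ C
    · obtain ⟨m, hm, hm'⟩ := rich_isl (core_rich hC hxC) (self_mem_cls x)
      rw [core_inter hxC] at hm'
      rcases Nat.lt_or_ge n m with h | h
      · exfalso
        apply hx.2 m h
        exact ⟨x, hm, by rw [dc_self]; exact Nat.zero_le _⟩
      · exact hm'.trans_le (al_mono (by omega))
    · have h1 : cls G C x = {x} := by
        ext y
        rw [Set.mem_singleton_iff]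
        constructor
        · exact fun h => cls_of_not h hxC
        · rintro rfl
          exact self_mem_cls _
      rw [h1, Set.ncard_singleton]
      have h2 := al_lt_step (Nat.lt_succ_self n)
      have h3 := al_pos n
      unfold Ca lamI
      change _ < al (n + 1)
      change 50000 * al n ≤ al (n + 1) at h2
      omega

end Pool.Agent.FPPHE
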