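import Pool.Agent.Work.MP_04d5a3_full.T34

/-!
# Block ISLB: existence of the nets, (NEAR), (FEW)
-/

set_option autoImplicit false

namespace Pool.Agent.FPPHE

open T34

namespace ISLB_

variable {V : Type} {G : SimpleGraph V} {C : Set V}

/-- a maximal separated subset -/
theorem exists_max (D : Set V) (r : ℕ) (hr : 0 < r) (hG : G.Connected) :
    ∃ M : Set V, M ⊆ D ∧ (∀ x ∈ M, ∀ y ∈ M, x ≠ y → r ≤ dc G C x y) ∧
      ∀ x ∈ D, ∃ y ∈ M, dc G C x y < r := by
  obtain ⟨M, hM⟩ := zorn_subset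
    {s : Set V | s ⊆ D ∧ ∀ x ∈ s, ∀ y ∈ s, x ≠ y → r ≤ dc G C x y} (by
      intro c hc hch
      refine ⟨⋃₀ c, ⟨Set.sUnion_subset fun s hs => (hc hs).1, ?_⟩,
        fun s hs => Set.subset_sUnion_of_mem hs⟩
      rintro x ⟨s, hs, hxs⟩ y ⟨t, ht, hyt⟩ hxy
      rcases hch.total hs ht with h | h
      · exact (hc ht).2 x (h hxs) y hyt hxy
      · exact (hc hs).2 x hxs y (h hyt) hxy)
  refine ⟨M, hM.prop.1, hM.prop.2, fun x hx => ?_⟩
  by_contra hno
  push Not at hno
  have hxM : x ∉ M := fun h => by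
    have := hno x h
    rw [dc_self] at this
    omega
  have h2 : insert x M ∈
      {s : Set V | s ⊆ D ∧ ∀ x ∈ s, ∀ y ∈ s, x ≠ y → r ≤ dc G C x y} := by
    refine ⟨Set.insert_subset hx hM.prop.1, ?_⟩
    rintro a (rfl | ha) b (rfl | hb) hab
    · exact absurd rfl hab
    · exact hno b hb
    · rw [dc_comm hG]
      exact hno a ha
    · exact hM.prop.2 a ha b hb hab
  exact hxM (hM.le_of_ge h2 (Set.subset_insert x M) (Set.mem_insert x M))

end ISLB_

open ISLB_

theorem stmt_ISLB : Stmt_ISLB := by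
  intro V G N bad C hGr _
  have hG := hGr.conn
  constructor
  · have h : ∀ n, ∃ M : Set V, M ⊆ islD G C n ∧
        (∀ x ∈ M, ∀ y ∈ M, x ≠ y → 10 * al n ≤ dc G C x y) ∧
        ∀ x ∈ islD G C n, ∃ y ∈ M, dc G C x y < 10 * al n := fun n =>
      exists_max _ _ (by have := al_pos n; omega) hG
    choose Nt h1 h2 h3 using h
    exact ⟨Nt, h1, h2, h3⟩
  · intro Nt hNt y n hy
    constructor
    · rintro ⟨x', hx', hyx'⟩
      have hD : x' ∈ islD G C n := by
        refine ⟨hx', fun m hm hnear => ?_⟩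
        obtain ⟨z, hz, hxz⟩ := hnear
        refine hy m hm ⟨z, hz, ?_⟩
        have h1 := dc_triangle (C := C) hG y x' z
        have h2 := al_lt_step hm
        have h3 := al_pos n
        omega
      obtain ⟨x, hx, hxx⟩ := hNt.max n x' hD
      refine ⟨x, hx, ?_⟩
      have h1 := dc_triangle (C := C) hG x x' y
      rw [dc_comm hG x x', dc_comm hG x' y] at h1
      have h3 := al_pos n
      omega
    · intro Y hY
      by_contra hcard
      rw [not_lt] at hcard
      obtain ⟨Y', hY', hc⟩ := Finset.exists_subset_card_eq hcard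
      have h2 := al_lt_step (Nat.lt_succ_self n)
      have h3 := al_pos n
      have hmem : y ∈ isl G C (n + 1) := by
        refine Or.inr ⟨Y', hc, ?_, ?_⟩
        · intro z hz
          obtain ⟨hz1, hz2⟩ := hY z (hY' hz)
          refine ⟨(hNt.sub n hz1).1, ?_⟩
          rw [dc_comm hG]
          refine hz2.trans ?_
          unfold Rn
          change 50000 * al n ≤ al (n + 1) at h2
          omega
        · intro z hz z' hz' hne
          exact hNt.sep n z (hY z (hY' hz)).1 z' (hY z' (hY' hz')).1 hne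
      refine hy (n + 1) (Nat.lt_succ_self n) ⟨y, hmem, ?_⟩
      rw [dc_self]
      exact Nat.zero_le _

end Pool.Agent.FPPHE
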