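import Pool.Agent.Work.MP_04d5a3_full.OPQ
import Pool.Agent.Work.MP_04d5a3_full.Tool

/-!
# FPPHE (MP_04d5a3_pr), block KER: bounds for the kernels `g_x`
-/

namespace Pool.Agent.FPPHE

open scoped ENNReal
open SimpleGraph

namespace KER_

variable {V : Type} {G : SimpleGraph V} {C : Set V}

/-- restart a walk at its last visit to `K` -/
theorem last_visit (K : Set V) {x y : V} (p : G.Walk x y) (hK : ∃ w ∈ p.support, w ∈ K) :
    ∃ z ∈ K, ∃ q : G.Walk z y, q.length ≤ p.length ∧ cost G C q ≤ cost G C p ∧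
      (∀ w ∈ q.support, w ∈ p.support) ∧ ∀ w ∈ q.support.tail, w ∉ K := by
  induction p with
  | nil =>
    obtain ⟨w, hw, hwK⟩ := hK
    rw [Walk.support_nil, List.mem_singleton] at hw
    subst hw
    exact ⟨w, hwK, Walk.nil, le_rfl, le_rfl, fun _ h => h, by simp⟩
  | @cons x x' y h p' ih =>
    by_cases hp : ∃ w ∈ p'.support, w ∈ K
    · obtain ⟨z, hz, q, h1, h2, h3, h4⟩ := ih hp
      refine ⟨z, hz, q, ?_, ?_, ?_, h4⟩
      · rw [Walk.length_cons]; omega
      · rw [cost_cons]; omega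
      · intro w hw
        rw [Walk.support_cons]
        exact List.mem_cons_of_mem _ (h3 w hw)
    · push Not at hp
      obtain ⟨w, hw, hwK⟩ := hK
      rw [Walk.support_cons, List.mem_cons] at hw
      rcases hw with rfl | hw
      · refine ⟨w, hwK, Walk.cons h p', le_rfl, le_rfl, fun _ h => h, ?_⟩
        intro v hv
        rw [Walk.support_cons, List.tail_cons] at hv
        exact hp v hv
      · exact absurd hwK (hp w hw)

/-- the chain estimate for class-constant functions -/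
theorem chain {N : ℕ} (hN : 1 ≤ N) (g : V → ℝ≥0∞) (hg : ∀ u v, u ∈ cls G C v → g u = g v)
    (h1 : ∀ u, u ∉ C → ∀ w, G.Adj u w → g w ≤ (N : ℝ≥0∞) ^ 16 * g u)
    (h2 : ∀ u, u ∈ C → ∀ w, G.Adj u w →
      g w ≤ (N : ℝ≥0∞) ^ 16 * (N : ℝ≥0∞) ^ (20 * ll N (cls G C u)) * g u) :
    ∀ (n : ℕ) (x y : V) (p : G.Walk x y), p.length ≤ n →
      (x ∉ C → g x ≤ g y * (N : ℝ≥0∞) ^ (16 * cost G C p) *
        (N : ℝ≥0∞) ^ (20 * ∑ K ∈ coresOf G C p, ll N K)) ∧
      (x ∈ C → g x ≤ g y * (N : ℝ≥0∞) ^ (16 * cost G C p) *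
        (N : ℝ≥0∞) ^ (20 * ∑ K ∈ (open Classical in (coresOf G C p).erase (cls G C x)), ll N K)) := by
  classical
  have hN' : (1 : ℝ≥0∞) ≤ N := by exact_mod_cast hN
  have hone : ∀ k : ℕ, (1 : ℝ≥0∞) ≤ (N : ℝ≥0∞) ^ k := fun k => one_le_pow₀ hN'
  have hmono : ∀ {k l : ℕ}, k ≤ l → (N : ℝ≥0∞) ^ k ≤ (N : ℝ≥0∞) ^ l :=
    fun h => pow_le_pow_right₀ hN' h
  have triv : ∀ (a : ℝ≥0∞) (k l : ℕ), a ≤ a * (N : ℝ≥0∞) ^ k * (N : ℝ≥0∞) ^ l := by
    intro a k l
    calc a = a * 1 * 1 := by ring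
      _ ≤ _ := by
        gcongr
        · exact hone k
        · exact hone l
  intro n
  induction n using Nat.strong_induction_on with
  | _ n ih =>
    intro x y p hp
    constructor
    · intro hx
      cases p with
      | nil => exact triv _ _ _
      | @cons _ x' _ h p' =>
        rw [Walk.length_cons] at hp
        have hcost : cost G C (Walk.cons h p') = 1 + cost G C p' := by
          rw [cost_cons, if_neg (fun hh => hx hh.1)]
        have hsub : coresOf G C p' ⊆ coresOf G C (Walk.cons h p') :=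
          coresOf_mono _ _ fun w hw => by
            rw [Walk.support_cons]; exact List.mem_cons_of_mem _ hw
        have hsum : ∑ K ∈ coresOf G C p', ll N K ≤ ∑ K ∈ coresOf G C (Walk.cons h p'), ll N K :=
          Finset.sum_le_sum_of_subset hsub
        obtain ⟨iA, iB⟩ := ih p'.length (by omega) x' y p' le_rfl
        by_cases hx' : x' ∈ C
        · have a1 := h2 x' hx' x h.symm
          have a2 := iB hx'
          have hmem : cls G C x' ∈ coresOf G C p' :=
            (mem_coresOf p' _).2 ⟨x', p'.start_mem_support, hx', rfl⟩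
          have hs : ll N (cls G C x') + ∑ K ∈ (coresOf G C p').erase (cls G C x'), ll N K =
              ∑ K ∈ coresOf G C p', ll N K := Finset.add_sum_erase _ _ hmem
          calc g x ≤ (N : ℝ≥0∞) ^ 16 * (N : ℝ≥0∞) ^ (20 * ll N (cls G C x')) * g x' := a1
            _ ≤ (N : ℝ≥0∞) ^ 16 * (N : ℝ≥0∞) ^ (20 * ll N (cls G C x')) *
                (g y * (N : ℝ≥0∞) ^ (16 * cost G C p') *
                (N : ℝ≥0∞) ^ (20 * ∑ K ∈ (coresOf G C p').erase (cls G C x'), ll N K)) := by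
              gcongr
            _ = g y * (N : ℝ≥0∞) ^ (16 * (1 + cost G C p')) *
                (N : ℝ≥0∞) ^ (20 * (ll N (cls G C x') +
                  ∑ K ∈ (coresOf G C p').erase (cls G C x'), ll N K)) := by ring
            _ ≤ _ := by
              rw [hs, hcost]
              gcongr
        · have a1 := h1 x' hx' x h.symm
          have a2 := iA hx'
          calc g x ≤ (N : ℝ≥0∞) ^ 16 * g x' := a1
            _ ≤ (N : ℝ≥0∞) ^ 16 * (g y * (N : ℝ≥0∞) ^ (16 * cost G C p') *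
                (N : ℝ≥0∞) ^ (20 * ∑ K ∈ coresOf G C p', ll N K)) := by gcongr
            _ = g y * (N : ℝ≥0∞) ^ (16 * (1 + cost G C p')) *
                (N : ℝ≥0∞) ^ (20 * ∑ K ∈ coresOf G C p', ll N K) := by ring
            _ ≤ _ := by
              rw [hcost]
              gcongr
    · intro hx
      obtain ⟨z, hz, q, q1, q2, q3, q4⟩ := last_visit (C := C) (cls G C x) p
        ⟨x, p.start_mem_support, mem_cls_self x⟩
      have hzx : g x = g z := (hg z x hz).symm
      have hzC : z ∈ C := cls_sub hx hz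
      cases q with
      | nil => rw [hzx]; exact triv _ _ _
      | @cons _ z' _ h q' =>
        rw [Walk.length_cons] at q1
        have hz' : z' ∉ cls G C x := q4 z' (by
          rw [Walk.support_cons, List.tail_cons]; exact q'.start_mem_support)
        have hz'C : z' ∉ C := fun hc => hz' (cls_trans (adj_cls h hzC hc) hz)
        have hcost : cost G C (Walk.cons h q') = 1 + cost G C q' := by
          rw [cost_cons, if_neg (fun hh => hz'C hh.2)]
        have a1 := h1 z' hz'C z h.symm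
        have a2 := (ih q'.length (by omega) z' y q' le_rfl).1 hz'C
        have hsub : coresOf G C q' ⊆ (coresOf G C p).erase (cls G C x) := by
          intro K hK
          obtain ⟨w, w1, w2, rfl⟩ := (mem_coresOf q' K).1 hK
          have w3 : w ∈ p.support := q3 w (by
            rw [Walk.support_cons]; exact List.mem_cons_of_mem _ w1)
          refine Finset.mem_erase.2 ⟨fun hh => ?_, (mem_coresOf p _).2 ⟨w, w3, w2, rfl⟩⟩
          refine q4 w (by rw [Walk.support_cons, List.tail_cons]; exact w1) ?_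
          rw [← hh]; exact mem_cls_self w
        have hsum : ∑ K ∈ coresOf G C q', ll N K ≤ ∑ K ∈ (coresOf G C p).erase (cls G C x), ll N K :=
          Finset.sum_le_sum_of_subset hsub
        rw [hcost] at q2
        rw [hzx]
        calc g z ≤ (N : ℝ≥0∞) ^ 16 * g z' := a1
          _ ≤ (N : ℝ≥0∞) ^ 16 * (g y * (N : ℝ≥0∞) ^ (16 * cost G C q') *
              (N : ℝ≥0∞) ^ (20 * ∑ K ∈ coresOf G C q', ll N K)) := by gcongr
          _ = g y * (N : ℝ≥0∞) ^ (16 * (1 + cost G C q')) *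
              (N : ℝ≥0∞) ^ (20 * ∑ K ∈ coresOf G C q', ll N K) := by ring
          _ ≤ _ := by
            gcongr

/-- the indicator of the class of `x` -/
noncomputable def ind (G : SimpleGraph V) (C : Set V) (x : V) : V → ℝ≥0∞ :=
  open Classical in fun y => if y ∈ cls G C x then 1 else 0

theorem gker_eq (N : ℕ) (x : V) : gker G N C x = neu (matQ G C) (kap3 N) (ind G C x) := rfl

theorem N2_ind (hfin : ∀ v, (cls G C v).Finite) (x : V) :
    N2 (ind G C x) = ((cls G C x).ncard : ℝ≥0∞) := by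
  classical
  unfold N2 ind
  have e1 : ∀ v, (if v ∈ cls G C x then (1 : ℝ≥0∞) else 0) ^ 2 =
      Set.indicator (cls G C x) (fun _ => 1) v := by
    intro v
    by_cases hv : v ∈ cls G C x
    · rw [if_pos hv, Set.indicator_of_mem hv, one_pow]
    · rw [if_neg hv, Set.indicator_of_notMem hv]; norm_num
  rw [tsum_congr e1, ← tsum_subtype]
  have := (hfin x).to_subtype
  have := Fintype.ofFinite (cls G C x)
  rw [tsum_fintype, Finset.sum_const, nsmul_eq_mul, Finset.card_univ,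
    ← Nat.card_eq_fintype_card, mul_one]
  rfl

theorem iter_support (hG : G.Connected) (x : V) :
    ∀ (n : ℕ) (y : V), ((mulM (matQ G C))^[n] (ind G C x)) y ≠ 0 → dc G C x y ≤ n := by
  intro n
  induction n with
  | zero =>
    intro y hy
    have : y ∈ cls G C x := by
      by_contra hc
      apply hy
      simp [ind, hc]
    rw [dc_of_mem_cls this]
  | succ n ih =>
    intro y hy
    rw [Function.iterate_succ_apply', OPQ_.mulM_matQ] at hy
    set h := (mulM (matQ G C))^[n] (ind G C x) with hh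
    unfold opQ at hy
    have s1 : ∀ (f : V → ℝ≥0∞) (v : V), opPi G C f v ≠ 0 → ∃ u ∈ cls G C v, f u ≠ 0 := by
      intro f v hv
      by_contra hc
      push Not at hc
      apply hv
      unfold opPi
      rw [ENNReal.tsum_eq_zero.2 (fun u : cls G C v => hc u u.2), ENNReal.zero_div]
    have s2 : ∀ (f : V → ℝ≥0∞) (v : V), opA G f v ≠ 0 → ∃ u, G.Adj v u ∧ f u ≠ 0 := by
      intro f v hv
      by_contra hc
      push Not at hc
      apply hv
      unfold opA
      exact ENNReal.tsum_eq_zero.2 (fun u : G.neighborSet v => hc u u.2)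
    obtain ⟨u, hu, h1⟩ := s1 _ _ hy
    obtain ⟨u', hu', h2⟩ := s2 _ _ h1
    obtain ⟨u'', hu'', h3⟩ := s1 _ _ h2
    have d1 := ih u'' h3
    have d2 : dc G C x u' = dc G C x u'' := dc_congr_right hG (cls_symm hu'')
    have d3 : dc G C x y = dc G C x u := dc_congr_right hG (cls_symm hu)
    have d4 := dc_tri (C := C) hG x u' u
    have d5 : dc G C u' u ≤ 1 := dc_adj hu'.symm
    omega

theorem kap3_ne_zero {N : ℕ} (hN : Nbig ≤ N) : kap3 N ≠ 0 := by
  unfold Nbig at hN
  unfold kap3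
  have h1 : N ≠ 0 := by omega
  have h2 : 4 * N ^ 15 ≠ 0 := mul_ne_zero (by norm_num) (pow_ne_zero _ h1)
  exact_mod_cast h2

theorem kap3_ne_top (N : ℕ) : kap3 N ≠ ⊤ := by
  unfold kap3
  have h : (4 * (N : ℝ≥0∞) ^ 15) = ((4 * N ^ 15 : ℕ) : ℝ≥0∞) := by push_cast; rfl
  rw [h]
  exact ENNReal.natCast_ne_top _

theorem kap3_le {N : ℕ} (hN : Nbig ≤ N) : kap3 N ≤ (N : ℝ≥0∞) ^ 16 := by
  unfold Nbig at hN
  unfold kap3
  have h : 4 * N ^ 15 ≤ N ^ 16 := by
    calc 4 * N ^ 15 ≤ N * N ^ 15 := Nat.mul_le_mul_right _ (by omega)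
      _ = N ^ 16 := by ring
  exact_mod_cast h

theorem two_c_le {N : ℕ} (hN : Nbig ≤ N) : 2 * (4 * (N : ℝ≥0∞) ^ 10) ≤ kap3 N := by
  unfold Nbig at hN
  unfold kap3
  have h : 2 * (4 * N ^ 10) ≤ 4 * N ^ 15 := by
    have h5 : 2 ≤ N ^ 5 := (by omega : 2 ≤ N).trans (Nat.le_self_pow (by norm_num) N)
    calc 2 * (4 * N ^ 10) ≤ N ^ 5 * (4 * N ^ 10) := Nat.mul_le_mul_right _ h5
      _ = 4 * N ^ 15 := by ring
  exact_mod_cast h

theorem tsum_shift (a : ℕ → ℝ≥0∞) (d : ℕ) (h : ∀ k < d, a k = 0) :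
    ∑' k, a k = ∑' m, a (m + d) := by
  rw [← ENNReal.summable.sum_add_tsum_nat_add' (f := a) (k := d)]
  rw [Finset.sum_eq_zero (fun k hk => h k (Finset.mem_range.1 hk)), zero_add]

theorem gker_sq_le {N : ℕ} {bad : Set V} (hG : Gr G N) (hC : CoreSys G N bad C) (x y : V) :
    (gker G N C x y) ^ 2 * (N : ℝ≥0∞) ^ (10 * dc G C x y) ≤ 4 * (cls G C x).ncard := by
  have hfin := hC.fin
  have hQ : ∀ f, N2 (mulM (matQ G C) f) ≤ (4 * (N : ℝ≥0∞) ^ 10) ^ 2 * N2 f := by
    intro f
    rw [OPQ_.mulM_matQ]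
    refine (OPQ_.N2_opQ_le hG hfin f).trans (le_of_eq ?_)
    ring
  set d := dc G C x y with hd
  set κ := kap3 N with hκ
  have hκ0 : κ ≠ 0 := kap3_ne_zero hG.big
  have hκ1 : κ ≠ ⊤ := kap3_ne_top N
  have e1 : gker G N C x y = (κ⁻¹) ^ d *
      neu (matQ G C) κ ((mulM (matQ G C))^[d] (ind G C x)) y := by
    rw [gker_eq]
    unfold neu
    rw [tsum_shift _ d, ← ENNReal.tsum_mul_left]
    · refine tsum_congr fun m => ?_
      rw [Function.iterate_add_apply, pow_add]
      ring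
    · intro k hk
      have : ((mulM (matQ G C))^[k] (ind G C x)) y = 0 := by
        by_contra hc
        have := iter_support hG.conn x k y hc
        omega
      rw [this, mul_zero]
  have h4 := (stmt_NEU V (matQ G C) (4 * (N : ℝ≥0∞) ^ 10) κ hκ0 hκ1 (two_c_le hG.big) hQ
    ((mulM (matQ G C))^[d] (ind G C x))).2.2.2 y
  have h5 := NEU_.N2_iterate (matQ G C) (4 * (N : ℝ≥0∞) ^ 10) hQ (ind G C x) d
  rw [N2_ind hfin] at h5
  have e3 : κ⁻¹ ^ 2 * (4 * (N : ℝ≥0∞) ^ 10) ^ 2 * (N : ℝ≥0∞) ^ 10 = 1 := by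
    have : (4 * (N : ℝ≥0∞) ^ 10) ^ 2 * (N : ℝ≥0∞) ^ 10 = κ ^ 2 := by
      rw [hκ]; unfold kap3; ring
    rw [mul_assoc, this, ← mul_pow, ENNReal.inv_mul_cancel hκ0 hκ1, one_pow]
  calc (gker G N C x y) ^ 2 * (N : ℝ≥0∞) ^ (10 * d)
      = ((κ⁻¹) ^ 2) ^ d * (neu (matQ G C) κ ((mulM (matQ G C))^[d] (ind G C x)) y) ^ 2 *
        ((N : ℝ≥0∞) ^ 10) ^ d := by
        rw [e1]; ring
    _ ≤ ((κ⁻¹) ^ 2) ^ d * (4 * (((4 * (N : ℝ≥0∞) ^ 10) ^ 2) ^ d * ((cls G C x).ncard : ℝ≥0∞))) *
        ((N : ℝ≥0∞) ^ 10) ^ d := by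
        gcongr
        refine h4.trans ?_
        gcongr
    _ = (κ⁻¹ ^ 2 * (4 * (N : ℝ≥0∞) ^ 10) ^ 2 * (N : ℝ≥0∞) ^ 10) ^ d *
        (4 * ((cls G C x).ncard : ℝ≥0∞)) := by
        rw [mul_pow, mul_pow]; ring
    _ = 4 * (cls G C x).ncard := by rw [e3, one_pow, one_mul]

end KER_

open KER_ in
theorem stmt_KER : Stmt_KER := by
  intro V G N bad C hG hC x
  have hfin := hC.fin
  have hNb := hG.big
  have hN1 : 1 ≤ N := by unfold Nbig at hNb; omega
  have hQ : ∀ f, N2 (mulM (matQ G C) f) ≤ (4 * (N : ℝ≥0∞) ^ 10) ^ 2 * N2 f := by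
    intro f
    rw [OPQ_.mulM_matQ]
    refine (OPQ_.N2_opQ_le hG hfin f).trans (le_of_eq ?_)
    ring
  obtain ⟨n1, n2, -, -⟩ := stmt_NEU V (matQ G C) (4 * (N : ℝ≥0∞) ^ 10) (kap3 N)
    (kap3_ne_zero hNb) (kap3_ne_top N) (two_c_le hNb) hQ (ind G C x)
  rw [← gker_eq] at n1 n2
  rw [OPQ_.mulM_matQ] at n1
  obtain ⟨-, -, -, q4⟩ := stmt_OPQ V G N bad C hG hC
  -- constancy
  have hconst : ∀ u v, u ∈ cls G C v → gker G N C x u = gker G N C x v := by
    intro u v huv
    rw [gker_eq]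
    unfold neu
    refine tsum_congr fun n => ?_
    congr 1
    cases n with
    | zero =>
      simp only [Function.iterate_zero, id_eq]
      have : u ∈ cls G C x ↔ v ∈ cls G C x :=
        ⟨fun h => cls_trans (cls_symm huv) h, fun h => cls_trans huv h⟩
      by_cases hv : v ∈ cls G C x
      · simp [ind, this.2 hv, hv]
      · have hu : u ∉ cls G C x := fun h => hv (this.1 h)
        simp [ind, hu, hv]
    | succ n =>
      rw [Function.iterate_succ_apply', OPQ_.mulM_matQ]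
      exact OPQ_.opPi_const _ huv
  obtain ⟨q5, q6⟩ := q4 _ hconst
  have hone : ∀ v ∈ cls G C x, 1 ≤ gker G N C x v := by
    intro v hv
    have := n2 v
    unfold ind at this
    rwa [if_pos hv] at this
  refine ⟨hconst, n1, hone, gker_sq_le hG hC x, ?_⟩
  have s1 : ∀ u, u ∉ C → ∀ w, G.Adj u w → gker G N C x w ≤ (N : ℝ≥0∞) ^ 16 * gker G N C x u := by
    intro u hu w hw
    have h1 : gker G N C x w ≤ opA G (gker G N C x) u := by
      unfold opA
      exact ENNReal.le_tsum (f := fun y : G.neighborSet u => gker G N C x y) ⟨w, hw⟩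
    rw [← q5 u hu] at h1
    refine h1.trans ((n1 u).trans ?_)
    gcongr
    exact kap3_le hNb
  have s2 : ∀ u, u ∈ C → ∀ w, G.Adj u w → gker G N C x w ≤
      (N : ℝ≥0∞) ^ 16 * (N : ℝ≥0∞) ^ (20 * ll N (cls G C u)) * gker G N C x u := by
    intro u hu w hw
    have h1 := q6 u hu u (mem_cls_self u) w hw
    have h2 : ((cls G C u).ncard : ℝ≥0∞) ≤ (N : ℝ≥0∞) ^ (20 * ll N (cls G C u)) := by
      have h3 := ncard_le_ll (N := N) (by unfold Nbig at hNb; omega) (cls G C u)
      have h4 : (N ^ 20) ^ (ll N (cls G C u) - 1) ≤ N ^ (20 * ll N (cls G C u)) := by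
        rw [← pow_mul]
        exact Nat.pow_le_pow_right hN1 (by omega)
      exact_mod_cast h3.trans h4
    calc gker G N C x w ≤ (cls G C u).ncard * opQ G C (gker G N C x) u := h1
      _ ≤ (N : ℝ≥0∞) ^ (20 * ll N (cls G C u)) * (kap3 N * gker G N C x u) := by
        gcongr
        exact n1 u
      _ ≤ (N : ℝ≥0∞) ^ (20 * ll N (cls G C u)) * ((N : ℝ≥0∞) ^ 16 * gker G N C x u) := by
        gcongr
        exact kap3_le hNb
      _ = _ := by ring
  intro y p
  classical
  obtain ⟨cA, cB⟩ := chain hN1 (gker G N C x) hconst s1 s2 p.length x y p le_rfl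
  have h1 := hone x (mem_cls_self x)
  by_cases hx : x ∈ C
  · refine h1.trans ((cB hx).trans ?_)
    gcongr
    · exact_mod_cast hN1
    · exact Finset.erase_subset _ _
  · exact h1.trans (cA hx)

end Pool.Agent.FPPHE
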