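import Pool.Agent.Work.MP_04d5a3_full.Interface

/-!
# FPPHE (MP_04d5a3_pr), block NEU: Neumann series of a nonnegative infinite matrix
-/

namespace Pool.Agent.FPPHE

open MeasureTheory
open scoped ENNReal

namespace NEU_

variable {V : Type}

/-- Cauchy-Schwarz for sums in `[0,∞]` -/
theorem cs {ι : Type} (f g : ι → ℝ≥0∞) :
    (∑' i, f i * g i) ^ 2 ≤ (∑' i, f i ^ 2) * ∑' i, g i ^ 2 := by
  let _ : MeasurableSpace ι := ⊤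
  have hpq : (2 : ℝ).HolderConjugate 2 := Real.HolderConjugate.two_two
  have h := ENNReal.lintegral_mul_le_Lp_mul_Lq (μ := (Measure.count : Measure ι)) hpq
    (f := f) (g := g) (Measurable.aemeasurable (fun _ _ => trivial))
    (Measurable.aemeasurable (fun _ _ => trivial))
  rw [lintegral_count, lintegral_count, lintegral_count] at h
  have h2 : (∑' i, f i * g i) ^ 2 ≤
      ((∑' i, f i ^ (2 : ℝ)) ^ (1 / 2 : ℝ) * (∑' i, g i ^ (2 : ℝ)) ^ (1 / 2 : ℝ)) ^ 2 := by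
    gcongr
    exact h
  refine h2.trans (le_of_eq ?_)
  rw [mul_pow, ← ENNReal.rpow_natCast, ← ENNReal.rpow_natCast, ← ENNReal.rpow_mul,
    ← ENNReal.rpow_mul]
  norm_num

/-- the weighted inequality `(∑ a_n)^2 ≤ 2 ∑ 2^n a_n^2` -/
theorem sq_tsum_le (a : ℕ → ℝ≥0∞) : (∑' n, a n) ^ 2 ≤ 2 * ∑' n, 2 ^ n * a n ^ 2 := by
  have h := cs (fun n : ℕ => ((2 : ℝ≥0∞)⁻¹ ^ n) ^ (1 / 2 : ℝ))
    (fun n : ℕ => ((2 : ℝ≥0∞) ^ n) ^ (1 / 2 : ℝ) * a n)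
  have e1 : ∀ n : ℕ, ((2 : ℝ≥0∞)⁻¹ ^ n) ^ (1 / 2 : ℝ) * (((2 : ℝ≥0∞) ^ n) ^ (1 / 2 : ℝ) * a n) =
      a n := by
    intro n
    rw [← mul_assoc, ← ENNReal.mul_rpow_of_nonneg _ _ (by norm_num), ← mul_pow,
      ENNReal.inv_mul_cancel (by norm_num) (by norm_num)]
    simp
  have e2 : ∀ n : ℕ, (((2 : ℝ≥0∞)⁻¹ ^ n) ^ (1 / 2 : ℝ)) ^ 2 = (2 : ℝ≥0∞)⁻¹ ^ n := by
    intro n
    rw [← ENNReal.rpow_natCast, ← ENNReal.rpow_mul]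
    norm_num
  have e3 : ∀ n : ℕ, (((2 : ℝ≥0∞) ^ n) ^ (1 / 2 : ℝ) * a n) ^ 2 = 2 ^ n * a n ^ 2 := by
    intro n
    rw [mul_pow]
    congr 1
    rw [← ENNReal.rpow_natCast, ← ENNReal.rpow_mul]
    norm_num
  simp only [e1, e2, e3] at h
  rw [ENNReal.tsum_geometric] at h
  have e4 : (1 - (2 : ℝ≥0∞)⁻¹)⁻¹ = 2 := by
    rw [ENNReal.one_sub_inv_two, inv_inv]
  rwa [e4] at h

theorem N2_le_single (f : V → ℝ≥0∞) (v : V) : f v ^ 2 ≤ N2 f :=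
  ENNReal.le_tsum (f := fun v => f v ^ 2) v

theorem N2_smul (a : ℝ≥0∞) (f : V → ℝ≥0∞) : N2 (fun v => a * f v) = a ^ 2 * N2 f := by
  unfold N2
  rw [← ENNReal.tsum_mul_left]
  exact tsum_congr fun v => mul_pow _ _ _

theorem mulM_tsum {ι : Type} (t : V → V → ℝ≥0∞) (h : ι → V → ℝ≥0∞) (v : V) :
    mulM t (fun u => ∑' i, h i u) v = ∑' i, mulM t (h i) v := by
  unfold mulM
  rw [ENNReal.tsum_comm]
  exact tsum_congr fun u => ENNReal.tsum_mul_left.symm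

theorem mulM_smul (t : V → V → ℝ≥0∞) (a : ℝ≥0∞) (f : V → ℝ≥0∞) (v : V) :
    mulM t (fun u => a * f u) v = a * mulM t f v := by
  unfold mulM
  rw [← ENNReal.tsum_mul_left]
  exact tsum_congr fun u => by ring

theorem N2_iterate (t : V → V → ℝ≥0∞) (c : ℝ≥0∞) (h : ∀ f, N2 (mulM t f) ≤ c ^ 2 * N2 f)
    (f : V → ℝ≥0∞) (n : ℕ) : N2 ((mulM t)^[n] f) ≤ (c ^ 2) ^ n * N2 f := by
  induction n with
  | zero => simp
  | succ n ih =>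
    rw [Function.iterate_succ_apply']
    refine (h _).trans ?_
    calc c ^ 2 * N2 ((mulM t)^[n] f) ≤ c ^ 2 * ((c ^ 2) ^ n * N2 f) := by gcongr
      _ = _ := by ring

/-- `t (neu f) ≤ κ (neu f)` -/
theorem mulM_neu_le (t : V → V → ℝ≥0∞) (κ : ℝ≥0∞) (h0 : κ ≠ 0) (h1 : κ ≠ ⊤) (f : V → ℝ≥0∞)
    (v : V) : mulM t (neu t κ f) v ≤ κ * neu t κ f v := by
  have e : neu t κ f = fun u => ∑' n : ℕ, (κ⁻¹) ^ n * ((mulM t)^[n] f) u := rfl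
  rw [e, mulM_tsum]
  have e2 : ∀ n : ℕ, mulM t (fun u => (κ⁻¹) ^ n * ((mulM t)^[n] f) u) v =
      κ * ((κ⁻¹) ^ (n + 1) * ((mulM t)^[n + 1] f) v) := by
    intro n
    rw [mulM_smul, Function.iterate_succ_apply', ← mul_assoc, pow_succ' (κ⁻¹) n, ← mul_assoc,
      ENNReal.mul_inv_cancel h0 h1, one_mul]
  rw [tsum_congr e2, ENNReal.tsum_mul_left]
  gcongr
  exact ENNReal.tsum_comp_le_tsum_of_injective (add_left_injective 1)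
    (fun n : ℕ => (κ⁻¹) ^ n * ((mulM t)^[n] f) v)

theorem le_neu (t : V → V → ℝ≥0∞) (κ : ℝ≥0∞) (f : V → ℝ≥0∞) (v : V) : f v ≤ neu t κ f v := by
  have := ENNReal.le_tsum (f := fun n : ℕ => (κ⁻¹) ^ n * ((mulM t)^[n] f) v) 0
  unfold neu
  simpa using this

theorem N2_neu_le (t : V → V → ℝ≥0∞) (c κ : ℝ≥0∞) (h0 : κ ≠ 0) (h1 : κ ≠ ⊤) (h2 : 2 * c ≤ κ)
    (h : ∀ f, N2 (mulM t f) ≤ c ^ 2 * N2 f) (f : V → ℝ≥0∞) : N2 (neu t κ f) ≤ 4 * N2 f := by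
  have s1 : N2 (neu t κ f) ≤
      ∑' v, 2 * ∑' n : ℕ, 2 ^ n * ((κ⁻¹) ^ n * ((mulM t)^[n] f) v) ^ 2 :=
    ENNReal.tsum_le_tsum fun v => sq_tsum_le _
  have s2 : ∑' v, 2 * ∑' n : ℕ, 2 ^ n * ((κ⁻¹) ^ n * ((mulM t)^[n] f) v) ^ 2 =
      2 * ∑' n : ℕ, 2 ^ n * (((κ⁻¹) ^ n) ^ 2 * N2 ((mulM t)^[n] f)) := by
    rw [ENNReal.tsum_mul_left, ENNReal.tsum_comm]
    congr 1
    refine tsum_congr fun n => ?_
    rw [ENNReal.tsum_mul_left, ← N2_smul]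
    rfl
  have s3 : ∀ n : ℕ, (2 : ℝ≥0∞) ^ n * (((κ⁻¹) ^ n) ^ 2 * N2 ((mulM t)^[n] f)) ≤
      (2 : ℝ≥0∞)⁻¹ ^ n * N2 f := by
    intro n
    have k1 : (κ⁻¹ * c) ≤ (2 : ℝ≥0∞)⁻¹ := by
      have : κ⁻¹ * (2 * c) ≤ 1 := by
        calc κ⁻¹ * (2 * c) ≤ κ⁻¹ * κ := by gcongr
          _ = 1 := ENNReal.inv_mul_cancel h0 h1
      calc κ⁻¹ * c = (2 : ℝ≥0∞)⁻¹ * 2 * (κ⁻¹ * c) := by
            rw [ENNReal.inv_mul_cancel (by norm_num) (by norm_num), one_mul]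
        _ = (2 : ℝ≥0∞)⁻¹ * (κ⁻¹ * (2 * c)) := by ring
        _ ≤ (2 : ℝ≥0∞)⁻¹ * 1 := by gcongr
        _ = _ := mul_one _
    calc (2 : ℝ≥0∞) ^ n * (((κ⁻¹) ^ n) ^ 2 * N2 ((mulM t)^[n] f))
        ≤ (2 : ℝ≥0∞) ^ n * (((κ⁻¹) ^ n) ^ 2 * ((c ^ 2) ^ n * N2 f)) := by
          gcongr
          exact N2_iterate t c h f n
      _ = (2 * (κ⁻¹ * c) ^ 2) ^ n * N2 f := by
          rw [mul_pow, mul_pow, mul_pow]
          ring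
      _ ≤ (2 * (2 : ℝ≥0∞)⁻¹ ^ 2) ^ n * N2 f := by gcongr
      _ = (2 : ℝ≥0∞)⁻¹ ^ n * N2 f := by
          rw [pow_two, ← mul_assoc, ENNReal.mul_inv_cancel (by norm_num) (by norm_num), one_mul]
  refine s1.trans (s2.le.trans ?_)
  calc 2 * ∑' n : ℕ, (2 : ℝ≥0∞) ^ n * (((κ⁻¹) ^ n) ^ 2 * N2 ((mulM t)^[n] f))
      ≤ 2 * ∑' n : ℕ, (2 : ℝ≥0∞)⁻¹ ^ n * N2 f :=
        mul_le_mul' le_rfl (ENNReal.tsum_le_tsum s3)
    _ = 4 * N2 f := by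
        rw [ENNReal.tsum_mul_right, ENNReal.tsum_geometric, ENNReal.one_sub_inv_two, inv_inv,
          ← mul_assoc]
        norm_num

end NEU_

theorem stmt_NEU : Stmt_NEU := by
  intro V t c κ h0 h1 h2 h f
  refine ⟨NEU_.mulM_neu_le t κ h0 h1 f, NEU_.le_neu t κ f, NEU_.N2_neu_le t c κ h0 h1 h2 h f, ?_⟩
  intro v
  exact (NEU_.N2_le_single _ v).trans (NEU_.N2_neu_le t c κ h0 h1 h2 h f)

end Pool.Agent.FPPHE
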