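import Pool.Agent.Work.MP_04d5a3_full.Interface

/-!
# Block NOEX: no explosion
-/

namespace Pool.Agent.FPPHE

open MeasureTheory ProbabilityTheory
open scoped ENNReal

namespace NOEX_

variable {V : Type}

/-- the lists of the first `n` edges of the walks from `v` -/
theorem exists_lists (G : SimpleGraph V) (Δ : ℕ) (hfin : ∀ v, (G.neighborSet v).Finite)
    (hdeg : ∀ v, (G.neighborSet v).ncard ≤ Δ) (n : ℕ) : ∀ v, ∃ T : Finset (List (Sym2 V)),
      T.card ≤ Δ ^ n ∧ ∀ w (p : G.Walk v w), n ≤ p.length → p.edges.take n ∈ T := by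
  classical
  induction n with
  | zero => intro v; exact ⟨{[]}, by simp, fun w p _ => by simp⟩
  | succ n ih =>
    intro v
    choose T hT hT' using ih
    refine ⟨(hfin v).toFinset.biUnion fun u => (T u).image (List.cons s(v, u)), ?_, ?_⟩
    · calc _ ≤ (hfin v).toFinset.card * Δ ^ n :=
            Finset.card_biUnion_le_card_mul _ _ _ (fun u _ => (Finset.card_image_le).trans (hT u))
        _ ≤ Δ * Δ ^ n := Nat.mul_le_mul_right _ (by
            rw [← Set.ncard_eq_toFinset_card _ (hfin v)]; exact hdeg v)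
        _ = _ := by rw [pow_succ']
    · intro w p hp
      cases p with
      | nil => simp at hp
      | cons h q =>
        rename_i u
        rw [SimpleGraph.Walk.edges_cons, List.take_succ_cons]
        refine Finset.mem_biUnion.2 ⟨u, by simpa using h, Finset.mem_image.2 ⟨_, hT' u w q ?_, rfl⟩⟩
        simpa using hp

/-- finitely many vertices are reached in at most `n` steps -/
theorem ends_fin (G : SimpleGraph V) (hfin : ∀ v, (G.neighborSet v).Finite) (n : ℕ) :
    ∀ v, {w | ∃ p : G.Walk v w, p.length ≤ n}.Finite := by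
  induction n with
  | zero =>
    intro v
    refine (Set.finite_singleton v).subset ?_
    rintro w ⟨p, hp⟩
    cases p with
    | nil => exact rfl
    | cons h q => simp at hp
  | succ n ih =>
    intro v
    refine ((Set.finite_singleton v).union ((hfin v).biUnion fun u _ => ih u)).subset ?_
    rintro w ⟨p, hp⟩
    cases p with
    | nil => exact Or.inl rfl
    | cons h q =>
      rename_i u
      refine Or.inr (Set.mem_iUnion₂.2 ⟨u, h, q, ?_⟩)
      simpa using hp

theorem isProb_seed {μ : ℝ} (h0 : 0 < μ) (h1 : μ < 1) : IsProbabilityMeasure (seedLaw μ) := by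
  constructor
  simp only [seedLaw, Measure.add_apply, Measure.smul_apply, measure_univ, smul_eq_mul, mul_one]
  rw [← ENNReal.ofReal_add h0.le (by linarith)]
  simp

theorem exp_Iic {r : ℝ} (hr : 0 < r) (x : ℝ) :
    expMeasure r (Set.Iic x) = ENNReal.ofReal (if 0 ≤ x then 1 - Real.exp (-(r * x)) else 0) := by
  have := isProbabilityMeasure_expMeasure hr
  rw [← cdf_expMeasure_eq hr, ofReal_cdf]

theorem exp_Iic_le {r : ℝ} (hr : 0 < r) {x : ℝ} (hx : 0 ≤ x) :
    expMeasure r (Set.Iic x) ≤ ENNReal.ofReal (r * x) := by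
  rw [exp_Iic hr, if_pos hx]
  apply ENNReal.ofReal_le_ofReal
  have := Real.add_one_le_exp (-(r * x))
  linarith

theorem exp_Iic_zero {r : ℝ} (hr : 0 < r) : expMeasure r (Set.Iic 0) = 0 := by
  have := exp_Iic_le hr (le_refl 0)
  simpa using this

/-- events of the clocks of one colour -/
theorem cyl {μ lam : ℝ} (h0 : 0 < μ) (h1 : μ < 1) (hlam : 0 < lam) (F : Finset (Sym2 V))
    {x ε : ℝ} (hx : 0 ≤ x) (hε : (1 + lam) * x ≤ ε) :
    law V μ lam {ω | ∀ e ∈ F, ω.2.1 e ≤ x} ≤ ENNReal.ofReal ε ^ F.card ∧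
    law V μ lam {ω | ∀ e ∈ F, ω.2.2 e ≤ x} ≤ ENNReal.ofReal ε ^ F.card := by
  have i1 := isProb_seed h0 h1
  have i2 := isProbabilityMeasure_expMeasure one_pos
  have i3 := isProbabilityMeasure_expMeasure hlam
  have b1 : expMeasure 1 (Set.Iic x) ≤ ENNReal.ofReal ε :=
    (exp_Iic_le one_pos hx).trans (ENNReal.ofReal_le_ofReal (by nlinarith))
  have b2 : expMeasure lam (Set.Iic x) ≤ ENNReal.ofReal ε :=
    (exp_Iic_le hlam hx).trans (ENNReal.ofReal_le_ofReal (by nlinarith))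
  constructor
  · have e : {ω : Env V | ∀ e ∈ F, ω.2.1 e ≤ x} =
        Set.univ ×ˢ ((Set.pi (F : Set (Sym2 V)) (fun _ => Set.Iic x)) ×ˢ Set.univ) := by
      ext ω
      simp [Set.mem_prod, Set.mem_pi]
    rw [e, law, Measure.prod_prod, Measure.prod_prod, measure_univ, measure_univ, one_mul, mul_one,
      Measure.infinitePi_pi _ (fun _ _ => measurableSet_Iic)]
    exact (Finset.prod_le_prod' fun _ _ => b1).trans (by simp)
  · have e : {ω : Env V | ∀ e ∈ F, ω.2.2 e ≤ x} =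
        Set.univ ×ˢ (Set.univ ×ˢ (Set.pi (F : Set (Sym2 V)) (fun _ => Set.Iic x))) := by
      ext ω
      simp [Set.mem_prod, Set.mem_pi]
    rw [e, law, Measure.prod_prod, Measure.prod_prod, measure_univ, measure_univ, one_mul, one_mul,
      Measure.infinitePi_pi _ (fun _ _ => measurableSet_Iic)]
    exact (Finset.prod_le_prod' fun _ _ => b2).trans (by simp)

/-- almost surely all clocks are positive -/
theorem pos [Countable V] {μ lam : ℝ} (h0 : 0 < μ) (h1 : μ < 1) (hlam : 0 < lam) :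
    ∀ᵐ ω ∂(law V μ lam), (∀ e, 0 < ω.2.1 e) ∧ (∀ e, 0 < ω.2.2 e) := by
  have h : ∀ e : Sym2 V, law V μ lam {ω | ω.2.1 e ≤ 0} = 0 ∧ law V μ lam {ω | ω.2.2 e ≤ 0} = 0 := by
    intro e
    have := cyl (V := V) h0 h1 hlam {e} (le_refl (0 : ℝ)) (ε := 0) (by simp)
    simpa using this
  have ha : ∀ᵐ ω ∂(law V μ lam), ∀ e : Sym2 V, 0 < ω.2.1 e := by
    have : Countable (Sym2 V) := by
      unfold Sym2
      infer_instance
    rw [ae_all_iff]
    intro e
    rw [ae_iff]
    simpa using (h e).1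
  have hb : ∀ᵐ ω ∂(law V μ lam), ∀ e : Sym2 V, 0 < ω.2.2 e := by
    have : Countable (Sym2 V) := by
      unfold Sym2
      infer_instance
    rw [ae_all_iff]
    intro e
    rw [ae_iff]
    simpa using (h e).2
  filter_upwards [ha, hb] with ω a b
  exact ⟨a, b⟩

/-- the bad event of order `k` -/
def Bad (T : Finset (List (Sym2 V))) (x : ℝ) (k : ℕ) : Set (Env V) :=
  {ω | ∃ l ∈ T, ∃ F : Finset (Sym2 V), (F : Set (Sym2 V)) ⊆ {e | e ∈ l} ∧ F.card = k ∧
    ((∀ e ∈ F, ω.2.1 e ≤ x) ∨ ∀ e ∈ F, ω.2.2 e ≤ x)}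

theorem bad_le {μ lam : ℝ} (h0 : 0 < μ) (h1 : μ < 1) (hlam : 0 < lam)
    (T : Finset (List (Sym2 V))) {x ε : ℝ} (hx : 0 ≤ x) (hε : (1 + lam) * x ≤ ε) (k n : ℕ)
    (hT : ∀ l ∈ T, l.length ≤ n) :
    law V μ lam (Bad T x k) ≤ T.card * (2 ^ n * (2 * ENNReal.ofReal ε ^ k)) := by
  classical
  have h : Bad T x k ⊆ ⋃ l ∈ T, ⋃ F ∈ (l.toFinset.powerset).filter (fun F => F.card = k),
      ({ω | ∀ e ∈ F, ω.2.1 e ≤ x} ∪ {ω | ∀ e ∈ F, ω.2.2 e ≤ x}) := by
    rintro ω ⟨l, hl, F, hF, hk, hω⟩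
    refine Set.mem_iUnion₂.2 ⟨l, hl, Set.mem_iUnion₂.2 ⟨F, ?_, hω⟩⟩
    rw [Finset.mem_filter, Finset.mem_powerset]
    refine ⟨fun e he => List.mem_toFinset.2 (hF he), hk⟩
  refine (measure_mono h).trans ((measure_biUnion_finset_le _ _).trans ?_)
  have h2 : ∀ l ∈ T, law V μ lam (⋃ F ∈ (l.toFinset.powerset).filter (fun F => F.card = k),
      ({ω | ∀ e ∈ F, ω.2.1 e ≤ x} ∪ {ω | ∀ e ∈ F, ω.2.2 e ≤ x})) ≤
        2 ^ n * (2 * ENNReal.ofReal ε ^ k) := by
    intro l hl
    refine (measure_biUnion_finset_le _ _).trans ?_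
    have h3 : ∀ F ∈ (l.toFinset.powerset).filter (fun F => F.card = k),
        law V μ lam ({ω | ∀ e ∈ F, ω.2.1 e ≤ x} ∪ {ω | ∀ e ∈ F, ω.2.2 e ≤ x}) ≤
          2 * ENNReal.ofReal ε ^ k := by
      intro F hF
      have hk := (Finset.mem_filter.1 hF).2
      have hc := cyl (V := V) h0 h1 hlam F hx hε
      rw [hk] at hc
      refine (measure_union_le _ _).trans ?_
      rw [two_mul]
      exact add_le_add hc.1 hc.2
    refine (Finset.sum_le_card_nsmul _ _ _ h3).trans ?_
    rw [nsmul_eq_mul]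
    refine mul_le_mul_left ?_ _
    have h4 : ((l.toFinset.powerset).filter (fun F => F.card = k)).card ≤ 2 ^ n := by
      refine (Finset.card_filter_le _ _).trans ?_
      rw [Finset.card_powerset]
      exact Nat.pow_le_pow_right (by norm_num) ((List.toFinset_card_le l).trans (hT l hl))
    exact_mod_cast h4
  refine (Finset.sum_le_card_nsmul _ _ _ h2).trans ?_
  rw [nsmul_eq_mul]

/-- a list of edges with small sum contains many small clocks of one colour -/
theorem many (r b : Sym2 V → ℝ) (hr : ∀ e, 0 < r e) (hb : ∀ e, 0 < b e) (l : List (Sym2 V))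
    (hl : l.Nodup) {x t : ℝ} (hx : 0 < x) (hsum : (l.map fun e => min (r e) (b e)).sum ≤ t)
    (K k : ℕ) (hK : t ≤ K * x) (hlen : l.length = 2 * k + K) :
    ∃ F : Finset (Sym2 V), (F : Set (Sym2 V)) ⊆ {e | e ∈ l} ∧ F.card = k ∧
      ((∀ e ∈ F, r e ≤ x) ∨ ∀ e ∈ F, b e ≤ x) := by
  classical
  have hS : ∑ e ∈ l.toFinset, min (r e) (b e) ≤ t := by
    rw [List.sum_toFinset _ hl]
    exact hsum
  have hcard : l.toFinset.card = 2 * k + K := by
    rw [List.toFinset_card_of_nodup hl, hlen]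
  obtain ⟨slow, hslow⟩ : ∃ s, s = l.toFinset.filter (fun e => x < min (r e) (b e)) := ⟨_, rfl⟩
  obtain ⟨fr, hfr⟩ : ∃ s, s = l.toFinset.filter (fun e => r e ≤ x) := ⟨_, rfl⟩
  obtain ⟨fb, hfb⟩ : ∃ s, s = l.toFinset.filter (fun e => b e ≤ x) := ⟨_, rfl⟩
  have h1 : (slow.card : ℝ) * x ≤ K * x := by
    refine le_trans ?_ hK
    refine le_trans ?_ hS
    have h2 : ∑ e ∈ slow, min (r e) (b e) ≤ ∑ e ∈ l.toFinset, min (r e) (b e) := by
      refine Finset.sum_le_sum_of_subset_of_nonneg ?_ fun e _ _ => (lt_min (hr e) (hb e)).le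
      rw [hslow]
      exact Finset.filter_subset _ _
    refine le_trans ?_ h2
    have h3 := Finset.card_nsmul_le_sum slow (fun e => min (r e) (b e)) x (fun e he => by
      rw [hslow, Finset.mem_filter] at he
      exact he.2.le)
    rwa [nsmul_eq_mul] at h3
  have h2 : slow.card ≤ K := by
    have := le_of_mul_le_mul_right h1 hx
    exact_mod_cast this
  have h3 : l.toFinset ⊆ slow ∪ (fr ∪ fb) := by
    intro e he
    rw [hslow, hfr, hfb]
    simp only [Finset.mem_union, Finset.mem_filter, he, true_and]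
    by_cases h : x < min (r e) (b e)
    · exact Or.inl h
    · right
      exact min_le_iff.1 (not_lt.1 h)
  have h4 := (Finset.card_le_card h3).trans (Finset.card_union_le _ _)
  have h5 := Finset.card_union_le fr fb
  have h6 : k ≤ fr.card ∨ k ≤ fb.card := by omega
  rcases h6 with h6 | h6
  · obtain ⟨F, hF, hFk⟩ := Finset.exists_subset_card_eq h6
    refine ⟨F, fun e he => ?_, hFk, Or.inl fun e he => ?_⟩
    · have := hF he
      rw [hfr, Finset.mem_filter] at this
      exact List.mem_toFinset.1 this.1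
    · have := hF he
      rw [hfr, Finset.mem_filter] at this
      exact this.2
  · obtain ⟨F, hF, hFk⟩ := Finset.exists_subset_card_eq h6
    refine ⟨F, fun e he => ?_, hFk, Or.inr fun e he => ?_⟩
    · have := hF he
      rw [hfb, Finset.mem_filter] at this
      exact List.mem_toFinset.1 this.1
    · have := hF he
      rw [hfb, Finset.mem_filter] at this
      exact this.2

/-- outside one bad event only finitely many vertices are reached -/
theorem fin_of_notBad (G : SimpleGraph V) (hfin : ∀ v, (G.neighborSet v).Finite) (o : V)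
    (ω : Env V) (hr : ∀ e, 0 < ω.2.1 e) (hb : ∀ e, 0 < ω.2.2 e) {x t : ℝ} (hx : 0 < x)
    (K k : ℕ) (hK : t ≤ K * x) (T : Finset (List (Sym2 V)))
    (hT : ∀ w (p : G.Walk o w), 2 * k + K ≤ p.length → p.edges.take (2 * k + K) ∈ T)
    (hω : ω ∉ Bad T x k) :
    {v | ∃ p : G.Walk o v, (p.edges.map (fun e => min (ω.2.1 e) (ω.2.2 e))).sum ≤ t}.Finite := by
  classical
  refine (ends_fin G hfin (2 * k + K) o).subset ?_
  rintro v ⟨p, hp⟩
  refine ⟨p.bypass, ?_⟩
  by_contra hlen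
  have hlen := not_le.1 hlen
  apply hω
  have hnd : p.bypass.edges.Nodup := (p.bypass_isPath).isTrail.edges_nodup
  have hpos : ∀ e, 0 ≤ min (ω.2.1 e) (ω.2.2 e) := fun e => (lt_min (hr e) (hb e)).le
  have hdedup : ∀ l : List (Sym2 V), ∑ e ∈ l.toFinset, min (ω.2.1 e) (ω.2.2 e) ≤
      (l.map fun e => min (ω.2.1 e) (ω.2.2 e)).sum := by
    intro l
    induction l with
    | nil => simp
    | cons a l ih =>
      rw [List.toFinset_cons, List.map_cons, List.sum_cons]
      by_cases ha : a ∈ l.toFinset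
      · rw [Finset.insert_eq_of_mem ha]
        have := hpos a
        linarith
      · rw [Finset.sum_insert ha]
        linarith
  have hsum : (((p.bypass.edges).take (2 * k + K)).map
      fun e => min (ω.2.1 e) (ω.2.2 e)).sum ≤ t := by
    refine le_trans ?_ hp
    refine le_trans ?_ (hdedup p.edges)
    rw [← List.sum_toFinset _ (hnd.sublist (List.take_sublist _ _))]
    refine Finset.sum_le_sum_of_subset_of_nonneg ?_ fun e _ _ => hpos e
    intro e he
    rw [List.mem_toFinset] at he ⊢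
    exact p.edges_bypass_subset_edges (List.mem_of_mem_take he)
  obtain ⟨F, hF, hFk, h⟩ := many (fun e => ω.2.1 e) (fun e => ω.2.2 e) hr hb _
    (hnd.sublist (List.take_sublist (2 * k + K) _)) hx hsum K k hK (by
      rw [List.length_take, SimpleGraph.Walk.length_edges]
      omega)
  exact ⟨_, hT v p.bypass hlen.le, F, hF, hFk, h⟩

end NOEX_

open NOEX_ in
theorem stmt_NOEX : Stmt_NOEX := by
  classical
  intro V _ G Δ hfin hdeg o μ lam h0 h1 hlam
  obtain ⟨ε, hε⟩ : ∃ ε : ℝ, ε = 1 / (8 * ((Δ : ℝ) + 1) ^ 2) := ⟨_, rfl⟩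
  have hΔ : (0 : ℝ) ≤ Δ := Nat.cast_nonneg Δ
  have hε0 : 0 < ε := by rw [hε]; positivity
  obtain ⟨x, hxε⟩ : ∃ x : ℝ, x = ε / (1 + lam) := ⟨_, rfl⟩
  have hx : 0 < x := by rw [hxε]; positivity
  have hx' : (1 + lam) * x ≤ ε := by
    rw [hxε]
    field_simp
    exact le_refl _
  have key : ∀ K : ℕ, ∀ᵐ ω ∂(law V μ lam), ∃ k : ℕ, ∃ T : Finset (List (Sym2 V)),
      (∀ w (p : G.Walk o w), 2 * k + K ≤ p.length → p.edges.take (2 * k + K) ∈ T) ∧
        ω ∉ Bad T x k := by
    intro K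
    have hT : ∀ k : ℕ, ∃ T : Finset (List (Sym2 V)), T.card ≤ Δ ^ (2 * k + K) ∧
        (∀ l ∈ T, l.length ≤ 2 * k + K) ∧
        ∀ w (p : G.Walk o w), 2 * k + K ≤ p.length → p.edges.take (2 * k + K) ∈ T := by
      intro k
      obtain ⟨T, hT, hT'⟩ := exists_lists G Δ hfin hdeg (2 * k + K) o
      refine ⟨T.filter (fun l => l.length ≤ 2 * k + K), (Finset.card_filter_le _ _).trans hT,
        fun l hl => (Finset.mem_filter.1 hl).2, fun w p hp => Finset.mem_filter.2 ⟨hT' w p hp, ?_⟩⟩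
      rw [List.length_take]
      exact min_le_left _ _
    choose T hT1 hT2 hT3 using hT
    rw [ae_iff]
    have hsub : {ω : Env V | ¬ ∃ k : ℕ, ∃ T : Finset (List (Sym2 V)),
        (∀ w (p : G.Walk o w), 2 * k + K ≤ p.length → p.edges.take (2 * k + K) ∈ T) ∧
          ω ∉ Bad T x k} ⊆ ⋂ k, Bad (T k) x k := by
      intro ω hω
      refine Set.mem_iInter.2 fun k => ?_
      by_contra h
      exact hω ⟨k, T k, hT3 k, h⟩
    refine measure_mono_null hsub ?_
    have hb : ∀ k : ℕ, law V μ lam (⋂ k, Bad (T k) x k) ≤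
        ENNReal.ofReal (2 * (2 * ((Δ : ℝ) + 1)) ^ K * (1 / 2) ^ k) := by
      intro k
      refine (measure_mono (Set.iInter_subset _ k)).trans ?_
      refine (bad_le h0 h1 hlam (T k) hx.le hx' k (2 * k + K) (hT2 k)).trans ?_
      have h2 : ((T k).card : ℝ≥0∞) ≤ ENNReal.ofReal (((Δ : ℝ) + 1) ^ (2 * k + K)) := by
        rw [← ENNReal.ofReal_natCast]
        apply ENNReal.ofReal_le_ofReal
        have h3 : ((T k).card : ℝ) ≤ (Δ : ℝ) ^ (2 * k + K) := by exact_mod_cast hT1 k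
        exact h3.trans (pow_le_pow_left₀ hΔ (by linarith) _)
      have h4 : (2 : ℝ≥0∞) ^ (2 * k + K) * (2 * ENNReal.ofReal ε ^ k) =
          ENNReal.ofReal (2 ^ (2 * k + K) * (2 * ε ^ k)) := by
        rw [ENNReal.ofReal_mul (by positivity), ENNReal.ofReal_mul (by norm_num),
          ENNReal.ofReal_pow (by norm_num), ENNReal.ofReal_pow hε0.le]
        norm_num
      rw [h4]
      refine (mul_le_mul_left h2 _).trans ?_
      rw [← ENNReal.ofReal_mul (by positivity)]
      apply ENNReal.ofReal_le_ofReal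
      have h5 : ((Δ : ℝ) + 1) ^ (2 * k + K) * (2 ^ (2 * k + K) * (2 * ε ^ k)) =
          2 * (2 * ((Δ : ℝ) + 1)) ^ K * ((2 * ((Δ : ℝ) + 1)) ^ 2 * ε) ^ k := by
        rw [mul_pow ((2 * ((Δ : ℝ) + 1)) ^ 2) ε k, ← pow_mul, show
          2 * (2 * ((Δ : ℝ) + 1)) ^ K * ((2 * ((Δ : ℝ) + 1)) ^ (2 * k) * ε ^ k) =
            (2 * ((Δ : ℝ) + 1)) ^ (2 * k + K) * (2 * ε ^ k) by rw [pow_add]; ring, mul_pow]
        ring
      have h6 : (2 * ((Δ : ℝ) + 1)) ^ 2 * ε = 1 / 2 := by
        rw [hε]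
        field_simp
        ring
      rw [h5, h6]
    have hlim : Filter.Tendsto (fun k : ℕ => ENNReal.ofReal
        (2 * (2 * ((Δ : ℝ) + 1)) ^ K * (1 / 2) ^ k)) Filter.atTop (nhds 0) := by
      have h7 : Filter.Tendsto (fun k : ℕ => 2 * (2 * ((Δ : ℝ) + 1)) ^ K * (1 / 2 : ℝ) ^ k)
          Filter.atTop (nhds 0) := by
        have := (tendsto_pow_atTop_nhds_zero_of_lt_one (r := (1 / 2 : ℝ)) (by norm_num)
          (by norm_num)).const_mul (2 * (2 * ((Δ : ℝ) + 1)) ^ K)
        simpa using this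
      have h8 := ENNReal.tendsto_ofReal h7
      simpa using h8
    exact le_antisymm (ge_of_tendsto' hlim hb) bot_le
  have hall : ∀ᵐ ω ∂(law V μ lam), ∀ K : ℕ, ∃ k : ℕ, ∃ T : Finset (List (Sym2 V)),
      (∀ w (p : G.Walk o w), 2 * k + K ≤ p.length → p.edges.take (2 * k + K) ∈ T) ∧
        ω ∉ Bad T x k := ae_all_iff.2 key
  filter_upwards [pos h0 h1 hlam, hall] with ω hpos hω
  refine ⟨hpos.1, hpos.2, fun t => ?_⟩
  obtain ⟨K, hK⟩ := exists_nat_ge (t / x)
  obtain ⟨k, T, hT, hbad⟩ := hω K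
  exact fin_of_notBad G hfin o ω hpos.1 hpos.2 hx K k ((div_le_iff₀ hx).1 hK) T hT hbad

end Pool.Agent.FPPHE
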