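import Pool.Agent.Work.MP_04d5a3_full.ANIM
import Pool.Agent.Work.MP_04d5a3_full.BADP

/-!
# FPPHE (MP_04d5a3_pr): block PSP, sparsity with positive probability
-/

namespace Pool.Agent.FPPHE.PSP_

open MeasureTheory ProbabilityTheory BADP_
open scoped ENNReal

variable {V : Type}

lemma Mst_pos : 0 < Mst := by
  unfold Mst hh C1
  positivity

lemma clock_pos1 [Countable V] {μ lam : ℝ} (h0 : 0 ≤ μ) (h1 : μ ≤ 1) (hl : 0 < lam) :
    ∀ᵐ ω ∂(law V μ lam), ∀ e, 0 < ω.2.1 e := by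
  rw [ae_all_iff]
  intro e
  rw [ae_iff]
  have h := law_box (V := V) h0 h1 hl ∅ {e} ∅ (fun _ => Set.univ) (fun _ => Set.Iic 0)
    (fun _ => Set.univ) (fun _ => measurableSet_Iic) (fun _ => MeasurableSet.univ)
  have h2 : expMeasure 1 (Set.Iic 0) = 0 := by
    have := exp_head (lam := 1) (B := 0) one_pos le_rfl
    simpa using this
  simp only [Finset.prod_empty, Finset.prod_singleton, h2, one_mul, zero_mul] at h
  rw [← h]
  congr 1
  ext ω
  simp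

lemma clock_pos2 [Countable V] {μ lam : ℝ} (h0 : 0 ≤ μ) (h1 : μ ≤ 1) (hl : 0 < lam) :
    ∀ᵐ ω ∂(law V μ lam), ∀ e, 0 < ω.2.2 e := by
  rw [ae_all_iff]
  intro e
  rw [ae_iff]
  have h := law_box (V := V) h0 h1 hl ∅ ∅ {e} (fun _ => Set.univ) (fun _ => Set.univ)
    (fun _ => Set.Iic 0) (fun _ => MeasurableSet.univ) (fun _ => measurableSet_Iic)
  have h2 : expMeasure lam (Set.Iic 0) = 0 := by
    have := exp_head (lam := lam) (B := 0) hl le_rfl
    simpa using this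
  simp only [Finset.prod_empty, Finset.prod_singleton, h2, one_mul] at h
  rw [← h]
  congr 1
  ext ω
  simp

/-- probability that a given set is dense -/
lemma dense_prob (P : Measure (Env V)) (bad : Env V → Set V) (M : ℕ) (θ : ℝ≥0∞) (hθ : θ ≤ 1)
    (hP : ∀ S : Finset V, P {ω | ∀ v ∈ S, v ∈ bad ω} ≤ θ ^ (M * S.card)) (S : Set V)
    (hS : S.Finite) :
    P {ω | S.ncard ≤ M * (S ∩ bad ω).ncard} ≤ 2 ^ S.ncard * θ ^ S.ncard := by
  classical
  set F : Finset V := hS.toFinset with hF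
  have hFc : F.card = S.ncard := by rw [hF, ← Set.ncard_eq_toFinset_card _ hS]
  set W : Finset (Finset V) := F.powerset.filter (fun B => S.ncard ≤ M * B.card) with hW
  have hsub : {ω | S.ncard ≤ M * (S ∩ bad ω).ncard} ⊆ ⋃ B ∈ W, {ω | ∀ v ∈ B, v ∈ bad ω} := by
    intro ω hω
    have hfin : (S ∩ bad ω).Finite := hS.subset Set.inter_subset_left
    simp only [Set.mem_iUnion]
    refine ⟨hfin.toFinset, ?_, ?_⟩
    · rw [hW, Finset.mem_filter, Finset.mem_powerset]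
      refine ⟨?_, ?_⟩
      · intro x hx
        rw [Set.Finite.mem_toFinset] at hx
        rw [hF, Set.Finite.mem_toFinset]
        exact hx.1
      · rw [← Set.ncard_eq_toFinset_card _ hfin]
        exact hω
    · intro v hv
      rw [Set.Finite.mem_toFinset] at hv
      exact hv.2
  calc P {ω | S.ncard ≤ M * (S ∩ bad ω).ncard}
      ≤ P (⋃ B ∈ W, {ω | ∀ v ∈ B, v ∈ bad ω}) := measure_mono hsub
    _ ≤ ∑ B ∈ W, P {ω | ∀ v ∈ B, v ∈ bad ω} := measure_biUnion_finset_le _ _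
    _ ≤ ∑ B ∈ W, θ ^ S.ncard := by
        apply Finset.sum_le_sum
        intro B hB
        refine (hP B).trans ?_
        exact pow_le_pow_of_le_one (by simp) hθ (Finset.mem_filter.mp hB).2
    _ = W.card * θ ^ S.ncard := by rw [Finset.sum_const, nsmul_eq_mul]
    _ ≤ 2 ^ S.ncard * θ ^ S.ncard := by
        gcongr
        have : W.card ≤ 2 ^ S.ncard := by
          calc W.card ≤ F.powerset.card := Finset.card_filter_le _ _
            _ = 2 ^ S.ncard := by rw [Finset.card_powerset, hFc]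
        exact_mod_cast this

/-- the event that there is a dense set of size `n` containing `v` -/
def ev (G : SimpleGraph V) (bad : Env V → Set V) (M : ℕ) (v : V) (n : ℕ) : Set (Env V) :=
  {ω | ∃ S, Dense G (bad ω) M S ∧ v ∈ S ∧ S.ncard = n}

lemma ev_prob (G : SimpleGraph V) (Δ : ℕ) (hΔ : 1 ≤ Δ) (hfin : ∀ v, (G.neighborSet v).Finite)
    (hdeg : ∀ v, (G.neighborSet v).ncard ≤ Δ)
    (P : Measure (Env V)) (bad : Env V → Set V) (M : ℕ) (θ : ℝ≥0∞) (hθ : θ ≤ 1)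
    (hP : ∀ S : Finset V, P {ω | ∀ v ∈ S, v ∈ bad ω} ≤ θ ^ (M * S.card)) (v : V) (n : ℕ) :
    P (ev G bad M v n) ≤ ((Δ : ℝ≥0∞) ^ 2 * 2 * θ) ^ n := by
  classical
  obtain ⟨hF, hc⟩ := anim_aux V G Δ hfin hdeg hΔ v n
  set F := {S : Set V | S.Finite ∧ (G.induce S).Connected ∧ v ∈ S ∧ S.ncard = n} with hFdef
  have hsub : ev G bad M v n ⊆ ⋃ S ∈ hF.toFinset, {ω | S.ncard ≤ M * (S ∩ bad ω).ncard} := by
    rintro ω ⟨S, ⟨h1, h2, h3⟩, h4, h5⟩
    simp only [Set.mem_iUnion]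
    refine ⟨S, ?_, h3⟩
    rw [Set.Finite.mem_toFinset]
    exact ⟨h1, h2, h4, h5⟩
  calc P (ev G bad M v n) ≤ P (⋃ S ∈ hF.toFinset, {ω | S.ncard ≤ M * (S ∩ bad ω).ncard}) :=
        measure_mono hsub
    _ ≤ ∑ S ∈ hF.toFinset, P {ω | S.ncard ≤ M * (S ∩ bad ω).ncard} :=
        measure_biUnion_finset_le _ _
    _ ≤ ∑ S ∈ hF.toFinset, 2 ^ n * θ ^ n := by
        apply Finset.sum_le_sum
        intro S hS
        rw [Set.Finite.mem_toFinset] at hS
        obtain ⟨h1, h2, h3, h4⟩ := hS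
        have := dense_prob P bad M θ hθ hP S h1
        rw [h4] at this ⊢
        exact this
    _ = hF.toFinset.card * (2 ^ n * θ ^ n) := by rw [Finset.sum_const, nsmul_eq_mul]
    _ ≤ (Δ : ℝ≥0∞) ^ (2 * n) * (2 ^ n * θ ^ n) := by
        gcongr
        have : hF.toFinset.card ≤ Δ ^ (2 * n) := by
          rw [← Set.ncard_eq_toFinset_card _ hF]; exact hc
        exact_mod_cast this
    _ = ((Δ : ℝ≥0∞) ^ 2 * 2 * θ) ^ n := by rw [mul_pow, mul_pow, ← pow_mul]; ring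

lemma ev_zero (G : SimpleGraph V) (bad : Env V → Set V) (M : ℕ) (v : V) :
    ev G bad M v 0 = ∅ := by
  ext ω
  simp only [ev, Set.mem_ofPred_eq, Set.mem_empty_iff_false, iff_false]
  rintro ⟨S, ⟨h1, _, _⟩, h4, h5⟩
  rw [Set.ncard_eq_zero h1] at h5
  rw [h5] at h4
  exact h4

end Pool.Agent.FPPHE.PSP_

namespace Pool.Agent.FPPHE

open PSP_ BADP_ MeasureTheory ProbabilityTheory
open scoped ENNReal

theorem stmt_PSP : Stmt_PSP := by
  classical
  intro V _ G Δ₀ hfin hdeg₀ hpar o Γ hΓ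
  set Δ := max Δ₀ 1 with hΔ
  have hΔ1 : 1 ≤ Δ := le_max_right _ _
  have hdeg : ∀ v, (G.neighborSet v).ncard ≤ Δ := fun v => (hdeg₀ v).trans (le_max_left _ _)
  have hΔr : (1 : ℝ) ≤ Δ := by exact_mod_cast hΔ1
  set θ : ℝ := 1 / (8 * (Δ : ℝ) ^ 2) with hθ
  have hθ0 : 0 < θ := by positivity
  have hθ1 : θ ≤ 1 := by
    rw [hθ, div_le_one (by positivity)]
    nlinarith
  obtain ⟨μ, lam, A, hμ0, hμ1, hlam, hA, hP⟩ := stmt_BADP V inferInstance G Δ hfin hdeg hpar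
    (θ ^ (2 * Mst)) (by positivity) Γ hΓ
  refine ⟨μ, lam, A, hμ0, hμ1, hlam, hA, ?_⟩
  set P := law V μ lam with hPdef
  have hprob : IsProbabilityMeasure P := law_prob hμ0.le hμ1.le hlam
  set bad : Env V → Set V := fun ω => badSet G ω A (Γ * A) with hbad
  set t : ℝ≥0∞ := ENNReal.ofReal θ with ht
  have ht1 : t ≤ 1 := by
    rw [ht, ← ENNReal.ofReal_one]; exact ENNReal.ofReal_le_ofReal hθ1
  have hP' : ∀ S : Finset V, P {ω | ∀ v ∈ S, v ∈ bad ω} ≤ t ^ (Mst * S.card) := by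
    intro S
    have h1 := hP S
    rw [ENNReal.ofReal_pow hθ0.le] at h1
    have h2 : (ENNReal.ofReal θ ^ (2 * Mst)) ^ S.card = (t ^ (Mst * S.card)) ^ 2 := by
      rw [ht, ← pow_mul, ← pow_mul]; congr 1; ring
    rw [h2] at h1
    exact (ENNReal.pow_le_pow_left_iff (by norm_num)).mp h1
  have hrate : ((Δ : ℝ≥0∞) ^ 2 * 2 * t) = 4⁻¹ := by
    have h1 : (Δ : ℝ≥0∞) ^ 2 * 2 * t = ENNReal.ofReal ((Δ : ℝ) ^ 2 * 2 * θ) := by
      rw [ENNReal.ofReal_mul (by positivity), ENNReal.ofReal_mul (by positivity),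
        ENNReal.ofReal_pow (by positivity)]
      simp [ht]
    rw [h1, hθ]
    have h2 : (Δ : ℝ) ^ 2 * 2 * (1 / (8 * (Δ : ℝ) ^ 2)) = 4⁻¹ := by
      field_simp
      norm_num
    rw [h2, ENNReal.ofReal_inv_of_pos (by norm_num)]
    norm_num
  have hev : ∀ v n, P (ev G bad Mst v n) ≤ (4⁻¹ : ℝ≥0∞) ^ n := by
    intro v n
    rw [← hrate]
    exact ev_prob G Δ hΔ1 hfin hdeg P bad Mst t ht1 hP' v n
  have hgeom : (∑' n : ℕ, (4⁻¹ : ℝ≥0∞) ^ n) ≤ 2 := by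
    rw [ENNReal.tsum_geometric]
    rw [ENNReal.inv_le_iff_inv_le]
    have h1 : (4⁻¹ : ℝ≥0∞) ≤ 2⁻¹ := by
      rw [ENNReal.inv_le_inv]; norm_num
    have h2 : (1 : ℝ≥0∞) - 2⁻¹ = 2⁻¹ := ENNReal.one_sub_inv_two
    calc (2⁻¹ : ℝ≥0∞) = 1 - 2⁻¹ := h2.symm
      _ ≤ 1 - 4⁻¹ := tsub_le_tsub_left h1 _
  -- sparse
  have hsparse : ∀ᵐ ω ∂P, Sparse G (bad ω) Mst := by
    have h1 : ∀ᵐ ω ∂P, ∀ v, ∀ᶠ n in Filter.atTop, ω ∉ ev G bad Mst v n := by
      rw [ae_all_iff]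
      intro v
      apply ae_eventually_notMem
      apply ne_of_lt
      calc (∑' n, P (ev G bad Mst v n)) ≤ ∑' n, (4⁻¹ : ℝ≥0∞) ^ n :=
            ENNReal.tsum_le_tsum (hev v)
        _ ≤ 2 := hgeom
        _ < ⊤ := by norm_num
    filter_upwards [h1] with ω hω v
    obtain ⟨N0, hN0⟩ := Filter.eventually_atTop.mp (hω v)
    have hfinU : (⋃ n ∈ Finset.range N0,
        {S : Set V | S.Finite ∧ (G.induce S).Connected ∧ v ∈ S ∧ S.ncard = n}).Finite := by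
      apply Set.Finite.biUnion (Finset.finite_toSet _)
      intro n _
      exact (anim_aux V G Δ hfin hdeg hΔ1 v n).1
    refine hfinU.subset ?_
    rintro S ⟨hS, hvS⟩
    simp only [Set.mem_iUnion]
    refine ⟨S.ncard, ?_, hS.1, hS.2.1, hvS, rfl⟩
    by_contra hcon
    have h2 : N0 ≤ S.ncard := by simpa using hcon
    exact hN0 _ h2 ⟨S, hS, hvS, rfl⟩
  have hpos1 := clock_pos1 (V := V) hμ0.le hμ1.le hlam
  have hpos2 := clock_pos2 (V := V) hμ0.le hμ1.le hlam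
  -- no dense set at o
  have hno : P {ω | ∃ S, Dense G (bad ω) Mst S ∧ o ∈ S} ≤ 2⁻¹ := by
    have hsub : {ω | ∃ S, Dense G (bad ω) Mst S ∧ o ∈ S} ⊆ ⋃ n : ℕ, ev G bad Mst o (n + 1) := by
      rintro ω ⟨S, hS, hoS⟩
      simp only [Set.mem_iUnion]
      have h0 : ω ∉ ev G bad Mst o 0 := by rw [ev_zero]; simp
      have h1 : S.ncard ≠ 0 := fun h => h0 ⟨S, hS, hoS, h⟩
      exact ⟨S.ncard - 1, S, hS, hoS, by omega⟩
    calc P {ω | ∃ S, Dense G (bad ω) Mst S ∧ o ∈ S}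
        ≤ P (⋃ n : ℕ, ev G bad Mst o (n + 1)) := measure_mono hsub
      _ ≤ ∑' n, P (ev G bad Mst o (n + 1)) := measure_iUnion_le _
      _ ≤ ∑' n : ℕ, (4⁻¹ : ℝ≥0∞) ^ (n + 1) := ENNReal.tsum_le_tsum (fun n => hev o (n + 1))
      _ = 4⁻¹ * ∑' n : ℕ, (4⁻¹ : ℝ≥0∞) ^ n := by
          rw [← ENNReal.tsum_mul_left]
          congr 1
          ext n
          rw [pow_succ']
      _ ≤ 4⁻¹ * 2 := by gcongr
      _ = 2⁻¹ := by
          have : (4 : ℝ≥0∞) = 2 * 2 := by norm_num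
          rw [this, ENNReal.mul_inv (by norm_num) (by norm_num), mul_assoc,
            ENNReal.inv_mul_cancel (by norm_num) (by norm_num), mul_one]
  set Z : Set (Env V) := {ω | ¬ ((∀ e, 0 < ω.2.1 e) ∧ (∀ e, 0 < ω.2.2 e) ∧
    Sparse G (bad ω) Mst)} ∪ {ω | ∃ S, Dense G (bad ω) Mst S ∧ o ∈ S} with hZ
  have hZle : P Z ≤ 2⁻¹ := by
    have h1 : P {ω | ¬ ((∀ e, 0 < ω.2.1 e) ∧ (∀ e, 0 < ω.2.2 e) ∧
        Sparse G (bad ω) Mst)} = 0 := by
      rw [← ae_iff]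
      filter_upwards [hpos1, hpos2, hsparse] with ω a b c
      exact ⟨a, b, c⟩
    calc P Z ≤ _ + _ := measure_union_le _ _
      _ ≤ 0 + 2⁻¹ := add_le_add h1.le hno
      _ = 2⁻¹ := zero_add _
  refine ⟨(toMeasurable P Z)ᶜ, (measurableSet_toMeasurable _ _).compl, ?_, ?_⟩
  · rw [prob_compl_eq_one_sub (measurableSet_toMeasurable _ _), measure_toMeasurable]
    rw [tsub_pos_iff_lt]
    refine hZle.trans_lt ?_
    rw [ENNReal.inv_lt_one]
    norm_num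
  · intro ω hω
    have hωZ : ω ∉ Z := fun h => hω (subset_toMeasurable P Z h)
    rw [hZ, Set.mem_union, not_or] at hωZ
    obtain ⟨h1, h2⟩ := hωZ
    simp only [Set.mem_ofPred_eq, not_not] at h1
    refine ⟨h1.1, h1.2.1, h1.2.2, ?_⟩
    intro S hS hoS
    exact h2 ⟨S, hS, hoS⟩

end Pool.Agent.FPPHE
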