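import Pool.Agent.Work.MP_04d5a3_full.Interface

/-!
# FPPHE (MP_04d5a3_pr): block QC (quasi-convexity of `{U < 1}` on `H □ H`), helper31
-/

namespace Pool.Agent.FPPHE

namespace QC_

open SimpleGraph

variable {Λ : Type} {H : SimpleGraph Λ} {N : ℕ}

/-- counting neighbours with large `U` -/
lemma count {V : Type} {G : SimpleGraph V} {U : V → ℝ} (hU : ∀ v, 0 ≤ U v) {v : V}
    (hf : (G.neighborSet v).Finite)
    (h : ∑ᶠ x ∈ G.neighborSet v, U x ≤ (N : ℝ) ^ 16 * max (U v) 1) {S : Set V}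
    (hS : S ⊆ G.neighborSet v) (hS2 : ∀ x ∈ S, max (U v) 1 ≤ (N : ℝ) ^ 2 * U x) :
    S.ncard ≤ N ^ 18 := by
  have hSf : S.Finite := hf.subset hS
  rw [finsum_mem_eq_finite_toFinset_sum _ hf] at h
  have h1 : (S.ncard : ℝ) * max (U v) 1 ≤ (N : ℝ) ^ 2 * ∑ x ∈ hf.toFinset, U x := by
    rw [Set.ncard_eq_toFinset_card S hSf]
    calc ((hSf.toFinset.card : ℕ) : ℝ) * max (U v) 1
        = ∑ x ∈ hSf.toFinset, max (U v) 1 := by simp
      _ ≤ ∑ x ∈ hSf.toFinset, (N : ℝ) ^ 2 * U x :=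
          Finset.sum_le_sum (fun x hx => hS2 x (by simpa using hx))
      _ ≤ ∑ x ∈ hf.toFinset, (N : ℝ) ^ 2 * U x :=
          Finset.sum_le_sum_of_subset_of_nonneg (by simpa using hS)
            (fun x _ _ => mul_nonneg (by positivity) (hU x))
      _ = _ := by rw [Finset.mul_sum]
  have h2 : (0 : ℝ) < max (U v) 1 := lt_of_lt_of_le one_pos (le_max_right _ _)
  have h3 : (S.ncard : ℝ) * max (U v) 1 ≤ (N : ℝ) ^ 18 * max (U v) 1 := by
    calc (S.ncard : ℝ) * max (U v) 1 ≤ (N : ℝ) ^ 2 * ∑ x ∈ hf.toFinset, U x := h1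
      _ ≤ (N : ℝ) ^ 2 * ((N : ℝ) ^ 16 * max (U v) 1) :=
          mul_le_mul_of_nonneg_left h (by positivity)
      _ = _ := by ring
  have h4 := le_of_mul_le_mul_right h3 h2
  exact_mod_cast h4

/-- few neighbours are large -/
def GoodF (H : SimpleGraph Λ) (N : ℕ) (φ : Λ → ℝ) : Prop :=
  ∀ z, φ z < (N : ℝ) ^ 340 → {z' | H.Adj z z' ∧ max (φ z) 1 ≤ (N : ℝ) ^ 2 * φ z'}.ncard ≤ N ^ 18

lemma nbr_fin (hF : Fac H N) (a : Λ) : (H.neighborSet a).Finite := by
  apply Set.finite_of_ncard_pos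
  rw [hF.reg]
  have := hF.big
  unfold Nbig at this
  positivity

lemma box_fin (hF : Fac H N) (v : Λ × Λ) : ((H.boxProd H).neighborSet v).Finite := by
  rw [neighborSet_boxProd]
  exact ((nbr_fin hF _).prod (Set.finite_singleton _)).union
    ((Set.finite_singleton _).prod (nbr_fin hF _))

variable {C : Set (Λ × Λ)} {U : Λ × Λ → ℝ}

lemma good_right (hF : Fac H N) (hU : ∀ v, 0 ≤ U v)
    (h1 : ∀ v, v ∉ C → ∑ᶠ x ∈ (H.boxProd H).neighborSet v, U x ≤ (N : ℝ) ^ 16 * max (U v) 1)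
    (h2 : ∀ v ∈ C, (N : ℝ) ^ 340 ≤ U v) (a : Λ) : GoodF H N (fun z => U (a, z)) := by
  intro z hz
  have hzC : (a, z) ∉ C := fun h => absurd (h2 _ h) (not_le.mpr hz)
  have := count hU (box_fin hF (a, z)) (h1 _ hzC)
    (S := (fun z' => (a, z')) '' {z' | H.Adj z z' ∧ max (U (a, z)) 1 ≤ (N : ℝ) ^ 2 * U (a, z')}) ?_ ?_
  · rwa [Set.ncard_image_of_injective _ (fun x y h => (Prod.mk.inj h).2)] at this
  · rintro x ⟨z', ⟨h, _⟩, rfl⟩
    simpa [boxProd_adj] using h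
  · rintro x ⟨z', ⟨_, h⟩, rfl⟩
    exact h

lemma good_left (hF : Fac H N) (hU : ∀ v, 0 ≤ U v)
    (h1 : ∀ v, v ∉ C → ∑ᶠ x ∈ (H.boxProd H).neighborSet v, U x ≤ (N : ℝ) ^ 16 * max (U v) 1)
    (h2 : ∀ v ∈ C, (N : ℝ) ^ 340 ≤ U v) (b : Λ) : GoodF H N (fun z => U (z, b)) := by
  intro z hz
  have hzC : (z, b) ∉ C := fun h => absurd (h2 _ h) (not_le.mpr hz)
  have := count hU (box_fin hF (z, b)) (h1 _ hzC)
    (S := (fun z' => (z', b)) '' {z' | H.Adj z z' ∧ max (U (z, b)) 1 ≤ (N : ℝ) ^ 2 * U (z', b)}) ?_ ?_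
  · rwa [Set.ncard_image_of_injective _ (fun x y h => (Prod.mk.inj h).1)] at this
  · rintro x ⟨z', ⟨h, _⟩, rfl⟩
    simpa [boxProd_adj] using h
  · rintro x ⟨z', ⟨_, h⟩, rfl⟩
    exact h

/-- one step of U along an edge -/
lemma step_le (hF : Fac H N) (hU : ∀ v, 0 ≤ U v)
    (h1 : ∀ v, v ∉ C → ∑ᶠ x ∈ (H.boxProd H).neighborSet v, U x ≤ (N : ℝ) ^ 16 * max (U v) 1)
    (h2 : ∀ v ∈ C, (N : ℝ) ^ 340 ≤ U v) {s x : Λ × Λ} (hs : U s < 1)
    (ha : (H.boxProd H).Adj s x) : U x ≤ (N : ℝ) ^ 16 := by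
  have hN : (1 : ℝ) ≤ N := by
    have := hF.big
    unfold Nbig at this
    exact_mod_cast le_trans (by norm_num) this
  have hzC : s ∉ C := fun h => by
    have h3 := h2 _ h
    have h4 : (1 : ℝ) ≤ (N : ℝ) ^ 340 := one_le_pow₀ hN
    linarith
  have h3 := h1 s hzC
  rw [max_eq_right hs.le, mul_one, finsum_mem_eq_finite_toFinset_sum _ (box_fin hF s)] at h3
  refine le_trans ?_ h3
  exact Finset.single_le_sum (f := U) (fun i _ => hU i) (by simpa using ha)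

/-- one step of the climb -/
lemma one_step (hF : Fac H N) {φ₁ φ₂ ψ : Λ → ℝ} (g1 : GoodF H N φ₁) (g2 : GoodF H N φ₂)
    (g3 : GoodF H N ψ) {z : Λ} (z1 : φ₁ z < 1) (z2 : φ₂ z < 1) (z3 : ψ z < (N : ℝ) ^ 340) :
    ∃ z', H.Adj z z' ∧ φ₁ z' < 1 ∧ φ₂ z' < 1 ∧ (N : ℝ) ^ 2 * ψ z' < max (ψ z) 1 := by
  have hNb : 10 ^ 10 ≤ N := by
    have := hF.big
    unfold Nbig at this
    exact this
  have hN : (1 : ℝ) ≤ N := by exact_mod_cast le_trans (by norm_num) hNb
  have hN2 : (1 : ℝ) ≤ (N : ℝ) ^ 2 := one_le_pow₀ hN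
  have hN340 : (1 : ℝ) ≤ (N : ℝ) ^ 340 := one_le_pow₀ hN
  by_contra hcon
  push Not at hcon
  set A1 := {z' | H.Adj z z' ∧ max (φ₁ z) 1 ≤ (N : ℝ) ^ 2 * φ₁ z'} with hA1
  set A2 := {z' | H.Adj z z' ∧ max (φ₂ z) 1 ≤ (N : ℝ) ^ 2 * φ₂ z'} with hA2
  set A3 := {z' | H.Adj z z' ∧ max (ψ z) 1 ≤ (N : ℝ) ^ 2 * ψ z'} with hA3
  have hsub : H.neighborSet z ⊆ A1 ∪ (A2 ∪ A3) := by
    intro z' hz'
    have hz' : H.Adj z z' := hz'
    by_cases c1 : φ₁ z' < 1
    · by_cases c2 : φ₂ z' < 1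
      · right; right
        exact ⟨hz', hcon z' hz' c1 c2⟩
      · right; left
        refine ⟨hz', ?_⟩
        rw [max_eq_right z2.le]
        push Not at c2
        nlinarith
    · left
      refine ⟨hz', ?_⟩
      rw [max_eq_right z1.le]
      push Not at c1
      nlinarith
  have f1 : A1.Finite := (nbr_fin hF z).subset (fun z' h => h.1)
  have f2 : A2.Finite := (nbr_fin hF z).subset (fun z' h => h.1)
  have f3 : A3.Finite := (nbr_fin hF z).subset (fun z' h => h.1)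
  have c1 : A1.ncard ≤ N ^ 18 := g1 z (lt_of_lt_of_le z1 hN340)
  have c2 : A2.ncard ≤ N ^ 18 := g2 z (lt_of_lt_of_le z2 hN340)
  have c3 : A3.ncard ≤ N ^ 18 := g3 z z3
  have h5 := Set.ncard_le_ncard hsub (f1.union (f2.union f3))
  have h6 := Set.ncard_union_le A1 (A2 ∪ A3)
  have h7 := Set.ncard_union_le A2 A3
  rw [hF.reg] at h5
  have h8 : N ^ 20 ≤ 3 * N ^ 18 := by omega
  have h9 : 3 * N ^ 18 < N ^ 20 := by
    have : N ^ 20 = N ^ 2 * N ^ 18 := by ring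
    rw [this]
    have h10 : 0 < N ^ 18 := by positivity
    have h11 : 3 < N ^ 2 := by nlinarith
    exact Nat.mul_lt_mul_of_pos_right h11 h10
  omega

/-- the climb -/
lemma climb (hF : Fac H N) {φ₁ φ₂ ψ : Λ → ℝ} (g1 : GoodF H N φ₁) (g2 : GoodF H N φ₂)
    (g3 : GoodF H N ψ) : ∀ (k : ℕ), k ≤ 100 → ∀ (z : Λ), φ₁ z < 1 → φ₂ z < 1 →
    ψ z ≤ (N : ℝ) ^ (2 * k) →
    ∃ z', ∃ p : H.Walk z z', p.length = k + 1 ∧ (∀ w ∈ p.support, φ₁ w < 1 ∧ φ₂ w < 1) ∧ ψ z' < 1 := by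
  have hNb : 10 ^ 10 ≤ N := by
    have := hF.big
    unfold Nbig at this
    exact this
  have hN : (1 : ℝ) < N := by exact_mod_cast lt_of_lt_of_le (by norm_num) hNb
  have hN2 : (1 : ℝ) < (N : ℝ) ^ 2 := one_lt_pow₀ hN (by norm_num)
  intro k
  induction k with
  | zero =>
    intro _ z z1 z2 z3
    have z3' : ψ z ≤ 1 := by simpa using z3
    obtain ⟨z', hz', a1, a2, a3⟩ := one_step hF g1 g2 g3 z1 z2
      (lt_of_le_of_lt z3' (one_lt_pow₀ hN (by norm_num)))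
    refine ⟨z', Walk.cons hz' Walk.nil, by simp, ?_, ?_⟩
    · intro w hw
      simp only [Walk.support_cons, Walk.support_nil, List.mem_cons, List.not_mem_nil, or_false] at hw
      rcases hw with rfl | rfl
      · exact ⟨z1, z2⟩
      · exact ⟨a1, a2⟩
    · rw [max_eq_right z3'] at a3
      by_contra hc
      push Not at hc
      nlinarith
  | succ k ih =>
    intro hk z z1 z2 z3
    obtain ⟨z', hz', a1, a2, a3⟩ := one_step hF g1 g2 g3 z1 z2
      (lt_of_le_of_lt z3 (pow_lt_pow_right₀ hN (by omega)))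
    have h5 : ψ z' ≤ (N : ℝ) ^ (2 * k) := by
      have h6 : max (ψ z) 1 ≤ (N : ℝ) ^ 2 * (N : ℝ) ^ (2 * k) := by
        apply max_le
        · refine le_trans z3 (le_of_eq ?_)
          ring
        · have : (1 : ℝ) ≤ (N : ℝ) ^ (2 * k) := one_le_pow₀ hN.le
          nlinarith
      exact le_of_mul_le_mul_left (a3.le.trans h6) (by positivity)
    obtain ⟨z'', p, hp, hp2, hp3⟩ := ih (by omega) z' a1 a2 h5
    refine ⟨z'', Walk.cons hz' p, by simp [hp], ?_, hp3⟩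
    intro w hw
    simp only [Walk.support_cons, List.mem_cons] at hw
    rcases hw with rfl | hw
    · exact ⟨z1, z2⟩
    · exact hp2 w hw

/-- joined inside `{U < 1}` by at most `n` steps -/
def Jn (H : SimpleGraph Λ) (U : Λ × Λ → ℝ) (n : ℕ) (s s' : Λ × Λ) : Prop :=
  ∃ p : (H.boxProd H).Walk s s', (∀ w ∈ p.support, U w < 1) ∧ p.length ≤ n

lemma Jn.trans {n m : ℕ} {a b c : Λ × Λ} (h : Jn H U n a b) (h' : Jn H U m b c) :
    Jn H U (n + m) a c := by
  obtain ⟨p, hp, hp2⟩ := h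
  obtain ⟨q, hq, hq2⟩ := h'
  refine ⟨p.append q, ?_, ?_⟩
  · intro w hw
    rw [Walk.mem_support_append_iff] at hw
    rcases hw with hw | hw
    · exact hp w hw
    · exact hq w hw
  · rw [Walk.length_append]
    omega

lemma Jn.mono {n m : ℕ} {a b : Λ × Λ} (h : Jn H U n a b) (hnm : n ≤ m) : Jn H U m a b := by
  obtain ⟨p, hp, hp2⟩ := h
  exact ⟨p, hp, hp2.trans hnm⟩

lemma Jn.refl {a : Λ × Λ} (h : U a < 1) : Jn H U 0 a a :=
  ⟨Walk.nil, by simpa using h, by simp⟩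

lemma Jn.adj {a b : Λ × Λ} (h : (H.boxProd H).Adj a b) (ha : U a < 1) (hb : U b < 1) :
    Jn H U 1 a b :=
  ⟨Walk.cons h Walk.nil, by
    intro w hw
    simp only [Walk.support_cons, Walk.support_nil, List.mem_cons, List.not_mem_nil, or_false] at hw
    rcases hw with rfl | rfl
    · exact ha
    · exact hb, by simp⟩

lemma Jn.symm {n : ℕ} {a b : Λ × Λ} (h : Jn H U n a b) : Jn H U n b a := by
  obtain ⟨p, hp, hp2⟩ := h
  exact ⟨p.reverse, by simpa using hp, by simpa using hp2⟩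

lemma jn_right {a z z' : Λ} (p : H.Walk z z') (hp : ∀ w ∈ p.support, U (a, w) < 1) :
    Jn H U p.length (a, z) (a, z') := by
  induction p with
  | nil => exact Jn.refl (hp _ (by simp))
  | @cons u v w h p ih =>
    have h1 : Jn H U 1 (a, u) (a, v) :=
      Jn.adj (by simpa [boxProd_adj] using h) (hp _ (by simp)) (hp _ (by simp))
    have h2 := ih (fun w hw => hp w (by simp [hw]))
    refine (h1.trans h2).mono ?_
    simp [Walk.length_cons]
    omega

lemma jn_left {b z z' : Λ} (p : H.Walk z z') (hp : ∀ w ∈ p.support, U (w, b) < 1) :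
    Jn H U p.length (z, b) (z', b) := by
  induction p with
  | nil => exact Jn.refl (hp _ (by simp))
  | @cons u v w h p ih =>
    have h1 : Jn H U 1 (u, b) (v, b) :=
      Jn.adj (by simpa [boxProd_adj] using h) (hp _ (by simp)) (hp _ (by simp))
    have h2 := ih (fun w hw => hp w (by simp [hw]))
    refine (h1.trans h2).mono ?_
    simp [Walk.length_cons]
    omega

section main

variable (hF : Fac H N) (hU : ∀ v, 0 ≤ U v)
    (h1 : ∀ v, v ∉ C → ∑ᶠ x ∈ (H.boxProd H).neighborSet v, U x ≤ (N : ℝ) ^ 16 * max (U v) 1)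
    (h2 : ∀ v ∈ C, (N : ℝ) ^ 340 ≤ U v)

include hF hU h1 h2

lemma part1 {y v : Λ} (q : H.Walk y v) : ∀ z : Λ, U (y, z) < 1 →
    ∃ z', Jn H U (10 * q.length) (y, z) (v, z') ∧ U (v, z') < 1 ∧
      ∃ r : H.Walk z z', r.length = 9 * q.length := by
  induction q with
  | nil =>
    intro z hz
    exact ⟨z, Jn.refl hz, hz, Walk.nil, by simp⟩
  | @cons a a' v h q ih =>
    intro z hz
    have hψ : U (a', z) ≤ (N : ℝ) ^ (2 * 8) :=
      step_le hF hU h1 h2 hz (by simpa [boxProd_adj] using h)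
    obtain ⟨z', p, hp, hp2, hp3⟩ := climb hF (good_right hF hU h1 h2 a) (good_right hF hU h1 h2 a)
      (good_right hF hU h1 h2 a') 8 (by norm_num) z hz hz hψ
    obtain ⟨z'', j, hz'', r, hr⟩ := ih z' hp3
    have j1 : Jn H U p.length (a, z) (a, z') := jn_right p (fun w hw => (hp2 w hw).1)
    have j2 : Jn H U 1 (a, z') (a', z') :=
      Jn.adj (by simpa [boxProd_adj] using h) (hp2 _ (by simp)).1 hp3
    refine ⟨z'', ((j1.trans j2).trans j).mono ?_, hz'', p.append r, ?_⟩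
    · rw [Walk.length_cons, hp]
      omega
    · rw [Walk.length_append, Walk.length_cons, hp, hr]
      omega

lemma part2 {c b : Λ} (q : H.Walk c b) : ∀ w : Λ, U (w, b) < 1 → U (w, c) < 1 →
    Jn H U (19 * q.length) (w, c) (w, b) := by
  induction q with
  | nil =>
    intro w hw _
    exact Jn.refl hw
  | @cons c c1 b h q ih =>
    intro w hw hwc
    have hψ : U (w, c1) ≤ (N : ℝ) ^ (2 * 8) :=
      step_le hF hU h1 h2 hwc (by simpa [boxProd_adj] using h)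
    obtain ⟨w', p, hp, hp2, hp3⟩ := climb hF (good_left hF hU h1 h2 b) (good_left hF hU h1 h2 c)
      (good_left hF hU h1 h2 c1) 8 (by norm_num) w hw hwc hψ
    have j1 : Jn H U p.length (w, c) (w', c) := jn_left p (fun w hw => (hp2 w hw).2)
    have j2 : Jn H U 1 (w', c) (w', c1) :=
      Jn.adj (by simpa [boxProd_adj] using h) (hp2 _ (by simp)).2 hp3
    have j3 := ih w' (hp2 w' (by simp)).1 hp3
    have j4 : Jn H U p.length (w, b) (w', b) := jn_left p (fun w hw => (hp2 w hw).1)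
    refine (((j1.trans j2).trans j3).trans j4.symm).mono ?_
    rw [Walk.length_cons, hp]
    omega

lemma qc (s s' : Λ × Λ) (hs : U s < 1) (hs' : U s' < 1) :
    Jn H U (200 * (H.boxProd H).dist s s') s s' := by
  obtain ⟨y1, y2⟩ := s
  obtain ⟨v1, v2⟩ := s'
  have hd : (H.boxProd H).dist (y1, y2) (v1, v2) = H.dist y1 v1 + H.dist y2 v2 := by
    have h3 := edist_boxProd (G := H) (H := H) (y1, y2) (v1, v2)
    have e1 : H.edist y1 v1 ≠ ⊤ := edist_ne_top_iff_reachable.mpr (hF.conn y1 v1)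
    have e2 : H.edist y2 v2 ≠ ⊤ := edist_ne_top_iff_reachable.mpr (hF.conn y2 v2)
    unfold SimpleGraph.dist
    rw [h3]
    exact ENat.toNat_add e1 e2
  obtain ⟨p1, hp1⟩ := (hF.conn.exists_walk_length_eq_dist y1 v1)
  obtain ⟨p2, hp2⟩ := (hF.conn.exists_walk_length_eq_dist y2 v2)
  obtain ⟨z, j, hz, r, hr⟩ := part1 hF hU h1 h2 p1 y2 hs
  have j2 := part2 hF hU h1 h2 (r.reverse.append p2) v1 hs' hz
  refine (j.trans j2).mono ?_
  rw [Walk.length_append, Walk.length_reverse, hr, hp1, hp2, hd]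
  omega

end main

end QC_

theorem stmt_QC : Stmt_QC := by
  intro Λ H N C U hF hU h1 h2 s s' hs hs'
  exact QC_.qc hF hU h1 h2 s s' hs hs'

end Pool.Agent.FPPHE
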