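import Pool.Agent.Work.MP_04d5a3_full.Interface

/-!
# FPPHE (MP_04d5a3_pr), block REACH: the collars stay near their core (choose-min chain)
-/

namespace Pool.Agent.FPPHE

open scoped ENNReal

namespace REACH_

variable {V : Type} {G : SimpleGraph V} {C : Set V}

/-! ### cost and contracted distance -/

lemma cost_append {u v w : V} (p : G.Walk u v) (q : G.Walk v w) :
    cost G C (p.append q) = cost G C p + cost G C q := by
  induction p with
  | nil => simp [cost]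
  | cons h p ih => simp only [SimpleGraph.Walk.cons_append, cost, ih q, Nat.add_assoc]

lemma cost_single {u v : V} (h : G.Adj u v) :
    cost G C (SimpleGraph.Walk.cons h SimpleGraph.Walk.nil) ≤ 1 := by
  classical
  simp only [cost]; split_ifs <;> simp

lemma cost_reverse {u v : V} (p : G.Walk u v) : cost G C p.reverse = cost G C p := by
  classical
  induction p with
  | nil => rfl
  | cons h p ih =>
    rw [SimpleGraph.Walk.reverse_cons, cost_append, ih]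
    simp only [cost]
    rw [Nat.add_comm]
    congr 1
    split_ifs with h1 h2 h2
    · rfl
    · exact absurd ⟨h1.2, h1.1⟩ h2
    · exact absurd ⟨h2.2, h2.1⟩ h1
    · rfl

lemma dc_le {x y : V} (p : G.Walk x y) : dc G C x y ≤ cost G C p := Nat.sInf_le ⟨p, rfl⟩

lemma exists_walk (hG : G.Connected) (x y : V) : ∃ p : G.Walk x y, cost G C p = dc G C x y := by
  obtain ⟨p⟩ := hG.preconnected x y
  have : {n | ∃ p : G.Walk x y, cost G C p = n}.Nonempty := ⟨_, p, rfl⟩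
  exact Nat.sInf_mem this

lemma dc_triangle (hG : G.Connected) (x y z : V) : dc G C x z ≤ dc G C x y + dc G C y z := by
  obtain ⟨p, hp⟩ := exists_walk (C := C) hG x y
  obtain ⟨q, hq⟩ := exists_walk (C := C) hG y z
  have := dc_le (C := C) (p.append q)
  rw [cost_append, hp, hq] at this
  exact this

lemma dc_comm_le (hG : G.Connected) (x y : V) : dc G C x y ≤ dc G C y x := by
  obtain ⟨p, hp⟩ := exists_walk (C := C) hG y x
  have := dc_le (C := C) p.reverse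
  rw [cost_reverse, hp] at this
  exact this

lemma dc_comm (hG : G.Connected) (x y : V) : dc G C x y = dc G C y x :=
  le_antisymm (dc_comm_le hG x y) (dc_comm_le hG y x)

lemma dc_self (x : V) : dc G C x x = 0 := by
  have := dc_le (C := C) (SimpleGraph.Walk.nil : G.Walk x x)
  simpa [cost] using this

lemma dc_adj {x y : V} (h : G.Adj x y) : dc G C x y ≤ 1 :=
  (dc_le _).trans (cost_single h)

lemma cost_of_support {u v : V} (p : G.Walk u v) (hp : ∀ w ∈ p.support, w ∈ C) :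
    cost G C p = 0 := by
  classical
  induction p with
  | nil => rfl
  | cons h p ih =>
    simp only [cost]
    have h1 : ∀ w ∈ p.support, w ∈ C := fun w hw => hp w (by simp [hw])
    rw [ih h1, if_pos ⟨hp _ (by simp), h1 _ (by simp)⟩]

lemma dc_cls {u v : V} (h : u ∈ cls G C v) : dc G C v u = 0 := by
  rcases h with rfl | ⟨p, hp⟩
  · exact dc_self _
  · have := dc_le (C := C) p
    rw [cost_of_support p hp] at this
    omega

lemma cls_self (v : V) : v ∈ cls G C v := Or.inl rfl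

lemma cls_symm {u v : V} (h : u ∈ cls G C v) : v ∈ cls G C u := by
  rcases h with rfl | ⟨p, hp⟩
  · exact cls_self _
  · exact Or.inr ⟨p.reverse, fun w hw => hp w (by simpa using hw)⟩

lemma cls_trans {u v w : V} (h : u ∈ cls G C v) (h' : v ∈ cls G C w) : u ∈ cls G C w := by
  rcases h with rfl | ⟨p, hp⟩
  · exact h'
  rcases h' with rfl | ⟨q, hq⟩
  · exact Or.inr ⟨p, hp⟩
  · refine Or.inr ⟨q.append p, fun x hx => ?_⟩
    rw [SimpleGraph.Walk.mem_support_append_iff] at hx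
    exact hx.elim (hq x) (hp x)

lemma cls_eq {u v : V} (h : u ∈ cls G C v) : cls G C u = cls G C v := by
  ext w
  exact ⟨fun hw => cls_trans hw h, fun hw => cls_trans hw (cls_symm h)⟩

lemma core_eq {K : Set V} (hK : K ∈ Cores G C) {u : V} (hu : u ∈ K) : cls G C u = K := by
  obtain ⟨w, _, rfl⟩ := hK
  exact cls_eq hu

lemma core_sub {K : Set V} (hK : K ∈ Cores G C) {u : V} (hu : u ∈ K) : u ∈ C := by
  obtain ⟨w, hw, rfl⟩ := hK
  rcases hu with rfl | ⟨p, hp⟩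
  · exact hw
  · exact hp _ (by simp)

lemma core_nonempty {K : Set V} (hK : K ∈ Cores G C) : K.Nonempty := by
  obtain ⟨w, _, rfl⟩ := hK
  exact ⟨w, cls_self _⟩

lemma core_dc {K : Set V} (hK : K ∈ Cores G C) {u v : V} (hu : u ∈ K) (hv : v ∈ K) :
    dc G C u v = 0 := by
  apply dc_cls
  rw [core_eq hK hu]; exact hv

lemma core_fin {N : ℕ} {bad : Set V} (hC : CoreSys G N bad C) {K : Set V} (hK : K ∈ Cores G C) :
    K.Finite := by
  obtain ⟨w, _, rfl⟩ := hK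
  exact hC.fin w

lemma core_sep {N : ℕ} {bad : Set V} (hC : CoreSys G N bad C) {K K' : Set V}
    (hK : K ∈ Cores G C) (hK' : K' ∈ Cores G C) (hne : K ≠ K') {u v : V} (hu : u ∈ K)
    (hv : v ∈ K') : D0 * (min (ll N K) (ll N K')) ^ 5 ≤ dc G C u v := by
  have h := hC.sep u (core_sub hK hu) v (core_sub hK' hv) (fun h => by
    rw [core_eq hK' hv] at h
    exact hne (by rw [← core_eq hK hu, core_eq hK' h]))
  rwa [core_eq hK hu, core_eq hK' hv] at h

/-! ### ENNReal tools -/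

lemma two_mul_le (a b : ℝ≥0∞) : 2 * (a * b) ≤ a ^ 2 + b ^ 2 := by
  rcases eq_or_ne a ⊤ with rfl | ha
  · simp
  rcases eq_or_ne b ⊤ with rfl | hb
  · simp
  lift a to NNReal using ha
  lift b to NNReal using hb
  norm_cast
  have := two_mul_le_add_sq (a : ℝ) (b : ℝ)
  rw [← NNReal.coe_le_coe]
  push_cast
  linarith

lemma sq_add_le (a b : ℝ≥0∞) : 4 * (a + b) ^ 2 ≤ 5 * a ^ 2 + 20 * b ^ 2 := by
  rcases eq_or_ne a ⊤ with rfl | ha
  · simp
  rcases eq_or_ne b ⊤ with rfl | hb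
  · simp
  lift a to NNReal using ha
  lift b to NNReal using hb
  norm_cast
  rw [← NNReal.coe_le_coe]
  push_cast
  nlinarith [sq_nonneg ((a : ℝ) - 4 * b)]

/-- weighted Cauchy-Schwarz -/
lemma cs (t f : V → ℝ≥0∞) : (∑' u, t u * f u) ^ 2 ≤ (∑' u, t u) * ∑' u, t u * f u ^ 2 := by
  have h2 : 2 * (∑' u, t u * f u) ^ 2 ≤ 2 * ((∑' u, t u) * ∑' u, t u * f u ^ 2) := by
    calc 2 * (∑' u, t u * f u) ^ 2
        = ∑' u, ∑' w, t u * t w * (2 * (f u * f w)) := by
          rw [pow_two, ← ENNReal.tsum_mul_right, ← ENNReal.tsum_mul_left]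
          apply tsum_congr; intro u
          rw [← ENNReal.tsum_mul_left, ← ENNReal.tsum_mul_left]
          apply tsum_congr; intro w
          ring
      _ ≤ ∑' u, ∑' w, t u * t w * (f u ^ 2 + f w ^ 2) := by
          gcongr with u w
          exact two_mul_le _ _
      _ = 2 * ((∑' u, t u) * ∑' u, t u * f u ^ 2) := by
          have e1 : ∀ u, ∑' w, t u * t w * (f u ^ 2 + f w ^ 2)
              = (t u * f u ^ 2) * (∑' w, t w) + t u * ∑' w, t w * f w ^ 2 := by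
            intro u
            rw [← ENNReal.tsum_mul_left, ← ENNReal.tsum_mul_left, ← ENNReal.tsum_add]
            apply tsum_congr; intro w
            ring
          simp_rw [e1]
          rw [ENNReal.tsum_add, ENNReal.tsum_mul_right, ENNReal.tsum_mul_right, two_mul]
          congr 1
          rw [mul_comm]
  have h0 : (2 : ℝ≥0∞) ≠ 0 := by norm_num
  have h1 : (2 : ℝ≥0∞) ≠ ⊤ := by norm_num
  rwa [ENNReal.mul_le_mul_iff_right h0 h1] at h2

/-- Schur test -/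
lemma schur (t : V → V → ℝ≥0∞) (a b : ℝ≥0∞) (ha : ∀ v, ∑' u, t v u ≤ a)
    (hb : ∀ u, ∑' v, t v u ≤ b) (f : V → ℝ≥0∞) : N2 (mulM t f) ≤ a * b * N2 f := by
  unfold N2 mulM
  calc ∑' v, (∑' u, t v u * f u) ^ 2 ≤ ∑' v, a * ∑' u, t v u * f u ^ 2 := by
        gcongr with v
        exact (cs (t v) f).trans (by gcongr; exact ha v)
    _ = a * ∑' u, (∑' v, t v u) * f u ^ 2 := by
        rw [ENNReal.tsum_mul_left, ENNReal.tsum_comm]
        congr 1
        apply tsum_congr; intro u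
        rw [ENNReal.tsum_mul_right]
    _ ≤ a * ∑' u, b * f u ^ 2 := by
        gcongr with u
        exact hb u
    _ = a * b * ∑' u, f u ^ 2 := by rw [ENNReal.tsum_mul_left, mul_assoc]

/-! ### the balls around smaller cores -/

section

variable {N : ℕ} {bad : Set V}

lemma ll_pos (K : Set V) : 1 ≤ ll N K := by unfold ll; omega

lemma ll_mono {K K' : Set V} (h : K.ncard ≤ K'.ncard) : ll N K ≤ ll N K' := by
  unfold ll
  have := Nat.clog_mono_right (N ^ 20) h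
  omega

lemma one_le_pow_five {w : ℕ} (hw : 1 ≤ w) : w ≤ w ^ 5 := by
  calc w = w * 1 := by ring
    _ ≤ w * w ^ 4 := Nat.mul_le_mul_left _ (Nat.one_le_pow _ _ hw)
    _ = w ^ 5 := by ring

/-- a core close to `K'` is not larger -/
lemma ll_le_of_near (hC : CoreSys G N bad C) {K K' : Set V}
    (hK : K ∈ Cores G C) (hK' : K' ∈ Cores G C) {u v : V} (hu : u ∈ K) (hv : v ∈ K')
    (h : dc G C u v ≤ 200 * ll N K) : ll N K' ≤ ll N K := by
  by_cases hne : K = K'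
  · rw [hne]
  by_contra hlt
  push Not at hlt
  have := core_sep hC hK hK' hne hu hv
  rw [min_eq_left hlt.le] at this
  have h1 := one_le_pow_five (ll_pos (N := N) K)
  have h2 := ll_pos (N := N) K
  unfold D0 at this
  have h3 : 10 ^ 6 * ll N K ≤ 10 ^ 6 * ll N K ^ 5 := Nat.mul_le_mul_left _ h1
  omega

lemma ball_fin (hB : Stmt_BALL) (hG : Gr G N) (hC : CoreSys G N bad C) {K : Set V}
    (hK : K ∈ Cores G C) {F : Set V} (hF : ∀ u ∈ K, ∀ y ∈ F, dc G C u y ≤ 60 * ll N K) :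
    F.Finite ∧ F.ncard ≤ (N ^ 20) ^ (121 * ll N K) := by
  obtain ⟨u, hu⟩ := core_nonempty hK
  have h := hB V G N bad C hG hC u (60 * ll N K) (ll N K) (by
    rintro K' hK' ⟨x, hx, hd⟩
    exact ll_le_of_near hC hK hK' hu hx (hd.trans (by omega)))
  have hsub : F ⊆ {y | dc G C u y ≤ 60 * ll N K} := fun y hy => hF u hu y hy
  refine ⟨h.1.subset hsub, (Set.ncard_le_ncard hsub h.1).trans (h.2.trans (le_of_eq ?_))⟩
  congr 1
  ring

/-- sets around cores of equal logarithmic size are disjoint -/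
lemma ball_inj (hG : G.Connected) (hC : CoreSys G N bad C) {K K' : Set V}
    (hK : K ∈ Cores G C) (hK' : K' ∈ Cores G C) {F F' : Set V}
    (hF : ∀ u ∈ K, ∀ y ∈ F, dc G C u y ≤ 60 * ll N K)
    (hF' : ∀ u ∈ K', ∀ y ∈ F', dc G C u y ≤ 60 * ll N K')
    (h : ll N K = ll N K') {y : V} (hy : y ∈ F) (hy' : y ∈ F') : K = K' := by
  by_contra hne
  obtain ⟨u, hu⟩ := core_nonempty hK
  obtain ⟨v, hv⟩ := core_nonempty hK'
  have h1 := hF u hu y hy
  have h2 := hF' v hv y hy'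
  rw [dc_comm hG] at h2
  have h3 := dc_triangle (C := C) hG u y v
  have h4 := core_sep hC hK hK' hne hu hv
  rw [← h, min_self] at h4
  rw [← h] at h2
  have h5 := one_le_pow_five (ll_pos (N := N) K)
  have h6 := ll_pos (N := N) K
  unfold D0 at h4
  have h7 : 10 ^ 6 * ll N K ≤ 10 ^ 6 * ll N K ^ 5 := Nat.mul_le_mul_left _ h5
  omega

/-! ### the matrix -/

/-- the part of the matrix coming from the sets `F_K'` -/
noncomputable def jm (G : SimpleGraph V) (C : Set V) (N : ℕ) (n : ℕ) (F : Set V → Set V)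
    (v u : V) : ℝ≥0∞ :=
  open Classical in
  ∑' K' : Set V, if K' ∈ Cores G C ∧ K'.ncard < n ∧ v ∈ F K' ∧ u ∈ F K' then
    (N : ℝ≥0∞) ^ 10 * (2 : ℝ≥0∞)⁻¹ ^ (ll N K') * ((F K').ncard : ℝ≥0∞)⁻¹ else 0

lemma jm_symm (n : ℕ) (F : Set V → Set V) (v u : V) : jm G C N n F v u = jm G C N n F u v := by
  classical
  unfold jm
  apply tsum_congr; intro K'
  congr 1
  apply propext
  tauto

lemma jm_row (n : ℕ) (F : Set V → Set V)
    (hfin : ∀ K' ∈ Cores G C, K'.ncard < n → (F K').Finite)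
    (hinj : ∀ v, ∀ K' ∈ Cores G C, ∀ K'' ∈ Cores G C, K'.ncard < n → K''.ncard < n →
      v ∈ F K' → v ∈ F K'' → ll N K' = ll N K'' → K' = K'') (v : V) :
    ∑' u, jm G C N n F v u ≤ (N : ℝ≥0∞) ^ 10 := by
  classical
  unfold jm
  rw [ENNReal.tsum_comm]
  set P : Set (Set V) := {K' | K' ∈ Cores G C ∧ K'.ncard < n ∧ v ∈ F K'} with hP
  have hrow : ∀ K' : Set V, (∑' u, if K' ∈ Cores G C ∧ K'.ncard < n ∧ v ∈ F K' ∧ u ∈ F K' then
      (N : ℝ≥0∞) ^ 10 * (2 : ℝ≥0∞)⁻¹ ^ (ll N K') * ((F K').ncard : ℝ≥0∞)⁻¹ else 0)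
      ≤ P.indicator (fun K' => (N : ℝ≥0∞) ^ 10 * (2 : ℝ≥0∞)⁻¹ ^ (ll N K')) K' := by
    intro K'
    by_cases hK' : K' ∈ P
    · rw [Set.indicator_of_mem hK']
      obtain ⟨h1, h2, h3⟩ := hK'
      have hf := hfin K' h1 h2
      have : ∀ u, (if K' ∈ Cores G C ∧ K'.ncard < n ∧ v ∈ F K' ∧ u ∈ F K' then
          (N : ℝ≥0∞) ^ 10 * (2 : ℝ≥0∞)⁻¹ ^ (ll N K') * ((F K').ncard : ℝ≥0∞)⁻¹ else 0)
          = (F K').indicator (fun _ => (N : ℝ≥0∞) ^ 10 * (2 : ℝ≥0∞)⁻¹ ^ (ll N K') *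
            ((F K').ncard : ℝ≥0∞)⁻¹) u := by
        intro u
        by_cases hu : u ∈ F K'
        · rw [Set.indicator_of_mem hu, if_pos ⟨h1, h2, h3, hu⟩]
        · rw [Set.indicator_of_notMem hu, if_neg (fun h => hu h.2.2.2)]
      simp_rw [this]
      rw [← tsum_subtype, ENNReal.tsum_const, ENat.card_coe_set_eq, ← hf.cast_ncard_eq]
      rw [mul_comm, mul_assoc]
      calc (N : ℝ≥0∞) ^ 10 * (2 : ℝ≥0∞)⁻¹ ^ (ll N K') * (((F K').ncard : ℝ≥0∞)⁻¹ *
            (((F K').ncard : ℕ∞) : ℝ≥0∞))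
          ≤ (N : ℝ≥0∞) ^ 10 * (2 : ℝ≥0∞)⁻¹ ^ (ll N K') * 1 := by
            gcongr
            rw [mul_comm]
            simp [ENNReal.mul_inv_le_one]
        _ = _ := mul_one _
    · rw [Set.indicator_of_notMem hK']
      have : ∀ u, (if K' ∈ Cores G C ∧ K'.ncard < n ∧ v ∈ F K' ∧ u ∈ F K' then
          (N : ℝ≥0∞) ^ 10 * (2 : ℝ≥0∞)⁻¹ ^ (ll N K') * ((F K').ncard : ℝ≥0∞)⁻¹ else 0) = 0 := by
        intro u
        rw [if_neg (fun h => hK' ⟨h.1, h.2.1, h.2.2.1⟩)]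
      simp [this]
  refine (ENNReal.tsum_le_tsum hrow).trans ?_
  rw [← tsum_subtype, ENNReal.tsum_mul_left]
  have hinj' : Function.Injective (fun K' : P => Nat.clog (N ^ 20) (K' : Set V).ncard) := by
    rintro ⟨K', h1, h2, h3⟩ ⟨K'', h4, h5, h6⟩ h
    have h' : ll N K' = ll N K'' := by
      simp only at h
      unfold ll
      rw [h]
    exact Subtype.ext (hinj v K' h1 K'' h4 h2 h5 h3 h6 h')
  have hs : ∑' K' : P, (2 : ℝ≥0∞)⁻¹ ^ (ll N (K' : Set V)) ≤ 1 := by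
    calc ∑' K' : P, (2 : ℝ≥0∞)⁻¹ ^ (ll N (K' : Set V))
        = ∑' K' : P, (fun l : ℕ => (2 : ℝ≥0∞)⁻¹ ^ (l + 1)) (Nat.clog (N ^ 20) (K' : Set V).ncard) := by
          apply tsum_congr; intro K'
          simp only [ll, Nat.add_comm]
      _ ≤ ∑' l : ℕ, (2 : ℝ≥0∞)⁻¹ ^ (l + 1) :=
          ENNReal.tsum_comp_le_tsum_of_injective hinj' _
      _ = 1 := by
          rw [ENNReal.tsum_geometric_add_one, ENNReal.one_sub_inv_two, inv_inv]
          exact ENNReal.inv_mul_cancel (by norm_num) (by norm_num)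
  calc (N : ℝ≥0∞) ^ 10 * ∑' K' : P, (2 : ℝ≥0∞)⁻¹ ^ (ll N (K' : Set V)) ≤ (N : ℝ≥0∞) ^ 10 * 1 := by
        gcongr
    _ = _ := mul_one _

/-- the whole matrix -/
noncomputable def tm (G : SimpleGraph V) (C : Set V) (N : ℕ) (n : ℕ) (F : Set V → Set V)
    (v u : V) : ℝ≥0∞ :=
  open Classical in (if G.Adj v u then 1 else 0) + jm G C N n F v u

lemma mul_tm (n : ℕ) (F : Set V → Set V) (f : V → ℝ≥0∞) (v : V) :
    mulM (tm G C N n F) f v = opA G f v + mulM (jm G C N n F) f v := by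
  classical
  unfold mulM tm opA
  simp_rw [add_mul]
  rw [ENNReal.tsum_add]
  congr 1
  rw [tsum_subtype]
  apply tsum_congr; intro u
  by_cases h : G.Adj v u
  · rw [if_pos h, one_mul, Set.indicator_of_mem (by exact h)]
  · rw [if_neg h, zero_mul, Set.indicator_of_notMem (by exact h)]

lemma tm_norm (hG : Gr G N) (n : ℕ) (F : Set V → Set V)
    (hfin : ∀ K' ∈ Cores G C, K'.ncard < n → (F K').Finite)
    (hinj : ∀ v, ∀ K' ∈ Cores G C, ∀ K'' ∈ Cores G C, K'.ncard < n → K''.ncard < n →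
      v ∈ F K' → v ∈ F K'' → ll N K' = ll N K'' → K' = K'') (f : V → ℝ≥0∞) :
    N2 (mulM (tm G C N n F) f) ≤ (5 * (N : ℝ≥0∞) ^ 10) ^ 2 * N2 f := by
  have hrow := jm_row (N := N) n F hfin hinj
  have hcol : ∀ u, ∑' v, jm G C N n F v u ≤ (N : ℝ≥0∞) ^ 10 := by
    intro u
    simp_rw [jm_symm n F _ u]
    exact hrow u
  have hJ := schur (jm G C N n F) _ _ hrow hcol f
  have hA := hG.l2 f
  have h4 : 4 * N2 (mulM (tm G C N n F) f) ≤ 5 * N2 (opA G f) + 20 * N2 (mulM (jm G C N n F) f) := by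
    unfold N2
    simp_rw [mul_tm]
    rw [← ENNReal.tsum_mul_left, ← ENNReal.tsum_mul_left, ← ENNReal.tsum_mul_left,
      ← ENNReal.tsum_add]
    exact ENNReal.tsum_le_tsum (fun v => sq_add_le _ _)
  have h5 : 4 * N2 (mulM (tm G C N n F) f) ≤ 4 * ((5 * (N : ℝ≥0∞) ^ 10) ^ 2 * N2 f) := by
    refine h4.trans ?_
    calc 5 * N2 (opA G f) + 20 * N2 (mulM (jm G C N n F) f)
        ≤ 5 * (16 * (N : ℝ≥0∞) ^ 20 * N2 f) + 20 * ((N : ℝ≥0∞) ^ 10 * (N : ℝ≥0∞) ^ 10 * N2 f) := by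
          gcongr
      _ = 4 * ((5 * (N : ℝ≥0∞) ^ 10) ^ 2 * N2 f) := by ring
  rwa [ENNReal.mul_le_mul_iff_right (by norm_num) (by norm_num)] at h5

/-! ### the potential -/

/-- what the chain argument uses about the potential -/
structure Pot (G : SimpleGraph V) (C : Set V) (N : ℕ) (K : Set V) (F : Set V → Set V)
    (Phi : V → ℝ≥0∞) : Prop where
  p1 : ∀ y, ∀ X : Finset V, N ^ 20 ≤ 100 * X.card → (∀ x ∈ X, G.Adj y x) → ∀ L,
    (∀ x ∈ X, L ≤ Phi x) → (N : ℝ≥0∞) ^ 9 * L ≤ Phi y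
  p2 : ∀ x y, G.Adj x y → Phi x ≤ (N : ℝ≥0∞) ^ 11 * Phi y
  p3 : ∀ K' ∈ Cores G C, K'.ncard < K.ncard → ∀ y ∈ F K', ∀ z ∈ F K',
    Phi z ≤ (N : ℝ≥0∞) ^ (2421 * ll N K') * Phi y
  p4 : ∀ y ∈ K, 1 ≤ Phi y
  p5 : ∀ y, Phi y ≤ (N : ℝ≥0∞) ^ (10 * ll N K)

lemma exists_pot (hN : Stmt_NEU) (hG : Gr G N) (K : Set V) (hKf : K.Finite) (F : Set V → Set V)
    (hfin : ∀ K' ∈ Cores G C, K'.ncard < K.ncard → (F K').Finite ∧
      (F K').ncard ≤ (N ^ 20) ^ (121 * ll N K'))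
    (hinj : ∀ v, ∀ K' ∈ Cores G C, ∀ K'' ∈ Cores G C, K'.ncard < K.ncard → K''.ncard < K.ncard →
      v ∈ F K' → v ∈ F K'' → ll N K' = ll N K'' → K' = K'') :
    ∃ Phi, Pot G C N K F Phi := by
  classical
  have hbig : 10 ^ 10 ≤ N := hG.big
  have hN0 : (N : ℝ≥0∞) ≠ 0 := by
    have : N ≠ 0 := by omega
    exact_mod_cast this
  have hNt : (N : ℝ≥0∞) ≠ ⊤ := ENNReal.natCast_ne_top N
  have h1000 : (1000 : ℝ≥0∞) ≤ N := by
    have : 1000 ≤ N := by omega
    exact_mod_cast this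
  set t := tm G C N K.ncard F with ht
  set f : V → ℝ≥0∞ := K.indicator (fun _ => 1) with hf
  have hnorm := tm_norm hG K.ncard F (fun K' h h' => (hfin K' h h').1) hinj
  obtain ⟨h1, h2, -, h4⟩ := hN V t (5 * (N : ℝ≥0∞) ^ 10) (10 * (N : ℝ≥0∞) ^ 10)
    (mul_ne_zero (by norm_num) (pow_ne_zero _ hN0))
    (ENNReal.mul_ne_top (by norm_num) (ENNReal.pow_ne_top hNt)) (by
      apply le_of_eq; ring) hnorm f
  set Phi := neu t (10 * (N : ℝ≥0∞) ^ 10) f with hPhi
  have hA : ∀ y, opA G Phi y ≤ 10 * (N : ℝ≥0∞) ^ 10 * Phi y := by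
    intro y
    refine le_trans ?_ (h1 y)
    rw [ht, mul_tm]
    exact le_self_add
  have hJ : ∀ y, mulM (jm G C N K.ncard F) Phi y ≤ 10 * (N : ℝ≥0∞) ^ 10 * Phi y := by
    intro y
    refine le_trans ?_ (h1 y)
    rw [ht, mul_tm]
    exact le_add_self
  have hN2 : N2 f = K.ncard := by
    unfold N2
    have : ∀ v, f v ^ 2 = K.indicator (fun _ => (1 : ℝ≥0∞)) v := by
      intro v
      by_cases hv : v ∈ K
      · rw [hf, Set.indicator_of_mem hv, one_pow]
      · rw [hf, Set.indicator_of_notMem hv]; norm_num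
    simp_rw [this]
    rw [← tsum_subtype, ENNReal.tsum_const, ENat.card_coe_set_eq, ← hKf.cast_ncard_eq, mul_one]
    simp
  refine ⟨Phi, ?_, ?_, ?_, ?_, ?_⟩
  · intro y X hX hadj L hL
    have hsum : (X.card : ℝ≥0∞) * L ≤ opA G Phi y := by
      calc (X.card : ℝ≥0∞) * L = ∑ x ∈ X, L := by rw [Finset.sum_const, nsmul_eq_mul]
        _ ≤ ∑ x ∈ X, (G.neighborSet y).indicator Phi x := by
            apply Finset.sum_le_sum
            intro x hx
            rw [Set.indicator_of_mem (by exact hadj x hx)]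
            exact hL x hx
        _ ≤ ∑' x, (G.neighborSet y).indicator Phi x := ENNReal.sum_le_tsum X
        _ = opA G Phi y := by unfold opA; rw [tsum_subtype]
    have hX' : (N : ℝ≥0∞) ^ 20 ≤ 100 * X.card := by exact_mod_cast hX
    have key : (N : ℝ≥0∞) ^ 11 * ((N : ℝ≥0∞) ^ 9 * L) ≤ (N : ℝ≥0∞) ^ 11 * Phi y := by
      calc (N : ℝ≥0∞) ^ 11 * ((N : ℝ≥0∞) ^ 9 * L) = (N : ℝ≥0∞) ^ 20 * L := by ring
        _ ≤ 100 * X.card * L := by gcongr
        _ = 100 * (X.card * L) := by ring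
        _ ≤ 100 * (10 * (N : ℝ≥0∞) ^ 10 * Phi y) := mul_le_mul' le_rfl (hsum.trans (hA y))
        _ = 1000 * ((N : ℝ≥0∞) ^ 10 * Phi y) := by ring
        _ ≤ N * ((N : ℝ≥0∞) ^ 10 * Phi y) := by gcongr
        _ = (N : ℝ≥0∞) ^ 11 * Phi y := by ring
    rwa [ENNReal.mul_le_mul_iff_right (pow_ne_zero _ hN0) (ENNReal.pow_ne_top hNt)] at key
  · intro x y hxy
    calc Phi x ≤ opA G Phi y := by
          unfold opA
          rw [tsum_subtype]
          have := ENNReal.le_tsum (f := (G.neighborSet y).indicator Phi) x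
          rwa [Set.indicator_of_mem (by exact hxy.symm)] at this
      _ ≤ 10 * (N : ℝ≥0∞) ^ 10 * Phi y := hA y
      _ ≤ N * (N : ℝ≥0∞) ^ 10 * Phi y := by
          gcongr
          exact le_trans (by norm_num) h1000
      _ = _ := by ring
  · intro K' hK' hlt y hy z hz
    obtain ⟨hfF, hcF⟩ := hfin K' hK' hlt
    have hpos : (F K').ncard ≠ 0 := (Set.ncard_pos hfF).2 ⟨y, hy⟩ |>.ne'
    set a : ℝ≥0∞ := ((F K').ncard : ℝ≥0∞) with ha
    have ha0 : a ≠ 0 := by rw [ha]; exact_mod_cast hpos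
    have hat : a ≠ ⊤ := ENNReal.natCast_ne_top _
    have hj : (N : ℝ≥0∞) ^ 10 * (2 : ℝ≥0∞)⁻¹ ^ (ll N K') * a⁻¹ ≤ jm G C N K.ncard F y z := by
      unfold jm
      have := ENNReal.le_tsum (f := fun K' : Set V =>
        if K' ∈ Cores G C ∧ K'.ncard < K.ncard ∧ y ∈ F K' ∧ z ∈ F K' then
          (N : ℝ≥0∞) ^ 10 * (2 : ℝ≥0∞)⁻¹ ^ (ll N K') * ((F K').ncard : ℝ≥0∞)⁻¹ else 0) K'
      rwa [if_pos ⟨hK', hlt, hy, hz⟩] at this
    have hj2 : (N : ℝ≥0∞) ^ 10 * (2 : ℝ≥0∞)⁻¹ ^ (ll N K') * a⁻¹ * Phi z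
        ≤ 10 * (N : ℝ≥0∞) ^ 10 * Phi y := by
      refine le_trans ?_ (hJ y)
      unfold mulM
      have := ENNReal.le_tsum (f := fun u => jm G C N K.ncard F y u * Phi u) z
      exact le_trans (by gcongr) this
    have ha2 : a ≤ (N : ℝ≥0∞) ^ (2420 * ll N K') := by
      rw [ha]
      have : (F K').ncard ≤ N ^ (2420 * ll N K') := by
        refine hcF.trans (le_of_eq ?_)
        rw [← pow_mul]
        congr 1
        ring
      exact_mod_cast this
    have e1 : (N : ℝ≥0∞) ^ 10 * Phi z = 2 ^ (ll N K') * a *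
        ((N : ℝ≥0∞) ^ 10 * (2 : ℝ≥0∞)⁻¹ ^ (ll N K') * a⁻¹ * Phi z) := by
      have e2 : (2 : ℝ≥0∞) ^ (ll N K') * (2 : ℝ≥0∞)⁻¹ ^ (ll N K') = 1 := by
        rw [← mul_pow, ENNReal.mul_inv_cancel (by norm_num) (by norm_num), one_pow]
      have e3 : a * a⁻¹ = 1 := ENNReal.mul_inv_cancel ha0 hat
      calc (N : ℝ≥0∞) ^ 10 * Phi z = (2 ^ (ll N K') * (2 : ℝ≥0∞)⁻¹ ^ (ll N K')) * (a * a⁻¹) *
            ((N : ℝ≥0∞) ^ 10 * Phi z) := by rw [e2, e3]; ring
        _ = _ := by ring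
    have hl := ll_pos (N := N) K'
    have key : (N : ℝ≥0∞) ^ 10 * Phi z ≤
        (N : ℝ≥0∞) ^ 10 * ((N : ℝ≥0∞) ^ (2421 * ll N K') * Phi y) := by
      rw [e1]
      calc 2 ^ (ll N K') * a * ((N : ℝ≥0∞) ^ 10 * (2 : ℝ≥0∞)⁻¹ ^ (ll N K') * a⁻¹ * Phi z)
          ≤ 2 ^ (ll N K') * (N : ℝ≥0∞) ^ (2420 * ll N K') * (10 * (N : ℝ≥0∞) ^ 10 * Phi y) := by
            gcongr
        _ ≤ 2 ^ (ll N K') * (N : ℝ≥0∞) ^ (2420 * ll N K') *
              (10 ^ (ll N K') * (N : ℝ≥0∞) ^ 10 * Phi y) := by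
            gcongr
            calc (10 : ℝ≥0∞) = 10 ^ 1 := by ring
              _ ≤ 10 ^ (ll N K') := pow_le_pow_right₀ (by norm_num) hl
        _ = 20 ^ (ll N K') * ((N : ℝ≥0∞) ^ (2420 * ll N K') * ((N : ℝ≥0∞) ^ 10 * Phi y)) := by
            rw [show (20 : ℝ≥0∞) = 2 * 10 by norm_num, mul_pow]; ring
        _ ≤ (N : ℝ≥0∞) ^ (ll N K') * ((N : ℝ≥0∞) ^ (2420 * ll N K') *
              ((N : ℝ≥0∞) ^ 10 * Phi y)) := by
            gcongr
            exact le_trans (by norm_num) h1000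
        _ = _ := by
            rw [show 2421 * ll N K' = ll N K' + 2420 * ll N K' by ring, pow_add]; ring
    rwa [ENNReal.mul_le_mul_iff_right (pow_ne_zero _ hN0) (ENNReal.pow_ne_top hNt)] at key
  · intro y hy
    have := h2 y
    rwa [hf, Set.indicator_of_mem hy] at this
  · intro y
    have h5 := h4 y
    rw [hN2] at h5
    have h6 : (Phi y) ^ 2 ≤ ((N : ℝ≥0∞) ^ (10 * ll N K)) ^ 2 := by
      refine h5.trans ?_
      have h7 : 4 * K.ncard ≤ N ^ (20 * ll N K) := by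
        have h8 : K.ncard ≤ (N ^ 20) ^ (Nat.clog (N ^ 20) K.ncard) :=
          Nat.le_pow_clog (Nat.one_lt_pow (by norm_num) (by omega)) _
        have h9 : 4 ≤ N ^ 20 := le_trans (by omega : 4 ≤ N) (Nat.le_self_pow (by norm_num) N)
        calc 4 * K.ncard ≤ N ^ 20 * (N ^ 20) ^ (Nat.clog (N ^ 20) K.ncard) :=
              Nat.mul_le_mul h9 h8
          _ = N ^ (20 * ll N K) := by
              unfold ll
              rw [← pow_succ', ← pow_mul]
              congr 1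
              ring
      rw [← pow_mul]
      have h10 : (4 : ℝ≥0∞) * K.ncard ≤ (N : ℝ≥0∞) ^ (20 * ll N K) := by exact_mod_cast h7
      refine h10.trans (le_of_eq ?_)
      congr 1
      ring
    exact (ENNReal.pow_le_pow_left_iff (by norm_num)).1 h6

/-! ### the choose-min chain -/

/-- what is known about a point `y` of `Col K j` after following the chain down to `K`: `a` closure steps,
`b` neighbour steps, `J` the cores used for jumps -/
structure Tr (G : SimpleGraph V) (C : Set V) (N : ℕ) (Col : Set V → ℕ → Set V) (K : Set V)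
    (rk : ℕ → V → ℕ) (Phi : V → ℝ≥0∞) (j : ℕ) (y : V) (a b : ℕ) (J : Finset (Set V)) : Prop where
  hb : b ≤ j
  hJ : ∀ K' ∈ J, K' ∈ Cores G C ∧ K'.ncard < K.ncard
  used : ∀ K' ∈ J, ∃ i z, i ≤ j ∧ z ∈ Col K' (11 * wt N K') ∧ z ∈ Col K i ∧ rk i z < rk j y
  pot : (N : ℝ≥0∞) ^ (9 * a) ≤ (N : ℝ≥0∞) ^ (11 * b + 2421 * ∑ K' ∈ J, ll N K') * Phi y
  lay : ∀ m, 1 ≤ m → m ≤ ll N K → ∃ Q ∈ Cores G C, m ≤ ll N Q ∧ (Q = K ∨ Q ∈ J) ∧ ∃ q ∈ Q,
    D0 * m ^ 5 * (J.filter (fun K' => m ≤ ll N K')).card + dc G C y q ≤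
      a + b + 120 * ∑ K' ∈ J, ll N K'
  rea : ∃ q ∈ K, dc G C y q ≤ a + b + 120 * ∑ K' ∈ J, ll N K'

lemma chain (hG : Gr G N) (hC : CoreSys G N bad C) {Col : Set V → ℕ → Set V}
    {K : Set V} (hK : K ∈ Cores G C)
    {rk : ℕ → V → ℕ} (hrk : Ranked G N C Col K rk) {Phi : V → ℝ≥0∞}
    (hP : Pot G C N K (fun K' => Col K' (11 * wt N K')) Phi)
    (hF : ∀ K' ∈ Cores G C, K'.ncard < K.ncard → ∀ u ∈ K', ∀ y ∈ Col K' (11 * wt N K'),
      dc G C u y ≤ 60 * ll N K') :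
    ∀ n j y, rk j y ≤ n → j ≤ 11 * wt N K → y ∈ Col K j → ∃ a b J, Tr G C N Col K rk Phi j y a b J := by
  classical
  have hbig : 10 ^ 10 ≤ N := hG.big
  have hN1 : (1 : ℝ≥0∞) ≤ N := by
    have : 1 ≤ N := by omega
    exact_mod_cast this
  intro n
  induction n using Nat.strong_induction_on with
  | _ n ih =>
  intro j y hn hj hy
  have IH : ∀ i x, rk i x < rk j y → i ≤ j → x ∈ Col K i →
      ∃ a b J, Tr G C N Col K rk Phi i x a b J := by
    intro i x h1 h2 h3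
    exact ih (rk i x) (by omega) i x le_rfl (by omega) h3
  rcases hrk j hj y hy with h0 | ⟨X, hX, hX2⟩ | ⟨i, x, hij, hx, hadj, hrkx⟩ | ⟨K', hK', hlt, hyF, z, hzF, hz, hrkz⟩
  · -- y in K
    refine ⟨0, 0, ∅, Nat.zero_le _, by simp, by simp, ?_, ?_, ?_⟩
    · simpa using hP.p4 y h0
    · intro m _ hm
      exact ⟨K, hK, hm, Or.inl rfl, y, h0, by simp [dc_self]⟩
    · exact ⟨y, h0, by simp [dc_self]⟩
  · -- closure step
    have hXne : X.Nonempty := by
      rw [← Finset.card_pos]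
      have : 0 < N ^ 20 := Nat.pow_pos (by omega)
      omega
    obtain ⟨x, hxX, hxmin⟩ := Finset.exists_min_image X Phi hXne
    obtain ⟨hadj, hxC, hrkx⟩ := hX2 x hxX
    obtain ⟨a, b, J, h⟩ := IH j x hrkx le_rfl hxC
    have hst := dc_adj (C := C) hadj
    refine ⟨a + 1, b, J, h.hb, h.hJ, ?_, ?_, ?_, ?_⟩
    · intro K' hK'
      obtain ⟨i, z, h1, h2, h3, h4⟩ := h.used K' hK'
      exact ⟨i, z, h1, h2, h3, h4.trans hrkx⟩
    · have h1 := hP.p1 y X hX (fun x hx => (hX2 x hx).1) (Phi x) (fun x' hx' => hxmin x' hx')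
      calc (N : ℝ≥0∞) ^ (9 * (a + 1)) = (N : ℝ≥0∞) ^ 9 * (N : ℝ≥0∞) ^ (9 * a) := by ring
        _ ≤ (N : ℝ≥0∞) ^ 9 * ((N : ℝ≥0∞) ^ (11 * b + 2421 * ∑ K' ∈ J, ll N K') * Phi x) :=
            mul_le_mul' le_rfl h.pot
        _ = (N : ℝ≥0∞) ^ (11 * b + 2421 * ∑ K' ∈ J, ll N K') * ((N : ℝ≥0∞) ^ 9 * Phi x) := by ring
        _ ≤ _ := mul_le_mul' le_rfl h1
    · intro m hm hm2
      obtain ⟨Q, hQ, h1, h2, q, hq, h3⟩ := h.lay m hm hm2
      refine ⟨Q, hQ, h1, h2, q, hq, ?_⟩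
      have := dc_triangle (C := C) hG.conn y x q
      omega
    · obtain ⟨q, hq, h3⟩ := h.rea
      refine ⟨q, hq, ?_⟩
      have := dc_triangle (C := C) hG.conn y x q
      omega
  · -- neighbour step
    obtain ⟨a, b, J, h⟩ := IH i x hrkx hij.le hx
    have hst : dc G C y x ≤ 1 := by
      rcases hadj with hadj | rfl
      · exact dc_adj hadj.symm
      · rw [dc_self]; omega
    have hb := h.hb
    refine ⟨a, b + 1, J, by omega, h.hJ, ?_, ?_, ?_, ?_⟩
    · intro K' hK'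
      obtain ⟨i', z, h1, h2, h3, h4⟩ := h.used K' hK'
      exact ⟨i', z, by omega, h2, h3, h4.trans hrkx⟩
    · have h1 : Phi x ≤ (N : ℝ≥0∞) ^ 11 * Phi y := by
        rcases hadj with hadj | rfl
        · exact hP.p2 x y hadj
        · calc Phi x = 1 * Phi x := (one_mul _).symm
            _ ≤ _ := mul_le_mul' (one_le_pow₀ hN1) le_rfl
      calc (N : ℝ≥0∞) ^ (9 * a)
          ≤ (N : ℝ≥0∞) ^ (11 * b + 2421 * ∑ K' ∈ J, ll N K') * Phi x := h.pot
        _ ≤ (N : ℝ≥0∞) ^ (11 * b + 2421 * ∑ K' ∈ J, ll N K') * ((N : ℝ≥0∞) ^ 11 * Phi y) :=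
            mul_le_mul' le_rfl h1
        _ = _ := by
            rw [← mul_assoc, ← pow_add]
            congr 2
            ring
    · intro m hm hm2
      obtain ⟨Q, hQ, h1, h2, q, hq, h3⟩ := h.lay m hm hm2
      refine ⟨Q, hQ, h1, h2, q, hq, ?_⟩
      have := dc_triangle (C := C) hG.conn y x q
      omega
    · obtain ⟨q, hq, h3⟩ := h.rea
      refine ⟨q, hq, ?_⟩
      have := dc_triangle (C := C) hG.conn y x q
      omega
  · -- jump
    have hex : ∃ r, ∃ i x, i ≤ j ∧ x ∈ Col K' (11 * wt N K') ∧ x ∈ Col K i ∧ rk i x = r :=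
      ⟨_, j, z, le_rfl, hzF, hz, rfl⟩
    obtain ⟨i, x, hij, hxF, hx, hrx⟩ := Nat.find_spec hex
    have hmin : ∀ i' z', i' ≤ j → z' ∈ Col K' (11 * wt N K') → z' ∈ Col K i' →
        rk i x ≤ rk i' z' := by
      intro i' z' h1 h2 h3
      rw [hrx]
      exact Nat.find_min' hex ⟨i', z', h1, h2, h3, rfl⟩
    have hrkx : rk i x < rk j y := lt_of_le_of_lt (hmin j z le_rfl hzF hz) hrkz
    obtain ⟨a, b, J, h⟩ := IH i x hrkx hij hx
    have hb := h.hb
    have hnot : K' ∉ J := by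
      intro hmem
      obtain ⟨i', z', h1, h2, h3, h4⟩ := h.used K' hmem
      exact absurd (hmin i' z' (by omega) h2 h3) (by omega)
    have hne : K' ≠ K := by rintro rfl; exact lt_irrefl _ hlt
    obtain ⟨u, hu⟩ := core_nonempty hK'
    have hdy : dc G C y u ≤ 60 * ll N K' := by
      rw [dc_comm hG.conn]; exact hF K' hK' hlt u hu y hyF
    have hdx : dc G C u x ≤ 60 * ll N K' := hF K' hK' hlt u hu x hxF
    have hyx := dc_triangle (C := C) hG.conn y u x
    have hsum : ∑ K'' ∈ insert K' J, ll N K'' = ll N K' + ∑ K'' ∈ J, ll N K'' :=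
      Finset.sum_insert hnot
    refine ⟨a, b, insert K' J, by omega, ?_, ?_, ?_, ?_, ?_⟩
    · intro K'' hK''
      rcases Finset.mem_insert.1 hK'' with rfl | h'
      · exact ⟨hK', hlt⟩
      · exact h.hJ K'' h'
    · intro K'' hK''
      rcases Finset.mem_insert.1 hK'' with rfl | h'
      · exact ⟨j, z, le_rfl, hzF, hz, hrkz⟩
      · obtain ⟨i', z', h1, h2, h3, h4⟩ := h.used K'' h'
        exact ⟨i', z', by omega, h2, h3, h4.trans hrkx⟩
    · rw [hsum]
      have h1 := hP.p3 K' hK' hlt y hyF x hxF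
      calc (N : ℝ≥0∞) ^ (9 * a)
          ≤ (N : ℝ≥0∞) ^ (11 * b + 2421 * ∑ K' ∈ J, ll N K') * Phi x := h.pot
        _ ≤ (N : ℝ≥0∞) ^ (11 * b + 2421 * ∑ K' ∈ J, ll N K') *
              ((N : ℝ≥0∞) ^ (2421 * ll N K') * Phi y) := mul_le_mul' le_rfl h1
        _ = _ := by
            rw [← mul_assoc, ← pow_add]
            congr 2
            ring
    · intro m hm hm2
      rw [hsum]
      obtain ⟨Q, hQ, h1, h2, q, hq, h3⟩ := h.lay m hm hm2
      by_cases hmK : m ≤ ll N K'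
      · refine ⟨K', hK', hmK, Or.inr (Finset.mem_insert_self _ _), u, hu, ?_⟩
        have hne' : K' ≠ Q := by
          rcases h2 with rfl | h2
          · exact hne
          · rintro rfl; exact hnot h2
        have hs := core_sep hC hK' hQ hne' hu hq
        have hm5 : m ^ 5 ≤ (min (ll N K') (ll N Q)) ^ 5 := Nat.pow_le_pow_left (le_min hmK h1) 5
        have hs2 : D0 * m ^ 5 ≤ dc G C u q := (Nat.mul_le_mul_left _ hm5).trans hs
        have htr := dc_triangle (C := C) hG.conn u x q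
        rw [Finset.filter_insert, if_pos hmK, Finset.card_insert_of_notMem (by
          intro hc; exact hnot (Finset.mem_filter.1 hc).1)]
        have e : D0 * m ^ 5 * ((J.filter (fun K' => m ≤ ll N K')).card + 1)
            = D0 * m ^ 5 * (J.filter (fun K' => m ≤ ll N K')).card + D0 * m ^ 5 := by ring
        rw [e]
        omega
      · refine ⟨Q, hQ, h1, ?_, q, hq, ?_⟩
        · rcases h2 with rfl | h2
          · exact Or.inl rfl
          · exact Or.inr (Finset.mem_insert_of_mem h2)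
        · rw [Finset.filter_insert, if_neg hmK]
          have htr := dc_triangle (C := C) hG.conn y x q
          omega
    · rw [hsum]
      obtain ⟨q, hq, h3⟩ := h.rea
      refine ⟨q, hq, ?_⟩
      have htr := dc_triangle (C := C) hG.conn y x q
      omega

/-! ### arithmetic -/

lemma sum_inv (M : ℕ) : ∑ m ∈ Finset.Icc 1 M, (1 : ℝ) / (m : ℝ) ^ 5 ≤ 2 - 1 / ((M : ℝ) + 1) := by
  induction M with
  | zero => norm_num
  | succ M ih =>
    rw [Finset.sum_Icc_succ_top (by omega)]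
    have h1 : (0 : ℝ) < (M : ℝ) + 1 := by positivity
    have h2 : (1 : ℝ) / ((M : ℝ) + 1) ^ 5 ≤ 1 / ((M : ℝ) + 1) - 1 / ((M : ℝ) + 2) ∨ M = 0 := by
      by_cases hM : M = 0
      · exact Or.inr hM
      · left
        have hM1 : (1 : ℝ) ≤ (M : ℝ) := by
          have : 1 ≤ M := by omega
          exact_mod_cast this
        have e : 1 / ((M : ℝ) + 1) - 1 / ((M : ℝ) + 2) = 1 / (((M : ℝ) + 1) * ((M : ℝ) + 2)) := by
          field_simp
          ring
        rw [e]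
        apply one_div_le_one_div_of_le (by positivity)
        calc ((M : ℝ) + 1) * ((M : ℝ) + 2) ≤ ((M : ℝ) + 1) * (((M : ℝ) + 1) * 2) := by
              gcongr; linarith
          _ ≤ ((M : ℝ) + 1) * (((M : ℝ) + 1) * ((M : ℝ) + 1)) := by gcongr; linarith
          _ = ((M : ℝ) + 1) ^ 3 := by ring
          _ ≤ ((M : ℝ) + 1) ^ 5 := pow_le_pow_right₀ (by linarith) (by norm_num)
    rcases h2 with h2 | h2
    · push_cast
      have e3 : ((M : ℝ) + 1 + 1) = (M : ℝ) + 2 := by ring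
      rw [e3]
      linarith
    · subst h2
      norm_num

lemma layer {ι : Type} (J : Finset ι) (f : ι → ℕ) (M n : ℕ) (hf : ∀ i ∈ J, f i ≤ M)
    (h : ∀ m, 1 ≤ m → m ≤ M → D0 * m ^ 5 * (J.filter (fun i => m ≤ f i)).card ≤ n) :
    D0 * ∑ i ∈ J, f i ≤ 2 * n := by
  classical
  have e : ∑ i ∈ J, f i = ∑ m ∈ Finset.Icc 1 M, (J.filter (fun i => m ≤ f i)).card := by
    simp_rw [Finset.card_filter]
    rw [Finset.sum_comm]
    apply Finset.sum_congr rfl
    intro i hi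
    rw [← Finset.card_filter]
    have : (Finset.Icc 1 M).filter (fun m => m ≤ f i) = Finset.Icc 1 (f i) := by
      ext m
      simp only [Finset.mem_filter, Finset.mem_Icc]
      have := hf i hi
      omega
    rw [this, Nat.card_Icc]
    omega
  have hR : (D0 : ℝ) * ((∑ i ∈ J, f i : ℕ) : ℝ) ≤ 2 * n := by
    rw [e]
    push_cast
    rw [Finset.mul_sum]
    have hle : ∀ m ∈ Finset.Icc 1 M, (D0 : ℝ) * ((J.filter (fun i => m ≤ f i)).card : ℝ)
        ≤ n * (1 / (m : ℝ) ^ 5) := by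
      intro m hm
      obtain ⟨h1, h2⟩ := Finset.mem_Icc.1 hm
      have h3 := h m h1 h2
      have h3' : (D0 : ℝ) * (m : ℝ) ^ 5 * ((J.filter (fun i => m ≤ f i)).card : ℝ) ≤ n := by
        exact_mod_cast h3
      have hm0 : (0 : ℝ) < (m : ℝ) ^ 5 := by
        have : (0 : ℝ) < m := by exact_mod_cast h1
        positivity
      rw [mul_one_div, le_div_iff₀ hm0]
      calc (D0 : ℝ) * ((J.filter (fun i => m ≤ f i)).card : ℝ) * (m : ℝ) ^ 5
          = (D0 : ℝ) * (m : ℝ) ^ 5 * ((J.filter (fun i => m ≤ f i)).card : ℝ) := by ring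
        _ ≤ (n : ℝ) := h3'
    refine (Finset.sum_le_sum hle).trans ?_
    rw [← Finset.mul_sum]
    have h4 := sum_inv M
    have h5 : (0 : ℝ) ≤ 1 / ((M : ℝ) + 1) := by positivity
    have h6 : (0 : ℝ) ≤ (n : ℝ) := Nat.cast_nonneg n
    nlinarith
  exact_mod_cast hR

lemma final_arith (a b j w W d : ℕ) (hb : b ≤ j) (h1 : 9 * a ≤ 11 * b + 2421 * W + 10 * w)
    (h2 : D0 * W ≤ 2 * (a + b + 120 * W)) (h3 : d ≤ a + b + 120 * W) : d ≤ 5 * (j + w) := by
  unfold D0 at h2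
  omega

end

end REACH_

open REACH_ in
theorem stmt_REACH (hN : Stmt_NEU) (hB : Stmt_BALL) : Stmt_REACH := by
  classical
  intro V G N bad C hG hC Col hP
  have hbig : 10 ^ 10 ≤ N := hG.big
  have main : ∀ n, ∀ K ∈ Cores G C, K.ncard ≤ n → ∀ j, j ≤ 11 * wt N K → ∀ y ∈ Col K j,
      ∀ u ∈ K, dc G C u y ≤ 5 * (j + wt N K) := by
    intro n
    induction n using Nat.strong_induction_on with
    | _ n ih =>
    intro K hK hKn j hj y hy u hu
    have hF : ∀ K' ∈ Cores G C, K'.ncard < K.ncard → ∀ u ∈ K', ∀ y ∈ Col K' (11 * wt N K'),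
        dc G C u y ≤ 60 * ll N K' := by
      intro K' hK' hlt u hu y hy
      have := ih K'.ncard (by omega) K' hK' le_rfl (11 * wt N K') le_rfl y hy u hu
      unfold wt at this
      omega
    obtain ⟨rk, hrk⟩ := hP.ranked K hK
    have hKf := core_fin hC hK
    obtain ⟨Phi, hPhi⟩ := exists_pot (C := C) hN hG K hKf (fun K' => Col K' (11 * wt N K'))
      (fun K' hK' hlt => ball_fin hB hG hC hK' (hF K' hK' hlt))
      (fun v K' hK' K'' hK'' h1 h2 h3 h4 h5 =>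
        ball_inj hG.conn hC hK' hK'' (hF K' hK' h1) (hF K'' hK'' h2) h5 h3 h4)
    obtain ⟨a, b, J, h⟩ := chain hG hC hK hrk hPhi hF _ j y le_rfl hj hy
    obtain ⟨q, hq, hd⟩ := h.rea
    have hW := layer J (ll N) (ll N K) (a + b + 120 * ∑ K' ∈ J, ll N K')
      (fun K' hK' => ll_mono (h.hJ K' hK').2.le) (by
        intro m hm hm2
        obtain ⟨Q, -, -, -, q', -, h3⟩ := h.lay m hm hm2
        omega)
    have hpot : 9 * a ≤ 11 * b + 2421 * ∑ K' ∈ J, ll N K' + 10 * ll N K := by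
      have h1 := h.pot.trans (mul_le_mul' le_rfl (hPhi.p5 y))
      rw [← pow_add] at h1
      have h2 : N ^ (9 * a) ≤ N ^ (11 * b + 2421 * ∑ K' ∈ J, ll N K' + 10 * ll N K) := by
        exact_mod_cast h1
      exact (Nat.pow_le_pow_iff_right (by omega)).1 h2
    have hfin := final_arith a b j (ll N K) _ (dc G C y q) h.hb hpot hW hd
    have h5 : dc G C u y ≤ dc G C u q + dc G C q y := dc_triangle hG.conn u q y
    rw [core_dc hK hu hq, dc_comm hG.conn q y] at h5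
    unfold wt
    omega
  exact ⟨hP.base, hP.mono, hP.clos, hP.nbr, hP.swal, fun K hK j hj y hy u hu =>
    main _ K hK le_rfl j hj y hy u hu⟩

end Pool.Agent.FPPHE
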