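import Pool.Agent.Work.MP_04d5a3_full.QC
import Pool.Agent.Work.MP_04d5a3_full.Tool

/-!
# FPPHE (MP_04d5a3_pr): block RHO (the functions `ρ`), helper31
-/

namespace Pool.Agent.FPPHE

namespace RHO_

open SimpleGraph

variable {V : Type} {G : SimpleGraph V} {N : ℕ} {C : Set V} {U : V → ℝ}

/-- logarithm of the field -/
noncomputable def EE (N : ℕ) (U : V → ℝ) (y : V) : ℝ :=
  open Classical in if U y < 1 then 0 else 1 + Real.log (U y) / (20 * Real.log N)

/-- the distance part -/
noncomputable def hq (G : SimpleGraph V) (C : Set V) (U : V → ℝ) (v y : V) : ℕ :=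
  sInf {n | ∃ s, ∃ p : G.Walk s v, (∀ w ∈ p.support, U w < 1) ∧ n = p.length + 800 * dc G C y s}

lemma logN_pos (hN : Nbig ≤ N) : 0 < Real.log N := by
  apply Real.log_pos
  unfold Nbig at hN
  exact_mod_cast lt_of_lt_of_le (by norm_num) hN

lemma EE_nonneg (hN : Nbig ≤ N) (y : V) : 0 ≤ EE N U y := by
  unfold EE
  split_ifs with h
  · exact le_rfl
  · push Not at h
    have := Real.log_nonneg h
    have := logN_pos hN
    positivity

lemma EE_one (hN : Nbig ≤ N) {y : V} (h : 1 ≤ U y) : 1 ≤ EE N U y := by
  unfold EE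
  rw [if_neg (not_lt.mpr h)]
  have := Real.log_nonneg h
  have := logN_pos hN
  have : 0 ≤ Real.log (U y) / (20 * Real.log N) := by positivity
  linarith

lemma Npos (hN : Nbig ≤ N) : (0 : ℝ) < N := by
  unfold Nbig at hN
  exact_mod_cast lt_of_lt_of_le (by norm_num) hN

lemma EE_gain (hN : Nbig ≤ N) {x y : V} (h : 1 ≤ U y) (hx : (N : ℝ) ^ 2 * U x < U y) :
    EE N U x ≤ EE N U y - 1 / 10 := by
  by_cases h1 : U x < 1
  · have h2 := EE_one hN h
    have h3 : EE N U x = 0 := by unfold EE; rw [if_pos h1]
    rw [h3]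
    linarith
  · have hl := logN_pos hN
    unfold EE
    rw [if_neg h1, if_neg (not_lt.mpr h)]
    push Not at h1
    have h2 : Real.log ((N : ℝ) ^ 2 * U x) ≤ Real.log (U y) :=
      Real.log_le_log (by have := Npos hN; positivity) hx.le
    rw [Real.log_mul (by have := Npos hN; positivity) (by positivity), Real.log_pow] at h2
    have h3 : Real.log (U x) / (20 * Real.log N) + 1 / 10 ≤ Real.log (U y) / (20 * Real.log N) := by
      have h4 : (1 : ℝ) / 10 = (2 * Real.log N) / (20 * Real.log N) := by
        field_simp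
        norm_num
      rw [h4, ← add_div]
      apply div_le_div_of_nonneg_right _ (by positivity)
      push_cast at h2
      linarith
    linarith

lemma EE_step (hN : Nbig ≤ N) {x y : V} (h : U y ≤ (N : ℝ) ^ 16 * max (U x) 1) :
    EE N U y ≤ EE N U x + 9 / 5 := by
  by_cases h1 : U y < 1
  · have h2 := EE_nonneg (U := U) hN x
    have h3 : EE N U y = 0 := by unfold EE; rw [if_pos h1]
    rw [h3]
    linarith
  · push Not at h1
    have hl := logN_pos hN
    have hNp := Npos hN
    have h5 : EE N U y = 1 + Real.log (U y) / (20 * Real.log N) := by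
      unfold EE
      rw [if_neg (not_lt.mpr h1)]
    have h6 : Real.log (U y) ≤ 16 * Real.log N + Real.log (max (U x) 1) := by
      have h7 : Real.log (U y) ≤ Real.log ((N : ℝ) ^ 16 * max (U x) 1) :=
        Real.log_le_log (by positivity) h
      rw [Real.log_mul (by positivity) (by positivity), Real.log_pow] at h7
      push_cast at h7
      exact h7
    have h8 : Real.log (U y) / (20 * Real.log N) ≤
        4 / 5 + Real.log (max (U x) 1) / (20 * Real.log N) := by
      have h4 : (4 : ℝ) / 5 = (16 * Real.log N) / (20 * Real.log N) := by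
        field_simp
        norm_num
      rw [h4, ← add_div]
      exact div_le_div_of_nonneg_right h6 (by positivity)
    by_cases h9 : U x < 1
    · have h10 : EE N U x = 0 := by unfold EE; rw [if_pos h9]
      rw [max_eq_right h9.le] at h8
      simp only [Real.log_one, zero_div, add_zero] at h8
      rw [h10, h5]
      linarith
    · push Not at h9
      have h10 : EE N U x = 1 + Real.log (U x) / (20 * Real.log N) := by
        unfold EE
        rw [if_neg (not_lt.mpr h9)]
      rw [max_eq_left h9] at h8
      rw [h10, h5]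
      linarith

lemma EE_core (hN : Nbig ≤ N) {x y : V} {K : Set V} (hK : K.Nonempty) (hKf : K.Finite)
    (hx : 1 ≤ U x) (h : U y ≤ (N : ℝ) ^ 16 * K.ncard * U x) :
    EE N U y ≤ EE N U x + ll N K := by
  have hll := ll_pos N K
  have hll' : (1 : ℝ) ≤ ll N K := by exact_mod_cast hll
  by_cases h1 : U y < 1
  · have h2 := EE_nonneg (U := U) hN x
    have h3 : EE N U y = 0 := by unfold EE; rw [if_pos h1]
    rw [h3]
    linarith
  · push Not at h1
    have hl := logN_pos hN
    have hNp := Npos hN
    have hn : 0 < K.ncard := (Set.ncard_pos hKf).mpr hK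
    have hn' : (0 : ℝ) < K.ncard := by exact_mod_cast hn
    have h5 : EE N U y = 1 + Real.log (U y) / (20 * Real.log N) := by
      unfold EE
      rw [if_neg (not_lt.mpr h1)]
    have h10 : EE N U x = 1 + Real.log (U x) / (20 * Real.log N) := by
      unfold EE
      rw [if_neg (not_lt.mpr hx)]
    have hc : (K.ncard : ℝ) ≤ ((N : ℝ) ^ 20) ^ (ll N K - 1) := by
      have : 2 ≤ N := by
        unfold Nbig at hN
        exact le_trans (by norm_num) hN
      exact_mod_cast ncard_le_ll this K
    have h6 : Real.log (U y) ≤ 16 * Real.log N + (ll N K - 1) * (20 * Real.log N) + Real.log (U x) := by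
      have h7 : Real.log (U y) ≤ Real.log ((N : ℝ) ^ 16 * K.ncard * U x) :=
        Real.log_le_log (by positivity) h
      rw [Real.log_mul (by positivity) (by positivity), Real.log_mul (by positivity) (by positivity),
        Real.log_pow] at h7
      have h8 : Real.log (K.ncard : ℝ) ≤ Real.log (((N : ℝ) ^ 20) ^ (ll N K - 1)) :=
        Real.log_le_log hn' hc
      rw [Real.log_pow, Real.log_pow, Nat.cast_sub hll] at h8
      push_cast at h7 h8
      linarith
    have h8 : Real.log (U y) / (20 * Real.log N) ≤
        4 / 5 + (ll N K - 1) + Real.log (U x) / (20 * Real.log N) := by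
      have h4 : (4 : ℝ) / 5 = (16 * Real.log N) / (20 * Real.log N) := by
        field_simp
        norm_num
      have h4' : ((ll N K : ℝ) - 1) = ((ll N K - 1) * (20 * Real.log N)) / (20 * Real.log N) := by
        field_simp
      rw [h4, h4', ← add_div, ← add_div]
      refine div_le_div_of_nonneg_right ?_ (by positivity)
      exact h6
    rw [h10, h5]
    linarith

lemma hq_spec {v y : V} (hv : U v < 1) :
    ∃ s, ∃ p : G.Walk s v, (∀ w ∈ p.support, U w < 1) ∧
      hq G C U v y = p.length + 800 * dc G C y s := by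
  have : hq G C U v y ∈ {n | ∃ s, ∃ p : G.Walk s v, (∀ w ∈ p.support, U w < 1) ∧
      n = p.length + 800 * dc G C y s} := by
    apply Nat.sInf_mem
    exact ⟨_, v, Walk.nil, by simpa using hv, rfl⟩
  exact this

lemma hq_le {v y s : V} (p : G.Walk s v) (hp : ∀ w ∈ p.support, U w < 1) :
    hq G C U v y ≤ p.length + 800 * dc G C y s :=
  Nat.sInf_le ⟨s, p, hp, rfl⟩

lemma hq_lip (hG : G.Connected) {v : V} (hv : U v < 1) (x y : V) :
    hq G C U v x ≤ hq G C U v y + 800 * dc G C x y := by
  obtain ⟨s, p, hp, he⟩ := hq_spec (G := G) (C := C) (y := y) hv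
  have h1 := hq_le (C := C) (y := x) p hp
  have h2 := dc_tri (C := C) hG x y s
  omega

/-- the function -/
noncomputable def rh (G : SimpleGraph V) (N : ℕ) (C : Set V) (U : V → ℝ) (v y : V) : ℝ :=
  8010 * EE N U y + hq G C U v y

end RHO_

open RHO_ SimpleGraph in
theorem stmt_RHO (hCH : Stmt_CHAIN) (hE3 : Stmt_E3) : Stmt_RHO := by
  intro Λ H N bad C U hF hG hC hU v hv
  have hN := hG.big
  have hNp := Npos hN
  have hN1 : (1 : ℝ) ≤ N := by
    unfold Nbig at hN
    exact_mod_cast le_trans (by norm_num) hN
  have hconn := hG.conn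
  have hUC : ∀ x ∈ C, (N : ℝ) ^ 340 ≤ U x := by
    intro x hx
    refine le_trans (pow_le_pow_right₀ hN1 ?_) (hU.f2 x hx)
    have : Ca = 100000 := by norm_num [Ca, lamI]
    have h2 : Ca ≤ max Ca (2 * (cls (H.boxProd H) C x).ncard) := le_max_left _ _
    omega
  have hUC1 : ∀ x ∈ C, 1 ≤ U x := fun x hx => le_trans (one_le_pow₀ hN1) (hUC x hx)
  have hdist : ∀ s s', U s < 1 → U s' < 1 → ∃ p : (H.boxProd H).Walk s s',
      (∀ w ∈ p.support, U w < 1) ∧ p.length ≤ 800 * dc (H.boxProd H) C s s' := by
    intro s s' hs hs'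
    obtain ⟨p, hp, hl⟩ := stmt_QC Λ H N C U hF hU.nonneg hU.f1 hUC s s' hs hs'
    have h3 := hE3 _ (H.boxProd H) N bad C U hG hC hUC1 hU.f3 s s' hs hs'
    exact ⟨p, hp, by omega⟩
  refine ⟨rh (H.boxProd H) N C U v, ?_, ?_, ?_, ?_⟩
  · intro y
    have := EE_nonneg (U := U) hN y
    unfold rh
    positivity
  · -- r1
    intro y hy hyv
    obtain ⟨s, p, hp, he⟩ := hq_spec (G := H.boxProd H) (C := C) (y := y) hv
    obtain ⟨q, hq1, hq2⟩ := hdist y s hy (hp s (by simp))
    have hr : ∀ w ∈ (q.append p).support, U w < 1 := by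
      intro w hw
      rw [Walk.mem_support_append_iff] at hw
      rcases hw with hw | hw
      · exact hq1 w hw
      · exact hp w hw
    have hrl : (q.append p).length ≤ hq (H.boxProd H) C U v y := by
      rw [Walk.length_append]
      omega
    cases hqp : q.append p with
    | nil => exact absurd rfl hyv
    | @cons _ x _ h r =>
      rw [hqp] at hr hrl
      have hx : U x < 1 := hr x (by simp)
      refine ⟨x, h, hx, ?_⟩
      have h1 := hq_le (C := C) (y := x) r (fun w hw => hr w (by simp [hw]))
      rw [dc_self] at h1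
      rw [Walk.length_cons] at hrl
      have h2 : hq (H.boxProd H) C U v x + 1 ≤ hq (H.boxProd H) C U v y := by omega
      have h3 : EE N U x = 0 := by unfold EE; rw [if_pos hx]
      have h4 : EE N U y = 0 := by unfold EE; rw [if_pos hy]
      unfold rh
      rw [h3, h4]
      have h5 : (hq (H.boxProd H) C U v x : ℝ) + 1 ≤ hq (H.boxProd H) C U v y := by exact_mod_cast h2
      linarith
  · -- r2
    intro y hy hy1
    have hsub : {x | (H.boxProd H).Adj y x ∧ x ∉ C ∧ rh (H.boxProd H) N C U v y - 1 <
        rh (H.boxProd H) N C U v x} ⊆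
        {x | (H.boxProd H).Adj y x ∧ max (U y) 1 ≤ (N : ℝ) ^ 2 * U x} := by
      rintro x ⟨hx1, hx2, hx3⟩
      refine ⟨hx1, ?_⟩
      by_contra hcon
      push Not at hcon
      rw [max_eq_left hy1] at hcon
      have h1 := EE_gain hN hy1 hcon
      have h2 := hq_lip (C := C) hconn hv x y
      have h3 : dc (H.boxProd H) C x y ≤ 1 := dc_adj hx1.symm
      have h4 : hq (H.boxProd H) C U v x ≤ hq (H.boxProd H) C U v y + 800 := by omega
      have h5 : (hq (H.boxProd H) C U v x : ℝ) ≤ hq (H.boxProd H) C U v y + 800 := by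
        exact_mod_cast h4
      unfold rh at hx3
      linarith
    have hfin : {x | (H.boxProd H).Adj y x ∧ max (U y) 1 ≤ (N : ℝ) ^ 2 * U x}.Finite :=
      (QC_.box_fin hF y).subset (fun x h => h.1)
    have h1 := Set.ncard_le_ncard hsub hfin
    have h2 := QC_.count hU.nonneg (QC_.box_fin hF y) (hU.f1 y hy)
      (S := {x | (H.boxProd H).Adj y x ∧ max (U y) 1 ≤ (N : ℝ) ^ 2 * U x})
      (fun x h => h.1) (fun x h => h.2)
    have h3 : N ^ 18 * 100 ≤ N ^ 20 := by
      have h4 : 10 ^ 10 ≤ N := by
        unfold Nbig at hN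
        exact hN
      have : N ^ 20 = N ^ 18 * N ^ 2 := by ring
      rw [this]
      apply Nat.mul_le_mul_left
      nlinarith
    calc _ ≤ N ^ 18 * 100 := Nat.mul_le_mul_right _ (h1.trans h2)
      _ ≤ _ := h3
  · -- r3
    intro y y' hy hy' p
    have hcls : ∀ u w, u ∈ cls (H.boxProd H) C w →
        rh (H.boxProd H) N C U v u = rh (H.boxProd H) N C U v w := by
      intro u w huw
      have h1 := hU.const u w huw
      have h2 : EE N U u = EE N U w := by unfold EE; rw [h1]
      have h3 : hq (H.boxProd H) C U v u = hq (H.boxProd H) C U v w := by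
        have h4 := hq_lip (C := C) hconn hv u w
        have h5 := hq_lip (C := C) hconn hv w u
        have h6 : dc (H.boxProd H) C w u = 0 := dc_of_mem_cls huw
        have h7 : dc (H.boxProd H) C u w = 0 := dc_of_mem_cls (cls_symm huw)
        omega
      unfold rh
      rw [h2, h3]
    have hlip : ∀ x z, (H.boxProd H).Adj x z →
        (hq (H.boxProd H) C U v x : ℝ) ≤ hq (H.boxProd H) C U v z + 800 := by
      intro x z hxz
      have h4 := hq_lip (C := C) hconn hv x z
      have h5 : dc (H.boxProd H) C x z ≤ 1 := dc_adj hxz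
      have : hq (H.boxProd H) C U v x ≤ hq (H.boxProd H) C U v z + 800 := by omega
      exact_mod_cast this
    have hsingle : ∀ x z, x ∉ C → (H.boxProd H).Adj x z → U z ≤ (N : ℝ) ^ 16 * max (U x) 1 := by
      intro x z hx hxz
      have h1 := hU.f1 x hx
      rw [finsum_mem_eq_finite_toFinset_sum _ (QC_.box_fin hF x)] at h1
      refine le_trans ?_ h1
      exact Finset.single_le_sum (f := U) (fun i _ => hU.nonneg i) (by simpa using hxz)
    have key := fun (x z : Λ × Λ) (q : (H.boxProd H).Walk x z) =>
      hCH _ (H.boxProd H) N C (rh (H.boxProd H) N C U v) 16820 8010 (by norm_num) (by norm_num) hcls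
      (by
        intro x z hxz hx hz
        have h1 := EE_step hN (hsingle z x hz hxz.symm)
        have h2 := hlip x z hxz
        unfold rh
        linarith)
      (by
        intro x z hxz hx hz
        have h1 := EE_step hN (hsingle z x hz hxz.symm)
        have h2 := hlip x z hxz
        have h3 := hlip z x hxz.symm
        have h4 := EE_core hN (K := cls (H.boxProd H) C x) ⟨x, mem_cls_self x⟩ (hC.fin x)
          (hUC1 x hx) (hU.f1b x z hx hxz)
        have h5 : (0 : ℝ) ≤ ll N (cls (H.boxProd H) C x) := by positivity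
        unfold rh
        constructor <;> nlinarith)
      x z q
    have k1 := key y y' p
    have k2 := key y' y p.reverse
    rw [cost_reverse] at k2
    have hcr : coresOf (H.boxProd H) C p.reverse = coresOf (H.boxProd H) C p := by
      unfold coresOf
      congr 2
      ext w
      simp
    rw [hcr] at k2
    have hc6 : (C6 : ℝ) = 100000 := by norm_num [C6]
    rw [hc6, abs_le]
    have hs : (0 : ℝ) ≤ ((∑ K ∈ coresOf (H.boxProd H) C p, ll N K : ℕ) : ℝ) := by positivity
    have hc : (0 : ℝ) ≤ (cost (H.boxProd H) C p : ℝ) := by positivity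
    rw [Nat.cast_add]
    constructor <;> nlinarith

end Pool.Agent.FPPHE
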