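import Pool.Agent.Work.MP_04d5a3_full.Interface
import Pool.Agent.Work.MP_04d5a3_full.Tool

/-! # Block SUM -/

namespace Pool.Agent.FPPHE.SUM_

open SimpleGraph

variable {V : Type} {G : SimpleGraph V} {C : Set V}

/-- first hit of a set -/
lemma first_hit (P : Set V) {u v : V} (p : G.Walk u v) (h : ∃ w ∈ p.support, w ∈ P) :
    ∃ (z : V) (p1 : G.Walk u z) (p2 : G.Walk z v), p = p1.append p2 ∧ z ∈ P ∧
      ∀ w ∈ p.support, w ∈ P → w ∈ p2.support := by
  classical
  induction p with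
  | nil =>
    obtain ⟨w, hw, hP⟩ := h
    simp only [Walk.support_nil, List.mem_cons, List.not_mem_nil, or_false] at hw
    subst hw
    exact ⟨w, Walk.nil, Walk.nil, rfl, hP, fun _ h _ => h⟩
  | @cons u w v hadj q ih =>
    by_cases hu : u ∈ P
    · exact ⟨u, Walk.nil, Walk.cons hadj q, rfl, hu, fun _ h _ => h⟩
    · have h' : ∃ z ∈ q.support, z ∈ P := by
        obtain ⟨z, hz, hzP⟩ := h
        rw [Walk.support_cons, List.mem_cons] at hz
        rcases hz with rfl | hz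
        · exact absurd hzP hu
        · exact ⟨z, hz, hzP⟩
      obtain ⟨z, p1, p2, he, hz, hall⟩ := ih h'
      refine ⟨z, Walk.cons hadj p1, p2, by rw [Walk.cons_append, he], hz, fun y hy hyP => ?_⟩
      rw [Walk.support_cons, List.mem_cons] at hy
      rcases hy with rfl | hy
      · exact absurd hyP hu
      · exact hall y hy hyP

lemma sep_aux (L n : ℕ) : ∀ (u v : V) (p : G.Walk u v) (K0 : Set V) (T : Finset (Set V)),
    T.card = n → u ∈ K0 → K0 ∉ T → (∀ K ∈ T, ∃ w ∈ p.support, w ∈ K) →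
    (∀ K ∈ insert K0 T, ∀ K' ∈ insert K0 T, K ≠ K' → ∀ x ∈ K, ∀ y ∈ K', L ≤ dc G C x y) →
    n * L ≤ cost G C p := by
  classical
  induction n with
  | zero => intro u v p K0 T _ _ _ _ _; simp
  | succ n ih =>
    intro u v p K0 T hT hu hK0 hmeet hsep
    obtain ⟨K1, hK1⟩ : T.Nonempty := by
      rw [← Finset.card_pos]; omega
    obtain ⟨w1, hw1, hw1K⟩ := hmeet K1 hK1
    obtain ⟨z, p1, p2, he, ⟨K2, hK2, hz2⟩, hall⟩ :=
      first_hit {w | ∃ K ∈ T, w ∈ K} p ⟨w1, hw1, K1, hK1, hw1K⟩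
    have hne : K0 ≠ K2 := fun h => hK0 (h ▸ hK2)
    have c1 : L ≤ cost G C p1 :=
      (hsep K0 (Finset.mem_insert_self _ _) K2 (Finset.mem_insert_of_mem hK2) hne u hu z hz2).trans
        (dc_le p1)
    have c2 := ih z v p2 K2 (T.erase K2) (by rw [Finset.card_erase_of_mem hK2]; omega) hz2
      (Finset.notMem_erase _ _) (fun K hK => by
        have hK' := Finset.mem_of_mem_erase hK
        obtain ⟨w, hw, hwK⟩ := hmeet K hK'
        exact ⟨w, hall w hw ⟨K, hK', hwK⟩, hwK⟩) (by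
        rw [Finset.insert_erase hK2]
        intro K hK K' hK' hne
        exact hsep K (Finset.mem_insert_of_mem hK) K' (Finset.mem_insert_of_mem hK') hne)
    rw [he, cost_append]
    nlinarith

lemma sep_walk (L : ℕ) {u v : V} (p : G.Walk u v) (T : Finset (Set V))
    (hmeet : ∀ K ∈ T, ∃ w ∈ p.support, w ∈ K)
    (hsep : ∀ K ∈ T, ∀ K' ∈ T, K ≠ K' → ∀ x ∈ K, ∀ y ∈ K', L ≤ dc G C x y) :
    T.card * L ≤ cost G C p + L := by
  classical
  rcases T.eq_empty_or_nonempty with rfl | ⟨K1, hK1⟩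
  · simp
  · obtain ⟨w1, hw1, hw1K⟩ := hmeet K1 hK1
    obtain ⟨z, p1, p2, he, ⟨K2, hK2, hz2⟩, hall⟩ :=
      first_hit {w | ∃ K ∈ T, w ∈ K} p ⟨w1, hw1, K1, hK1, hw1K⟩
    have c2 := sep_aux (C := C) L (T.erase K2).card z v p2 K2 (T.erase K2) rfl hz2
      (Finset.notMem_erase _ _) (fun K hK => by
        have hK' := Finset.mem_of_mem_erase hK
        obtain ⟨w, hw, hwK⟩ := hmeet K hK'
        exact ⟨w, hall w hw ⟨K, hK', hwK⟩, hwK⟩) (by
        rw [Finset.insert_erase hK2]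
        intro K hK K' hK' hne
        exact hsep K hK K' hK' hne)
    rw [Finset.card_erase_of_mem hK2] at c2
    rw [he, cost_append]
    have hpos : 1 ≤ T.card := Finset.card_pos.mpr ⟨K2, hK2⟩
    obtain ⟨c, hc⟩ : ∃ c, T.card = c + 1 := ⟨T.card - 1, by omega⟩
    rw [hc] at c2 ⊢
    rw [Nat.add_sub_cancel] at c2
    rw [add_mul, one_mul]
    omega

lemma sum_inv (M : ℕ) : ∑ m ∈ Finset.Icc 1 M, (1 : ℝ) / (m : ℝ) ^ 5 ≤ 2 - 1 / ((M : ℝ) + 1) := by
  induction M with
  | zero => norm_num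
  | succ M ih =>
    rw [Finset.sum_Icc_succ_top (by omega)]
    push_cast
    have hM : (0 : ℝ) ≤ M := Nat.cast_nonneg M
    have h1 : (1 : ℝ) / ((M : ℝ) + 1) ^ 5 ≤ 1 / ((M : ℝ) + 1) - 1 / ((M : ℝ) + 1 + 1) ∨ M = 0 := by
      rcases Nat.eq_zero_or_pos M with h | h
      · exact Or.inr h
      · left
        have hM1 : (1 : ℝ) ≤ M := by exact_mod_cast h
        rw [div_sub_div _ _ (by positivity) (by positivity), div_le_div_iff₀ (by positivity)
          (by positivity)]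
        have e1 : (2 : ℝ) ≤ (M + 1) := by linarith
        have e2 : (16 : ℝ) ≤ (M + 1 : ℝ) ^ 4 := by
          calc (16 : ℝ) = 2 ^ 4 := by norm_num
            _ ≤ _ := pow_le_pow_left₀ (by norm_num) e1 4
        have e3 : (M + 1 : ℝ) ^ 5 = (M + 1) ^ 4 * (M + 1) := by ring
        nlinarith [mul_le_mul_of_nonneg_right e2 (by linarith : (0 : ℝ) ≤ M + 1),
          mul_le_mul_of_nonneg_left (pow_le_pow_right₀ (by linarith : (1:ℝ) ≤ M + 1) (by norm_num : 3 ≤ 4)) (by linarith : (0 : ℝ) ≤ M + 1), pow_le_pow_right₀ (by linarith : (1:ℝ) ≤ M + 1) (by norm_num : 1 ≤ 3)]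
    rcases h1 with h1 | rfl
    · linarith
    · norm_num

end Pool.Agent.FPPHE.SUM_

namespace Pool.Agent.FPPHE

open SimpleGraph SUM_

theorem stmt_SUM : Stmt_SUM := by
  classical
  intro V G N bad C hG hC u v p M hM
  set c := cost G C p with hc
  set S := coresOf G C p with hS
  have hcount : ∀ m, 1 ≤ m → (S.filter (fun K => m ≤ ll N K)).card * (D0 * m ^ 5) ≤
      c + D0 * m ^ 5 := by
    intro m _
    refine sep_walk _ p _ ?_ ?_
    · intro K hK
      obtain ⟨w, hw, _, rfl⟩ := (mem_coresOf p K).mp (Finset.mem_filter.mp hK).1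
      exact ⟨w, hw, mem_cls_self w⟩
    · intro K hK K' hK' hne x hx y hy
      have hK1 := Finset.mem_filter.mp hK
      have hK2 := Finset.mem_filter.mp hK'
      refine le_trans ?_ (core_sep hC (coresOf_sub_cores p hK1.1) (coresOf_sub_cores p hK2.1)
        hne hx hy)
      exact Nat.mul_le_mul_left _ (Nat.pow_le_pow_left (le_min hK1.2 hK2.2) 5)
  have hsum : ∑ K ∈ S, ll N K = ∑ m ∈ Finset.Icc 1 M, (S.filter (fun K => m ≤ ll N K)).card := by
    have h1 : ∀ K ∈ S, ll N K = ∑ m ∈ Finset.Icc 1 M, if m ≤ ll N K then 1 else 0 := by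
      intro K hK
      rw [← Finset.sum_filter, Finset.sum_const, smul_eq_mul, mul_one]
      have : (Finset.Icc 1 M).filter (fun m => m ≤ ll N K) = Finset.Icc 1 (ll N K) := by
        ext m
        simp only [Finset.mem_filter, Finset.mem_Icc]
        have := hM K hK
        omega
      rw [this, Nat.card_Icc]
      omega
    rw [Finset.sum_congr rfl h1, Finset.sum_comm]
    refine Finset.sum_congr rfl (fun m _ => ?_)
    rw [← Finset.sum_filter, Finset.sum_const, smul_eq_mul, mul_one]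
  have hD : (0 : ℝ) < D0 := by unfold D0; norm_num
  have hreal : (D0 : ℝ) * (∑ K ∈ S, ll N K : ℕ) ≤ D0 * M + 2 * c := by
    rw [hsum]
    push_cast
    have h1 : ∀ m ∈ Finset.Icc 1 M, ((S.filter (fun K => m ≤ ll N K)).card : ℝ) ≤
        1 + (c : ℝ) / D0 * (1 / (m : ℝ) ^ 5) := by
      intro m hm
      rw [Finset.mem_Icc] at hm
      have hmr : (1 : ℝ) ≤ m := by exact_mod_cast hm.1
      have h := hcount m hm.1
      have h' : ((S.filter (fun K => m ≤ ll N K)).card : ℝ) * (D0 * (m : ℝ) ^ 5) ≤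
          c + D0 * (m : ℝ) ^ 5 := by exact_mod_cast h
      have hpos : (0 : ℝ) < D0 * (m : ℝ) ^ 5 := by positivity
      rw [← le_div_iff₀ hpos] at h'
      refine h'.trans (le_of_eq ?_)
      field_simp
      ring
    have h2 := Finset.sum_le_sum h1
    rw [Finset.sum_add_distrib, ← Finset.mul_sum, Finset.sum_const, Nat.card_Icc, nsmul_eq_mul,
      mul_one, Nat.add_sub_cancel] at h2
    have h3 := sum_inv M
    have h4 : ∑ m ∈ Finset.Icc 1 M, (1 : ℝ) / (m : ℝ) ^ 5 ≤ 2 := by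
      have : (0 : ℝ) ≤ 1 / ((M : ℝ) + 1) := by positivity
      linarith
    have h5 : (c : ℝ) / D0 * ∑ m ∈ Finset.Icc 1 M, (1 : ℝ) / (m : ℝ) ^ 5 ≤ (c : ℝ) / D0 * 2 :=
      mul_le_mul_of_nonneg_left h4 (by positivity)
    have h6 := mul_le_mul_of_nonneg_left (h2.trans (add_le_add_right h5 _)) hD.le
    refine h6.trans (le_of_eq ?_)
    field_simp
  exact_mod_cast hreal

end Pool.Agent.FPPHE
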