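import Pool.Agent.Work.MP_04d5a3_full.TREE2

/-!
# FPPHE (MP_04d5a3_pr), block TREE3: the product graph
-/

namespace Pool.Agent.FPPHE

namespace TreeAux

open scoped ENNReal

variable {k : ℕ}

section product

variable {α β : Type} (G : SimpleGraph α) (H : SimpleGraph β)

lemma opA_box (f : α × β → ℝ≥0∞) (a : α) (b : β) :
    opA (G.boxProd H) f (a, b) ≤
      opA G (fun x => f (x, b)) a + opA H (fun y => f (a, y)) b := by
  unfold opA
  have e : (G.boxProd H).neighborSet (a, b) =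
      (fun x => (x, b)) '' G.neighborSet a ∪ (fun y => (a, y)) '' H.neighborSet b := by
    rw [SimpleGraph.neighborSet_boxProd, Set.prod_singleton, Set.singleton_prod]
  rw [e]
  refine (ENNReal.tsum_union_le f _ _).trans (add_le_add ?_ ?_)
  · exact (tsum_image f (fun x _ y _ h => congrArg Prod.fst h)).le
  · exact (tsum_image f (fun x _ y _ h => congrArg Prod.snd h)).le

lemma N2_box (c : ℝ≥0∞) (hG : ∀ f : α → ℝ≥0∞, N2 (opA G f) ≤ c * N2 f)
    (hH : ∀ f : β → ℝ≥0∞, N2 (opA H f) ≤ c * N2 f) (f : α × β → ℝ≥0∞) :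
    N2 (opA (G.boxProd H) f) ≤ 4 * c * N2 f := by
  have h1 : N2 (opA (G.boxProd H) f) ≤
      ∑' p : α × β, (2 * (opA G (fun x => f (x, p.2)) p.1) ^ 2 +
        2 * (opA H (fun y => f (p.1, y)) p.2) ^ 2) := by
    refine ENNReal.tsum_le_tsum fun p => ?_
    obtain ⟨a, b⟩ := p
    refine le_trans ?_ (add_sq_le _ _)
    exact pow_le_pow_left' (opA_box G H f a b) 2
  refine h1.trans ?_
  rw [ENNReal.tsum_add, ENNReal.tsum_mul_left, ENNReal.tsum_mul_left]
  have h2 : ∑' p : α × β, (opA G (fun x => f (x, p.2)) p.1) ^ 2 ≤ c * N2 f := by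
    calc ∑' p : α × β, (opA G (fun x => f (x, p.2)) p.1) ^ 2
        = ∑' (a : α) (b : β), (opA G (fun x => f (x, b)) a) ^ 2 :=
          ENNReal.tsum_prod' (f := fun p : α × β => (opA G (fun x => f (x, p.2)) p.1) ^ 2)
      _ = ∑' (b : β) (a : α), (opA G (fun x => f (x, b)) a) ^ 2 := ENNReal.tsum_comm
      _ ≤ ∑' b : β, c * N2 (fun x => f (x, b)) := ENNReal.tsum_le_tsum fun b => hG _
      _ = c * ∑' (b : β) (a : α), f (a, b) ^ 2 := ENNReal.tsum_mul_left
      _ = c * ∑' (a : α) (b : β), f (a, b) ^ 2 := by rw [ENNReal.tsum_comm]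
      _ = c * N2 f := by
          congr 1
          exact (ENNReal.tsum_prod' (f := fun p : α × β => f p ^ 2)).symm
  have h3 : ∑' p : α × β, (opA H (fun y => f (p.1, y)) p.2) ^ 2 ≤ c * N2 f := by
    calc ∑' p : α × β, (opA H (fun y => f (p.1, y)) p.2) ^ 2
        = ∑' (a : α) (b : β), (opA H (fun y => f (a, y)) b) ^ 2 :=
          ENNReal.tsum_prod' (f := fun p : α × β => (opA H (fun y => f (p.1, y)) p.2) ^ 2)
      _ ≤ ∑' a : α, c * N2 (fun y => f (a, y)) := ENNReal.tsum_le_tsum fun a => hH _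
      _ = c * ∑' (a : α) (b : β), f (a, b) ^ 2 := ENNReal.tsum_mul_left
      _ = c * N2 f := by
          congr 1
          exact (ENNReal.tsum_prod' (f := fun p : α × β => f p ^ 2)).symm
  calc 2 * ∑' p : α × β, (opA G (fun x => f (x, p.2)) p.1) ^ 2 +
      2 * ∑' p : α × β, (opA H (fun y => f (p.1, y)) p.2) ^ 2
      ≤ 2 * (c * N2 f) + 2 * (c * N2 f) := by gcongr
    _ = 4 * c * N2 f := by ring

end product

variable (k)

lemma box_conn : ((treeG k).boxProd (treeG k)).Connected := (conn k).boxProd (conn k)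

lemma box_nbhd (a : FreeGroup (Fin k) × FreeGroup (Fin k)) :
    ((treeG k).boxProd (treeG k)).neighborSet a =
      (fun x => (x, a.2)) '' (treeG k).neighborSet a.1 ∪
      (fun y => (a.1, y)) '' (treeG k).neighborSet a.2 := by
  rw [SimpleGraph.neighborSet_boxProd, Set.prod_singleton, Set.singleton_prod]

lemma box_fin (a : FreeGroup (Fin k) × FreeGroup (Fin k)) :
    (((treeG k).boxProd (treeG k)).neighborSet a).Finite := by
  rw [box_nbhd]
  exact ((nbhd_fin _).image _).union ((nbhd_fin _).image _)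

lemma box_card (a : FreeGroup (Fin k) × FreeGroup (Fin k)) :
    (((treeG k).boxProd (treeG k)).neighborSet a).ncard = 2 * (2 * k) := by
  rw [box_nbhd, Set.ncard_union_eq ?_ ((nbhd_fin _).image _) ((nbhd_fin _).image _),
    Set.ncard_image_of_injective _ (fun x y h => congrArg Prod.fst h),
    Set.ncard_image_of_injective _ (fun x y h => congrArg Prod.snd h), nbhd_card, nbhd_card]
  · ring
  · rw [Set.disjoint_left]
    rintro _ ⟨x, hx, rfl⟩ ⟨y, hy, h⟩
    have h1 : a.1 = x := congrArg Prod.fst h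
    rw [← h1] at hx
    exact (treeG k).loopless.irrefl _ hx

lemma box_trans : VertexTransitive ((treeG k).boxProd (treeG k)) := by
  intro u v
  obtain ⟨φ, hφ⟩ := trans k u.1 v.1
  obtain ⟨ψ, hψ⟩ := trans k u.2 v.2
  refine ⟨⟨Equiv.prodCongr φ.toEquiv ψ.toEquiv, ?_⟩, ?_⟩
  · intro a c
    show ((treeG k).boxProd (treeG k)).Adj (φ a.1, ψ a.2) (φ c.1, ψ c.2) ↔ _
    rw [SimpleGraph.boxProd_adj, SimpleGraph.boxProd_adj]
    simp only [φ.map_adj_iff, ψ.map_adj_iff, φ.injective.eq_iff, ψ.injective.eq_iff]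
  · show (φ u.1, ψ u.2) = v
    rw [hφ, hψ]

lemma box_ball (n : ℕ) :
    k ^ n ≤ {v | ((treeG k).boxProd (treeG k)).dist (1, 1) v ≤ n}.ncard := by
  refine (ball_card k n).trans ?_
  rw [← Set.ncard_image_of_injective {a | (treeG k).dist 1 a ≤ n}
    (f := fun x : FreeGroup (Fin k) => (x, (1 : FreeGroup (Fin k))))
    (fun x y h => congrArg Prod.fst h)]
  apply Set.ncard_le_ncard
  · rintro _ ⟨a, ha, rfl⟩
    obtain ⟨p, hp⟩ := (conn k).exists_walk_length_eq_dist 1 a
    have h1 := SimpleGraph.dist_le (p.boxProdLeft (treeG k) (1 : FreeGroup (Fin k)))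
    have h2 : (p.boxProdLeft (treeG k) (1 : FreeGroup (Fin k))).length = p.length :=
      SimpleGraph.Walk.length_map _ _
    show ((treeG k).boxProd (treeG k)).dist (1, 1) (a, 1) ≤ n
    have h3 : (treeG k).dist 1 a ≤ n := ha
    omega
  · exact ball_fin _ (box_conn k) (box_fin k) _ _

lemma box_growth (hk : 2 ≤ k) : ExpGrowth ((treeG k).boxProd (treeG k)) 1 := by
  unfold ExpGrowth
  have hk1 : (1 : ℝ≥0∞) < (k : ℝ≥0∞) := by exact_mod_cast hk
  refine lt_of_lt_of_le hk1 ?_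
  apply Filter.le_liminf_of_le
  · exact ⟨⊤, fun a _ => le_top⟩
  filter_upwards [Filter.eventually_ge_atTop 1] with n hn
  have hn' : (n : ℝ) ≠ 0 := by
    have : 0 < n := hn
    positivity
  have h1 : ((k : ℝ≥0∞) ^ n) ≤
      ({v | ((treeG k).boxProd (treeG k)).dist 1 v ≤ n}.ncard : ℝ≥0∞) := by
    exact_mod_cast box_ball k n
  calc (k : ℝ≥0∞) = ((k : ℝ≥0∞) ^ n) ^ ((1 : ℝ) / (n : ℝ)) := by
        rw [← ENNReal.rpow_natCast, ← ENNReal.rpow_mul, mul_one_div_cancel hn', ENNReal.rpow_one]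
    _ ≤ _ := ENNReal.rpow_le_rpow h1 (by positivity)

lemma box_parity : ∃ par : FreeGroup (Fin k) × FreeGroup (Fin k) → Bool,
    ∀ a c, ((treeG k).boxProd (treeG k)).Adj a c → par a ≠ par c := by
  obtain ⟨par, hp⟩ := parity k
  refine ⟨fun a => xor (par a.1) (par a.2), ?_⟩
  rintro ⟨a1, a2⟩ ⟨c1, c2⟩ h
  rw [SimpleGraph.boxProd_adj] at h
  simp only at h ⊢
  rcases h with ⟨h1, h2⟩ | ⟨h1, h2⟩
  · have := hp _ _ h1
    rw [h2]
    intro h3
    apply this
    revert h3
    cases par a1 <;> cases par c1 <;> cases par c2 <;> simp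
  · have := hp _ _ h1
    rw [h2]
    intro h3
    apply this
    revert h3
    cases par a2 <;> cases par c1 <;> cases par c2 <;> simp

end TreeAux

theorem stmt_TREE3 : Stmt_TREE3 := by
  intro k N hN hk
  have hN1 : 1 ≤ N := by
    have : Nbig = 10 ^ 10 := rfl
    omega
  have hN2 : 4 ≤ N ^ 20 := by
    have h1 : 4 ≤ N := by
      have : Nbig = 10 ^ 10 := rfl
      omega
    calc 4 ≤ N := h1
      _ = N ^ 1 := (pow_one N).symm
      _ ≤ N ^ 20 := Nat.pow_le_pow_right hN1 (by norm_num)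
  have hk2 : 2 ≤ k := by omega
  refine ⟨⟨TreeAux.box_conn k, TreeAux.box_fin k, fun v => ?_, fun f => ?_, hN⟩,
    ⟨TreeAux.conn k, fun a => ?_, hN⟩, fun a => ?_, TreeAux.box_trans k,
    TreeAux.box_growth k hk2, TreeAux.box_parity k⟩
  · rw [TreeAux.box_card, hk]
  · have h := TreeAux.N2_box (treeG k) (treeG k) (4 * (2 * k : ENNReal))
      (stmt_TREE2 k (by omega)) (stmt_TREE2 k (by omega)) f
    have e : (2 * k : ENNReal) = (N : ENNReal) ^ 20 := by exact_mod_cast hk
    rw [e] at h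
    calc _ ≤ _ := h
      _ = 16 * (N : ENNReal) ^ 20 * N2 f := by ring
  · rw [TreeAux.nbhd_card, hk]
  · rw [TreeAux.box_card, hk]

end Pool.Agent.FPPHE
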