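import Pool.Agent.Work.MP_04d5a3_full.Interface
import Pool.Agent.Work.MP_04d5a3_full.Tool

/-!
# FPPHE (MP_04d5a3_pr), block VIT: (F4), Vitali argument
-/

namespace Pool.Agent.FPPHE

open SimpleGraph

namespace VIT_

/-- finite Vitali selection -/
lemma vitali {ι : Type} (R : ι → ℕ) (T : ι → ι → Prop) (hs : ∀ i k, T i k → T k i)
    (hr : ∀ i, T i i) : ∀ (n : ℕ) (I : Finset ι), I.card ≤ n → ∃ J ⊆ I,
      (∀ i ∈ J, ∀ k ∈ J, i ≠ k → ¬ T i k) ∧ ∀ i ∈ I, ∃ k ∈ J, T i k ∧ R i ≤ R k := by
  classical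
  intro n
  induction n with
  | zero =>
    intro I hI
    have : I = ∅ := Finset.card_eq_zero.1 (by omega)
    subst this
    exact ⟨∅, by simp, by simp, by simp⟩
  | succ n ih =>
    intro I hI
    rcases I.eq_empty_or_nonempty with rfl | hne
    · exact ⟨∅, by simp, by simp, by simp⟩
    obtain ⟨i₀, hi₀, hmax⟩ := Finset.exists_max_image I R hne
    set I' := I.filter (fun k => ¬ T i₀ k) with hI'
    have hlt : I'.card < I.card := by
      apply Finset.card_lt_card
      rw [Finset.ssubset_iff_of_subset (Finset.filter_subset _ _)]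
      exact ⟨i₀, hi₀, fun h => (Finset.mem_filter.1 h).2 (hr i₀)⟩
    obtain ⟨J, hJI, hJ1, hJ2⟩ := ih I' (by omega)
    refine ⟨insert i₀ J, ?_, ?_, ?_⟩
    · intro k hk
      rcases Finset.mem_insert.1 hk with rfl | hk
      · exact hi₀
      · exact (Finset.mem_filter.1 (hJI hk)).1
    · intro i hi k hk hne
      rcases Finset.mem_insert.1 hi with hi' | hi'
      · rcases Finset.mem_insert.1 hk with hk' | hk'
        · exact absurd (hi'.trans hk'.symm) hne
        · rw [hi']; exact (Finset.mem_filter.1 (hJI hk')).2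
      · rcases Finset.mem_insert.1 hk with hk' | hk'
        · rw [hk']; exact fun h => (Finset.mem_filter.1 (hJI hi')).2 (hs _ _ h)
        · exact hJ1 i hi' k hk' hne
    · intro i hi
      by_cases hT : T i₀ i
      · exact ⟨i₀, Finset.mem_insert_self _ _, hs _ _ hT, hmax i hi⟩
      · obtain ⟨k, hk, h1, h2⟩ := hJ2 i (Finset.mem_filter.2 ⟨hi, hT⟩)
        exact ⟨k, Finset.mem_insert_of_mem hk, h1, h2⟩

variable {V : Type} {G : SimpleGraph V} {C : Set V}

lemma diff_union_le (S T : Set V) :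
    ((S ∪ T) \ C).ncard ≤ (S \ C).ncard + (T \ C).ncard := by
  rw [Set.union_sdiff_distrib]
  exact Set.ncard_union_le _ _

/-- join two connected saturated sets by a cheap walk -/
lemma join (hG : G.Connected) (hfin : ∀ v, (cls G C v).Finite) {S T : Set V} (hS : S.Finite)
    (hT : T.Finite) (hSc : (G.induce S).Connected) (hTc : (G.induce T).Connected)
    (hSs : Sat G C S) (hTs : Sat G C T) {x y : V} (hx : x ∈ S) (hy : y ∈ T) {r : ℕ}
    (hr : dc G C x y ≤ r) :
    ∃ U : Set V, U.Finite ∧ (G.induce U).Connected ∧ Sat G C U ∧ S ⊆ U ∧ T ⊆ U ∧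
      (U \ C).ncard ≤ (S \ C).ncard + (r + 1) + (T \ C).ncard := by
  obtain ⟨p, hp⟩ := exists_walk (C := C) hG x y
  have h1 := hull_fin (G := G) (C := C) hfin p
  have h2 := hull_conn (C := C) p
  have h3 := hull_sat (G := G) (C := C) p
  have h4 := (hull_good (C := C) p).trans (outs_le_cost p)
  have hxp := support_sub_hull (G := G) (C := C) p p.start_mem_support
  have hyp := support_sub_hull (G := G) (C := C) p p.end_mem_support
  refine ⟨(S ∪ hull G C p) ∪ T, (hS.union h1).union hT, ?_, sat_union (sat_union hSs h3) hTs,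
    fun z hz => Or.inl (Or.inl hz), fun z hz => Or.inr hz, ?_⟩
  · exact conn_union (conn_union hSc h2 hx hxp (Or.inl rfl)) hTc (Or.inr hyp) hy (Or.inl rfl)
  · have h5 := diff_union_le (C := C) (S ∪ hull G C p) T
    have h6 := diff_union_le (C := C) S (hull G C p)
    omega

/-- certificates -/
structure Ce (G : SimpleGraph V) (C : Set V) (i : ℕ × V) (S : Set V) : Prop where
  fin : S.Finite
  conn : (G.induce S).Connected
  sat : Sat G C S
  mem : i.2 ∈ S
  rad : ∀ s ∈ S, dc G C i.2 s ≤ 2 * al i.1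
  bd : (S \ C).ncard + hp * al i.1 ≤ hh * (S ∩ C).ncard

/-- adjacency of selected islands -/
def ig (G : SimpleGraph V) (C : Set V) (J : Finset (ℕ × V)) : SimpleGraph (ℕ × V) where
  Adj i k := i ≠ k ∧ i ∈ J ∧ k ∈ J ∧ dc G C i.2 k.2 ≤ 3 * Rn i.1 + 3 * Rn k.1 + 3
  symm := ⟨fun _ _ h => ⟨h.1.symm, h.2.2.1, h.2.1, by rw [dc_comm]; have := h.2.2.2; omega⟩⟩
  loopless := ⟨fun _ h => h.1 rfl⟩

lemma along (hG : G.Connected) (hfin : ∀ v, (cls G C v).Finite) {J : Finset (ℕ × V)}
    {S : ℕ × V → Set V} (hS : ∀ i ∈ J, Ce G C i (S i)) {i k : ℕ × V} (q : (ig G C J).Walk i k)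
    (hi : i ∈ J) :
    (∀ j ∈ q.support, j ∈ J) ∧ ∃ U : Set V, U.Finite ∧ (G.induce U).Connected ∧ Sat G C U ∧
      (∀ j ∈ q.support, S j ⊆ U) ∧ (U \ C).ncard + 3 * Rn i.1 + 3 * Rn k.1 + 6 ≤
        (q.support.map (fun j => (S j \ C).ncard + (6 * Rn j.1 + 6))).sum := by
  induction q with
  | nil =>
    refine ⟨by simpa using hi, S _, (hS _ hi).fin, (hS _ hi).conn, (hS _ hi).sat, by simp, ?_⟩
    simp only [Walk.support_nil, List.map_cons, List.map_nil, List.sum_cons, List.sum_nil]
    omega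
  | @cons i l k h q ih =>
    obtain ⟨hJ, U, h1, h2, h3, h4, h5⟩ := ih h.2.2.1
    have hl : l.2 ∈ U := h4 l q.start_mem_support (hS l h.2.2.1).mem
    obtain ⟨W, w1, w2, w3, w4, w5, w6⟩ := join hG hfin (hS i hi).fin h1 (hS i hi).conn h2
      (hS i hi).sat h3 (hS i hi).mem hl h.2.2.2
    refine ⟨?_, W, w1, w2, w3, ?_, ?_⟩
    · intro j hj
      rw [Walk.support_cons, List.mem_cons] at hj
      rcases hj with rfl | hj
      · exact hi
      · exact hJ j hj
    · intro j hj
      rw [Walk.support_cons, List.mem_cons] at hj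
      rcases hj with rfl | hj
      · exact w4
      · exact (h4 j hj).trans w5
    · rw [Walk.support_cons, List.map_cons, List.sum_cons]
      omega

lemma cls_out_le (v : V) : (cls G C v \ C).ncard ≤ 1 := by
  by_cases hv : v ∈ C
  · rw [Set.sdiff_eq_empty.mpr (cls_sub hv)]; simp
  · rw [cls_out hv]
    exact (Set.ncard_le_ncard Set.sdiff_subset (Set.finite_singleton v)).trans
      (Set.ncard_singleton v).le

lemma mass_union (S : ℕ × V → Set V) (Z : Set V) (hZ : Z.Finite) :
    ∀ L : List (ℕ × V), L.Nodup → (∀ i ∈ L, S i ⊆ Z) →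
      (∀ i ∈ L, ∀ k ∈ L, i ≠ k → Disjoint (S i) (S k)) →
      (L.map (fun j => (S j ∩ C).ncard)).sum ≤ (Z ∩ C).ncard := by
  classical
  intro L
  induction L generalizing Z with
  | nil => intro _ _ _; simp
  | cons a L ih =>
    intro hn hsub hdis
    rw [List.nodup_cons] at hn
    have haZ : S a ⊆ Z := hsub a (by simp)
    have h1 := ih (Z \ S a) (hZ.subset Set.sdiff_subset) hn.2 (by
      intro i hi z hz
      refine ⟨hsub i (by simp [hi]) hz, fun hza => ?_⟩
      have hne : i ≠ a := by rintro rfl; exact hn.1 hi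
      exact Set.disjoint_left.1 (hdis i (by simp [hi]) a (by simp) hne) hz hza) (by
      intro i hi k hk hne
      exact hdis i (by simp [hi]) k (by simp [hk]) hne)
    rw [List.map_cons, List.sum_cons]
    have h2 : Z ∩ C = (S a ∩ C) ∪ ((Z \ S a) ∩ C) := by
      ext z
      constructor
      · rintro ⟨hz, hzC⟩
        by_cases hza : z ∈ S a
        · exact Or.inl ⟨hza, hzC⟩
        · exact Or.inr ⟨⟨hz, hza⟩, hzC⟩
      · rintro (⟨hz, hzC⟩ | ⟨⟨hz, _⟩, hzC⟩)
        · exact ⟨haZ hz, hzC⟩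
        · exact ⟨hz, hzC⟩
    have h3 : (Z ∩ C).ncard = (S a ∩ C).ncard + ((Z \ S a) ∩ C).ncard := by
      rw [h2]
      exact Set.ncard_union_eq (Set.disjoint_left.2 fun z hz hz' => hz'.1.2 hz.1)
        ((hZ.subset haZ).subset Set.inter_subset_left)
        ((hZ.subset Set.sdiff_subset).subset Set.inter_subset_left)
    omega

lemma list_bd (S : ℕ × V → Set V) : ∀ L : List (ℕ × V), (∀ i ∈ L, Ce G C i (S i)) →
    (L.map (fun j => (S j \ C).ncard + (6 * Rn j.1 + 6))).sum ≤
      hh * (L.map (fun j => (S j ∩ C).ncard)).sum := by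
  intro L
  induction L with
  | nil => intro _; simp
  | cons a L ih =>
    intro h
    have h1 := ih (fun i hi => h i (by simp [hi]))
    have h2 := (h a (by simp)).bd
    rw [List.map_cons, List.sum_cons, List.map_cons, List.sum_cons, mul_add]
    have h3 : 6 * Rn a.1 + 6 ≤ hp * al a.1 := by
      have h4 : 1 ≤ al a.1 := by
        unfold al
        exact Nat.one_le_iff_ne_zero.2 (Nat.mul_ne_zero (by unfold Ca lamI; norm_num)
          (pow_ne_zero _ (by unfold lamI; norm_num)))
      unfold Rn hp lamI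
      omega
    omega

end VIT_

open VIT_ in
theorem stmt_VIT (hCERT : Stmt_CERT) : Stmt_VIT := by
  classical
  intro V G N bad C hG hC u v p hp
  have hconn := hG.conn
  -- indices
  choose! nn hn using hp
  choose! xx hx using hn
  set f : V → ℕ × V := fun w => (nn w, xx w) with hf
  set I : Finset (ℕ × V) := p.support.toFinset.image f with hI
  have hfI : ∀ w ∈ p.support, f w ∈ I := fun w hw =>
    Finset.mem_image_of_mem f (List.mem_toFinset.2 hw)
  have hII : ∀ i ∈ I, i.2 ∈ isl G C i.1 := by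
    intro i hi
    obtain ⟨w, hw, rfl⟩ := Finset.mem_image.1 hi
    exact (hx w (List.mem_toFinset.1 hw)).1
  obtain ⟨J, hJI, hJ1, hJ2⟩ := vitali (fun i : ℕ × V => Rn i.1)
    (fun i k => dc G C i.2 k.2 ≤ Rn i.1 + Rn k.1 + 1)
    (fun i k h => by rw [dc_comm]; omega) (fun i => by simp) I.card I le_rfl
  have hcert : ∀ i, ∃ S, i ∈ J → Ce G C i S := by
    intro i
    by_cases hi : i ∈ J
    · obtain ⟨S, h1, h2, h3, h4, h5, h6⟩ := hCERT V G N bad C hG hC i.1 i.2 (hII i (hJI hi))
      exact ⟨S, fun _ => ⟨h1, h2, h3, h4, h5, h6⟩⟩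
    · exact ⟨∅, fun h => absurd h hi⟩
  choose S hS using hcert
  -- the chosen index of a vertex
  have hk : ∀ w, ∃ k, w ∈ p.support → k ∈ J ∧ dc G C w k.2 ≤ 3 * Rn k.1 + 1 := by
    intro w
    by_cases hw : w ∈ p.support
    · obtain ⟨k, hk, h1, h2⟩ := hJ2 (f w) (hfI w hw)
      refine ⟨k, fun _ => ⟨hk, ?_⟩⟩
      have h3 := (hx w hw).2
      have h4 := dc_tri (C := C) hconn w (xx w) k.2
      simp only [hf] at h1 h2
      omega
    · exact ⟨f w, fun h => absurd h hw⟩
  choose kk hkk using hk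
  -- reachability in the index graph
  have hreach : ∀ (a b : V) (q : G.Walk a b), (∀ w ∈ q.support, w ∈ p.support) →
      (ig G C J).Reachable (kk a) (kk b) := by
    intro a b q
    induction q with
    | nil => intro _; exact SimpleGraph.Reachable.refl _
    | @cons a l b h q ih =>
      intro hsub
      have ha := hkk a (hsub a (by simp))
      have hl := hkk l (hsub l (by simp))
      have h1 := ih (fun w hw => hsub w (by simp [hw]))
      refine SimpleGraph.Reachable.trans ?_ h1
      by_cases he : kk a = kk l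
      · rw [he]
      · apply SimpleGraph.Adj.reachable
        refine ⟨he, ha.1, hl.1, ?_⟩
        have e1 := dc_tri (C := C) hconn (kk a).2 a (kk l).2
        have e2 := dc_tri (C := C) hconn a l (kk l).2
        have e3 := dc_adj (C := C) h
        have e4 := dc_comm (G := G) (C := C) (kk a).2 a
        have := ha.2
        have := hl.2
        omega
  obtain ⟨q0⟩ := hreach u v p (fun w hw => hw)
  set q := q0.bypass with hq
  have hqn : q.support.Nodup := q0.bypass_isPath.support_nodup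
  have hu := hkk u p.start_mem_support
  have hv := hkk v p.end_mem_support
  obtain ⟨hqJ, U, u1, u2, u3, u4, u5⟩ := along (C := C) hconn hC.fin (S := S)
    (fun i hi => hS i hi) q hu.1
  -- add the two ends
  have huU : (kk u).2 ∈ U := u4 _ q.start_mem_support (hS _ hu.1).mem
  obtain ⟨W, w1, w2, w3, w4, w5, w6⟩ := join hconn hC.fin (hC.fin u) u1 (cls_conn u) u2
    (cls_sat u) u3 (mem_cls_self u) huU hu.2
  have hvW : (kk v).2 ∈ W := w5 (u4 _ q.end_mem_support (hS _ hv.1).mem)
  obtain ⟨Z, z1, z2, z3, z4, z5, z6⟩ := join hconn hC.fin w1 (hC.fin v) w2 (cls_conn v) w3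
    (cls_sat v) hvW (mem_cls_self v) (r := 3 * Rn (kk v).1 + 1) (by rw [dc_comm]; exact hv.2)
  refine ⟨Z, dense_of hC z1 z2 z3 ?_, z4 (w4 (mem_cls_self u)), z5 (mem_cls_self v)⟩
  have c1 := cls_out_le (G := G) (C := C) u
  have c2 := cls_out_le (G := G) (C := C) v
  have hdis : ∀ i ∈ q.support, ∀ k ∈ q.support, i ≠ k → Disjoint (S i) (S k) := by
    intro i hi k hk hne
    have h1 := hJ1 i (hqJ i hi) k (hqJ k hk) hne
    rw [Set.disjoint_left]
    intro z hzi hzk
    apply h1
    have h2 := (hS i (hqJ i hi)).rad z hzi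
    have h3 := (hS k (hqJ k hk)).rad z hzk
    have h4 := dc_tri (C := C) hconn i.2 z k.2
    rw [dc_comm k.2 z] at h3
    unfold Rn
    omega
  have hm := mass_union (C := C) S Z z1 q.support hqn
    (fun i hi => ((u4 i hi).trans w5).trans z4) hdis
  have hl := list_bd (C := C) S q.support (fun i hi => hS i (hqJ i hi))
  have hm2 : hh * (q.support.map (fun j => (S j ∩ C).ncard)).sum ≤ hh * (Z ∩ C).ncard :=
    Nat.mul_le_mul_left _ hm
  omega

end Pool.Agent.FPPHE
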