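import Pool.Agent.Work.MP_04d5a3_full.FINAL
import Pool.Agent.Work.MP_04d5a3_full.SUM
import Pool.Agent.Work.MP_04d5a3_full.CHAIN
import Pool.Agent.Work.MP_04d5a3_full.BALL
import Pool.Agent.Work.MP_04d5a3_full.CORE
import Pool.Agent.Work.MP_04d5a3_full.NEU
import Pool.Agent.Work.MP_04d5a3_full.OPQ
import Pool.Agent.Work.MP_04d5a3_full.KER
import Pool.Agent.Work.MP_04d5a3_full.CERT
import Pool.Agent.Work.MP_04d5a3_full.ISLA
import Pool.Agent.Work.MP_04d5a3_full.ISLB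
import Pool.Agent.Work.MP_04d5a3_full.FLD
import Pool.Agent.Work.MP_04d5a3_full.VIT
import Pool.Agent.Work.MP_04d5a3_full.FIELD
import Pool.Agent.Work.MP_04d5a3_full.QC
import Pool.Agent.Work.MP_04d5a3_full.E3
import Pool.Agent.Work.MP_04d5a3_full.RHO
import Pool.Agent.Work.MP_04d5a3_full.COLDEF
import Pool.Agent.Work.MP_04d5a3_full.REACH
import Pool.Agent.Work.MP_04d5a3_full.COLB
import Pool.Agent.Work.MP_04d5a3_full.DATA
import Pool.Agent.Work.MP_04d5a3_full.DYN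
import Pool.Agent.Work.MP_04d5a3_full.TREE3
import Pool.Agent.Work.MP_04d5a3_full.PSP
import Pool.Agent.Work.MP_04d5a3_full.NOEX
import Pool.Agent.Work.MP_04d5a3_full.COIN
import Pool.Agent.Work.MP_04d5a3_full.EXI

/-! # FPPHE (MP_04d5a3_pr): the final theorem -/

namespace Pool.Agent.FPPHE

theorem final : FinalStatement :=
  have hISLA := stmt_ISLA stmt_CERT
  have hBALL := stmt_BALL stmt_SUM
  have hFLD := stmt_FLD stmt_KER stmt_SUM hBALL hISLA stmt_ISLB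
  have hFIELD := stmt_FIELD stmt_OPQ hISLA stmt_ISLB hFLD (stmt_VIT stmt_CERT)
  final_of stmt_CORE hFIELD stmt_COLDEF (stmt_REACH stmt_NEU hBALL) stmt_COLB
    (stmt_RHO stmt_CHAIN stmt_E3) (stmt_DATA stmt_SUM stmt_CHAIN) stmt_DYN stmt_QC stmt_TREE3
    stmt_PSP stmt_NOEX stmt_COIN stmt_EXI

end Pool.Agent.FPPHE
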