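import Pool.Agent.Work.MP_04d5a3_full.Interface

/-!
# small toolkit on the contracted distance (helper34)
-/

set_option autoImplicit false

namespace Pool.Agent.FPPHE.T34

open scoped ENNReal

variable {V : Type} {G : SimpleGraph V} {C : Set V}

theorem cost_append {u v w : V} (p : G.Walk u v) (q : G.Walk v w) :
    cost G C (p.append q) = cost G C p + cost G C q := by
  induction p with
  | nil => simp [cost]
  | cons h p ih =>
    rw [SimpleGraph.Walk.cons_append, cost, cost, ih]
    ring

theorem cost_reverse {u v : V} (p : G.Walk u v) : cost G C p.reverse = cost G C p := by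
  induction p with
  | nil => rfl
  | @cons u v w h p ih =>
    rw [SimpleGraph.Walk.reverse_cons, cost_append, ih, cost, cost, cost, add_zero, add_comm]
    congr 1
    by_cases h1 : u ∈ C <;> by_cases h2 : v ∈ C <;> simp [h1, h2]

theorem dc_le_cost {u v : V} (p : G.Walk u v) : dc G C u v ≤ cost G C p :=
  Nat.sInf_le ⟨p, rfl⟩

theorem exists_cost (hG : G.Connected) (u v : V) : ∃ p : G.Walk u v, cost G C p = dc G C u v := by
  obtain ⟨p⟩ := hG u v
  exact Nat.sInf_mem (s := {n | ∃ p : G.Walk u v, cost G C p = n}) ⟨_, p, rfl⟩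

theorem dc_comm (hG : G.Connected) (u v : V) : dc G C u v = dc G C v u := by
  apply le_antisymm
  · obtain ⟨p, hp⟩ := exists_cost (C := C) hG v u
    rw [← hp, ← cost_reverse]
    exact dc_le_cost _
  · obtain ⟨p, hp⟩ := exists_cost (C := C) hG u v
    rw [← hp, ← cost_reverse]
    exact dc_le_cost _

theorem dc_triangle (hG : G.Connected) (u v w : V) :
    dc G C u w ≤ dc G C u v + dc G C v w := by
  obtain ⟨p, hp⟩ := exists_cost (C := C) hG u v
  obtain ⟨q, hq⟩ := exists_cost (C := C) hG v w
  rw [← hp, ← hq, ← cost_append]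
  exact dc_le_cost _

theorem dc_self (u : V) : dc G C u u = 0 :=
  Nat.le_zero.1 (dc_le_cost (SimpleGraph.Walk.nil : G.Walk u u))

theorem dc_adj {u v : V} (h : G.Adj u v) : dc G C u v ≤ 1 := by
  refine (dc_le_cost (C := C) (SimpleGraph.Walk.cons h SimpleGraph.Walk.nil)).trans ?_
  rw [cost, cost, add_zero]
  split_ifs <;> omega

theorem cost_inside {u v : V} (p : G.Walk u v) (h : ∀ w ∈ p.support, w ∈ C) :
    cost G C p = 0 := by
  induction p with
  | nil => rfl
  | @cons u v w h' p ih =>
    rw [cost, ih fun x hx => h x (List.mem_cons_of_mem _ hx), if_pos]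
    exact ⟨h u (List.mem_cons_self ..), h v (List.mem_cons_of_mem _ p.start_mem_support)⟩

theorem dc_cls {u v : V} (h : u ∈ cls G C v) : dc G C v u = 0 := by
  rcases h with rfl | ⟨p, hp⟩
  · exact dc_self _
  · have := dc_le_cost (C := C) p
    rw [cost_inside p hp] at this
    exact Nat.le_zero.1 this

theorem self_mem_cls (v : V) : v ∈ cls G C v := Or.inl rfl

theorem cls_comm {u v : V} (h : u ∈ cls G C v) : v ∈ cls G C u := by
  rcases h with rfl | ⟨p, hp⟩
  · exact self_mem_cls _
  · exact Or.inr ⟨p.reverse, fun w hw => hp w (by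
      rwa [SimpleGraph.Walk.support_reverse, List.mem_reverse] at hw)⟩

theorem cls_trans {u v w : V} (h : u ∈ cls G C v) (h' : v ∈ cls G C w) : u ∈ cls G C w := by
  rcases h with rfl | ⟨p, hp⟩
  · exact h'
  · rcases h' with rfl | ⟨q, hq⟩
    · exact Or.inr ⟨p, hp⟩
    · refine Or.inr ⟨q.append p, fun x hx => ?_⟩
      rw [SimpleGraph.Walk.mem_support_append_iff] at hx
      rcases hx with hx | hx
      · exact hq x hx
      · exact hp x hx

theorem cls_eq {u v : V} (h : u ∈ cls G C v) : cls G C u = cls G C v := by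
  ext x
  exact ⟨fun hx => cls_trans hx h, fun hx => cls_trans hx (cls_comm h)⟩

theorem mem_of_cls {u v : V} (h : u ∈ cls G C v) (hv : v ∈ C) : u ∈ C := by
  rcases h with rfl | ⟨p, hp⟩
  · exact hv
  · exact hp u p.end_mem_support

theorem cls_of_not {u v : V} (h : u ∈ cls G C v) (hv : v ∉ C) : u = v := by
  rcases h with rfl | ⟨p, hp⟩
  · rfl
  · exact absurd (hp v p.start_mem_support) hv

theorem dc_cls_right (hG : G.Connected) {u v w : V} (h : u ∈ cls G C v) :
    dc G C w u = dc G C w v := by
  apply le_antisymm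
  · have := dc_triangle (C := C) hG w v u
    rw [dc_cls h] at this
    exact this
  · have := dc_triangle (C := C) hG w u v
    rw [dc_cls (cls_comm h)] at this
    exact this

theorem dc_mem_right {u v w : V} (p : G.Walk u v) (hw : w ∈ p.support) :
    dc G C w v ≤ cost G C p := by
  classical
  have h := SimpleGraph.Walk.take_spec p hw
  have h2 : cost G C p = cost G C (p.takeUntil w hw) + cost G C (p.dropUntil w hw) := by
    rw [← cost_append, h]
  rw [h2]
  exact (dc_le_cost (p.dropUntil w hw)).trans (Nat.le_add_left _ _)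

theorem dc_mem_left {u v w : V} (p : G.Walk u v) (hw : w ∈ p.support) :
    dc G C u w ≤ cost G C p := by
  classical
  have h := SimpleGraph.Walk.take_spec p hw
  have h2 : cost G C p = cost G C (p.takeUntil w hw) + cost G C (p.dropUntil w hw) := by
    rw [← cost_append, h]
  rw [h2]
  exact (dc_le_cost (p.takeUntil w hw)).trans (Nat.le_add_right _ _)

/-! ### scales -/

theorem al_succ (n : ℕ) : al (n + 1) = lamI * al n := by
  unfold al
  ring

theorem al_pos (n : ℕ) : 100000 ≤ al n := by
  unfold al Ca lamI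
  have : 1 ≤ 50000 ^ n := Nat.one_le_pow _ _ (by norm_num)
  omega

theorem al_mono {m n : ℕ} (h : m ≤ n) : al m ≤ al n :=
  Nat.mul_le_mul_left _ (Nat.pow_le_pow_right (by unfold lamI; norm_num) h)

theorem al_lt_step {m n : ℕ} (h : m < n) : 50000 * al m ≤ al n := by
  have h1 : al (m + 1) ≤ al n := al_mono h
  rw [al_succ] at h1
  exact h1

theorem lt_al (n : ℕ) : n + 1 ≤ al n := by
  induction n with
  | zero => exact (by norm_num : (0 : ℕ) + 1 ≤ 100000).trans (al_pos 0)
  | succ n ih =>
    have h1 : 50000 * al n ≤ al (n + 1) := al_lt_step (Nat.lt_succ_self n)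
    have h2 := al_pos n
    omega

theorem al_lt_two_pow (n : ℕ) : al n < 2 ^ al n := Nat.lt_two_pow_self

end Pool.Agent.FPPHE.T34
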