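import Pool.Agent.Work.MP_04d5a3_full.T34

/-!
# connected sets, hulls of walks, masses (helper34)
-/

set_option autoImplicit false

namespace Pool.Agent.FPPHE.T34

open scoped ENNReal

variable {V : Type} {G : SimpleGraph V} {C : Set V}

/-! ### connected sets -/

theorem walk_of_conn {S : Set V} (h : (G.induce S).Connected) {u v : V} (hu : u ∈ S) (hv : v ∈ S) :
    ∃ p : G.Walk u v, p.IsPath ∧ ∀ w ∈ p.support, w ∈ S := by
  classical
  obtain ⟨p⟩ := h ⟨u, hu⟩ ⟨v, hv⟩
  let q := p.map (SimpleGraph.Embedding.induce (G := G) S).toHom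
  have hq : ∀ w ∈ q.support, w ∈ S := by
    intro w hw
    rw [SimpleGraph.Walk.support_map, List.mem_map] at hw
    obtain ⟨x, _, rfl⟩ := hw
    exact x.2
  refine ⟨q.bypass, q.bypass_isPath, fun w hw => hq w (q.support_bypass_subset hw)⟩

theorem conn_of_walks {S : Set V} {u : V} (hu : u ∈ S)
    (h : ∀ v ∈ S, ∃ p : G.Walk u v, ∀ w ∈ p.support, w ∈ S) : (G.induce S).Connected := by
  apply SimpleGraph.induce_connected_of_patches u hu
  intro v hv
  obtain ⟨p, hp⟩ := h v hv
  refine ⟨{w | w ∈ p.support}, fun w hw => hp w hw, p.start_mem_support, p.end_mem_support, ?_⟩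
  exact p.connected_induce_support _ _

/-! ### vertices outside `C` on a walk -/

theorem outs_cons (v : V) (L : List V) :
    outs C (v :: L) = (open Classical in if v ∈ C then 0 else 1) + outs C L := by
  classical
  unfold outs
  by_cases h : v ∈ C
  · simp [h]
  · simp [h, add_comm]

theorem outs_nil : outs C ([] : List V) = 0 := rfl

theorem cost_cons {u v w : V} (h : G.Adj u v) (p : G.Walk v w) :
    cost G C (SimpleGraph.Walk.cons h p) =
      (open Classical in if u ∈ C ∧ v ∈ C then 0 else 1) + cost G C p := rfl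

theorem cost_le_outs {u v : V} (p : G.Walk u v) :
    cost G C p + (open Classical in if u ∈ C then 0 else 1) ≤ 2 * outs C p.support := by
  classical
  induction p with
  | nil => rw [SimpleGraph.Walk.support_nil, outs_cons, outs_nil]; simp only [cost]; split_ifs <;> omega
  | @cons u v w h p ih =>
    rw [cost_cons, SimpleGraph.Walk.support_cons, outs_cons]
    by_cases h1 : u ∈ C <;> by_cases h2 : v ∈ C <;> simp [h1, h2] at ih ⊢ <;> omega

theorem outs_tail_le {u v : V} (p : G.Walk u v) : outs C p.support.tail ≤ cost G C p := by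
  classical
  induction p with
  | nil => simp [outs]
  | @cons u v w h p ih =>
    rw [cost_cons, SimpleGraph.Walk.support_cons, List.tail_cons]
    have h3 : p.support = v :: p.support.tail := (SimpleGraph.Walk.cons_tail_support p).symm
    rw [h3, outs_cons]
    by_cases h1 : u ∈ C <;> by_cases h2 : v ∈ C <;> simp [h1, h2] <;> omega

theorem outs_le {u v : V} (p : G.Walk u v) : outs C p.support ≤ cost G C p + 1 := by
  classical
  have h3 : p.support = u :: p.support.tail := (SimpleGraph.Walk.cons_tail_support p).symm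
  have := outs_tail_le (C := C) p
  rw [h3, outs_cons]
  split_ifs <;> omega

theorem ncard_outs (L : List V) : {w | w ∈ L ∧ w ∉ C}.ncard ≤ outs C L := by
  classical
  have h : {w | w ∈ L ∧ w ∉ C} = ((L.filter (fun v => decide (v ∉ C))).toFinset : Set V) := by
    ext w
    simp
  rw [h, Set.ncard_coe_finset]
  exact List.toFinset_card_le _

/-- a path inside `S` costs at most twice the number of vertices of `S` outside `C` -/
theorem dc_le_of_conn {S : Set V} (hS : S.Finite) (h : (G.induce S).Connected) {u v : V}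
    (hu : u ∈ S) (hv : v ∈ S) : dc G C u v ≤ 2 * (S \ C).ncard := by
  classical
  obtain ⟨p, hp, hpS⟩ := walk_of_conn h hu hv
  have h1 := cost_le_outs (C := C) p
  have h2 : outs C p.support ≤ (S \ C).ncard := by
    have hnd : (p.support.filter (fun v => decide (v ∉ C))).Nodup := hp.support_nodup.filter _
    have h3 : outs C p.support = (p.support.filter (fun v => decide (v ∉ C))).toFinset.card := by
      rw [List.toFinset_card_of_nodup hnd]
      unfold outs
      congr
    rw [h3, ← Set.ncard_coe_finset]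
    apply Set.ncard_le_ncard _ (hS.subset Set.diff_subset)
    intro w hw
    simp only [List.coe_toFinset, List.mem_filter, decide_eq_true_eq, Set.mem_ofPred_eq] at hw
    exact ⟨hpS w hw.1, hw.2⟩
  have h4 := dc_le_cost (C := C) p
  omega

/-! ### saturated hull of a walk -/

/-- saturated hull of the support -/
def hull (G : SimpleGraph V) (C : Set V) {u v : V} (p : G.Walk u v) : Set V :=
  {x | ∃ w ∈ p.support, x ∈ cls G C w}

theorem hull_finite (hf : ∀ v, (cls G C v).Finite) {u v : V} (p : G.Walk u v) :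
    (hull G C p).Finite := by
  have : hull G C p = ⋃ w ∈ {w | w ∈ p.support}, cls G C w := by
    ext x
    simp [hull]
  rw [this]
  exact (List.finite_toSet p.support).biUnion fun w _ => hf w

theorem mem_hull {u v w : V} (p : G.Walk u v) (hw : w ∈ p.support) : w ∈ hull G C p :=
  ⟨w, hw, self_mem_cls w⟩

theorem hull_sat {u v : V} (p : G.Walk u v) : Sat G C (hull G C p) := by
  rintro x ⟨w, hw, hx⟩ y hy
  exact ⟨w, hw, cls_trans hy hx⟩

/-- a class is connected by walks inside it -/
theorem cls_walk {u v : V} (h : u ∈ cls G C v) :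
    ∃ p : G.Walk v u, ∀ w ∈ p.support, w ∈ cls G C v := by
  classical
  rcases h with rfl | ⟨p, hp⟩
  · exact ⟨SimpleGraph.Walk.nil, fun w hw => by
      rw [SimpleGraph.Walk.support_nil, List.mem_singleton] at hw
      exact hw ▸ self_mem_cls _⟩
  · refine ⟨p, fun w hw => Or.inr ⟨p.takeUntil w hw, fun x hx => hp x ?_⟩⟩
    exact p.support_takeUntil_subset hw hx

theorem hull_walk {u v x : V} (p : G.Walk u v) (hx : x ∈ hull G C p) :
    ∃ q : G.Walk u x, ∀ w ∈ q.support, w ∈ hull G C p := by
  classical
  obtain ⟨w, hw, hx⟩ := hx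
  obtain ⟨q, hq⟩ := cls_walk hx
  refine ⟨(p.takeUntil w hw).append q, fun y hy => ?_⟩
  rw [SimpleGraph.Walk.mem_support_append_iff] at hy
  rcases hy with hy | hy
  · exact mem_hull p (p.support_takeUntil_subset hw hy)
  · exact ⟨w, hw, hq y hy⟩

theorem hull_conn {u v : V} (p : G.Walk u v) : (G.induce (hull G C p)).Connected :=
  conn_of_walks (mem_hull p p.start_mem_support) fun _ hx => hull_walk p hx

theorem hull_outs {u v : V} (p : G.Walk u v) :
    (hull G C p \ C).ncard ≤ cost G C p + 1 := by
  have h1 : hull G C p \ C ⊆ {w | w ∈ p.support ∧ w ∉ C} := by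
    rintro x ⟨⟨w, hw, hx⟩, hxC⟩
    have hwC : w ∉ C := fun h => hxC (mem_of_cls hx h)
    rw [cls_of_not hx hwC]
    exact ⟨hw, hwC⟩
  have hfin : {w | w ∈ p.support ∧ w ∉ C}.Finite :=
    (List.finite_toSet p.support).subset fun w hw => hw.1
  exact (Set.ncard_le_ncard h1 hfin).trans ((ncard_outs _).trans (outs_le p))

theorem hull_dc (hG : G.Connected) {u v x : V} (p : G.Walk u v) (hx : x ∈ hull G C p) :
    dc G C u x ≤ cost G C p := by
  obtain ⟨w, hw, hx⟩ := hx
  rw [dc_cls_right hG hx]
  exact dc_mem_left p hw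

theorem Sat.union {S T : Set V} (hS : Sat G C S) (hT : Sat G C T) : Sat G C (S ∪ T) := by
  rintro v (hv | hv)
  · exact (hS v hv).trans Set.subset_union_left
  · exact (hT v hv).trans Set.subset_union_right

/-! ### masses -/

theorem mass_le {N : ℕ} {bad : Set V} (hC : CoreSys G N bad C) {S : Set V} (hf : S.Finite)
    (hs : Sat G C S) : (S ∩ C).ncard ≤ C1 * (S ∩ bad).ncard := by
  classical
  have hfT : (S ∩ C).Finite := hf.inter_of_left C
  have hfB : (S ∩ bad).Finite := hf.inter_of_left bad
  set T := hfT.toFinset with hT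
  set TB := hfB.toFinset with hTB
  rw [Set.ncard_eq_toFinset_card _ hfT, Set.ncard_eq_toFinset_card _ hfB, ← hT, ← hTB]
  have h1 : ∀ x ∈ TB, cls G C x ∈ T.image (cls G C) := by
    intro x hx
    rw [hTB, Set.Finite.mem_toFinset] at hx
    rw [Finset.mem_image]
    exact ⟨x, by rw [hT, Set.Finite.mem_toFinset]; exact ⟨hx.1, hC.sub hx.2⟩, rfl⟩
  rw [Finset.card_eq_sum_card_image (cls G C) T, Finset.card_eq_sum_card_fiberwise h1,
    Finset.mul_sum]
  refine Finset.sum_le_sum fun K hK => ?_
  obtain ⟨u, hu, rfl⟩ := Finset.mem_image.1 hK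
  rw [hT, Set.Finite.mem_toFinset] at hu
  have h2 : ((T.filter fun a => cls G C a = cls G C u : Finset V) : Set V) = cls G C u := by
    ext x
    simp only [Finset.coe_filter, Set.mem_ofPred_eq, hT, Set.Finite.mem_toFinset]
    constructor
    · rintro ⟨_, h⟩
      rw [← h]
      exact self_mem_cls x
    · intro h
      exact ⟨⟨hs u hu.1 h, mem_of_cls h hu.2⟩, cls_eq h⟩
  have h3 : ((TB.filter fun a => cls G C a = cls G C u : Finset V) : Set V) =
      cls G C u ∩ bad := by
    ext x
    simp only [Finset.coe_filter, Set.mem_ofPred_eq, hTB, Set.Finite.mem_toFinset]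
    constructor
    · rintro ⟨h, h'⟩
      refine ⟨?_, h.2⟩
      rw [← h']
      exact self_mem_cls x
    · rintro ⟨h, h'⟩
      exact ⟨⟨hs u hu.1 h, h'⟩, cls_eq h⟩
  rw [← Set.ncard_coe_finset, ← Set.ncard_coe_finset, h2, h3]
  exact hC.dens u hu.2

theorem ncard_split {S : Set V} (hf : S.Finite) : S.ncard = (S \ C).ncard + (S ∩ C).ncard := by
  rw [← Set.ncard_inter_add_ncard_diff_eq_ncard S C hf, add_comm]

/-- a finite connected saturated set with `good ≤ h mass` is dense -/
theorem dense_of {N : ℕ} {bad : Set V} (hC : CoreSys G N bad C) {S : Set V} (hf : S.Finite)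
    (hc : (G.induce S).Connected) (hs : Sat G C S)
    (h : (S \ C).ncard ≤ hh * (S ∩ C).ncard) : Dense G bad Mst S := by
  refine ⟨hf, hc, ?_⟩
  have h1 := mass_le hC hf hs
  have h2 := ncard_split (C := C) hf
  calc S.ncard ≤ (hh + 1) * (S ∩ C).ncard := by rw [h2]; linarith
    _ ≤ (hh + 1) * (C1 * (S ∩ bad).ncard) := Nat.mul_le_mul_left _ h1
    _ = Mst * (S ∩ bad).ncard := by rw [Mst]; ring

end Pool.Agent.FPPHE.T34
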