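import Pool.Agent.Work.MP_04d5a3_full.Interface

/-!
# FPPHE (MP_04d5a3_pr), block TREE1: basic facts on the tree
-/

namespace Pool.Agent.FPPHE

namespace TreeAux

open scoped ENNReal

variable {k : ℕ}

/-- the generator belonging to a letter -/
def gen (s : Fin k × Bool) : FreeGroup (Fin k) := FreeGroup.mk [s]

lemma toWord_gen (s : Fin k × Bool) : (gen s).toWord = [s] := by
  rw [gen, FreeGroup.toWord_mk, FreeGroup.reduce_singleton]

lemma gen_inj : Function.Injective (gen : Fin k × Bool → FreeGroup (Fin k)) := by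
  intro s t h
  have := congrArg FreeGroup.toWord h
  rw [toWord_gen, toWord_gen] at this
  simpa using this

lemma gen_ne_one (s : Fin k × Bool) : gen s ≠ 1 := by
  intro h
  have := congrArg FreeGroup.toWord h
  rw [toWord_gen, FreeGroup.toWord_one] at this
  simp at this

lemma gen_true (i : Fin k) : gen (i, true) = FreeGroup.of i := rfl

lemma gen_false (i : Fin k) : gen (i, false) = (FreeGroup.of i)⁻¹ := by
  rw [gen, FreeGroup.of, FreeGroup.inv_mk]
  rfl

lemma adj_iff (a c : FreeGroup (Fin k)) : (treeG k).Adj a c ↔ ∃ s, c = a * gen s := by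
  constructor
  · rintro ⟨_, i, h | h⟩
    · exact ⟨(i, true), by rw [gen_true, h]⟩
    · exact ⟨(i, false), by rw [gen_false, h]; group⟩
  · rintro ⟨⟨i, b⟩, h⟩
    refine ⟨?_, i, ?_⟩
    · rintro rfl
      exact gen_ne_one (i, b) (by simpa using h.symm)
    · cases b
      · right
        rw [gen_false] at h
        rw [h]; group
      · left
        rw [gen_true] at h
        exact h

lemma nbhd_eq (a : FreeGroup (Fin k)) :
    (treeG k).neighborSet a = Set.range (fun s : Fin k × Bool => a * gen s) := by
  ext c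
  rw [SimpleGraph.mem_neighborSet, adj_iff]
  constructor
  · rintro ⟨s, h⟩; exact ⟨s, h.symm⟩
  · rintro ⟨s, h⟩; exact ⟨s, h.symm⟩

lemma mul_gen_inj (a : FreeGroup (Fin k)) :
    Function.Injective (fun s : Fin k × Bool => a * gen s) := by
  intro s t h
  exact gen_inj (mul_left_cancel h)

lemma nbhd_fin (a : FreeGroup (Fin k)) : ((treeG k).neighborSet a).Finite := by
  rw [nbhd_eq]; exact Set.finite_range _

lemma nbhd_card (a : FreeGroup (Fin k)) : ((treeG k).neighborSet a).ncard = 2 * k := by
  rw [nbhd_eq, ← Set.image_univ, Set.ncard_image_of_injective _ (mul_gen_inj a), Set.ncard_univ,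
    Nat.card_eq_fintype_card]
  simp [mul_comm]

lemma mk_snoc (L : List (Fin k × Bool)) (s : Fin k × Bool) :
    FreeGroup.mk (L ++ [s]) = FreeGroup.mk L * gen s := by
  rw [gen, FreeGroup.mul_mk]

lemma adj_mk (L : List (Fin k × Bool)) (s : Fin k × Bool) :
    (treeG k).Adj (FreeGroup.mk L) (FreeGroup.mk (L ++ [s])) :=
  (adj_iff _ _).2 ⟨s, mk_snoc L s⟩

lemma reach (L : List (Fin k × Bool)) : (treeG k).Reachable 1 (FreeGroup.mk L) := by
  induction L using List.reverseRecOn with
  | nil => exact SimpleGraph.Reachable.refl _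
  | append_singleton L s ih => exact ih.trans (adj_mk L s).reachable

lemma conn (k : ℕ) : (treeG k).Connected := by
  have h : ∀ a : FreeGroup (Fin k), (treeG k).Reachable 1 a := by
    intro a
    have := reach a.toWord
    rwa [FreeGroup.mk_toWord] at this
  exact ⟨fun a c => (h a).symm.trans (h c)⟩

lemma dist_mk_le (L : List (Fin k × Bool)) : (treeG k).dist 1 (FreeGroup.mk L) ≤ L.length := by
  induction L using List.reverseRecOn with
  | nil =>
    have : (FreeGroup.mk [] : FreeGroup (Fin k)) = 1 := rfl
    rw [this, SimpleGraph.dist_self]; simp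
  | append_singleton L s ih =>
    have h1 := (conn k).dist_triangle (u := 1) (v := FreeGroup.mk L) (w := FreeGroup.mk (L ++ [s]))
    have h2 : (treeG k).dist (FreeGroup.mk L) (FreeGroup.mk (L ++ [s])) = 1 :=
      SimpleGraph.dist_eq_one_iff_adj.2 (adj_mk L s)
    rw [List.length_append, List.length_singleton]
    omega

/-- balls are finite -/
lemma ball_fin {V : Type} (G : SimpleGraph V) (hc : G.Connected)
    (hf : ∀ v, (G.neighborSet v).Finite) (o : V) (n : ℕ) : {a | G.dist o a ≤ n}.Finite := by
  induction n with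
  | zero =>
    refine (Set.finite_singleton o).subset ?_
    intro a ha
    have : G.dist o a = 0 := Nat.le_zero.1 ha
    exact ((hc.dist_eq_zero_iff).1 this).symm
  | succ n ih =>
    have h : {a | G.dist o a ≤ n + 1} ⊆
        {a | G.dist o a ≤ n} ∪ ⋃ b ∈ {a | G.dist o a ≤ n}, G.neighborSet b := by
      intro a ha
      obtain ⟨p, hp⟩ := hc.exists_walk_length_eq_dist o a
      by_cases h0 : G.dist o a ≤ n
      · exact Or.inl h0
      right
      have hlen : p.length = n + 1 := by
        have : G.dist o a ≤ n + 1 := ha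
        omega
      have hlt : n < p.length := by omega
      have hadj : G.Adj (p.getVert n) (p.getVert (n + 1)) := p.adj_getVert_succ hlt
      have hend : p.getVert (n + 1) = a := by rw [← hlen]; exact p.getVert_length
      rw [hend] at hadj
      simp only [Set.mem_iUnion]
      refine ⟨p.getVert n, ?_, hadj⟩
      show G.dist o (p.getVert n) ≤ n
      have := SimpleGraph.dist_le (p.take n)
      rw [SimpleGraph.Walk.take_length] at this
      exact this.trans (min_le_left _ _)
    exact (ih.union (ih.biUnion fun b _ => hf b)).subset h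

/-- positive words -/
def pos (k n : ℕ) (f : Fin n → Fin k) : FreeGroup (Fin k) :=
  FreeGroup.mk (List.ofFn fun j => (f j, true))

lemma toWord_pos (n : ℕ) (f : Fin n → Fin k) :
    (pos k n f).toWord = List.ofFn fun j => (f j, true) := by
  rw [pos, FreeGroup.toWord_mk]
  apply FreeGroup.IsReduced.reduce_eq
  unfold FreeGroup.IsReduced
  apply List.Pairwise.isChain
  rw [List.pairwise_iff_forall_sublist]
  intro a b hab _
  have ha : a ∈ List.ofFn fun j => (f j, true) := hab.subset (by simp)
  have hb : b ∈ List.ofFn fun j => (f j, true) := hab.subset (by simp)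
  rw [List.mem_ofFn] at ha hb
  obtain ⟨i, rfl⟩ := ha
  obtain ⟨j, rfl⟩ := hb
  rfl

lemma pos_inj (k n : ℕ) : Function.Injective (pos k n) := by
  intro f g h
  have := congrArg FreeGroup.toWord h
  rw [toWord_pos, toWord_pos] at this
  have h2 := List.ofFn_injective this
  funext j
  exact congrArg Prod.fst (congrFun h2 j)

lemma ball_card (k n : ℕ) : k ^ n ≤ {a | (treeG k).dist 1 a ≤ n}.ncard := by
  have h1 : (Set.range (pos k n)).ncard = k ^ n := by
    rw [← Set.image_univ, Set.ncard_image_of_injective _ (pos_inj k n), Set.ncard_univ,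
      Nat.card_eq_fintype_card]
    simp
  rw [← h1]
  apply Set.ncard_le_ncard
  · rintro _ ⟨f, rfl⟩
    have := dist_mk_le (k := k) (List.ofFn fun j => (f j, true))
    rw [List.length_ofFn] at this
    exact this
  · exact ball_fin _ (conn k) nbhd_fin _ _

lemma trans (k : ℕ) : VertexTransitive (treeG k) := by
  intro u v
  refine ⟨⟨Equiv.mulLeft (v * u⁻¹), ?_⟩, by simp⟩
  intro a c
  simp only [Equiv.coe_mulLeft, adj_iff]
  constructor
  · rintro ⟨s, h⟩
    exact ⟨s, mul_left_cancel (a := v * u⁻¹) (h.trans (mul_assoc _ _ _))⟩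
  · rintro ⟨s, h⟩
    exact ⟨s, by rw [h]; exact (mul_assoc _ _ _).symm⟩

/-- parity homomorphism -/
noncomputable def phi (k : ℕ) : FreeGroup (Fin k) →* Multiplicative (ZMod 2) :=
  FreeGroup.lift fun _ => Multiplicative.ofAdd 1

lemma phi_gen (s : Fin k × Bool) : Multiplicative.toAdd (phi k (gen s)) = 1 := by
  obtain ⟨i, b⟩ := s
  cases b
  · rw [gen_false, map_inv, phi, FreeGroup.lift_apply_of]
    decide
  · rw [gen_true, phi, FreeGroup.lift_apply_of]
    rfl

lemma parity (k : ℕ) : ∃ par : FreeGroup (Fin k) → Bool, ∀ a c, (treeG k).Adj a c →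
    par a ≠ par c := by
  classical
  refine ⟨fun a => decide (Multiplicative.toAdd (phi k a) = 0), ?_⟩
  intro a c h
  obtain ⟨s, rfl⟩ := (adj_iff a c).1 h
  have h1 : Multiplicative.toAdd (phi k (a * gen s)) = Multiplicative.toAdd (phi k a) + 1 := by
    rw [map_mul, toAdd_mul, phi_gen]
  show decide (Multiplicative.toAdd (phi k a) = 0) ≠
    decide (Multiplicative.toAdd (phi k (a * gen s)) = 0)
  rw [h1]
  generalize Multiplicative.toAdd (phi k a) = x
  have : ∀ x : ZMod 2, (x = 0) ≠ (x + 1 = 0) := by decide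
  intro h3
  apply this x
  rw [decide_eq_decide] at h3
  exact propext h3

end TreeAux

theorem stmt_TREE1 : Stmt_TREE1 := by
  intro k _
  exact ⟨TreeAux.conn k, TreeAux.nbhd_card, TreeAux.trans k, TreeAux.parity k,
    fun n => ⟨TreeAux.ball_fin _ (TreeAux.conn k) TreeAux.nbhd_fin _ _, TreeAux.ball_card k n⟩⟩

end Pool.Agent.FPPHE
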