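import Pool.Agent.Work.MP_04d5a3_full.TREE1

/-!
# FPPHE (MP_04d5a3_pr), block TREE2: the `l²` bound on the tree
-/

namespace Pool.Agent.FPPHE

namespace TreeAux

open scoped ENNReal

variable {k : ℕ}

lemma add_sq_le (a b : ℝ≥0∞) : (a + b) ^ 2 ≤ 2 * a ^ 2 + 2 * b ^ 2 := by
  by_cases ha : a = ⊤
  · rw [ha]; simp
  by_cases hb : b = ⊤
  · rw [hb]; simp
  lift a to NNReal using ha
  lift b to NNReal using hb
  norm_cast
  have := _root_.add_sq_le (a := a) (b := b)
  calc (a + b) ^ 2 ≤ 2 * (a ^ 2 + b ^ 2) := this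
    _ = 2 * a ^ 2 + 2 * b ^ 2 := by ring

lemma sum_sq_le {ι : Type*} (s : Finset ι) (f : ι → ℝ≥0∞) :
    (∑ i ∈ s, f i) ^ 2 ≤ (s.card : ℝ≥0∞) * ∑ i ∈ s, f i ^ 2 := by
  have h := ENNReal.rpow_sum_le_const_mul_sum_rpow s f (p := 2) (by norm_num)
  have e : (2 : ℝ) - 1 = 1 := by norm_num
  rw [e, ENNReal.rpow_one] at h
  have h2 : ∀ x : ℝ≥0∞, x ^ (2 : ℝ) = x ^ 2 := fun x => by
    rw [← ENNReal.rpow_natCast]; norm_num
  simpa [h2] using h

/-- the sum over the neighbours is a sum over letters -/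
lemma opA_eq (f : FreeGroup (Fin k) → ℝ≥0∞) (a : FreeGroup (Fin k)) :
    opA (treeG k) f a = ∑ s : Fin k × Bool, f (a * gen s) := by
  unfold opA
  have e : Set.range (fun s : Fin k × Bool => a * gen s) = (treeG k).neighborSet a :=
    (nbhd_eq a).symm
  rw [← tsum_fintype (L := .unconditional _)]
  rw [← e]
  exact tsum_range f (mul_gen_inj a)

/-- going up: the letter is appended to the reduced word -/
def up (a : FreeGroup (Fin k)) (s : Fin k × Bool) : Prop := (a * gen s).toWord = a.toWord ++ [s]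

lemma up_or (a : FreeGroup (Fin k)) (s : Fin k × Bool) :
    up a s ∨ ∃ L, a.toWord = L ++ [(s.1, !s.2)] := by
  classical
  by_cases h : FreeGroup.IsReduced (a.toWord ++ [s])
  · left
    unfold up
    rw [FreeGroup.toWord_mul, toWord_gen]
    exact h.reduce_eq
  · right
    have hr : FreeGroup.IsReduced a.toWord := FreeGroup.isReduced_toWord
    rcases List.eq_nil_or_concat a.toWord with h0 | ⟨L, t, h0⟩
    · rw [h0] at h
      exact absurd FreeGroup.IsReduced.singleton h
    · rw [List.concat_eq_append] at h0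
      refine ⟨L, ?_⟩
      rw [h0]
      congr 1
      rw [h0] at h hr
      have h1 : ¬ (t.1 = s.1 → t.2 = s.2) := by
        intro h2
        apply h
        unfold FreeGroup.IsReduced at hr ⊢
        rw [List.append_assoc]
        rw [List.isChain_append] at hr ⊢
        refine ⟨hr.1, ?_, ?_⟩
        · simpa using h2
        · intro x hx y hy
          apply hr.2.2 x hx y
          simpa using hy
      push Not at h1
      obtain ⟨h2, h3⟩ := h1
      have : t = (s.1, !s.2) := by
        apply Prod.ext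
        · exact h2
        · show t.2 = !s.2
          revert h3
          cases t.2 <;> cases s.2 <;> simp
      rw [this]

lemma down_unique (a : FreeGroup (Fin k)) {s t : Fin k × Bool} (hs : ¬ up a s) (ht : ¬ up a t) :
    s = t := by
  obtain ⟨L, hL⟩ := (up_or a s).resolve_left hs
  obtain ⟨L', hL'⟩ := (up_or a t).resolve_left ht
  rw [hL] at hL'
  have := (List.append_inj' hL' (by simp)).2
  simp only [List.cons.injEq, and_true, Prod.mk.injEq, Bool.not_eq_eq_eq_not, Bool.not_not] at this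
  exact Prod.ext this.1 this.2

lemma opA_sq_le (f : FreeGroup (Fin k) → ℝ≥0∞) (a : FreeGroup (Fin k)) :
    (opA (treeG k) f a) ^ 2 ≤
      2 * ((2 * k : ℝ≥0∞) * ∑ s : Fin k × Bool, (open Classical in if up a s then f (a * gen s) ^ 2 else 0)) +
      2 * ∑ s : Fin k × Bool, f (a * gen s) ^ 2 := by
  classical
  rw [opA_eq]
  have h1 : ∑ s : Fin k × Bool, f (a * gen s) =
      ∑ s ∈ Finset.univ.filter (up a), f (a * gen s) +
      ∑ s ∈ Finset.univ.filter (fun s => ¬ up a s), f (a * gen s) :=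
    (Finset.sum_filter_add_sum_filter_not _ _ _).symm
  rw [h1]
  refine (add_sq_le _ _).trans (add_le_add ?_ ?_)
  · refine mul_le_mul_right ?_ _
    refine (sum_sq_le _ _).trans ?_
    rw [Finset.sum_filter]
    refine mul_le_mul_left ?_ _
    have : (Finset.univ.filter (up a)).card ≤ 2 * k := by
      refine (Finset.card_le_univ _).trans ?_
      simp [mul_comm]
    exact_mod_cast this
  · refine mul_le_mul_right ?_ _
    have hc : (Finset.univ.filter (fun s => ¬ up a s)).card ≤ 1 := by
      rw [Finset.card_le_one]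
      intro s hs t ht
      exact down_unique a (Finset.mem_filter.1 hs).2 (Finset.mem_filter.1 ht).2
    refine (sum_sq_le _ _).trans ?_
    have hc' : ((Finset.univ.filter (fun s => ¬ up a s)).card : ℝ≥0∞) ≤ 1 := by exact_mod_cast hc
    calc ((Finset.univ.filter (fun s => ¬ up a s)).card : ℝ≥0∞) *
          ∑ s ∈ Finset.univ.filter (fun s => ¬ up a s), f (a * gen s) ^ 2
        ≤ 1 * ∑ s : Fin k × Bool, f (a * gen s) ^ 2 :=
          mul_le_mul' hc' (Finset.sum_le_sum_of_subset (Finset.filter_subset _ _))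
      _ = _ := one_mul _

lemma tsum_down (f : FreeGroup (Fin k) → ℝ≥0∞) :
    ∑' a, ∑ s : Fin k × Bool, f (a * gen s) ^ 2 = (2 * k : ℝ≥0∞) * N2 f := by
  rw [Summable.tsum_finsetSum (fun s _ => ENNReal.summable)]
  have : ∀ s : Fin k × Bool, ∑' a, f (a * gen s) ^ 2 = N2 f := by
    intro s
    exact (Equiv.mulRight (gen s)).tsum_eq (fun a => f a ^ 2)
  rw [Finset.sum_congr rfl fun s _ => this s, Finset.sum_const, Finset.card_univ]
  simp [mul_comm]

lemma tsum_up (f : FreeGroup (Fin k) → ℝ≥0∞) :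
    ∑' a, ∑ s : Fin k × Bool, (open Classical in if up a s then f (a * gen s) ^ 2 else 0) ≤ N2 f := by
  classical
  have h1 : ∀ a, ∑ s : Fin k × Bool, (if up a s then f (a * gen s) ^ 2 else 0) =
      ∑' s : Fin k × Bool, (if up a s then f (a * gen s) ^ 2 else 0) :=
    fun a => (tsum_fintype _).symm
  have h2 : ∑' a, ∑ s : Fin k × Bool, (if up a s then f (a * gen s) ^ 2 else 0) =
      ∑' p : FreeGroup (Fin k) × (Fin k × Bool),
        (if up p.1 p.2 then f (p.1 * gen p.2) ^ 2 else 0) := by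
    rw [ENNReal.tsum_prod' (f := fun p : FreeGroup (Fin k) × (Fin k × Bool) =>
      (if up p.1 p.2 then f (p.1 * gen p.2) ^ 2 else 0))]
    exact tsum_congr fun a => h1 a
  rw [h2]
  have h3 : ∑' p : FreeGroup (Fin k) × (Fin k × Bool),
        (if up p.1 p.2 then f (p.1 * gen p.2) ^ 2 else 0) =
      ∑' p : {p : FreeGroup (Fin k) × (Fin k × Bool) | up p.1 p.2},
        f (p.1.1 * gen p.1.2) ^ 2 := by
    rw [tsum_subtype {p : FreeGroup (Fin k) × (Fin k × Bool) | up p.1 p.2}
      (fun p => f (p.1 * gen p.2) ^ 2)]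
    exact tsum_congr fun p => by
      simp only [Set.indicator_apply, Set.mem_ofPred_eq]
  rw [h3]
  have hinj : Function.Injective
      (fun p : {p : FreeGroup (Fin k) × (Fin k × Bool) | up p.1 p.2} => p.1.1 * gen p.1.2) := by
    rintro ⟨⟨a, s⟩, ha⟩ ⟨⟨c, t⟩, hc⟩ h
    have ha' : (a * gen s).toWord = a.toWord ++ [s] := ha
    have hc' : (c * gen t).toWord = c.toWord ++ [t] := hc
    have h' : a * gen s = c * gen t := h
    rw [h', hc'] at ha'
    have h4 := List.append_inj' ha' (by simp)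
    have h5 : a = c := FreeGroup.toWord_injective h4.1.symm
    have h6 : s = t := by simpa using h4.2.symm
    subst h5; subst h6
    rfl
  exact ENNReal.tsum_comp_le_tsum_of_injective hinj (fun a => f a ^ 2)

end TreeAux

theorem stmt_TREE2 : Stmt_TREE2 := by
  intro k _ f
  calc N2 (opA (treeG k) f) ≤ ∑' a, (2 * ((2 * k : ENNReal) *
        ∑ s : Fin k × Bool, (open Classical in if TreeAux.up a s then f (a * TreeAux.gen s) ^ 2 else 0)) +
      2 * ∑ s : Fin k × Bool, f (a * TreeAux.gen s) ^ 2) :=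
        ENNReal.tsum_le_tsum fun a => TreeAux.opA_sq_le f a
    _ = 2 * ((2 * k : ENNReal) * ∑' a,
        ∑ s : Fin k × Bool, (open Classical in if TreeAux.up a s then f (a * TreeAux.gen s) ^ 2 else 0)) +
      2 * ∑' a, ∑ s : Fin k × Bool, f (a * TreeAux.gen s) ^ 2 := by
        rw [ENNReal.tsum_add, ENNReal.tsum_mul_left, ENNReal.tsum_mul_left, ENNReal.tsum_mul_left]
    _ ≤ 2 * ((2 * k : ENNReal) * N2 f) + 2 * ((2 * k : ENNReal) * N2 f) := by
        rw [TreeAux.tsum_down]
        gcongr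
        exact TreeAux.tsum_up f
    _ = 4 * (2 * k : ENNReal) * N2 f := by ring

end Pool.Agent.FPPHE
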